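import Pool.Agent.helper21.RL.Defs

/-! Module Enc: encoding of loose trees. -/

set_option autoImplicit false

open Finset

namespace Pool.Agent.helper21.RL

/-- `LooseTree k T X`: `T` is the edge set and `X` the vertex set of a `k`-loose tree -/
inductive LooseTree {W : Type} [DecidableEq W] (k : ℕ) : Finset (Finset W) → Finset W → Prop
  | single (e : Finset W) (he : e.card = k) : LooseTree k {e} e
  | add {T : Finset (Finset W)} {X : Finset W} (e : Finset W) (h : LooseTree k T X)
      (he : e.card = k) (hx : (e ∩ X).card = 1) : LooseTree k (insert e T) (X ∪ e)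

namespace Enc

variable {W : Type} [DecidableEq W]

lemma enum (w : W) (s : Finset W) : ∃ g : ℕ → W,
    Set.InjOn g ↑(Finset.range s.card) ∧ (Finset.range s.card).image g = s := by
  classical
  refine ⟨fun i => if h : i < s.card then (s.equivFin.symm ⟨i, h⟩ : W) else w, ?_, ?_⟩
  · intro a ha b hb hab
    simp only [Finset.coe_range, Set.mem_Iio] at ha hb
    simp only [ha, hb, dif_pos] at hab
    have := s.equivFin.symm.injective (Subtype.ext hab)
    simpa using this
  · ext x
    simp only [mem_image, mem_range]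
    constructor
    · rintro ⟨i, hi, rfl⟩
      simp [hi]
    · intro hx
      refine ⟨s.equivFin ⟨x, hx⟩, (s.equivFin ⟨x, hx⟩).2, ?_⟩
      simp

lemma mem_chs {K j x : ℕ} : x ∈ chs K j ↔ K * j + 1 ≤ x ∧ x ≤ K * (j + 1) := by
  simp only [chs, mem_image, mem_range]
  constructor
  · rintro ⟨i, hi, rfl⟩
    constructor
    · omega
    · rw [mul_add]; omega
  · rintro ⟨h1, h2⟩
    rw [mul_add] at h2
    exact ⟨x - (K * j + 1), by omega, by omega⟩

lemma mem_edg {K j x : ℕ} {par : ℕ → ℕ} : x ∈ edg K par j ↔
    x = par j ∨ (K * j + 1 ≤ x ∧ x ≤ K * (j + 1)) := by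
  rw [edg, mem_insert, mem_chs]

/-- a code of the tree `T` with vertex set `X` and root `r` -/
structure Code (K : ℕ) (T : Finset (Finset W)) (X : Finset W) (r : W) (m : ℕ) (par : ℕ → ℕ)
    (φ : ℕ → W) : Prop where
  le : ∀ j, par j ≤ K * j
  zero : ∀ j, m ≤ j → par j = 0
  inj : Set.InjOn φ ↑(Finset.range (K * m + 1))
  img : (Finset.range (K * m + 1)).image φ = X
  root : φ 0 = r
  teq : T = (Finset.range m).image (fun j => (edg K par j).image φ)

lemma edg_sub {K m j : ℕ} {par : ℕ → ℕ} (hle : ∀ j, par j ≤ K * j) (hj : j < m) :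
    edg K par j ⊆ Finset.range (K * m + 1) := by
  intro x hx
  rw [mem_edg] at hx
  have h1 : K * (j + 1) ≤ K * m := Nat.mul_le_mul_left _ hj
  have h2 : K * j ≤ K * (j + 1) := Nat.mul_le_mul_left _ (by omega)
  have h3 := hle j
  rw [Finset.mem_range]
  omega

lemma edg_inj {K i j : ℕ} (hK : 1 ≤ K) {par : ℕ → ℕ} (hle : ∀ j, par j ≤ K * j)
    (h : edg K par i = edg K par j) : i ≤ j := by
  by_contra hlt
  have hi : K * (i + 1) ∈ edg K par i := by
    rw [mem_edg]; right; rw [mul_add]; omega
  rw [h, mem_edg] at hi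
  have h1 : K * (j + 1) ≤ K * i := Nat.mul_le_mul_left _ (by omega)
  have h2 := hle j
  have h3 : K * j ≤ K * (j + 1) := Nat.mul_le_mul_left _ (by omega)
  rw [mul_add K i 1] at hi
  omega

theorem code_single {K : ℕ} {e : Finset W} (he : e.card = K + 1) {r : W}
    (hr : r ∈ e) : ∃ (m : ℕ) (par : ℕ → ℕ) (φ : ℕ → W), Code K {e} e r m par φ := by
  obtain ⟨g, hg, hgi⟩ := enum r (e.erase r)
  have hc : (e.erase r).card = K := by rw [Finset.card_erase_of_mem hr, he]; simp
  rw [hc] at hg hgi
  have himg : (Finset.range (K + 1)).image (fun i => if i = 0 then r else g (i - 1)) = e := by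
    ext w
    simp only [Finset.mem_image, Finset.mem_range]
    constructor
    · rintro ⟨i, hi, rfl⟩
      by_cases h0 : i = 0
      · rw [if_pos h0]; exact hr
      · rw [if_neg h0]
        have : g (i - 1) ∈ e.erase r := by
          rw [← hgi]; exact Finset.mem_image_of_mem _ (Finset.mem_range.2 (by omega))
        exact Finset.mem_of_mem_erase this
    · intro hw
      by_cases hwr : w = r
      · exact ⟨0, by omega, by rw [if_pos rfl, hwr]⟩
      · have : w ∈ e.erase r := Finset.mem_erase.2 ⟨hwr, hw⟩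
        rw [← hgi] at this
        obtain ⟨i, hi, rfl⟩ := Finset.mem_image.1 this
        rw [Finset.mem_range] at hi
        exact ⟨i + 1, by omega, by simp⟩
  refine ⟨1, fun _ => 0, fun i => if i = 0 then r else g (i - 1), ?_, ?_, ?_, ?_, ?_, ?_⟩
  · intro j; exact Nat.zero_le _
  · intro j _; rfl
  · intro a ha b hb hab
    simp only [mul_one, Finset.coe_range, Set.mem_Iio] at ha hb
    have hmem : ∀ i, i < K + 1 → i ≠ 0 → g (i - 1) ∈ e.erase r := by
      intro i hi hi0
      rw [← hgi]
      exact Finset.mem_image_of_mem _ (Finset.mem_range.2 (by omega))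
    by_cases ha0 : a = 0 <;> by_cases hb0 : b = 0
    · rw [ha0, hb0]
    · simp only [ha0, hb0, if_true, if_false] at hab
      exact absurd (hab ▸ hmem b hb hb0) (Finset.notMem_erase _ _)
    · simp only [ha0, hb0, if_true, if_false] at hab
      exact absurd (hab ▸ hmem a ha ha0) (Finset.notMem_erase _ _)
    · simp only [ha0, hb0, if_false] at hab
      have := hg (by simp; omega) (by simp; omega) hab
      omega
  · rw [mul_one]; exact himg
  · simp
  · have : edg K (fun _ => 0) 0 = Finset.range (K + 1) := by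
      ext x; rw [mem_edg, Finset.mem_range]; simp; omega
    simp only [Finset.range_one, Finset.image_singleton]
    rw [this, himg]

theorem code_add1 {K : ℕ} {T : Finset (Finset W)} {X : Finset W} {r : W} {m : ℕ} {par : ℕ → ℕ}
    {φ : ℕ → W} (hc : Code K T X r m par φ) {e : Finset W} (he : e.card = K + 1) {x : W}
    (hx : e ∩ X = {x}) :
    ∃ (m : ℕ) (par : ℕ → ℕ) (φ : ℕ → W), Code K (insert e T) (X ∪ e) r m par φ := by
  have hxe : x ∈ e ∧ x ∈ X := by
    have : x ∈ e ∩ X := by rw [hx]; simp
    simpa using this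
  obtain ⟨hxe, hxX⟩ := hxe
  obtain ⟨g, hg, hgi⟩ := enum r (e.erase x)
  have hcard : (e.erase x).card = K := by rw [Finset.card_erase_of_mem hxe, he]; simp
  rw [hcard] at hg hgi
  have hxX' := hxX
  rw [← hc.img] at hxX'
  obtain ⟨y, hy, hyx⟩ := Finset.mem_image.1 hxX'
  rw [Finset.mem_range] at hy
  set φ' : ℕ → W := fun i => if i < K * m + 1 then φ i else g (i - (K * m + 1)) with hφ'
  have hφ1 : ∀ i, i < K * m + 1 → φ' i = φ i := by
    intro i hi; simp only [hφ']; rw [if_pos hi]
  have hφ2 : ∀ i, φ' (K * m + 1 + i) = g i := by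
    intro i; simp only [hφ']; rw [if_neg (by omega)]; congr 1; omega
  have hXsub : ∀ i, i < K * m + 1 → φ i ∈ X := by
    intro i hi; rw [← hc.img]; exact Finset.mem_image_of_mem _ (Finset.mem_range.2 hi)
  have hgsub : ∀ i, i < K → g i ∈ e.erase x := by
    intro i hi; rw [← hgi]; exact Finset.mem_image_of_mem _ (Finset.mem_range.2 hi)
  have hdis : ∀ w, w ∈ e.erase x → w ∉ X := by
    intro w hw hwX
    rw [Finset.mem_erase] at hw
    have : w ∈ e ∩ X := Finset.mem_inter.2 ⟨hw.2, hwX⟩
    rw [hx, Finset.mem_singleton] at this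
    exact hw.1 this
  refine ⟨m + 1, fun j => if j = m then y else par j, φ', ?_, ?_, ?_, ?_, ?_, ?_⟩
  · intro j
    split_ifs with h
    · subst h; omega
    · exact hc.le j
  · intro j hj
    rw [if_neg (by omega)]
    exact hc.zero j (by omega)
  · intro a ha b hb hab
    simp only [Finset.coe_range, Set.mem_Iio, mul_add, mul_one] at ha hb
    rcases Nat.lt_or_ge a (K * m + 1) with ha1 | ha1 <;>
    rcases Nat.lt_or_ge b (K * m + 1) with hb1 | hb1
    · rw [hφ1 a ha1, hφ1 b hb1] at hab
      exact hc.inj (by simpa using ha1) (by simpa using hb1) hab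
    · obtain ⟨b', rfl⟩ := Nat.exists_eq_add_of_le hb1
      rw [hφ1 a ha1, hφ2] at hab
      exact absurd (hab ▸ hXsub a ha1) (hdis _ (hgsub b' (by omega)))
    · obtain ⟨a', rfl⟩ := Nat.exists_eq_add_of_le ha1
      rw [hφ1 b hb1, hφ2] at hab
      exact absurd (hab ▸ hXsub b hb1) (hdis _ (hgsub a' (by omega)))
    · obtain ⟨a', rfl⟩ := Nat.exists_eq_add_of_le ha1
      obtain ⟨b', rfl⟩ := Nat.exists_eq_add_of_le hb1
      rw [hφ2, hφ2] at hab
      rw [hg (by simp; omega) (by simp; omega) hab]
  · ext w
    simp only [Finset.mem_image, Finset.mem_range, Finset.mem_union, mul_add, mul_one]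
    constructor
    · rintro ⟨i, hi, rfl⟩
      rcases Nat.lt_or_ge i (K * m + 1) with h1 | h1
      · left; rw [hφ1 i h1]; exact hXsub i h1
      · obtain ⟨i', rfl⟩ := Nat.exists_eq_add_of_le h1
        right; rw [hφ2]; exact Finset.mem_of_mem_erase (hgsub i' (by omega))
    · intro hw
      by_cases hwX : w ∈ X
      · rw [← hc.img] at hwX
        obtain ⟨i, hi, rfl⟩ := Finset.mem_image.1 hwX
        rw [Finset.mem_range] at hi
        exact ⟨i, by omega, hφ1 i hi⟩
      · have hwe : w ∈ e := by tauto
        have : w ∈ e.erase x := by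
          rw [Finset.mem_erase]
          exact ⟨fun h => hwX (h ▸ hxX), hwe⟩
        rw [← hgi] at this
        obtain ⟨i, hi, rfl⟩ := Finset.mem_image.1 this
        rw [Finset.mem_range] at hi
        exact ⟨K * m + 1 + i, by omega, hφ2 i⟩
  · rw [hφ1 0 (by omega), hc.root]
  · have hlast : (edg K (fun j => if j = m then y else par j) m).image φ' = e := by
      rw [edg, Finset.image_insert, if_pos rfl, hφ1 y hy, hyx, chs, Finset.image_image]
      have : (φ' ∘ fun i => K * m + 1 + i) = g := by
        ext i; exact hφ2 i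
      rw [this, hgi, Finset.insert_erase hxe]
    have hold : ∀ j, j < m → (edg K (fun j => if j = m then y else par j) j).image φ' =
        (edg K par j).image φ := by
      intro j hj
      have h1 : edg K (fun j => if j = m then y else par j) j = edg K par j := by
        rw [edg, edg, if_neg (by omega)]
      rw [h1]
      apply Finset.image_congr
      intro i hi
      exact hφ1 i (by simpa using edg_sub hc.le hj hi)
    rw [Finset.range_add_one, Finset.image_insert, hlast, hc.teq]
    congr 1
    apply Finset.image_congr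
    intro j hj
    exact (hold j (by simpa using hj)).symm

theorem code_add2 {K : ℕ} (hK : 1 ≤ K) {T : Finset (Finset W)} {X : Finset W} {x : W} {m : ℕ}
    {par : ℕ → ℕ} {φ : ℕ → W} (hc : Code K T X x m par φ) {e : Finset W} (he : e.card = K + 1)
    (hx : e ∩ X = {x}) {r : W} (hr : r ∈ e) (hrX : r ∉ X) :
    ∃ (m : ℕ) (par : ℕ → ℕ) (φ : ℕ → W), Code K (insert e T) (X ∪ e) r m par φ := by
  have hxe : x ∈ e ∧ x ∈ X := by
    have : x ∈ e ∩ X := by rw [hx]; simp
    simpa using this
  obtain ⟨hxe, hxX⟩ := hxe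
  have hrx : r ≠ x := fun h => hrX (h ▸ hxX)
  obtain ⟨g, hg, hgi⟩ := enum r ((e.erase r).erase x)
  have hcard : ((e.erase r).erase x).card = K - 1 := by
    rw [Finset.card_erase_of_mem (Finset.mem_erase.2 ⟨hrx.symm, hxe⟩),
      Finset.card_erase_of_mem hr, he]
    simp
  rw [hcard] at hg hgi
  -- new labelling
  set φ' : ℕ → W := fun i => if i = 0 then r else if i = 1 then x else
    if i ≤ K then g (i - 2) else φ (i - K) with hφ'
  have hφ0 : φ' 0 = r := by simp [hφ']
  have hφ1 : φ' 1 = x := by simp [hφ']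
  have hφ2 : ∀ i, i < K - 1 → φ' (i + 2) = g i := by
    intro i hi
    have h1 : i + 2 ≤ K := by omega
    simp [hφ', h1]
  have hφ3 : ∀ i, 1 ≤ i → φ' (K + i) = φ i := by
    intro i hi
    have h0 : ¬ (K + i = 0) := by omega
    have h1 : ¬ (K + i = 1) := by omega
    have h2 : ¬ (K + i ≤ K) := by omega
    simp only [hφ', h0, h1, h2, if_false]
    congr 1; omega
  have hXsub : ∀ i, i < K * m + 1 → φ i ∈ X := by
    intro i hi; rw [← hc.img]; exact Finset.mem_image_of_mem _ (Finset.mem_range.2 hi)
  have hgsub : ∀ i, i < K - 1 → g i ∈ (e.erase r).erase x := by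
    intro i hi; rw [← hgi]; exact Finset.mem_image_of_mem _ (Finset.mem_range.2 hi)
  have hdis : ∀ w, w ∈ (e.erase r).erase x → w ≠ x ∧ w ≠ r ∧ w ∈ e ∧ w ∉ X := by
    intro w hw
    rw [Finset.mem_erase, Finset.mem_erase] at hw
    refine ⟨hw.1, hw.2.1, hw.2.2, fun hwX => ?_⟩
    have : w ∈ e ∩ X := Finset.mem_inter.2 ⟨hw.2.2, hwX⟩
    rw [hx, Finset.mem_singleton] at this
    exact hw.1 this
  have hφx : ∀ i, 1 ≤ i → i < K * m + 1 → φ i ≠ x := by
    intro i hi hi2 h
    rw [← hc.root] at h
    have := hc.inj (by simpa using hi2) (by simp) h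
    omega
  -- classification of `i < K * (m + 1) + 1`
  have hcls : ∀ i, i < K * (m + 1) + 1 → i = 0 ∨ i = 1 ∨ (∃ i', i' < K - 1 ∧ i = i' + 2) ∨
      (∃ i', 1 ≤ i' ∧ i' < K * m + 1 ∧ i = K + i') := by
    intro i hi
    rw [mul_add, mul_one] at hi
    by_cases h0 : i = 0
    · left; exact h0
    by_cases h1 : i = 1
    · right; left; exact h1
    by_cases h2 : i ≤ K
    · right; right; left; exact ⟨i - 2, by omega, by omega⟩
    · right; right; right; exact ⟨i - K, by omega, by omega, by omega⟩
  -- the embedding of the old indices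
  set ι : ℕ → ℕ := fun y => if y = 0 then 1 else K + y with hι
  have hιφ : ∀ y, φ' (ι y) = φ y := by
    intro y
    by_cases hy : y = 0
    · subst hy; simp only [hι, if_true]; rw [hφ1, hc.root]
    · simp only [hι, hy, if_false]; exact hφ3 y (by omega)
  set par' : ℕ → ℕ := fun j => if j = 0 then 0 else if j < m + 1 then ι (par (j - 1)) else 0
    with hpar'
  have hedg : ∀ j, j < m → edg K par' (j + 1) = (edg K par j).image ι := by
    intro j hj
    rw [edg, edg, Finset.image_insert]
    congr 1
    · simp only [hpar']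
      rw [if_neg (by omega), if_pos (by omega)]
      simp
    · ext y
      rw [mem_chs, Finset.mem_image]
      constructor
      · rintro ⟨h1, h2⟩
        have e1 : K * (j + 1) = K * j + K := by ring
        have e2 : K * (j + 1 + 1) = K * j + K + K := by ring
        refine ⟨y - K, ?_, ?_⟩
        · rw [mem_chs]; omega
        · simp only [hι]; rw [if_neg (by omega)]; omega
      · rintro ⟨z, hz, rfl⟩
        rw [mem_chs] at hz
        have e1 : K * (j + 1) = K * j + K := by ring
        have e2 : K * (j + 1 + 1) = K * j + K + K := by ring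
        simp only [hι]; rw [if_neg (by omega)]; omega
  refine ⟨m + 1, par', φ', ?_, ?_, ?_, ?_, hφ0, ?_⟩
  · intro j
    simp only [hpar']
    split_ifs with h0 h1
    · exact Nat.zero_le _
    · have h2 := hc.le (j - 1)
      obtain ⟨j', rfl⟩ : ∃ j', j = j' + 1 := ⟨j - 1, by omega⟩
      have e1 : K * (j' + 1) = K * j' + K := by ring
      simp only [Nat.add_sub_cancel] at h2 ⊢
      simp only [hι]
      split_ifs <;> omega
    · exact Nat.zero_le _
  · intro j hj
    simp only [hpar']
    rw [if_neg (by omega), if_neg (by omega)]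
  · intro a ha b hb hab
    simp only [Finset.coe_range, Set.mem_Iio] at ha hb
    rcases hcls a ha with rfl | rfl | ⟨a', ha', rfl⟩ | ⟨a', ha1, ha2, rfl⟩ <;>
    rcases hcls b hb with rfl | rfl | ⟨b', hb', rfl⟩ | ⟨b', hb1, hb2, rfl⟩
    · rfl
    · rw [hφ0, hφ1] at hab; exact absurd hab hrx
    · rw [hφ0, hφ2 b' hb'] at hab; exact absurd hab.symm (hdis _ (hgsub b' hb')).2.1
    · rw [hφ0, hφ3 b' hb1] at hab; exact absurd (hab ▸ hXsub b' hb2) hrX
    · rw [hφ0, hφ1] at hab; exact absurd hab.symm hrx
    · rfl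
    · rw [hφ1, hφ2 b' hb'] at hab; exact absurd hab.symm (hdis _ (hgsub b' hb')).1
    · rw [hφ1, hφ3 b' hb1] at hab; exact absurd hab.symm (hφx b' hb1 hb2)
    · rw [hφ0, hφ2 a' ha'] at hab; exact absurd hab (hdis _ (hgsub a' ha')).2.1
    · rw [hφ1, hφ2 a' ha'] at hab; exact absurd hab (hdis _ (hgsub a' ha')).1
    · rw [hφ2 a' ha', hφ2 b' hb'] at hab
      rw [hg (by simpa using ha') (by simpa using hb') hab]
    · rw [hφ2 a' ha', hφ3 b' hb1] at hab
      exact absurd (hab ▸ hXsub b' hb2) (hdis _ (hgsub a' ha')).2.2.2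
    · rw [hφ0, hφ3 a' ha1] at hab; exact absurd (hab ▸ hXsub a' ha2) hrX
    · rw [hφ1, hφ3 a' ha1] at hab; exact absurd hab (hφx a' ha1 ha2)
    · rw [hφ2 b' hb', hφ3 a' ha1] at hab
      exact absurd (hab ▸ hXsub a' ha2) (hdis _ (hgsub b' hb')).2.2.2
    · rw [hφ3 a' ha1, hφ3 b' hb1] at hab
      rw [hc.inj (by simpa using ha2) (by simpa using hb2) hab]
  · ext w
    simp only [Finset.mem_image, Finset.mem_range, Finset.mem_union]
    have e1 : K * (m + 1) = K * m + K := by ring
    constructor
    · rintro ⟨i, hi, rfl⟩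
      rcases hcls i hi with rfl | rfl | ⟨a', ha', rfl⟩ | ⟨a', ha1, ha2, rfl⟩
      · rw [hφ0]; right; exact hr
      · rw [hφ1]; left; exact hxX
      · rw [hφ2 a' ha']; right; exact (hdis _ (hgsub a' ha')).2.2.1
      · rw [hφ3 a' ha1]; left; exact hXsub a' ha2
    · intro hw
      by_cases hwX : w ∈ X
      · rw [← hc.img] at hwX
        obtain ⟨i, hi, rfl⟩ := Finset.mem_image.1 hwX
        rw [Finset.mem_range] at hi
        refine ⟨ι i, ?_, hιφ i⟩
        simp only [hι]; split_ifs <;> omega
      · have hwe : w ∈ e := by tauto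
        by_cases hwr : w = r
        · exact ⟨0, by omega, by rw [hφ0, hwr]⟩
        · have : w ∈ (e.erase r).erase x := by
            rw [Finset.mem_erase, Finset.mem_erase]
            exact ⟨fun h => hwX (h ▸ hxX), hwr, hwe⟩
          rw [← hgi] at this
          obtain ⟨i, hi, rfl⟩ := Finset.mem_image.1 this
          rw [Finset.mem_range] at hi
          exact ⟨i + 2, by omega, hφ2 i hi⟩
  · have hfirst : (edg K par' 0).image φ' = e := by
      have h1 : edg K par' 0 = insert 0 (insert 1 ((Finset.range (K - 1)).image (· + 2))) := by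
        ext y
        rw [mem_edg]
        simp only [hpar', if_true, Finset.mem_insert, Finset.mem_image, Finset.mem_range]
        constructor
        · rintro (h | ⟨h, h'⟩)
          · left; exact h
          · by_cases hy : y = 1
            · right; left; exact hy
            · right; right; exact ⟨y - 2, by omega, by omega⟩
        · rintro (h | h | ⟨z, hz, rfl⟩) <;> omega
      rw [h1, Finset.image_insert, Finset.image_insert, hφ0, hφ1, Finset.image_image]
      have h2 : (Finset.range (K - 1)).image (φ' ∘ (· + 2)) = (e.erase r).erase x := by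
        rw [← hgi]
        apply Finset.image_congr
        intro i hi
        exact hφ2 i (by simpa using hi)
      rw [h2, Finset.insert_erase (Finset.mem_erase.2 ⟨hrx.symm, hxe⟩), Finset.insert_erase hr]
    have hold : ∀ j, j < m → (edg K par' (j + 1)).image φ' = (edg K par j).image φ := by
      intro j hj
      rw [hedg j hj, Finset.image_image]
      apply Finset.image_congr
      intro i _
      exact hιφ i
    rw [hc.teq]
    ext f
    simp only [Finset.mem_insert, Finset.mem_image, Finset.mem_range]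
    constructor
    · rintro (rfl | ⟨j, hj, rfl⟩)
      · exact ⟨0, by omega, hfirst⟩
      · exact ⟨j + 1, by omega, hold j hj⟩
    · rintro ⟨j, hj, rfl⟩
      rcases Nat.eq_zero_or_pos j with rfl | hj0
      · left; exact hfirst
      · obtain ⟨j', rfl⟩ : ∃ j', j = j' + 1 := ⟨j - 1, by omega⟩
        right; exact ⟨j', by omega, (hold j' (by omega)).symm⟩

theorem exists_code {K : ℕ} (hK : 1 ≤ K) {T : Finset (Finset W)} {X : Finset W}
    (h : LooseTree (K + 1) T X) : ∀ r ∈ X, ∃ (m : ℕ) (par : ℕ → ℕ) (φ : ℕ → W),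
      Code K T X r m par φ := by
  induction h with
  | single e he => intro r hr; exact code_single he hr
  | @add T X e h he hx ih =>
    intro r hr
    obtain ⟨x, hx⟩ := Finset.card_eq_one.1 hx
    by_cases hrX : r ∈ X
    · obtain ⟨m, par, φ, hc⟩ := ih r hrX
      exact code_add1 hc he hx
    · have hxX : x ∈ X := by
        have : x ∈ e ∩ X := by rw [hx]; simp
        exact (Finset.mem_inter.1 this).2
      obtain ⟨m, par, φ, hc⟩ := ih x hxX
      have hre : r ∈ e := by
        rcases Finset.mem_union.1 hr with h | h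
        · exact absurd h hrX
        · exact h
      exact code_add2 hK hc he hx hre hrX

end Enc

/-- encoding of loose trees -/
theorem encode {W : Type} [DecidableEq W] {K Δ : ℕ} (hK : 3 ≤ K) {T : Finset (Finset W)}
    {X : Finset W} (h : LooseTree (K + 1) T X) {r : W} (hr : r ∈ X)
    (hΔ : ∀ x, (T.filter (fun e => x ∈ e)).card ≤ Δ) :
    ∃ (m : ℕ) (par : ℕ → ℕ) (φ : ℕ → W), Tree K m Δ par ∧ X.card = K * m + 1 ∧
      Set.InjOn φ ↑(Finset.range (K * m + 1)) ∧ (Finset.range (K * m + 1)).image φ = X ∧
      φ 0 = r ∧ T = (Finset.range m).image (fun j => (edg K par j).image φ) := by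
  obtain ⟨m, par, φ, hc⟩ := Enc.exists_code (by omega) h r hr
  refine ⟨m, par, φ, ⟨hc.le, fun x => ?_⟩, ?_, hc.inj, hc.img, hc.root, hc.teq⟩
  · refine le_trans ?_ (hΔ (φ x))
    have hinj : Set.InjOn (fun j => (edg K par j).image φ)
        ↑((Finset.range m).filter (fun j => par j = x)) := by
      intro i hi j hj hij
      simp only [Finset.coe_filter, Finset.mem_range, Set.mem_ofPred_eq] at hi hj
      have hs := (Finset.image_eq_image_iff_of_injOn hc.inj (Enc.edg_sub hc.le hi.1)
        (Enc.edg_sub hc.le hj.1)).1 hij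
      exact le_antisymm (Enc.edg_inj (by omega) hc.le hs)
        (Enc.edg_inj (by omega) hc.le hs.symm)
    rw [← Finset.card_image_of_injOn hinj]
    apply Finset.card_le_card
    intro f hf
    obtain ⟨j, hj, rfl⟩ := Finset.mem_image.1 hf
    rw [Finset.mem_filter, Finset.mem_range] at hj
    rw [Finset.mem_filter]
    refine ⟨?_, ?_⟩
    · rw [hc.teq]; exact Finset.mem_image_of_mem _ (Finset.mem_range.2 hj.1)
    · apply Finset.mem_image_of_mem
      rw [edg, hj.2]; exact Finset.mem_insert_self _ _
  · rw [← hc.img, Finset.card_image_of_injOn hc.inj, Finset.card_range]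

end Pool.Agent.helper21.RL
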