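import Pool.Agent.helper21.RL.Defs

/-! Module Deg: degrees of vertices and pairs, counting extensions. (helper41) -/

set_option autoImplicit false

open Finset

namespace Pool.Agent.helper21.RL

private theorem deg_split {V : Type} [Fintype V] [DecidableEq V] (G : Finset (Finset V))
    (S : Finset V) (i : ℕ) :
    (Finset.univ.filter (fun x : Fin (i + 1) → V => S ∪ Finset.univ.image x ∈ G)).card =
      ∑ y : V, (Finset.univ.filter (fun x : Fin i → V =>
        insert y S ∪ Finset.univ.image x ∈ G)).card := by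
  have h1 : ∀ (y : V) (x : Fin i → V),
      S ∪ Finset.univ.image (Fin.cons y x : Fin (i + 1) → V) =
        insert y S ∪ Finset.univ.image x := by
    intro y x
    ext z
    simp only [Finset.mem_union, Finset.mem_image, Finset.mem_univ, true_and, Finset.mem_insert]
    rw [Fin.exists_fin_succ]
    simp only [Fin.cons_zero, Fin.cons_succ]
    constructor
    · rintro (h | h | h)
      · exact Or.inl (Or.inr h)
      · exact Or.inl (Or.inl h.symm)
      · exact Or.inr h
    · rintro ((h | h) | h)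
      · exact Or.inr (Or.inl h.symm)
      · exact Or.inl h
      · exact Or.inr (Or.inr h)
  simp only [Finset.card_filter]
  rw [← Equiv.sum_comp (Fin.consEquiv (fun _ : Fin (i + 1) => V)), Fintype.sum_prod_type]
  refine Finset.sum_congr rfl fun y _ => Finset.sum_congr rfl fun x _ => ?_
  have : (Fin.consEquiv (fun _ : Fin (i + 1) => V)) (y, x) = (Fin.cons y x : Fin (i + 1) → V) :=
    rfl
  rw [this, h1 y x]

private theorem deg_low {V : Type} [Fintype V] [DecidableEq V] (G : Finset (Finset V)) (K : ℕ)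
    (δ : ℝ) (hδ : 0 ≤ δ) (hn : K ≤ Fintype.card V) (hPD : PD K G Finset.univ δ) (i : ℕ) :
    ∀ S : Finset V, S.card + (i + 2) = K + 1 →
      ((Fintype.card V : ℝ) - K) ^ i * (δ * (Fintype.card V : ℝ) ^ 2) ≤
        ((Finset.univ.filter (fun x : Fin (i + 2) → V =>
          S ∪ Finset.univ.image x ∈ G)).card : ℝ) := by
  have hnK : (0 : ℝ) ≤ (Fintype.card V : ℝ) - K := by
    have : (K : ℝ) ≤ (Fintype.card V : ℝ) := by exact_mod_cast hn
    linarith
  induction i with
  | zero =>
    intro S hS
    have h := hPD S (Finset.subset_univ S) (by omega)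
    rw [Finset.card_univ] at h
    have hc : ((Finset.univ ×ˢ Finset.univ).filter
        (fun p : V × V => insert p.1 (insert p.2 S) ∈ G)).card ≤
        (Finset.univ.filter (fun x : Fin (0 + 2) → V => S ∪ Finset.univ.image x ∈ G)).card := by
      refine Finset.card_le_card_of_injOn (fun p => ![p.1, p.2]) ?_ ?_
      · intro p hp
        simp only [Finset.coe_filter, Set.mem_ofPred_eq, Finset.mem_product, Finset.mem_univ,
          true_and, and_self] at hp ⊢
        have he : S ∪ Finset.univ.image (![p.1, p.2] : Fin (0 + 2) → V) =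
            insert p.1 (insert p.2 S) := by
          ext z
          simp only [Finset.mem_union, Finset.mem_image, Finset.mem_univ, true_and,
            Finset.mem_insert]
          constructor
          · rintro (h | ⟨j, hj⟩)
            · exact Or.inr (Or.inr h)
            · fin_cases j
              · exact Or.inl hj.symm
              · exact Or.inr (Or.inl hj.symm)
          · rintro (h | h | h)
            · exact Or.inr ⟨0, h.symm⟩
            · exact Or.inr ⟨1, h.symm⟩
            · exact Or.inl h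
        rw [he]
        exact hp
      · intro p _ q _ hpq
        have h0 := congrFun hpq 0
        have h1 := congrFun hpq 1
        exact Prod.ext h0 h1
    have hc' : (((Finset.univ ×ˢ Finset.univ).filter
        (fun p : V × V => insert p.1 (insert p.2 S) ∈ G)).card : ℝ) ≤
        ((Finset.univ.filter (fun x : Fin (0 + 2) → V =>
          S ∪ Finset.univ.image x ∈ G)).card : ℝ) := by exact_mod_cast hc
    rw [pow_zero, one_mul]
    exact h.trans hc'
  | succ i ih =>
    intro S hS
    rw [deg_split G S (i + 2), Nat.cast_sum]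
    have h1 : ∑ y ∈ Finset.univ \ S, (((Fintype.card V : ℝ) - K) ^ i *
        (δ * (Fintype.card V : ℝ) ^ 2)) ≤ ∑ y ∈ Finset.univ \ S,
        ((Finset.univ.filter (fun x : Fin (i + 2) → V =>
          insert y S ∪ Finset.univ.image x ∈ G)).card : ℝ) := by
      refine Finset.sum_le_sum fun y hy => ?_
      have hyS : y ∉ S := (Finset.mem_sdiff.1 hy).2
      refine ih (insert y S) ?_
      rw [Finset.card_insert_of_notMem hyS]
      omega
    have h2 : ∑ y ∈ Finset.univ \ S,
        ((Finset.univ.filter (fun x : Fin (i + 2) → V =>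
          insert y S ∪ Finset.univ.image x ∈ G)).card : ℝ) ≤ ∑ y : V,
        ((Finset.univ.filter (fun x : Fin (i + 2) → V =>
          insert y S ∪ Finset.univ.image x ∈ G)).card : ℝ) :=
      Finset.sum_le_sum_of_subset_of_nonneg (Finset.subset_univ _) fun _ _ _ => by positivity
    refine le_trans ?_ (h1.trans h2)
    rw [Finset.sum_const, nsmul_eq_mul, Finset.card_sdiff_of_subset (Finset.subset_univ S),
      Finset.card_univ]
    have hSK : S.card ≤ K := by omega
    have hsub : ((Fintype.card V - S.card : ℕ) : ℝ) ≥ (Fintype.card V : ℝ) - K := by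
      have h3 : S.card ≤ Fintype.card V := hSK.trans hn
      rw [Nat.cast_sub h3]
      have : (S.card : ℝ) ≤ K := by exact_mod_cast hSK
      linarith
    have hpos : 0 ≤ ((Fintype.card V : ℝ) - K) ^ i * (δ * (Fintype.card V : ℝ) ^ 2) := by
      positivity
    calc ((Fintype.card V : ℝ) - K) ^ (i + 1) * (δ * (Fintype.card V : ℝ) ^ 2)
        = ((Fintype.card V : ℝ) - K) * (((Fintype.card V : ℝ) - K) ^ i *
          (δ * (Fintype.card V : ℝ) ^ 2)) := by ring
      _ ≤ _ := mul_le_mul_of_nonneg_right hsub hpos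

private theorem deg_num (K : ℕ) (δ δ' : ℝ) (h0 : 0 ≤ δ') (h : δ' < δ) (n : ℕ)
    (hn1 : K + 1 ≤ n) (hn2 : (K : ℝ) * K * δ / (δ - δ') ≤ n) (i : ℕ) (hi : i ≤ K) :
    δ' * (n : ℝ) ^ (i + 2) ≤ ((n : ℝ) - K) ^ i * (δ * (n : ℝ) ^ 2) := by
  have hn0 : (0 : ℝ) < n := by
    have : 0 < n := by omega
    exact_mod_cast this
  have hδ : 0 < δ := lt_of_le_of_lt h0 h
  have hdd : 0 < δ - δ' := by linarith
  have hKn : (K : ℝ) ≤ n := by
    have : K ≤ n := by omega
    exact_mod_cast this
  have hb : 1 + (i : ℝ) * (-(K / n)) ≤ (1 + -((K : ℝ) / n)) ^ i := by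
    refine one_add_mul_le_pow ?_ i
    have : (K : ℝ) / n ≤ 1 := by
      rw [div_le_one hn0]
      exact hKn
    linarith
  have hfac : ((n : ℝ) - K) = n * (1 + -((K : ℝ) / n)) := by
    field_simp
    ring
  have hiK : (i : ℝ) ≤ K := by exact_mod_cast hi
  have hkey : δ' ≤ δ * (1 + (i : ℝ) * (-(K / n))) := by
    have h1 : (K : ℝ) * K * δ ≤ n * (δ - δ') := by
      rw [div_le_iff₀ hdd] at hn2
      exact hn2
    have h2 : (i : ℝ) * K * δ ≤ K * K * δ := by
      have : (i : ℝ) * K ≤ K * K := mul_le_mul_of_nonneg_right hiK (by positivity)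
      exact mul_le_mul_of_nonneg_right this hδ.le
    have h3 : δ * ((i : ℝ) * (K / n)) ≤ δ - δ' := by
      have : δ * ((i : ℝ) * (K / n)) = (i * K * δ) / n := by
        field_simp
      rw [this, div_le_iff₀ hn0]
      linarith
    linarith
  rw [hfac, mul_pow]
  have h4 : δ' ≤ δ * (1 + -((K : ℝ) / n)) ^ i :=
    hkey.trans (mul_le_mul_of_nonneg_left hb hδ.le)
  calc δ' * (n : ℝ) ^ (i + 2) ≤ (δ * (1 + -((K : ℝ) / n)) ^ i) * (n : ℝ) ^ (i + 2) :=
        mul_le_mul_of_nonneg_right h4 (by positivity)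
    _ = (n : ℝ) ^ i * (1 + -((K : ℝ) / n)) ^ i * (δ * (n : ℝ) ^ 2) := by ring

/-- PROOF. For a set `S` with `K + 1 - i` elements (`i ≥ 2`) let `N S i` be the number of
`x : Fin i → V` with `S ∪ image x ∈ G`. `N S 2 ≥ δ n²` is `PD`. Splitting off the first coordinate
(`Fin.consEquiv` / `Fin.cons`): `N S (i+1) = ∑ y, N (insert y S) i ≥ (n - |S|) * min` (for `y ∈ S`
the term is `0` by uniformity, drop it; for `y ∉ S` the set `insert y S` has one more element). So
`N S i ≥ (n - K)^(i-2) δ n²` and `(n-K)^(i-2) δ n² ≥ δ' n^i` for `n` large. Use `i = K` (`S = {a}`)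
and `i = K - 1` (`S = {a,b}`). -/
theorem deg_count (K : ℕ) (hK : 3 ≤ K) (δ δ' : ℝ) (h0 : 0 ≤ δ') (h : δ' < δ) :
    ∃ n₀ : ℕ, ∀ (V : Type) [Fintype V] [DecidableEq V] (G : Finset (Finset V)), Unif K G →
      n₀ ≤ Fintype.card V → PD K G Finset.univ δ →
      (∀ a : V, δ' * (Fintype.card V : ℝ) ^ K ≤
        ((Finset.univ.filter (fun x : Fin K → V => insert a (Finset.univ.image x) ∈ G)).card : ℝ)) ∧
      (∀ a b : V, a ≠ b → δ' * (Fintype.card V : ℝ) ^ (K - 1) ≤
        ((Finset.univ.filter (fun x : Fin (K - 1) → V =>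
          insert a (insert b (Finset.univ.image x)) ∈ G)).card : ℝ)) := by
  refine ⟨max (K + 1) ⌈(K : ℝ) * K * δ / (δ - δ')⌉₊, ?_⟩
  intro V _ _ G hU hn hPD
  have hn1 : K + 1 ≤ Fintype.card V := (le_max_left _ _).trans hn
  have hn2 : (K : ℝ) * K * δ / (δ - δ') ≤ (Fintype.card V : ℝ) :=
    (Nat.le_ceil _).trans (by exact_mod_cast (le_max_right _ _).trans hn)
  have hδ : 0 ≤ δ := h0.trans h.le
  obtain ⟨k, rfl⟩ : ∃ k, K = k + 3 := ⟨K - 3, by omega⟩
  constructor
  · intro a
    have h1 := deg_low G (k + 3) δ hδ (by omega) hPD (k + 1) {a} (by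
      rw [Finset.card_singleton]; omega)
    have h2 := deg_num (k + 3) δ δ' h0 h (Fintype.card V) hn1 hn2 (k + 1) (by omega)
    have h3 := h2.trans h1
    have he : ∀ x : Fin (k + 3) → V, ({a} : Finset V) ∪ Finset.univ.image x =
        insert a (Finset.univ.image x) := fun x => (Finset.insert_eq a _).symm
    simp only [he] at h3
    exact h3
  · intro a b hab
    have h1 := deg_low G (k + 3) δ hδ (by omega) hPD k {a, b} (by
      rw [Finset.card_pair hab]; omega)
    have h2 := deg_num (k + 3) δ δ' h0 h (Fintype.card V) hn1 hn2 k (by omega)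
    have h3 := h2.trans h1
    have he : ∀ x : Fin (k + 2) → V, ({a, b} : Finset V) ∪ Finset.univ.image x =
        insert a (insert b (Finset.univ.image x)) := by
      intro x
      rw [Finset.insert_union, Finset.insert_eq b]
    simp only [he] at h3
    exact h3

/-- PROOF. `{x | ∃ i, x i ∈ X} = ⋃ i, {x | x i ∈ X}` and `#{x | x i ∈ X} = |X| n^(r-1)`. -/
theorem card_meet_le {V : Type} [Fintype V] [DecidableEq V] (r : ℕ) (X : Finset V) :
    ((Finset.univ.filter (fun x : Fin r → V => ∃ i, x i ∈ X)).card : ℝ) ≤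
      r * X.card * (Fintype.card V : ℝ) ^ (r - 1) := by
  have h1 : ∀ i : Fin r, (Finset.univ.filter (fun x : Fin r → V => x i ∈ X)).card =
      X.card * (Fintype.card V) ^ (r - 1) := by
    intro i
    have he : (Finset.univ.filter (fun x : Fin r → V => x i ∈ X)) =
        Fintype.piFinset (fun j => if j = i then X else Finset.univ) := by
      ext x
      simp only [Finset.mem_filter, Finset.mem_univ, true_and, Fintype.mem_piFinset]
      constructor
      · intro hx j
        by_cases hj : j = i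
        · subst hj
          simpa using hx
        · simp [hj]
      · intro hx
        have := hx i
        simpa using this
    rw [he, Fintype.card_piFinset, ← Finset.mul_prod_erase Finset.univ _ (Finset.mem_univ i),
      if_pos rfl]
    congr 1
    rw [Finset.prod_congr rfl (g := fun _ => Fintype.card V), Finset.prod_const,
      Finset.card_erase_of_mem (Finset.mem_univ i), Finset.card_univ, Fintype.card_fin]
    intro j hj
    rw [if_neg (Finset.ne_of_mem_erase hj), Finset.card_univ]
  have h2 : (Finset.univ.filter (fun x : Fin r → V => ∃ i, x i ∈ X)) ⊆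
      Finset.univ.biUnion (fun i : Fin r => Finset.univ.filter (fun x : Fin r → V => x i ∈ X)) := by
    intro x hx
    simp only [Finset.mem_filter, Finset.mem_univ, true_and, Finset.mem_biUnion] at hx ⊢
    exact hx
  have h3 : (Finset.univ.filter (fun x : Fin r → V => ∃ i, x i ∈ X)).card ≤
      r * (X.card * (Fintype.card V) ^ (r - 1)) := by
    refine (Finset.card_le_card h2).trans (Finset.card_biUnion_le.trans ?_)
    rw [Finset.sum_congr rfl (fun i _ => h1 i), Finset.sum_const, Finset.card_univ,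
      Fintype.card_fin, smul_eq_mul]
  calc ((Finset.univ.filter (fun x : Fin r → V => ∃ i, x i ∈ X)).card : ℝ)
      ≤ ((r * (X.card * (Fintype.card V) ^ (r - 1)) : ℕ) : ℝ) := by exact_mod_cast h3
    _ = r * X.card * (Fintype.card V : ℝ) ^ (r - 1) := by push_cast; ring

private theorem ext_pick {V : Type} [Fintype V] [DecidableEq V] (K r : ℕ) (hr : 0 < r)
    (hrK : r ≤ K) (X₀ X : Finset V) (hn : 0 < Fintype.card V)
    (hX₀ : 16 * K * X₀.card ≤ Fintype.card V)
    (hX : (X.card : ℝ) ≤ (Fintype.card V : ℝ) / (16 * K)) (P : (Fin r → V) → Prop)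
    [DecidablePred P]
    (hP : 3 / 8 * (Fintype.card V : ℝ) ^ r ≤ ((Finset.univ.filter P).card : ℝ)) :
    ∃ x : Fin r → V, P x ∧ ∀ i, x i ∉ X₀ ∧ x i ∉ X := by
  by_contra hcon
  push Not at hcon
  have hsub : Finset.univ.filter P ⊆
      Finset.univ.filter (fun x : Fin r → V => ∃ i, x i ∈ X₀ ∪ X) := by
    intro x hx
    simp only [Finset.mem_filter, Finset.mem_univ, true_and] at hx ⊢
    obtain ⟨i, hi⟩ := hcon x hx
    refine ⟨i, ?_⟩
    rw [Finset.mem_union]
    by_cases h : x i ∈ X₀
    · exact Or.inl h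
    · exact Or.inr (hi h)
  have h1 : ((Finset.univ.filter P).card : ℝ) ≤
      ((Finset.univ.filter (fun x : Fin r → V => ∃ i, x i ∈ X₀ ∪ X)).card : ℝ) := by
    exact_mod_cast Finset.card_le_card hsub
  have h2 := card_meet_le r (X₀ ∪ X)
  have hK0 : (0 : ℝ) < K := by
    have : 0 < K := by omega
    exact_mod_cast this
  have hn0 : (0 : ℝ) < (Fintype.card V : ℝ) := by exact_mod_cast hn
  have h3 : ((X₀ ∪ X).card : ℝ) ≤ (Fintype.card V : ℝ) / (8 * K) := by
    have h4 : ((X₀ ∪ X).card : ℝ) ≤ X₀.card + X.card := by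
      exact_mod_cast Finset.card_union_le X₀ X
    have h5 : (X₀.card : ℝ) ≤ (Fintype.card V : ℝ) / (16 * K) := by
      rw [le_div_iff₀ (by positivity)]
      have : ((16 * K * X₀.card : ℕ) : ℝ) ≤ (Fintype.card V : ℝ) := by exact_mod_cast hX₀
      push_cast at this
      linarith
    have h6 : (Fintype.card V : ℝ) / (16 * K) + (Fintype.card V : ℝ) / (16 * K) =
        (Fintype.card V : ℝ) / (8 * K) := by
      field_simp
      norm_num
    linarith
  have h7 : (r : ℝ) * (X₀ ∪ X).card * (Fintype.card V : ℝ) ^ (r - 1) ≤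
      1 / 8 * (Fintype.card V : ℝ) ^ r := by
    obtain ⟨s, rfl⟩ : ∃ s, r = s + 1 := ⟨r - 1, by omega⟩
    have hrK' : ((s + 1 : ℕ) : ℝ) ≤ K := by exact_mod_cast hrK
    have h8 : ((s + 1 : ℕ) : ℝ) * (X₀ ∪ X).card ≤ (Fintype.card V : ℝ) / 8 := by
      calc ((s + 1 : ℕ) : ℝ) * (X₀ ∪ X).card ≤ K * ((Fintype.card V : ℝ) / (8 * K)) :=
            mul_le_mul hrK' h3 (by positivity) hK0.le
        _ = (Fintype.card V : ℝ) / 8 := by field_simp
    calc ((s + 1 : ℕ) : ℝ) * (X₀ ∪ X).card * (Fintype.card V : ℝ) ^ (s + 1 - 1)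
        ≤ (Fintype.card V : ℝ) / 8 * (Fintype.card V : ℝ) ^ (s + 1 - 1) :=
          mul_le_mul_of_nonneg_right h8 (by positivity)
      _ = 1 / 8 * (Fintype.card V : ℝ) ^ (s + 1) := by
          rw [Nat.add_sub_cancel]; ring
  have h9 : (0 : ℝ) < (Fintype.card V : ℝ) ^ r := by positivity
  linarith

/-- PROOF. From `deg_count` with `δ = 1/2`, `δ' = 3/8` and `card_meet_le` for `X₀ ∪ X`
(`|X₀ ∪ X| ≤ n/(8K)`): at most `n^K/8 < 3/8 n^K` tuples meet it. The set `f = image x` has exactly
`K` (resp. `K-1`) elements, because `insert a f` has `K+1`. -/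
theorem ext_big (K : ℕ) (hK : 3 ≤ K) :
    ∃ n₀ : ℕ, ∀ (V : Type) [Fintype V] [DecidableEq V] (G : Finset (Finset V)), Unif K G →
      n₀ ≤ Fintype.card V → PD K G Finset.univ (1 / 2) → ∀ X₀ : Finset V,
      16 * K * X₀.card ≤ Fintype.card V →
      Ext K G (Finset.univ \ X₀) ((Fintype.card V : ℝ) / (16 * K)) := by
  obtain ⟨n₀, hn₀⟩ := deg_count K hK (1 / 2) (3 / 8) (by norm_num) (by norm_num)
  refine ⟨max n₀ 1, ?_⟩
  intro V _ _ G hU hn hPD X₀ hX₀
  obtain ⟨hA, hB⟩ := hn₀ V G hU ((le_max_left _ _).trans hn) hPD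
  have hpos : 0 < Fintype.card V := lt_of_lt_of_le Nat.one_pos ((le_max_right _ _).trans hn)
  constructor
  · intro X hX a
    obtain ⟨x, hx, hx2⟩ := ext_pick K K (by omega) le_rfl X₀ X hpos hX₀ hX _ (hA a)
    refine ⟨Finset.univ.image x, ?_, ?_, ?_, hx⟩
    · have h1 := hU _ hx
      have h2 := Finset.card_insert_le a (Finset.univ.image x)
      have h3 : (Finset.univ.image x).card ≤ K := by
        refine Finset.card_image_le.trans ?_
        rw [Finset.card_univ, Fintype.card_fin]
      omega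
    · intro y hy
      obtain ⟨i, -, rfl⟩ := Finset.mem_image.1 hy
      exact Finset.mem_sdiff.2 ⟨Finset.mem_univ _, (hx2 i).1⟩
    · rw [Finset.disjoint_left]
      intro y hy
      obtain ⟨i, -, rfl⟩ := Finset.mem_image.1 hy
      exact (hx2 i).2
  · intro X hX a b hab
    obtain ⟨x, hx, hx2⟩ := ext_pick K (K - 1) (by omega) (by omega) X₀ X hpos hX₀ hX _ (hB a b hab)
    refine ⟨Finset.univ.image x, ?_, ?_, ?_, hx⟩
    · have h1 := hU _ hx
      have h2 := Finset.card_insert_le a (insert b (Finset.univ.image x))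
      have h4 := Finset.card_insert_le b (Finset.univ.image x)
      have h3 : (Finset.univ.image x).card ≤ K - 1 := by
        refine Finset.card_image_le.trans ?_
        rw [Finset.card_univ, Fintype.card_fin]
      omega
    · intro y hy
      obtain ⟨i, -, rfl⟩ := Finset.mem_image.1 hy
      exact Finset.mem_sdiff.2 ⟨Finset.mem_univ _, (hx2 i).1⟩
    · rw [Finset.disjoint_left]
      intro y hy
      obtain ⟨i, -, rfl⟩ := Finset.mem_image.1 hy
      exact (hx2 i).2

end Pool.Agent.helper21.RL
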