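import Pool.Agent.helper21.RL.Sel
import Pool.Agent.helper21.RL.Deg

/-! Module Abs1: a family of disjoint absorbing groups. -/

set_option autoImplicit false

open Finset

namespace Pool.Agent.helper21.RL

namespace Abs1_aux

theorem card_at {V J : Type} [Fintype V] [DecidableEq V] [Fintype J] [DecidableEq J] (a : J)
    (X : Finset V) :
    (Finset.univ.filter (fun f : J → V => f a ∈ X)).card =
      X.card * Fintype.card V ^ (Fintype.card J - 1) := by
  have h : Finset.univ.filter (fun f : J → V => f a ∈ X) =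
      Fintype.piFinset (fun j => if j = a then X else Finset.univ) := by
    ext f
    simp only [mem_filter, mem_univ, true_and, Fintype.mem_piFinset]
    constructor
    · intro hf j
      split_ifs with hj
      · subst hj; exact hf
      · simp
    · intro hf
      simpa using hf a
  rw [h, Fintype.card_piFinset, ← Finset.mul_prod_erase _ _ (Finset.mem_univ a)]
  congr 1
  · simp
  · rw [Finset.prod_congr rfl (g := fun _ => Fintype.card V)]
    · simp [Finset.card_erase_of_mem]
    · intro j hj
      simp [Finset.ne_of_mem_erase hj]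

theorem card_eq {V J : Type} [Fintype V] [DecidableEq V] [Fintype J] [DecidableEq J] (a b : J)
    (hab : a ≠ b) :
    (Finset.univ.filter (fun f : J → V => f a = f b)).card ≤
      Fintype.card V ^ (Fintype.card J - 1) := by
  have h1 : (Finset.univ.filter (fun f : J → V => f a = f b)).card ≤
      (Finset.univ : Finset ({j : J // j ≠ a} → V)).card := by
    apply Finset.card_le_card_of_injOn (fun f j => f j.1) (by simp)
    intro f hf g hg hfg
    simp only [coe_filter, mem_univ, true_and, Set.mem_ofPred_eq] at hf hg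
    have h2 : ∀ j, j ≠ a → f j = g j := fun j hj => congrFun hfg ⟨j, hj⟩
    funext j
    by_cases hj : j = a
    · subst hj
      rw [hf, hg]
      exact h2 b (Ne.symm hab)
    · exact h2 j hj
  refine h1.trans (le_of_eq ?_)
  rw [Finset.card_univ, Fintype.card_fun]
  congr 1
  simp [Fintype.card_subtype_compl]

/-- pairs (w, A) -/
abbrev P (V : Type) (K : ℕ) := (Fin K → V) × (Fin K → Fin K → V)

/-- the group of a pair -/
def mk {V : Type} {K : ℕ} (p : P V K) : Grp V K := ⟨p.1, p.2⟩

instance instDecGrpOK {V : Type} [DecidableEq V] (K : ℕ) (G : Finset (Finset V)) (g : Grp V K) :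
    Decidable (GrpOK K G g) := by unfold GrpOK; infer_instance

/-- all the entries -/
def tup {V : Type} {K : ℕ} (p : P V K) : Fin K ⊕ (Fin K × Fin K) → V :=
  Sum.elim p.1 (fun q => p.2 q.1 q.2)

theorem tup_inj {V : Type} {K : ℕ} : Function.Injective (tup : P V K → _) := by
  intro p q h
  have h1 : ∀ i, p.1 i = q.1 i := fun i => congrFun h (Sum.inl i)
  have h2 : ∀ i j, p.2 i j = q.2 i j := fun i j => congrFun h (Sum.inr (i, j))
  refine Prod.ext (funext h1) ?_
  funext i j
  exact h2 i j

theorem gsupp_mk {V : Type} [DecidableEq V] {K : ℕ} (p : P V K) :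
    gsupp (mk p) = Finset.univ.image (tup p) := by
  ext x
  simp only [gsupp, mk, mem_union, mem_image, mem_univ, true_and, tup]
  constructor
  · rintro (⟨i, hi⟩ | ⟨i, hi⟩)
    · exact ⟨Sum.inl i, hi⟩
    · exact ⟨Sum.inr i, hi⟩
  · rintro ⟨i | i, hi⟩
    · exact Or.inl ⟨i, hi⟩
    · exact Or.inr ⟨i, hi⟩

theorem card_J (K : ℕ) : Fintype.card (Fin K ⊕ (Fin K × Fin K)) = K + K * K := by
  simp

theorem bad1_le {V : Type} [Fintype V] [DecidableEq V] (K : ℕ) :
    (Finset.univ.filter (fun p : P V K => ¬ Function.Injective (tup p))).card ≤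
      (K + K * K) * (K + K * K) * Fintype.card V ^ (K + K * K - 1) := by
  have h1 : (Finset.univ.filter (fun p : P V K => ¬ Function.Injective (tup p))).card ≤
      (((Finset.univ : Finset (Fin K ⊕ (Fin K × Fin K))).offDiag).biUnion
        (fun ab => Finset.univ.filter
          (fun f : Fin K ⊕ (Fin K × Fin K) → V => f ab.1 = f ab.2))).card := by
    apply Finset.card_le_card_of_injOn tup _ (tup_inj.injOn)
    intro p hp
    simp only [coe_filter, mem_univ, true_and, Set.mem_ofPred_eq] at hp
    rw [Function.Injective] at hp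
    push Not at hp
    obtain ⟨a, b, hab, hne⟩ := hp
    simp only [coe_biUnion, Set.mem_iUnion, coe_offDiag, coe_filter]
    exact ⟨(a, b), by simpa [Set.mem_offDiag] using hne, by simpa using hab⟩
  refine h1.trans ?_
  refine Finset.card_biUnion_le.trans ?_
  refine (Finset.sum_le_card_nsmul _ _ (Fintype.card V ^ (K + K * K - 1)) ?_).trans ?_
  · intro ab hab
    rw [Finset.mem_offDiag] at hab
    have h2 := card_eq (V := V) ab.1 ab.2 hab.2.2
    rwa [card_J] at h2
  · rw [smul_eq_mul]
    apply Nat.mul_le_mul_right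
    rw [Finset.offDiag_card, Finset.card_univ, card_J]
    exact Nat.sub_le _ _

theorem bad2_le {V : Type} [Fintype V] [DecidableEq V] (K : ℕ) (X : Finset V) :
    (Finset.univ.filter (fun p : P V K => ¬ Disjoint (gsupp (mk p)) X)).card ≤
      (K + K * K) * (X.card * Fintype.card V ^ (K + K * K - 1)) := by
  have h1 : (Finset.univ.filter (fun p : P V K => ¬ Disjoint (gsupp (mk p)) X)).card ≤
      ((Finset.univ : Finset (Fin K ⊕ (Fin K × Fin K))).biUnion
        (fun a => Finset.univ.filter
          (fun f : Fin K ⊕ (Fin K × Fin K) → V => f a ∈ X))).card := by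
    apply Finset.card_le_card_of_injOn tup _ (tup_inj.injOn)
    intro p hp
    simp only [coe_filter, mem_univ, true_and, Set.mem_ofPred_eq, gsupp_mk] at hp
    rw [Finset.not_disjoint_iff] at hp
    obtain ⟨x, hx, hxX⟩ := hp
    rw [Finset.mem_image] at hx
    obtain ⟨a, -, rfl⟩ := hx
    simp only [coe_biUnion, Set.mem_iUnion, coe_filter]
    exact ⟨a, by simp, by simpa using hxX⟩
  refine h1.trans ?_
  refine Finset.card_biUnion_le.trans ?_
  refine (Finset.sum_le_card_nsmul _ _ (X.card * Fintype.card V ^ (K + K * K - 1)) ?_).trans ?_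
  · intro a _
    have h2 := card_at (V := V) a X
    rw [card_J] at h2
    exact h2.le
  · rw [smul_eq_mul, Finset.card_univ, card_J]

theorem good_ge {V : Type} [Fintype V] [DecidableEq V] (K : ℕ) (G : Finset (Finset V)) (γ : ℝ)
    (hγ : 0 ≤ γ)
    (hdeg : ∀ a : V, (1 / 2 + γ / 2) * (Fintype.card V : ℝ) ^ K ≤
      ((Finset.univ.filter (fun x : Fin K → V => insert a (Finset.univ.image x) ∈ G)).card : ℝ))
    (z : V) (u : Fin K → V) :
    γ ^ K / 2 * (Fintype.card V : ℝ) ^ (K + K * K) ≤
      ((Finset.univ.filter (fun p : P V K => insert z (Finset.univ.image p.1) ∈ G ∧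
        ∀ i, insert (p.1 i) (Finset.univ.image (p.2 i)) ∈ G ∧
          insert (u i) (Finset.univ.image (p.2 i)) ∈ G)).card : ℝ) := by
  set n : ℝ := (Fintype.card V : ℝ) with hn
  have hn0 : 0 ≤ n := by positivity
  -- two vertices
  have h2 : ∀ a b : V, γ * n ^ K ≤ ((Finset.univ.filter (fun x : Fin K → V =>
      insert a (Finset.univ.image x) ∈ G ∧ insert b (Finset.univ.image x) ∈ G)).card : ℝ) := by
    intro a b
    have ha := hdeg a
    have hb := hdeg b
    have h3 := Finset.card_union_add_card_inter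
      (Finset.univ.filter (fun x : Fin K → V => insert a (Finset.univ.image x) ∈ G))
      (Finset.univ.filter (fun x : Fin K → V => insert b (Finset.univ.image x) ∈ G))
    have h4 : ((Finset.univ.filter (fun x : Fin K → V => insert a (Finset.univ.image x) ∈ G)) ∪
      (Finset.univ.filter (fun x : Fin K → V => insert b (Finset.univ.image x) ∈ G))).card ≤
      Fintype.card V ^ K := by
      refine (Finset.card_le_univ _).trans (le_of_eq ?_)
      simp
    have h5 : (((Finset.univ.filter (fun x : Fin K → V => insert a (Finset.univ.image x) ∈ G)) ∪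
      (Finset.univ.filter (fun x : Fin K → V => insert b (Finset.univ.image x) ∈ G))).card : ℝ) ≤
      n ^ K := by rw [hn]; exact_mod_cast h4
    have h6 : (((Finset.univ.filter (fun x : Fin K → V => insert a (Finset.univ.image x) ∈ G)) ∪
      (Finset.univ.filter (fun x : Fin K → V => insert b (Finset.univ.image x) ∈ G))).card : ℝ) +
      (((Finset.univ.filter (fun x : Fin K → V => insert a (Finset.univ.image x) ∈ G)) ∩
      (Finset.univ.filter (fun x : Fin K → V => insert b (Finset.univ.image x) ∈ G))).card : ℝ) =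
      ((Finset.univ.filter (fun x : Fin K → V => insert a (Finset.univ.image x) ∈ G)).card : ℝ) +
      ((Finset.univ.filter (fun x : Fin K → V => insert b (Finset.univ.image x) ∈ G)).card : ℝ) := by
      exact_mod_cast h3
    rw [← Finset.filter_and] at h6
    nlinarith
  -- the set as a sigma
  have h7 : (Finset.univ.filter (fun p : P V K => insert z (Finset.univ.image p.1) ∈ G ∧
        ∀ i, insert (p.1 i) (Finset.univ.image (p.2 i)) ∈ G ∧
          insert (u i) (Finset.univ.image (p.2 i)) ∈ G)).card =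
      ∑ w ∈ Finset.univ.filter (fun w : Fin K → V => insert z (Finset.univ.image w) ∈ G),
        (Fintype.piFinset (fun i => Finset.univ.filter (fun x : Fin K → V =>
          insert (w i) (Finset.univ.image x) ∈ G ∧
          insert (u i) (Finset.univ.image x) ∈ G))).card := by
    rw [← Finset.card_sigma]
    apply Finset.card_bij' (fun p _ => (⟨p.1, p.2⟩ : (_ : Fin K → V) × (Fin K → Fin K → V)))
      (fun q _ => ((q.1, q.2) : P V K))
    · intro p hp
      simp only [mem_filter, mem_univ, true_and] at hp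
      simp only [mem_sigma, mem_filter, mem_univ, true_and, Fintype.mem_piFinset]
      exact ⟨hp.1, hp.2⟩
    · intro q hq
      simp only [mem_sigma, mem_filter, mem_univ, true_and, Fintype.mem_piFinset] at hq
      simp only [mem_filter, mem_univ, true_and]
      exact ⟨hq.1, hq.2⟩
    · intro p _; rfl
    · intro q _; rfl
  rw [h7]
  push_cast
  have h8 : ∀ w ∈ Finset.univ.filter (fun w : Fin K → V => insert z (Finset.univ.image w) ∈ G),
      γ ^ K * n ^ (K * K) ≤ ((Fintype.piFinset (fun i => Finset.univ.filter (fun x : Fin K → V =>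
          insert (w i) (Finset.univ.image x) ∈ G ∧
          insert (u i) (Finset.univ.image x) ∈ G))).card : ℝ) := by
    intro w _
    rw [Fintype.card_piFinset]
    push_cast
    have h9 : γ ^ K * n ^ (K * K) = ∏ _i : Fin K, (γ * n ^ K) := by
      rw [Finset.prod_const, Finset.card_univ, Fintype.card_fin, mul_pow, ← pow_mul]
    rw [h9]
    apply Finset.prod_le_prod
    · intro i _; positivity
    · intro i _; exact h2 (w i) (u i)
  have h10 := Finset.card_nsmul_le_sum _ _ _ h8
  refine le_trans ?_ h10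
  rw [nsmul_eq_mul]
  have h11 : n ^ K / 2 ≤ ((Finset.univ.filter
      (fun w : Fin K → V => insert z (Finset.univ.image w) ∈ G)).card : ℝ) := by
    refine le_trans ?_ (hdeg z)
    have : 0 ≤ n ^ K := by positivity
    nlinarith
  calc γ ^ K / 2 * n ^ (K + K * K) = n ^ K / 2 * (γ ^ K * n ^ (K * K)) := by ring
    _ ≤ _ := by
      apply mul_le_mul_of_nonneg_right h11
      positivity

end Abs1_aux

open Abs1_aux

/-- see the plan -/
theorem absorbers (K : ℕ) (hK : 3 ≤ K) (γ : ℝ) (hγ : 0 < γ) :
    ∃ β : ℝ, 0 < β ∧ ∃ ρ₀ : ℝ, 0 < ρ₀ ∧ ∀ ρ : ℝ, 0 < ρ → ρ ≤ ρ₀ → ∃ n₀ : ℕ,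
      ∀ (V : Type) [Fintype V] [DecidableEq V] (G : Finset (Finset V)), Unif K G →
      n₀ ≤ Fintype.card V → PD K G Finset.univ (1 / 2 + γ) → ∀ (v : V) (t : ℕ),
      t = ⌊ρ * Fintype.card V⌋₊ →
      ∃ F : Fin t → Grp V K, (∀ l, GrpOK K G (F l)) ∧ (∀ l, v ∉ gsupp (F l)) ∧
        (∀ l l', l ≠ l' → Disjoint (gsupp (F l)) (gsupp (F l'))) ∧
        ∀ (z : V) (u : Fin K → V),
          β * t ≤ ((Finset.univ.filter (fun l => Absb K G (F l) z u)).card : ℝ) := by
  set g : ℝ := min γ (1 / 2) with hg
  have hg0 : 0 < g := by rw [hg]; exact lt_min hγ (by norm_num)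
  have hg1 : g ≤ 1 / 2 := min_le_right _ _
  have hgγ : g ≤ γ := min_le_left _ _
  set α : ℝ := g ^ K / 4 with hα
  have hα0 : 0 < α := by positivity
  have hgK : g ^ K ≤ 1 := pow_le_one₀ hg0.le (by linarith)
  have hα1 : α ≤ 1 := by rw [hα]; linarith
  set R : ℕ := K + K * K with hR
  have hR0 : 0 < R := by rw [hR]; positivity
  have hRr : (0 : ℝ) < R := by exact_mod_cast hR0
  refine ⟨g ^ K / 16, by positivity, g ^ K / (16 * R ^ 2), by positivity, ?_⟩
  intro ρ hρ hρ0
  obtain ⟨n₁, hn₁⟩ := deg_count K hK (1 / 2 + g) (1 / 2 + g / 2) (by linarith) (by linarith)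
  -- n^(K+1) < exp
  have hexp : ∃ n₂ : ℕ, ∀ n : ℕ, n₂ ≤ n →
      (n : ℝ) ^ (K + 1) < Real.exp (α * (ρ * n - 1) / 4) := by
    have h1 := isLittleO_pow_exp_pos_mul_atTop (k := K + 1) (b := α * ρ / 4) (by positivity)
    have h2 := h1.def (c := Real.exp (-(α / 4)) / 2) (by positivity)
    rw [Filter.eventually_atTop] at h2
    obtain ⟨A, hA⟩ := h2
    refine ⟨⌈A⌉₊, fun n hn => ?_⟩
    have h3 := hA n (Nat.ceil_le.1 hn)
    rw [Real.norm_of_nonneg (by positivity), Real.norm_of_nonneg (Real.exp_pos _).le] at h3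
    refine lt_of_le_of_lt h3 ?_
    have h4 : Real.exp (α * (ρ * n - 1) / 4) =
        Real.exp (-(α / 4)) * Real.exp (α * ρ / 4 * n) := by
      rw [← Real.exp_add]; congr 1; ring
    rw [h4]
    have h5 := Real.exp_pos (-(α / 4))
    have h6 := Real.exp_pos (α * ρ / 4 * n)
    nlinarith [mul_pos h5 h6]
  obtain ⟨n₂, hn₂⟩ := hexp
  refine ⟨max (max n₁ n₂) (⌈16 * ((R : ℝ) ^ 2 + R) / g ^ K⌉₊ + 1), ?_⟩
  intro V _ _ G hU hn hPD v t ht
  have hn1 : n₁ ≤ Fintype.card V := le_trans (le_trans (le_max_left _ _) (le_max_left _ _)) hn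
  have hn2 : n₂ ≤ Fintype.card V := le_trans (le_trans (le_max_right _ _) (le_max_left _ _)) hn
  have hn3 : ⌈16 * ((R : ℝ) ^ 2 + R) / g ^ K⌉₊ + 1 ≤ Fintype.card V :=
    le_trans (le_max_right _ _) hn
  set n : ℝ := (Fintype.card V : ℝ) with hndef
  have hn4 : 16 * ((R : ℝ) ^ 2 + R) / g ^ K ≤ n := by
    have h1 := Nat.le_ceil (16 * ((R : ℝ) ^ 2 + R) / g ^ K)
    have h2 : ((⌈16 * ((R : ℝ) ^ 2 + R) / g ^ K⌉₊ : ℕ) : ℝ) ≤ n := by
      rw [hndef]; exact_mod_cast (Nat.le_succ _).trans hn3
    linarith
  have hnpos : 0 < n := by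
    rw [hndef]
    have : 0 < Fintype.card V := by omega
    exact_mod_cast this
  have hPD' : PD K G Finset.univ (1 / 2 + g) := by
    intro S hS hc
    refine le_trans ?_ (hPD S hS hc)
    apply mul_le_mul_of_nonneg_right _ (by positivity)
    linarith
  have hdeg := (hn₁ V G hU hn1 hPD').1
  -- the key count
  have key : ∀ X : Finset V, X.card ≤ 1 + R * t → ∀ (z : V) (u : Fin K → V),
      α * n ^ R ≤ (((Finset.univ.filter (fun p : P V K => GrpOK K G (mk p) ∧
        Absb K G (mk p) z u)).filter (fun p => Disjoint (gsupp (mk p)) X)).card : ℝ) := by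
    intro X hX z u
    have h1 := good_ge K G g hg0.le hdeg z u
    have h2 := bad1_le (V := V) K
    have h3 := bad2_le (V := V) K X
    have hsub : (Finset.univ.filter (fun p : P V K => insert z (Finset.univ.image p.1) ∈ G ∧
        ∀ i, insert (p.1 i) (Finset.univ.image (p.2 i)) ∈ G ∧
          insert (u i) (Finset.univ.image (p.2 i)) ∈ G)) ⊆
        (((Finset.univ.filter (fun p : P V K => GrpOK K G (mk p) ∧
          Absb K G (mk p) z u)).filter (fun p => Disjoint (gsupp (mk p)) X)) ∪
        (Finset.univ.filter (fun p : P V K => ¬ Function.Injective (tup p)))) ∪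
        (Finset.univ.filter (fun p : P V K => ¬ Disjoint (gsupp (mk p)) X)) := by
      intro p hp
      simp only [mem_filter, mem_univ, true_and] at hp
      simp only [mem_union, mem_filter, mem_univ, true_and]
      by_cases h4 : Function.Injective (tup p)
      · by_cases h5 : Disjoint (gsupp (mk p)) X
        · refine Or.inl (Or.inl ⟨⟨⟨fun i => (hp.2 i).1, ?_⟩, hp.1, fun i => (hp.2 i).2⟩, h5⟩)
          rw [gsupp_mk, Finset.card_image_of_injective _ h4, Finset.card_univ, card_J]
        · exact Or.inr h5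
      · exact Or.inl (Or.inr h4)
    have h4 := (Finset.card_le_card hsub).trans ((Finset.card_union_le _ _).trans
      (Nat.add_le_add_right (Finset.card_union_le _ _) _))
    have h5 : ((Finset.univ.filter (fun p : P V K => insert z (Finset.univ.image p.1) ∈ G ∧
        ∀ i, insert (p.1 i) (Finset.univ.image (p.2 i)) ∈ G ∧
          insert (u i) (Finset.univ.image (p.2 i)) ∈ G)).card : ℝ) ≤
        (((Finset.univ.filter (fun p : P V K => GrpOK K G (mk p) ∧
          Absb K G (mk p) z u)).filter (fun p => Disjoint (gsupp (mk p)) X)).card : ℝ) +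
        ((Finset.univ.filter (fun p : P V K => ¬ Function.Injective (tup p))).card : ℝ) +
        ((Finset.univ.filter (fun p : P V K => ¬ Disjoint (gsupp (mk p)) X)).card : ℝ) := by
      exact_mod_cast h4
    have h6 : ((Finset.univ.filter (fun p : P V K => ¬ Function.Injective (tup p))).card : ℝ) ≤
        (R : ℝ) ^ 2 * n ^ (R - 1) := by
      have : ((Finset.univ.filter (fun p : P V K => ¬ Function.Injective (tup p))).card : ℝ) ≤
        ((R * R * Fintype.card V ^ (R - 1) : ℕ) : ℝ) := by exact_mod_cast h2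
      refine this.trans (le_of_eq ?_)
      push_cast
      ring
    have h7 : ((Finset.univ.filter (fun p : P V K => ¬ Disjoint (gsupp (mk p)) X)).card : ℝ) ≤
        R * ((1 + R * t) * n ^ (R - 1)) := by
      have h8 : ((Finset.univ.filter (fun p : P V K => ¬ Disjoint (gsupp (mk p)) X)).card : ℝ) ≤
        ((R * (X.card * Fintype.card V ^ (R - 1)) : ℕ) : ℝ) := by exact_mod_cast h3
      refine h8.trans ?_
      push_cast
      have h9 : (X.card : ℝ) ≤ 1 + R * t := by exact_mod_cast hX
      gcongr
    have h8 : (t : ℝ) ≤ g ^ K / (16 * R ^ 2) * n := by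
      rw [ht]
      refine (Nat.floor_le (by positivity)).trans ?_
      exact mul_le_mul_of_nonneg_right hρ0 hnpos.le
    have h9 : n ^ R = n * n ^ (R - 1) := by
      rw [← pow_succ']; congr 1; omega
    have h10 : 0 < n ^ (R - 1) := by positivity
    have h11 : (R : ℝ) ^ 2 * t ≤ g ^ K / 16 * n := by
      have : (R : ℝ) ^ 2 * t ≤ (R : ℝ) ^ 2 * (g ^ K / (16 * R ^ 2) * n) := by gcongr
      refine this.trans (le_of_eq ?_)
      field_simp
    have h12 : (R : ℝ) ^ 2 + R ≤ g ^ K / 16 * n := by
      have h13 : 0 < g ^ K := by positivity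
      rw [div_le_iff₀ h13] at hn4
      linarith
    have h13 : α * n ^ R = α * n * n ^ (R - 1) := by rw [h9]; ring
    have h14 : g ^ K / 2 * n ^ R = g ^ K / 2 * n * n ^ (R - 1) := by rw [h9]; ring
    rw [h13]
    rw [h14] at h1
    have h15 : ((R : ℝ) ^ 2 + R * (1 + R * t)) * n ^ (R - 1) ≤
        (g ^ K / 8 * n) * n ^ (R - 1) := by
      apply mul_le_mul_of_nonneg_right _ h10.le
      nlinarith
    have h16 : (α * n) * n ^ (R - 1) ≤ (g ^ K / 2 * n - g ^ K / 8 * n) * n ^ (R - 1) := by
      apply mul_le_mul_of_nonneg_right _ h10.le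
      rw [hα]
      have : 0 < g ^ K * n := by positivity
      linarith
    nlinarith
  -- the selection
  have hVne : Nonempty V := ⟨v⟩
  set Ω : Finset (P V K) := Finset.univ.filter (fun p => GrpOK K G (mk p)) with hΩ
  have hΩle : (Ω.card : ℝ) ≤ n ^ R := by
    have h1 : Ω.card ≤ Fintype.card (P V K) := Finset.card_le_univ _
    have h2 : Fintype.card (P V K) = Fintype.card V ^ R := by
      simp only [P, Fintype.card_prod, Fintype.card_fun, Fintype.card_fin]
      rw [hR, pow_add, pow_mul]
    rw [h2] at h1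
    rw [hndef]
    exact_mod_cast h1
  have hΩne : Ω.Nonempty := by
    have h1 := key ∅ (by simp) v (fun _ => v)
    have h2 : (0 : ℝ) < (((Finset.univ.filter (fun p : P V K => GrpOK K G (mk p) ∧
        Absb K G (mk p) v (fun _ => v))).filter
          (fun p => Disjoint (gsupp (mk p)) ∅)).card : ℝ) :=
      lt_of_lt_of_le (by positivity) h1
    have h3 : 0 < ((Finset.univ.filter (fun p : P V K => GrpOK K G (mk p) ∧
        Absb K G (mk p) v (fun _ => v))).filter
          (fun p => Disjoint (gsupp (mk p)) ∅)).card := by exact_mod_cast h2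
    obtain ⟨p, hp⟩ := Finset.card_pos.1 h3
    simp only [mem_filter, mem_univ, true_and] at hp
    exact ⟨p, by rw [hΩ]; simpa using hp.1.1⟩
  obtain ⟨F, hF1, hF2, hF3⟩ := selection (V := V) (ι := P V K) (I := V × (Fin K → V)) Ω hΩne
    (fun p => gsupp (mk p)) R t
    (by
      intro p hp
      rw [hΩ, Finset.mem_filter] at hp
      exact hp.2.2.le)
    {v} (fun zu => Ω.filter (fun p => Absb K G (mk p) zu.1 zu.2))
    (fun zu => Finset.filter_subset _ _) α hα0 hα1
    (by
      intro X _ hX zu
      have h1 := key X (by simpa using hX) zu.1 zu.2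
      have h2 : Ω.filter (fun p => Absb K G (mk p) zu.1 zu.2) = Finset.univ.filter
          (fun p : P V K => GrpOK K G (mk p) ∧ Absb K G (mk p) zu.1 zu.2) := by
        rw [hΩ, Finset.filter_filter]
      rw [h2]
      refine le_trans ?_ h1
      exact mul_le_mul_of_nonneg_left hΩle hα0.le)
    (by
      have h1 : Fintype.card (V × (Fin K → V)) = Fintype.card V ^ (K + 1) := by
        simp only [Fintype.card_prod, Fintype.card_fun, Fintype.card_fin]
        ring
      rw [h1]
      push_cast
      refine lt_of_lt_of_le (hn₂ _ hn2) ?_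
      apply Real.exp_le_exp.2
      have h2 : ρ * n - 1 ≤ t := by
        rw [ht]
        have := (Nat.lt_floor_add_one (ρ * n)).le
        linarith
      have h3 : α * (ρ * n - 1) ≤ α * t := mul_le_mul_of_nonneg_left h2 hα0.le
      have h4 : α * (ρ * (Fintype.card V : ℝ) - 1) = α * (ρ * n - 1) := by rw [hndef]
      rw [h4]
      linarith)
  refine ⟨fun l => mk (F l), ?_, ?_, hF2, ?_⟩
  · intro l
    have h1 := (hF1 l).1
    rw [hΩ, Finset.mem_filter] at h1
    exact h1.2
  · intro l
    have h1 := (hF1 l).2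
    rw [Finset.disjoint_singleton_right] at h1
    exact h1
  · intro z u
    have h1 := hF3 (z, u)
    have h2 : g ^ K / 16 * (t : ℝ) = α * t / 4 := by rw [hα]; ring
    rw [h2]
    refine h1.trans ?_
    have h3 : (Finset.univ.filter (fun l => F l ∈ Ω.filter
        (fun p => Absb K G (mk p) z u))).card ≤
        (Finset.univ.filter (fun l => Absb K G (mk (F l)) z u)).card := by
      apply Finset.card_le_card
      intro l hl
      simp only [mem_filter, mem_univ, true_and] at hl ⊢
      exact hl.2
    exact_mod_cast h3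

end Pool.Agent.helper21.RL
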