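import Pool.Agent.helper21.RL.Defs

/-! Module AbsAll: absorbing the last vertices. -/

set_option autoImplicit false

open Finset

namespace Pool.Agent.helper21.RL

namespace AbsAll

theorem mem_chs {K j x : ℕ} : x ∈ chs K j ↔ K * j + 1 ≤ x ∧ x < K * j + 1 + K := by
  simp only [chs, Finset.mem_image, Finset.mem_range]
  constructor
  · rintro ⟨i, hi, rfl⟩
    omega
  · rintro ⟨h1, h2⟩
    exact ⟨x - (K * j + 1), by omega, by omega⟩

theorem ed_of_mem {K j x : ℕ} (hK : 0 < K) (hx : x ∈ chs K j) : ed K x = j := by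
  rw [mem_chs] at hx
  unfold ed
  have h1 : x - 1 = K * j + (x - 1 - K * j) := by omega
  rw [h1, Nat.mul_add_div hK]
  have h2 : (x - 1 - K * j) / K = 0 := Nat.div_eq_of_lt (by omega)
  omega

theorem mem_chs_ed {K x : ℕ} (hK : 0 < K) (hx : x ≠ 0) : x ∈ chs K (ed K x) := by
  rw [mem_chs]
  unfold ed
  have h1 := Nat.div_add_mod (x - 1) K
  have h2 := Nat.mod_lt (x - 1) hK
  omega

theorem chs_disj {K j j' x : ℕ} (hK : 0 < K) (hx : x ∈ chs K j) (hx' : x ∈ chs K j') : j = j' := by
  rw [← ed_of_mem hK hx, ← ed_of_mem hK hx']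

theorem card_chs {K j : ℕ} : (chs K j).card = K := by
  unfold chs
  rw [Finset.card_image_of_injective, Finset.card_range]
  intro a b hab
  simp only at hab
  omega

theorem card_vs {K : ℕ} (hK : 0 < K) (A : Finset ℕ) : (vs K A).card = K * A.card + 1 := by
  unfold vs
  rw [Finset.card_insert_of_notMem, Finset.card_biUnion]
  · simp only [card_chs, Finset.sum_const, smul_eq_mul]
    ring
  · intro x _ y _ hxy
    rw [Function.onFun, Finset.disjoint_left]
    intro z hz hz'
    exact hxy (chs_disj hK hz hz')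
  · intro h
    rw [Finset.mem_biUnion] at h
    obtain ⟨j, _, hj⟩ := h
    rw [mem_chs] at hj
    omega

theorem chs_sub_vs {K j : ℕ} {A : Finset ℕ} (hj : j ∈ A) : chs K j ⊆ vs K A := by
  intro x hx
  unfold vs
  rw [Finset.mem_insert, Finset.mem_biUnion]
  exact Or.inr ⟨j, hj, hx⟩

theorem mem_vs {K x : ℕ} {A : Finset ℕ} : x ∈ vs K A ↔ x = 0 ∨ ∃ j ∈ A, x ∈ chs K j := by
  unfold vs
  rw [Finset.mem_insert, Finset.mem_biUnion]

theorem par_mem_vs {K j : ℕ} {par : ℕ → ℕ} {A : Finset ℕ} (hK : 0 < K)
    (h : par j ≠ 0 → ed K (par j) ∈ A) : par j ∈ vs K A := by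
  rw [mem_vs]
  by_cases h0 : par j = 0
  · exact Or.inl h0
  · exact Or.inr ⟨_, h h0, mem_chs_ed hK h0⟩

theorem edg_sub_vs {K j : ℕ} {par : ℕ → ℕ} {A : Finset ℕ} (hK : 0 < K)
    (hcl : Closed K par A) (hj : j ∈ A) : edg K par j ⊆ vs K A := by
  intro x hx
  unfold edg at hx
  rw [Finset.mem_insert] at hx
  rcases hx with rfl | hx
  · exact par_mem_vs hK (hcl j hj)
  · exact chs_sub_vs hj hx

variable {V : Type} [Fintype V] [DecidableEq V]

/-- the state of the absorption -/
structure St (G : Finset (Finset V)) (K m : ℕ) {t : ℕ} (par : ℕ → ℕ) (A : Finset ℕ) (v : V)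
    (F : Fin t → Grp V K) (jj q : Fin t → Fin K → ℕ) (A' : Finset ℕ) (Us : Finset (Fin t))
    (ψ : ℕ → V) : Prop where
  sub : A ⊆ A'
  subm : A' ⊆ Finset.range m
  cl : Closed K par A'
  emb : Emb G K par A' v ψ
  card : Us.card + A.card ≤ A'.card
  val : ∀ l, l ∉ Us → ∀ i, ψ (q l i) = (F l).w i
  img : ∀ l, l ∉ Us → ∀ i, ((edg K par (jj l i)).erase (q l i)).image ψ =
    Finset.univ.image ((F l).A i)

theorem step {G : Finset (Finset V)} {K m Δ t : ℕ}
    (hK : 3 ≤ K) {par : ℕ → ℕ} (hT : Tree K m Δ par)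
    (hV : Fintype.card V = K * m + 1) {A : Finset ℕ} {v : V} {ψ : ℕ → V} {F : Fin t → Grp V K}
    {jj q : Fin t → Fin K → ℕ} (hE : GrpEmb m par A F jj q ψ)
    (hab : ∀ (z : V) (u : Fin K → V),
      m ≤ A.card + (Finset.univ.filter (fun l => Absb K G (F l) z u)).card)
    {A' : Finset ℕ} {Us : Finset (Fin t)} {φ : ℕ → V} (hS : St G K m par A v F jj q A' Us φ)
    (hne : A' ≠ Finset.range m) :
    ∃ j, j ∉ A' ∧ ∃ Us' φ', St G K m par A v F jj q (insert j A') Us' φ' := by
  have hK0 : 0 < K := by omega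
  -- the next edge
  have hex : (Finset.range m \ A').Nonempty := by
    rw [Finset.sdiff_nonempty]
    intro h
    exact hne (Finset.Subset.antisymm hS.subm h)
  obtain ⟨j, hj, hjmin⟩ := Finset.exists_min_image _ id hex
  rw [Finset.mem_sdiff, Finset.mem_range] at hj
  obtain ⟨hjm, hjA⟩ := hj
  have hlt : ∀ i, i < j → i ∈ A' := by
    intro i hi
    by_contra hiA
    have := hjmin i (by rw [Finset.mem_sdiff, Finset.mem_range]; exact ⟨by omega, hiA⟩)
    simp only [id] at this
    omega
  have hparj : par j ≠ 0 → ed K (par j) ∈ A' := by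
    intro h0
    apply hlt
    unfold ed
    rw [Nat.div_lt_iff_lt_mul hK0]
    have := hT.le j
    rw [mul_comm j K]
    omega
  have hcl' : Closed K par (insert j A') := by
    intro i hi h0
    rw [Finset.mem_insert] at hi ⊢
    rcases hi with rfl | hi
    · exact Or.inr (hparj h0)
    · exact Or.inr (hS.cl i hi h0)
  have hcardA' : A'.card < m := by
    have h1 : (insert j A').card ≤ m := by
      have h2 : insert j A' ⊆ Finset.range m := by
        intro x hx
        rw [Finset.mem_insert] at hx
        rcases hx with rfl | hx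
        · exact Finset.mem_range.2 hjm
        · exact hS.subm hx
      simpa using Finset.card_le_card h2
    rw [Finset.card_insert_of_notMem hjA] at h1
    omega
  -- unused vertices
  set I : Finset V := (vs K A').image φ with hI
  have hIcard : I.card ≤ K * A'.card + 1 := by
    rw [← card_vs hK0 A']
    exact Finset.card_image_le
  have hIc : K ≤ (Iᶜ).card := by
    rw [Finset.card_compl, hV]
    have h1 : K * A'.card + K ≤ K * m := by
      have : K * (A'.card + 1) ≤ K * m := Nat.mul_le_mul_left K hcardA'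
      linarith [Nat.mul_succ K A'.card]
    omega
  obtain ⟨u, huinj, huI⟩ : ∃ u : Fin K → V, Function.Injective u ∧ ∀ i, u i ∉ I := by
    obtain ⟨T, hT1, hT2⟩ := Finset.exists_subset_card_eq hIc
    let e := T.equivFinOfCardEq hT2
    refine ⟨fun i => (e.symm i : V), ?_, ?_⟩
    · intro a b hab
      exact e.symm.injective (Subtype.ext hab)
    · intro i
      have := hT1 (e.symm i).2
      rwa [Finset.mem_compl] at this
  set z : V := φ (par j) with hz
  obtain ⟨l, hlU, hlA⟩ : ∃ l, l ∉ Us ∧ Absb K G (F l) z u := by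
    by_contra hcon
    push Not at hcon
    have h1 : (Finset.univ.filter (fun l => Absb K G (F l) z u)) ⊆ Us := by
      intro l hl
      rw [Finset.mem_filter] at hl
      by_contra hlU
      exact hcon l hlU hl.2
    have h2 := Finset.card_le_card h1
    have h3 := hab z u
    have h4 := hS.card
    omega
  -- facts on q
  have hqA : ∀ l i, q l i ∈ vs K A' := fun l i =>
    chs_sub_vs (hS.sub (hE.memA l i)) (hE.memq l i)
  have hqinj : ∀ l i l' i', q l i = q l' i' → l = l' ∧ i = i' := by
    intro l i l' i' h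
    apply hE.disj
    rw [h]
    unfold edg
    exact Finset.mem_insert_of_mem (hE.memq l' i')
  have hqj : ∀ l i, q l i ∉ chs K j := by
    intro l i h
    have := chs_disj hK0 (hE.memq l i) h
    exact hjA (this ▸ hS.sub (hE.memA l i))
  have hvsj : ∀ y ∈ vs K A', y ∉ chs K j := by
    intro y hy hyj
    rw [mem_vs] at hy
    rcases hy with rfl | ⟨j', hj', hy⟩
    · rw [mem_chs] at hyj
      omega
    · exact hjA (chs_disj hK0 hy hyj ▸ hj')
  have hq0 : ∀ l i, q l i ≠ 0 := by
    intro l i h
    have := hE.memq l i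
    rw [mem_chs] at this
    omega
  -- the new map
  classical
  let φ' : ℕ → V := fun y =>
    if h : ∃ i, q l i = y then u h.choose
    else if h : y ∈ chs K j then (F l).w ⟨y - (K * j + 1), by rw [mem_chs] at h; omega⟩
    else φ y
  have hφq : ∀ i, φ' (q l i) = u i := by
    intro i
    have h : ∃ i', q l i' = q l i := ⟨i, rfl⟩
    have h2 : h.choose = i := (hqinj l _ l i h.choose_spec).2
    simp only [φ']
    rw [dif_pos h, h2]
  have hφc : ∀ i : Fin K, φ' (K * j + 1 + i) = (F l).w i := by
    intro i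
    have hi : K * j + 1 + (i : ℕ) ∈ chs K j := by
      rw [mem_chs]
      have := i.2
      omega
    have h : ¬ ∃ i', q l i' = K * j + 1 + (i : ℕ) := by
      rintro ⟨i', hi'⟩
      exact hqj l i' (hi' ▸ hi)
    simp only [φ']
    rw [dif_neg h, dif_pos hi]
    congr 1
    ext
    simp
  have hφo : ∀ y, (∀ i, q l i ≠ y) → y ∉ chs K j → φ' y = φ y := by
    intro y h1 h2
    have h : ¬ ∃ i, q l i = y := by
      rintro ⟨i, hi⟩
      exact h1 i hi
    simp only [φ']
    rw [dif_neg h, dif_neg h2]
  have hφv : ∀ y ∈ vs K A', (∀ i, q l i ≠ y) → φ' y = φ y := fun y hy h1 =>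
    hφo y h1 (hvsj y hy)
  have hchs : ∀ y ∈ chs K j, ∃ i : Fin K, y = K * j + 1 + i := by
    intro y hy
    rw [mem_chs] at hy
    exact ⟨⟨y - (K * j + 1), by omega⟩, by simp only; omega⟩
  have hwφ : ∀ i, (F l).w i = φ (q l i) := fun i => (hS.val l hlU i).symm
  -- three kinds of vertices
  have hkind : ∀ y ∈ vs K (insert j A'), (∃ i, y = q l i ∧ φ' y = u i) ∨
      (∃ i : Fin K, y = K * j + 1 + i ∧ φ' y = φ (q l i)) ∨
      (y ∈ vs K A' ∧ (∀ i, q l i ≠ y) ∧ φ' y = φ y) := by
    intro y hy
    by_cases h1 : ∃ i, q l i = y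
    · obtain ⟨i, rfl⟩ := h1
      exact Or.inl ⟨i, rfl, hφq i⟩
    · have h1' : ∀ i, q l i ≠ y := fun i hi => h1 ⟨i, hi⟩
      by_cases h2 : y ∈ chs K j
      · obtain ⟨i, rfl⟩ := hchs y h2
        refine Or.inr (Or.inl ⟨i, rfl, ?_⟩)
        rw [hφc, hwφ]
      · have h3 : y ∈ vs K A' := by
          rw [mem_vs] at hy ⊢
          rcases hy with h | ⟨j', hj', hy⟩
          · exact Or.inl h
          · rw [Finset.mem_insert] at hj'
            rcases hj' with rfl | hj'
            · exact absurd hy h2
            · exact Or.inr ⟨j', hj', hy⟩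
        exact Or.inr (Or.inr ⟨h3, h1', hφv y h3 h1'⟩)
  have hφI : ∀ y ∈ vs K A', φ y ∈ I := fun y hy => Finset.mem_image_of_mem φ hy
  have hinjA : ∀ y ∈ vs K A', ∀ y' ∈ vs K A', φ y = φ y' → y = y' := fun y hy y' hy' h =>
    hS.emb.inj hy hy' h
  have hinj : Set.InjOn φ' ↑(vs K (insert j A')) := by
    intro y hy y' hy' h
    rcases hkind y hy with ⟨i, e, f⟩ | ⟨i, e, f⟩ | ⟨e, g, f⟩ <;>
    rcases hkind y' hy' with ⟨i', e', f'⟩ | ⟨i', e', f'⟩ | ⟨e', g', f'⟩
    · rw [f, f'] at h
      rw [e, e', huinj h]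
    · rw [f, f'] at h
      exact absurd (h ▸ hφI _ (hqA l i')) (huI i)
    · rw [f, f'] at h
      exact absurd (h ▸ hφI _ e') (huI i)
    · rw [f, f'] at h
      exact absurd (h ▸ hφI _ (hqA l i)) (huI i')
    · rw [f, f'] at h
      have h2 := (hqinj l i l i' (hinjA _ (hqA l i) _ (hqA l i') h)).2
      rw [e, e', h2]
    · rw [f, f'] at h
      exact absurd (hinjA _ (hqA l i) _ e' h) (g' i)
    · rw [f, f'] at h
      exact absurd (h ▸ hφI _ e) (huI i')
    · rw [f, f'] at h
      exact absurd (hinjA _ e _ (hqA l i') h).symm (g i')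
    · rw [f, f'] at h
      exact hinjA _ e _ e' h
  have hroot : φ' 0 = v := by
    rw [hφv 0 (by rw [mem_vs]; exact Or.inl rfl) (fun i => hq0 l i)]
    exact hS.emb.root
  have hedge : ∀ i ∈ insert j A', (edg K par i).image φ' ∈ G := by
    intro j' hj'
    rw [Finset.mem_insert] at hj'
    rcases hj' with rfl | hj'
    · -- the new edge
      have h1 : (edg K par j').image φ' = insert z (Finset.univ.image (F l).w) := by
        unfold edg
        rw [Finset.image_insert]
        congr 1
        · exact hφv _ (par_mem_vs hK0 hparj)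
            (fun i hi => hE.leaf l i j' (Finset.mem_range.2 hjm) hi.symm)
        · ext x
          simp only [Finset.mem_image, Finset.mem_univ, true_and]
          constructor
          · rintro ⟨y, hy, rfl⟩
            obtain ⟨i, rfl⟩ := hchs y hy
            exact ⟨i, (hφc i).symm⟩
          · rintro ⟨i, rfl⟩
            refine ⟨K * j' + 1 + i, ?_, hφc i⟩
            rw [mem_chs]
            have := i.2
            omega
      rw [h1]
      exact hlA.1
    · by_cases hjj : ∃ i, jj l i = j'
      · obtain ⟨i, rfl⟩ := hjj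
        have hmem : q l i ∈ edg K par (jj l i) := by
          unfold edg
          exact Finset.mem_insert_of_mem (hE.memq l i)
        have h1 : (edg K par (jj l i)).image φ' =
            insert (u i) (Finset.univ.image ((F l).A i)) := by
          rw [← Finset.insert_erase hmem, Finset.image_insert, hφq, ← hS.img l hlU i]
          congr 1
          apply Finset.image_congr
          intro y hy
          rw [Finset.mem_coe, Finset.mem_erase] at hy
          refine hφv y (edg_sub_vs hK0 hS.cl hj' hy.2) ?_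
          intro i' hi'
          have h2 := (hE.disj l i' l i (hi' ▸ hy.2)).2
          exact hy.1 (by rw [← hi', h2])
        rw [h1]
        exact hlA.2 i
      · have h1 : (edg K par j').image φ' = (edg K par j').image φ := by
          apply Finset.image_congr
          intro y hy
          rw [Finset.mem_coe] at hy
          refine hφv y (edg_sub_vs hK0 hS.cl hj' hy) ?_
          intro i hi
          rw [← hi] at hy
          unfold edg at hy
          rw [Finset.mem_insert] at hy
          rcases hy with hy | hy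
          · exact hE.leaf l i j' (hS.subm hj') hy.symm
          · exact hjj ⟨i, chs_disj hK0 (hE.memq l i) hy⟩
        rw [h1]
        exact hS.emb.edge j' hj'
  refine ⟨j, hjA, insert l Us, φ', ?_⟩
  refine ⟨hS.sub.trans (Finset.subset_insert _ _), ?_, hcl', ⟨hinj, hroot, hedge⟩, ?_, ?_, ?_⟩
  · intro x hx
    rw [Finset.mem_insert] at hx
    rcases hx with rfl | hx
    · exact Finset.mem_range.2 hjm
    · exact hS.subm hx
  · rw [Finset.card_insert_of_notMem hjA]
    have := Finset.card_insert_le l Us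
    have := hS.card
    omega
  · intro l' hl' i
    rw [Finset.mem_insert, not_or] at hl'
    rw [hφv _ (hqA l' i) (fun i' hi' => hl'.1 (hqinj l i' l' i hi').1.symm)]
    exact hS.val l' hl'.2 i
  · intro l' hl' i
    rw [Finset.mem_insert, not_or] at hl'
    rw [← hS.img l' hl'.2 i]
    apply Finset.image_congr
    intro y hy
    rw [Finset.mem_coe, Finset.mem_erase] at hy
    refine hφv y (edg_sub_vs hK0 hS.cl (hS.sub (hE.memA l' i)) hy.2) ?_
    intro i' hi'
    exact hl'.1 (hE.disj l i' l' i (hi' ▸ hy.2)).1.symm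

end AbsAll

open AbsAll in
/-- PROOF. Induction. State: `A' ⊇ A` closed, `A' ⊆ range m`, `ψ'` with `Emb G K par A' v ψ'`, a set
`Us` of used groups with `|Us| + |A| ≤ |A'|`, and for `l ∉ Us` the conditions `val`, `img` of
`GrpEmb` hold for `ψ'`. -/
theorem absorb_all {V : Type} [Fintype V] [DecidableEq V] {G : Finset (Finset V)} {K m Δ t : ℕ}
    (hK : 3 ≤ K) (hG : Unif K G) {par : ℕ → ℕ} (hT : Tree K m Δ par)
    (hV : Fintype.card V = K * m + 1) {A : Finset ℕ} (hA : A ⊆ Finset.range m)
    (hcl : Closed K par A) {v : V} {ψ : ℕ → V} (hψ : Emb G K par A v ψ) {F : Fin t → Grp V K}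
    (hF : ∀ l, GrpOK K G (F l))
    (hFd : ∀ l l', l ≠ l' → Disjoint (gsupp (F l)) (gsupp (F l')))
    {jj q : Fin t → Fin K → ℕ} (hE : GrpEmb m par A F jj q ψ)
    (hab : ∀ (z : V) (u : Fin K → V),
      m ≤ A.card + (Finset.univ.filter (fun l => Absb K G (F l) z u)).card) :
    ∃ ψ' : ℕ → V, Emb G K par (Finset.range m) v ψ' := by
  have key : ∀ n, ∀ A' : Finset ℕ, ∀ Us : Finset (Fin t), ∀ φ : ℕ → V,
      St G K m par A v F jj q A' Us φ → m - A'.card ≤ n →
      ∃ ψ' : ℕ → V, Emb G K par (Finset.range m) v ψ' := by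
    intro n
    induction n with
    | zero =>
      intro A' Us φ hS hn
      have h1 : A' = Finset.range m := by
        apply Finset.eq_of_subset_of_card_le hS.subm
        rw [Finset.card_range]
        omega
      exact ⟨φ, h1 ▸ hS.emb⟩
    | succ n ih =>
      intro A' Us φ hS hn
      by_cases hne : A' = Finset.range m
      · exact ⟨φ, hne ▸ hS.emb⟩
      · obtain ⟨j, hj, Us', φ', hS'⟩ := step hK hT hV hE hab hS hne
        refine ih _ _ _ hS' ?_
        rw [Finset.card_insert_of_notMem hj]
        omega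
  refine key m A ∅ ψ ⟨Finset.Subset.refl _, hA, hcl, hψ, by simp, ?_, ?_⟩ (by omega)
  · intro l _ i
    exact hE.val l i
  · intro l _ i
    exact hE.img l i

end Pool.Agent.helper21.RL
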