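import Pool.Agent.helper21.RL.Defs

/-! Basic lemmas on the encoding of loose trees and on the hypergraph conditions. -/

set_option autoImplicit false

open Finset

namespace Pool.Agent.helper21.RL

theorem mem_chs {K j y : ℕ} : y ∈ chs K j ↔ ∃ i < K, y = K * j + 1 + i := by
  unfold chs
  rw [Finset.mem_image]
  constructor
  · rintro ⟨i, hi, rfl⟩
    exact ⟨i, Finset.mem_range.1 hi, rfl⟩
  · rintro ⟨i, hi, rfl⟩
    exact ⟨i, Finset.mem_range.2 hi, rfl⟩

theorem chs_card (K j : ℕ) : (chs K j).card = K := by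
  unfold chs
  rw [Finset.card_image_of_injective, Finset.card_range]
  intro a b h
  simpa using h

theorem ed_of_mem {K j y : ℕ} (h : y ∈ chs K j) : ed K y = j := by
  obtain ⟨i, hi, rfl⟩ := mem_chs.1 h
  unfold ed
  have h1 : K * j + 1 + i - 1 = i + K * j := by omega
  rw [h1, Nat.add_mul_div_left _ _ (by omega), Nat.div_eq_of_lt hi, zero_add]

theorem pos_of_mem_chs {K j y : ℕ} (h : y ∈ chs K j) : K * j < y := by
  obtain ⟨i, hi, rfl⟩ := mem_chs.1 h
  omega

theorem le_of_mem_chs {K j y : ℕ} (h : y ∈ chs K j) : y ≤ K * (j + 1) := by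
  obtain ⟨i, hi, rfl⟩ := mem_chs.1 h
  rw [Nat.mul_add, Nat.mul_one]
  omega

theorem mem_chs_ed {K y : ℕ} (hK : 1 ≤ K) (hy : y ≠ 0) : y ∈ chs K (ed K y) := by
  rw [mem_chs]
  refine ⟨(y - 1) % K, Nat.mod_lt _ (by omega), ?_⟩
  unfold ed
  have := Nat.div_add_mod (y - 1) K
  omega

theorem chs_disjoint {K i j : ℕ} (h : i ≠ j) : Disjoint (chs K i) (chs K j) := by
  rw [Finset.disjoint_left]
  intro y h1 h2
  exact h ((ed_of_mem h1).symm.trans (ed_of_mem h2))

theorem zero_notMem_chs (K j : ℕ) : 0 ∉ chs K j := fun h => by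
  have := pos_of_mem_chs h
  omega

theorem ed_lt {K j y : ℕ} (hK : 1 ≤ K) (hy : y ≠ 0) (h : y ≤ K * j) : ed K y < j := by
  have h1 := pos_of_mem_chs (mem_chs_ed hK hy)
  have h2 : K * ed K y < K * j := by omega
  exact lt_of_mul_lt_mul_left h2 (Nat.zero_le _)

theorem par_notMem_chs {K j i : ℕ} {par : ℕ → ℕ} (hpar : ∀ j, par j ≤ K * j) (h : j ≤ i) :
    par j ∉ chs K i := fun h1 => by
  have h2 := pos_of_mem_chs h1
  have h3 := hpar j
  have h4 : K * j ≤ K * i := Nat.mul_le_mul_left _ h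
  omega

theorem edg_card {K j : ℕ} {par : ℕ → ℕ} (hpar : ∀ j, par j ≤ K * j) :
    (edg K par j).card = K + 1 := by
  unfold edg
  rw [Finset.card_insert_of_notMem (par_notMem_chs hpar le_rfl), chs_card]

theorem mem_edg {K j y : ℕ} {par : ℕ → ℕ} : y ∈ edg K par j ↔ y = par j ∨ y ∈ chs K j := by
  unfold edg
  rw [Finset.mem_insert]

theorem mem_vs {K y : ℕ} {A : Finset ℕ} : y ∈ vs K A ↔ y = 0 ∨ ∃ j ∈ A, y ∈ chs K j := by
  unfold vs
  rw [Finset.mem_insert, Finset.mem_biUnion]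

theorem zero_mem_vs (K : ℕ) (A : Finset ℕ) : 0 ∈ vs K A := mem_vs.2 (Or.inl rfl)

theorem chs_subset_vs {K j : ℕ} {A : Finset ℕ} (h : j ∈ A) : chs K j ⊆ vs K A :=
  fun _ hy => mem_vs.2 (Or.inr ⟨j, h, hy⟩)

/-- membership in `vs` for a child -/
theorem mem_vs_of_chs {K j y : ℕ} {A : Finset ℕ} (h : y ∈ chs K j) : y ∈ vs K A ↔ j ∈ A := by
  constructor
  · intro h1
    rcases mem_vs.1 h1 with rfl | ⟨i, hi, h2⟩
    · exact absurd h (zero_notMem_chs K j)
    · rwa [← ed_of_mem h, ed_of_mem h2]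
  · intro h1
    exact chs_subset_vs h1 h

theorem mem_vs_iff {K y : ℕ} {A : Finset ℕ} (hK : 1 ≤ K) (hy : y ≠ 0) :
    y ∈ vs K A ↔ ed K y ∈ A := mem_vs_of_chs (mem_chs_ed hK hy)

theorem vs_mono {K : ℕ} {A A' : Finset ℕ} (h : A ⊆ A') : vs K A ⊆ vs K A' := by
  intro y hy
  rcases mem_vs.1 hy with rfl | ⟨j, hj, h1⟩
  · exact zero_mem_vs _ _
  · exact mem_vs.2 (Or.inr ⟨j, h hj, h1⟩)

theorem vs_card (K : ℕ) (A : Finset ℕ) : (vs K A).card = K * A.card + 1 := by
  unfold vs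
  rw [Finset.card_insert_of_notMem]
  · rw [Finset.card_biUnion (fun i _ j _ h => chs_disjoint h)]
    simp [chs_card, mul_comm]
  · rw [Finset.mem_biUnion]
    rintro ⟨j, -, h⟩
    exact zero_notMem_chs K j h

theorem vs_range (K m : ℕ) (hK : 1 ≤ K) : vs K (Finset.range m) = Finset.range (K * m + 1) := by
  ext y
  rcases eq_or_ne y 0 with rfl | hy
  · simp [zero_mem_vs]
  · rw [mem_vs_iff hK hy, Finset.mem_range, Finset.mem_range]
    constructor
    · intro h
      have h1 := le_of_mem_chs (mem_chs_ed hK hy)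
      have h2 : K * (ed K y + 1) ≤ K * m := Nat.mul_le_mul_left _ h
      omega
    · intro h
      exact ed_lt hK hy (by omega)

theorem par_mem_vs {K j : ℕ} {par : ℕ → ℕ} {A : Finset ℕ} (hK : 1 ≤ K) (hA : Closed K par A)
    (hj : j ∈ A) : par j ∈ vs K A := by
  by_cases h : par j = 0
  · rw [h]; exact zero_mem_vs _ _
  · exact (mem_vs_iff hK h).2 (hA j hj h)

theorem edg_subset_vs {K j : ℕ} {par : ℕ → ℕ} {A : Finset ℕ} (hK : 1 ≤ K)
    (hA : Closed K par A) (hj : j ∈ A) : edg K par j ⊆ vs K A := by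
  intro y hy
  rcases mem_edg.1 hy with rfl | h
  · exact par_mem_vs hK hA hj
  · exact chs_subset_vs hj h

theorem closed_range {K m : ℕ} {par : ℕ → ℕ} (hK : 1 ≤ K) (hpar : ∀ j, par j ≤ K * j) :
    Closed K par (Finset.range m) := fun j hj h =>
  Finset.mem_range.2 ((ed_lt hK h (hpar j)).trans (Finset.mem_range.1 hj))

section
variable {V : Type*} [DecidableEq V]

theorem PD.mono {K : ℕ} {G : Finset (Finset V)} {U : Finset V} {δ δ' : ℝ} (h : PD K G U δ)
    (hδ : δ' ≤ δ) : PD K G U δ' := fun S hS hc =>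
  (mul_le_mul_of_nonneg_right hδ (by positivity)).trans (h S hS hc)

theorem Ext.mono {K : ℕ} {G : Finset (Finset V)} {U U' : Finset V} {M M' : ℝ} (h : Ext K G U M)
    (hU : U ⊆ U') (hM : M' ≤ M) : Ext K G U' M' := by
  refine ⟨fun X hX a => ?_, fun X hX a b hab => ?_⟩
  · obtain ⟨f, h1, h2, h3, h4⟩ := h.1 X (hX.trans hM) a
    exact ⟨f, h1, h2.trans hU, h3, h4⟩
  · obtain ⟨f, h1, h2, h3, h4⟩ := h.2 X (hX.trans hM) a b hab
    exact ⟨f, h1, h2.trans hU, h3, h4⟩

/-- the degree condition is inherited by large subsets -/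
theorem PD.restrict {K : ℕ} [Fintype V] {G : Finset (Finset V)} {U : Finset V} {δ η : ℝ}
    (h : PD K G Finset.univ δ) (hη : 0 ≤ δ - η)
    (hU : 2 * ((Finset.univ \ U).card : ℝ) ≤ η * Fintype.card V) : PD K G U (δ - η) := by
  intro S hS hc
  have h1 := h S (Finset.subset_univ _) hc
  rw [Finset.card_univ] at h1
  set n : ℝ := (Fintype.card V : ℝ) with hn
  have hn0 : 0 ≤ n := by positivity
  have h2 : ((Finset.univ ×ˢ Finset.univ : Finset (V × V)).filter
      (fun p => insert p.1 (insert p.2 S) ∈ G)) ⊆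
      ((U ×ˢ U).filter (fun p => insert p.1 (insert p.2 S) ∈ G)) ∪
        ((Finset.univ \ U) ×ˢ Finset.univ ∪ Finset.univ ×ˢ (Finset.univ \ U)) := by
    rintro ⟨x, y⟩ hxy
    simp only [Finset.mem_filter, Finset.mem_product, Finset.mem_univ, true_and,
      Finset.mem_union, Finset.mem_sdiff, and_true] at hxy ⊢
    tauto
  have h3 := (Finset.card_le_card h2).trans (Finset.card_union_le _ _)
  have h4 := Finset.card_union_le ((Finset.univ \ U) ×ˢ (Finset.univ : Finset V))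
    ((Finset.univ : Finset V) ×ˢ (Finset.univ \ U))
  rw [Finset.card_product, Finset.card_product, Finset.card_univ] at h4
  have h5 : (((Finset.univ ×ˢ Finset.univ : Finset (V × V)).filter
      (fun p => insert p.1 (insert p.2 S) ∈ G)).card : ℝ) ≤
      (((U ×ˢ U).filter (fun p => insert p.1 (insert p.2 S) ∈ G)).card : ℝ) +
        2 * ((Finset.univ \ U).card : ℝ) * n := by
    have h6 := h3.trans (Nat.add_le_add_left h4 _)
    have h7 := (Nat.cast_le (α := ℝ)).2 h6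
    refine h7.trans (le_of_eq ?_)
    push_cast
    rw [hn]
    ring
  have h8 : (U.card : ℝ) ≤ n := by
    rw [hn]
    exact_mod_cast Finset.card_le_univ U
  have h9 : (δ - η) * (U.card : ℝ) ^ 2 ≤ (δ - η) * n ^ 2 :=
    mul_le_mul_of_nonneg_left (by gcongr) hη
  nlinarith [mul_le_mul_of_nonneg_right hU hn0]

end

end Pool.Agent.helper21.RL
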