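import Pool.Agent.helper21.RL.Defs

/-! Module Box: dense `r`-partite relations contain large complete boxes (Erdos 1964).
Proof by helper71: one coordinate at a time (Kovari-Sos-Turan counting). -/

set_option autoImplicit false

open Finset

namespace Pool.Agent.helper21.RL

namespace Box_aux

/-- `C(d,c) ≥ (β/4)^c C(N,c)` if `d ≥ β N / 2` and `β N / 4 ≥ c` -/
theorem choose_ratio {N d c : ℕ} {β : ℝ} (hβ : 0 < β) (hd : β / 2 * N ≤ d)
    (hN : (c : ℝ) ≤ β / 4 * N) : (β / 4) ^ c * (N.choose c : ℝ) ≤ (d.choose c : ℝ) := by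
  have hfac : (0 : ℝ) < (c.factorial : ℝ) := by exact_mod_cast Nat.factorial_pos c
  have h1 : ((N.choose c : ℕ) : ℝ) * c.factorial ≤ (N : ℝ) ^ c := by
    have : N.choose c * c.factorial ≤ N ^ c := by
      rw [mul_comm, ← Nat.descFactorial_eq_factorial_mul_choose]
      exact Nat.descFactorial_le_pow N c
    exact_mod_cast this
  have h2 : ((d + 1 - c : ℕ) : ℝ) ^ c ≤ (d.choose c : ℝ) * c.factorial := by
    have : (d + 1 - c) ^ c ≤ d.choose c * c.factorial := by
      rw [mul_comm (d.choose c), ← Nat.descFactorial_eq_factorial_mul_choose]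
      exact Nat.pow_sub_le_descFactorial d c
    exact_mod_cast this
  have hN0 : (0 : ℝ) ≤ N := Nat.cast_nonneg N
  have hβN : 0 ≤ β * N := by positivity
  have hcd : c ≤ d := by
    have : (c : ℝ) ≤ d := by linarith
    exact_mod_cast this
  have h3 : β / 4 * N ≤ ((d + 1 - c : ℕ) : ℝ) := by
    rw [Nat.cast_sub (by omega)]
    push_cast
    linarith
  have h4 : (β / 4 * N) ^ c ≤ ((d + 1 - c : ℕ) : ℝ) ^ c :=
    pow_le_pow_left₀ (by positivity) h3 c
  have h5 : (β / 4) ^ c * (N.choose c : ℝ) * c.factorial ≤ (d.choose c : ℝ) * c.factorial := by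
    calc (β / 4) ^ c * (N.choose c : ℝ) * c.factorial
        = (β / 4) ^ c * ((N.choose c : ℝ) * c.factorial) := by ring
      _ ≤ (β / 4) ^ c * (N : ℝ) ^ c := mul_le_mul_of_nonneg_left h1 (by positivity)
      _ = (β / 4 * N) ^ c := by rw [mul_pow]
      _ ≤ _ := h4
      _ ≤ _ := h2
  exact le_of_mul_le_mul_right h5 hfac

/-- Kovari-Sos-Turan counting -/
theorem kst {α V : Type} [DecidableEq V] (F : Finset α) (X : Finset V) (R : α → V → Prop)
    [∀ a, DecidablePred (R a)] (c : ℕ) (β : ℝ) (hβ : 0 < β)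
    (hX : (c : ℝ) ≤ β / 4 * X.card) (hcX : c ≤ X.card) (hX0 : 0 < X.card)
    (h : β * (F.card * X.card : ℝ) ≤ ∑ a ∈ F, ((X.filter (R a)).card : ℝ)) :
    ∃ S ⊆ X, S.card = c ∧
      β / 2 * (β / 4) ^ c * (F.card : ℝ) ≤ ((F.filter (fun a => ∀ x ∈ S, R a x)).card : ℝ) := by
  classical
  set N : ℕ := X.card with hN
  have hNpos : (0 : ℝ) < N := by exact_mod_cast hX0
  -- double counting
  have hdc : ∑ S ∈ X.powersetCard c, (F.filter (fun a => ∀ x ∈ S, R a x)).card
      = ∑ a ∈ F, (X.filter (R a)).card.choose c := by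
    simp only [Finset.card_filter]
    rw [Finset.sum_comm]
    apply Finset.sum_congr rfl
    intro a _
    rw [← Finset.card_filter, ← Finset.card_filter, ← Finset.card_powersetCard]
    congr 1
    ext S
    simp only [Finset.mem_filter, Finset.mem_powersetCard]
    constructor
    · rintro ⟨⟨h1, h2⟩, h3⟩
      exact ⟨fun x hx => Finset.mem_filter.mpr ⟨h1 hx, h3 x hx⟩, h2⟩
    · rintro ⟨h1, h2⟩
      exact ⟨⟨fun x hx => (Finset.mem_filter.mp (h1 hx)).1, h2⟩,
        fun x hx => (Finset.mem_filter.mp (h1 hx)).2⟩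
  -- the good points
  set F1 := F.filter (fun a => β / 2 * N ≤ ((X.filter (R a)).card : ℝ)) with hF1
  have hgood : β / 2 * (F.card * N : ℝ) ≤ (F1.card : ℝ) * N := by
    have h1 : ∑ a ∈ F, ((X.filter (R a)).card : ℝ) ≤
        ∑ a ∈ F, ((if β / 2 * N ≤ ((X.filter (R a)).card : ℝ) then (N : ℝ) else 0) + β / 2 * N) := by
      apply Finset.sum_le_sum
      intro a _
      have hle : ((X.filter (R a)).card : ℝ) ≤ N := by
        exact_mod_cast Finset.card_filter_le X (R a)
      have hN0 : (0 : ℝ) ≤ β / 2 * N := by positivity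
      split_ifs with hc
      · linarith
      · linarith
    have h2 : ∑ a ∈ F, ((if β / 2 * N ≤ ((X.filter (R a)).card : ℝ) then (N : ℝ) else 0) + β / 2 * N)
        = (F1.card : ℝ) * N + F.card * (β / 2 * N) := by
      rw [Finset.sum_add_distrib, Finset.sum_const, nsmul_eq_mul, ← Finset.sum_filter,
        Finset.sum_const, nsmul_eq_mul]
    have h3 := h.trans (h1.trans_eq h2)
    nlinarith
  have hlow : β / 2 * (β / 4) ^ c * (F.card : ℝ) * (N.choose c : ℝ) ≤
      ∑ a ∈ F, ((X.filter (R a)).card.choose c : ℝ) := by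
    have h1 : ∑ a ∈ F1, (β / 4) ^ c * (N.choose c : ℝ) ≤ ∑ a ∈ F1, ((X.filter (R a)).card.choose c : ℝ) := by
      apply Finset.sum_le_sum
      intro a ha
      exact choose_ratio hβ (Finset.mem_filter.mp ha).2 hX
    have h2 : ∑ a ∈ F1, ((X.filter (R a)).card.choose c : ℝ) ≤
        ∑ a ∈ F, ((X.filter (R a)).card.choose c : ℝ) :=
      Finset.sum_le_sum_of_subset_of_nonneg (Finset.filter_subset _ _) (fun _ _ _ => Nat.cast_nonneg _)
    rw [Finset.sum_const, nsmul_eq_mul] at h1
    refine le_trans ?_ (h1.trans h2)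
    have h3 : β / 2 * (F.card : ℝ) ≤ (F1.card : ℝ) := by
      have : (β / 2 * F.card) * N ≤ (F1.card : ℝ) * N := by
        calc (β / 2 * F.card) * N = β / 2 * (F.card * N : ℝ) := by ring
          _ ≤ _ := hgood
      exact le_of_mul_le_mul_right this hNpos
    have h4 : (0 : ℝ) ≤ (β / 4) ^ c * (N.choose c : ℝ) := by positivity
    calc β / 2 * (β / 4) ^ c * (F.card : ℝ) * (N.choose c : ℝ)
        = (β / 2 * (F.card : ℝ)) * ((β / 4) ^ c * (N.choose c : ℝ)) := by ring
      _ ≤ _ := mul_le_mul_of_nonneg_right h3 h4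
  by_contra hcon
  push Not at hcon
  have hne : (X.powersetCard c).Nonempty := Finset.powersetCard_nonempty.mpr hcX
  have hlt : ∑ S ∈ X.powersetCard c, ((F.filter (fun a => ∀ x ∈ S, R a x)).card : ℝ) <
      ∑ S ∈ X.powersetCard c, β / 2 * (β / 4) ^ c * (F.card : ℝ) := by
    apply Finset.sum_lt_sum_of_nonempty hne
    intro S hS
    rw [Finset.mem_powersetCard] at hS
    exact hcon S hS.1 hS.2
  rw [Finset.sum_const, Finset.card_powersetCard, nsmul_eq_mul] at hlt
  have hdc' : ∑ S ∈ X.powersetCard c, ((F.filter (fun a => ∀ x ∈ S, R a x)).card : ℝ)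
      = ∑ a ∈ F, ((X.filter (R a)).card.choose c : ℝ) := by exact_mod_cast hdc
  rw [hdc'] at hlt
  nlinarith

theorem card_cons {V : Type} [DecidableEq V] {r : ℕ} (X : Fin (r + 1) → Finset V)
    (R : (Fin (r + 1) → V) → Prop) [DecidablePred R] :
    ((Fintype.piFinset X).filter R).card =
      ∑ g ∈ Fintype.piFinset (fun i : Fin r => X i.succ),
        ((X 0).filter (fun x => R (Fin.cons x g))).card := by
  classical
  rw [← Finset.card_sigma]
  symm
  apply Finset.card_nbij' (fun p : (_ : Fin r → V) × V => (Fin.cons p.2 p.1 : Fin (r + 1) → V))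
    (fun f => (⟨fun i => f i.succ, f 0⟩ : (_ : Fin r → V) × V))
  · rintro ⟨g, x⟩ hp
    simp only [Finset.coe_sigma, Set.mem_sigma_iff, Finset.mem_coe, Fintype.mem_piFinset,
      Finset.mem_filter] at hp ⊢
    refine ⟨?_, hp.2.2⟩
    intro i
    refine Fin.cases ?_ ?_ i
    · simpa using hp.2.1
    · intro j
      simpa using hp.1 j
  · intro f hf
    simp only [Finset.coe_sigma, Set.mem_sigma_iff, Finset.mem_coe, Fintype.mem_piFinset,
      Finset.mem_filter] at hf ⊢
    refine ⟨fun i => hf.1 i.succ, hf.1 0, ?_⟩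
    have : (Fin.cons (f 0) (fun i : Fin r => f i.succ) : Fin (r + 1) → V) = f := Fin.cons_self_tail f
    rw [this]
    exact hf.2
  · rintro ⟨g, x⟩ _
    simp
  · intro f _
    exact Fin.cons_self_tail f

end Box_aux

open Box_aux

/-- PROOF. Induction on `r`, one coordinate at a time (`kst`). -/
theorem box (r c : ℕ) (β : ℝ) (hβ : 0 < β) :
    ∃ b : ℕ, ∀ {V : Type} [DecidableEq V] (X : Fin r → Finset V) (R : (Fin r → V) → Prop)
      [DecidablePred R], (∀ i, b ≤ (X i).card) →
      β * ∏ i, ((X i).card : ℝ) ≤ (((Fintype.piFinset X).filter R).card : ℝ) →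
      ∃ Y : Fin r → Finset V, (∀ i, Y i ⊆ X i) ∧ (∀ i, (Y i).card = c) ∧
        ∀ f ∈ Fintype.piFinset Y, R f := by
  classical
  induction r generalizing β with
  | zero =>
    refine ⟨0, ?_⟩
    intro V _ X R _ _ h
    refine ⟨X, fun i => i.elim0, fun i => i.elim0, ?_⟩
    intro f hf
    simp only [Finset.univ_eq_empty, Finset.prod_empty, mul_one] at h
    have hpos : 0 < ((Fintype.piFinset X).filter R).card := by
      have : (0 : ℝ) < (((Fintype.piFinset X).filter R).card : ℝ) := lt_of_lt_of_le hβ h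
      exact_mod_cast this
    obtain ⟨g, hg⟩ := Finset.card_pos.mp hpos
    have : f = g := Subsingleton.elim _ _
    rw [this]
    exact (Finset.mem_filter.mp hg).2
  | succ r ih =>
    obtain ⟨b, hb⟩ := ih (β / 2 * (β / 4) ^ c) (by positivity)
    obtain ⟨b0, hb0⟩ := exists_nat_ge (4 * c / β : ℝ)
    refine ⟨max b (max b0 (c + 1)), ?_⟩
    intro V _ X R _ hX h
    have hX0 : b ≤ (X 0).card ∧ b0 ≤ (X 0).card ∧ c + 1 ≤ (X 0).card := by
      have := hX 0
      exact ⟨(le_max_left _ _).trans this,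
        ((le_max_left _ _).trans (le_max_right _ _)).trans this,
        ((le_max_right _ _).trans (le_max_right _ _)).trans this⟩
    obtain ⟨S, hSX, hSc, hS⟩ := kst (Fintype.piFinset (fun i : Fin r => X i.succ)) (X 0)
      (fun g x => R (Fin.cons x g)) c β hβ
      (by
        have h1 : (4 * c / β : ℝ) ≤ (X 0).card := hb0.trans (by exact_mod_cast hX0.2.1)
        rw [div_le_iff₀ hβ] at h1
        linarith)
      (by omega) (by omega)
      (by
        rw [Box_aux.card_cons X R] at h
        push_cast at h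
        refine le_trans (le_of_eq ?_) h
        rw [Fintype.card_piFinset, Fin.prod_univ_succ]
        push_cast
        ring)
    obtain ⟨Y, hY1, hY2, hY3⟩ := hb (fun i : Fin r => X i.succ)
      (fun g => ∀ x ∈ S, R (Fin.cons x g))
      (fun i => (le_max_left _ _).trans (hX i.succ))
      (by
        refine le_trans (le_of_eq ?_) hS
        rw [Fintype.card_piFinset]
        push_cast
        ring)
    refine ⟨Fin.cons S Y, ?_, ?_, ?_⟩
    · intro i
      refine Fin.cases ?_ ?_ i
      · simpa using hSX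
      · intro j
        simpa using hY1 j
    · intro i
      refine Fin.cases ?_ ?_ i
      · simpa using hSc
      · intro j
        simpa using hY2 j
    · intro f hf
      rw [Fintype.mem_piFinset] at hf
      have h1 : f 0 ∈ S := by simpa using hf 0
      have h2 : (fun i : Fin r => f i.succ) ∈ Fintype.piFinset Y := by
        rw [Fintype.mem_piFinset]
        intro j
        simpa using hf j.succ
      have h3 := hY3 _ h2 (f 0) h1
      have : (Fin.cons (f 0) (fun i : Fin r => f i.succ) : Fin (r + 1) → V) = f :=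
        Fin.cons_self_tail f
      rw [this] at h3
      exact h3

end Pool.Agent.helper21.RL
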