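import Mathlib

/-!
# Rooted spanning loose trees (MP_b80008_co): definitions

Everywhere `K = k - 1 ≥ 3`, `G` is a `(K+1)`-uniform hypergraph on a finite type `V`.

A loose tree with `m` edges is encoded by a function `par : ℕ → ℕ` with `par j ≤ K * j`: its
vertices are `0, …, K * m`, the root is `0`, and its edges are
`edg K par j = {par j} ∪ {K j + 1, …, K j + K}`, `j < m`.
-/

set_option autoImplicit false

open Finset

namespace Pool.Agent.helper21.RL

/-! ## Trees -/

/-- the children (new vertices) of the edge `j` -/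
def chs (K j : ℕ) : Finset ℕ := (Finset.range K).image (fun i => K * j + 1 + i)

/-- the edge `j` -/
def edg (K : ℕ) (par : ℕ → ℕ) (j : ℕ) : Finset ℕ := insert (par j) (chs K j)

/-- the vertices of the subtree with edge set `A` -/
def vs (K : ℕ) (A : Finset ℕ) : Finset ℕ := insert 0 (A.biUnion (chs K))

/-- the edge in which the vertex `y ≥ 1` is a child -/
def ed (K y : ℕ) : ℕ := (y - 1) / K

/-- parent closed sets of edges (subtrees containing the root) -/
def Closed (K : ℕ) (par : ℕ → ℕ) (A : Finset ℕ) : Prop := ∀ j ∈ A, par j ≠ 0 → ed K (par j) ∈ A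

/-- `par` encodes a rooted loose tree, every vertex is the parent vertex of at most `Δ` edges -/
structure Tree (K m Δ : ℕ) (par : ℕ → ℕ) : Prop where
  le : ∀ j, par j ≤ K * j
  deg : ∀ x, ((Finset.range m).filter (fun j => par j = x)).card ≤ Δ

/-! ## Hypergraphs -/

section
variable {V : Type*} [DecidableEq V]

/-- `(K+1)`-uniform -/
def Unif (K : ℕ) (G : Finset (Finset V)) : Prop := ∀ e ∈ G, e.card = K + 1

/-- minimum degree condition: every `(K-1)`-subset of `U` has relative degree at least `δ` inside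
`U` (ordered pairs) -/
def PD (K : ℕ) (G : Finset (Finset V)) (U : Finset V) (δ : ℝ) : Prop :=
  ∀ S ⊆ U, S.card = K - 1 → δ * (U.card : ℝ) ^ 2 ≤
    (((U ×ˢ U).filter (fun p => insert p.1 (insert p.2 S) ∈ G)).card : ℝ)

/-- embedding of the subtree with edge set `A`, the root is mapped to `v` -/
structure Emb (G : Finset (Finset V)) (K : ℕ) (par : ℕ → ℕ) (A : Finset ℕ) (v : V)
    (ψ : ℕ → V) : Prop where
  inj : Set.InjOn ψ ↑(vs K A)
  root : ψ 0 = v
  edge : ∀ j ∈ A, (edg K par j).image ψ ∈ G

/-- extension property: from every vertex there is an edge into `U` avoiding any given set of at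
most `M` vertices, and from every pair of vertices too -/
def Ext (K : ℕ) (G : Finset (Finset V)) (U : Finset V) (M : ℝ) : Prop :=
  (∀ X : Finset V, (X.card : ℝ) ≤ M → ∀ a, ∃ f : Finset V, f.card = K ∧ f ⊆ U ∧ Disjoint f X ∧
    insert a f ∈ G) ∧
  (∀ X : Finset V, (X.card : ℝ) ≤ M → ∀ a b, a ≠ b → ∃ f : Finset V, f.card = K - 1 ∧ f ⊆ U ∧
    Disjoint f X ∧ insert a (insert b f) ∈ G)

/-- `M` vertex disjoint complete `(K+1)`-partite hypergraphs with parts of size `c` inside `U` -/
structure Tiling (K c : ℕ) (G : Finset (Finset V)) (U : Finset V) (M : ℕ)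
    (B : Fin M → Fin (K + 1) → Finset V) : Prop where
  card : ∀ l i, (B l i).card = c
  sub : ∀ l i, B l i ⊆ U
  disj : ∀ l i l' i', (l, i) ≠ (l', i') → Disjoint (B l i) (B l' i')
  edge : ∀ l (f : Fin (K + 1) → V), (∀ i, f i ∈ B l i) → Finset.univ.image f ∈ G

/-! ## Absorbing groups -/

/-- a group: `K` edges `{w i} ∪ A i` -/
structure Grp (V : Type*) (K : ℕ) where
  w : Fin K → V
  A : Fin K → Fin K → V

/-- vertices of a group -/
def gsupp {K : ℕ} (g : Grp V K) : Finset V :=
  Finset.univ.image g.w ∪ Finset.univ.image (fun p : Fin K × Fin K => g.A p.1 p.2)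

/-- the sets `{w i} ∪ A i` are disjoint edges -/
def GrpOK (K : ℕ) (G : Finset (Finset V)) (g : Grp V K) : Prop :=
  (∀ i, insert (g.w i) (Finset.univ.image (g.A i)) ∈ G) ∧ (gsupp g).card = K + K * K

/-- the group absorbs the vertices `u` at `z` -/
def Absb (K : ℕ) (G : Finset (Finset V)) (g : Grp V K) (z : V) (u : Fin K → V) : Prop :=
  insert z (Finset.univ.image g.w) ∈ G ∧ ∀ i, insert (u i) (Finset.univ.image (g.A i)) ∈ G

instance (K : ℕ) (G : Finset (Finset V)) (g : Grp V K) (z : V) (u : Fin K → V) :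
    Decidable (Absb K G g z u) := by unfold Absb; infer_instance

/-- the groups `F l` are images of tree edges `jj l i`, the vertex `w i` is the image of a leaf
vertex `q l i` -/
structure GrpEmb {K t : ℕ} (m : ℕ) (par : ℕ → ℕ) (A : Finset ℕ) (F : Fin t → Grp V K)
    (jj q : Fin t → Fin K → ℕ) (ψ : ℕ → V) : Prop where
  memA : ∀ l i, jj l i ∈ A
  memq : ∀ l i, q l i ∈ chs K (jj l i)
  leaf : ∀ l i, ∀ j ∈ Finset.range m, par j ≠ q l i
  disj : ∀ l i l' i', q l i ∈ edg K par (jj l' i') → l = l' ∧ i = i'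
  val : ∀ l i, ψ (q l i) = (F l).w i
  img : ∀ l i, ((edg K par (jj l i)).erase (q l i)).image ψ = Finset.univ.image ((F l).A i)

end

end Pool.Agent.helper21.RL
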