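import Pool.Agent.helper21.RL.Defs

/-! Module Desig: designated edges (far apart, containing a leaf vertex). -/

set_option autoImplicit false

open Finset

namespace Pool.Agent.helper21.RL

namespace Desig_aux

theorem mem_chs {K j y : ℕ} : y ∈ chs K j ↔ K * j + 1 ≤ y ∧ y ≤ K * j + K := by
  unfold chs
  simp only [Finset.mem_image, Finset.mem_range]
  constructor
  · rintro ⟨i, hi, rfl⟩
    omega
  · rintro ⟨h1, h2⟩
    exact ⟨y - (K * j + 1), by omega, by omega⟩

theorem card_chs (K j : ℕ) : (chs K j).card = K := by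
  unfold chs
  rw [Finset.card_image_of_injective, Finset.card_range]
  intro a b h
  simpa using h

theorem ed_of_mem {K j y : ℕ} (h : y ∈ chs K j) : ed K y = j := by
  rw [mem_chs] at h
  unfold ed
  have hK : 0 < K := by omega
  apply Nat.div_eq_of_lt_le
  · rw [Nat.mul_comm]; omega
  · rw [Nat.mul_comm, Nat.mul_succ]; omega

theorem mem_of_ed {K y : ℕ} (hK : 0 < K) (hy : y ≠ 0) : y ∈ chs K (ed K y) := by
  rw [mem_chs]
  unfold ed
  have h1 := Nat.div_mul_le_self (y - 1) K
  have h2 := Nat.lt_div_mul_add (a := y - 1) hK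
  rw [Nat.mul_comm] at h1 h2
  omega

theorem ed_lt {K j y : ℕ} (hK : 0 < K) (hy : y ≠ 0) (h : y ≤ K * j) : ed K y < j := by
  unfold ed
  rw [Nat.div_lt_iff_lt_mul hK, Nat.mul_comm]
  omega

theorem disj_chs {K i j : ℕ} (h : i ≠ j) : Disjoint (chs K i) (chs K j) := by
  rw [Finset.disjoint_left]
  intro y hi hj
  exact h ((ed_of_mem hi).symm.trans (ed_of_mem hj))

/-- depth of an edge -/
def dep (K : ℕ) (par : ℕ → ℕ) (j : ℕ) : ℕ :=
  if h : par j ≠ 0 ∧ ed K (par j) < j then dep K par (ed K (par j)) + 1 else 0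
termination_by j
decreasing_by exact h.2

theorem dep_eq {K : ℕ} {par : ℕ → ℕ} {j : ℕ} (h : par j ≠ 0) (h' : ed K (par j) < j) :
    dep K par j = dep K par (ed K (par j)) + 1 := by
  rw [dep, dif_pos ⟨h, h'⟩]

end Desig_aux

open Desig_aux in
/-- PROOF. Call a vertex `y` a leaf vertex if `par j ≠ y` for all `j < m`. The number of vertices of
`vs K A` other than `0` which are not leaf vertices is at most `|A| + |A|/10`: such a `y` has an edge
`j < m` with `par j = y`; either some such `j ∈ A` (choose one: injective in `y`) or `y` is counted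
in `hatt`. If all `K ≥ 3` children of `j ∈ A` are not leaf vertices, they use up `K` of them (the sets
`chs K j` are disjoint): at most `1.1 |A| / 3` such `j`. So at least `0.6 |A|` edges of `A` have a leaf
child; at most `Δ` of them have `par j = 0`. Depth of edges: `dep j = 0` if `par j = 0`, else
`dep (ed K (par j)) + 1` (well founded: `ed K (par j) < j`). One parity class contains at least half of
them; `j ↦ ed K (par j)` changes the parity. The fibres of `j ↦ ed K (par j)` have at most
`K * Δ` elements; choose one element in every fibre, then a subset with `s` elements. -/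
theorem designated {K m Δ : ℕ} (hK : 3 ≤ K) (hΔ : 1 ≤ Δ) {par : ℕ → ℕ} (hT : Tree K m Δ par)
    {A : Finset ℕ} (hA : A ⊆ Finset.range m) (hcl : Closed K par A)
    (hatt : 10 * ((vs K A).filter (fun x => ∃ j ∈ Finset.range m, j ∉ A ∧ par j = x)).card ≤
      A.card) {s : ℕ} (hs : 8 * K * Δ * s + 4 * Δ ≤ A.card) :
    ∃ D ⊆ A, D.card = s ∧ (∀ j ∈ D, par j ≠ 0 ∧ ed K (par j) ∉ D) ∧
      Set.InjOn (fun j => ed K (par j)) ↑D ∧
      ∀ j ∈ D, ∃ y ∈ chs K j, ∀ j' ∈ Finset.range m, par j' ≠ y := by
  classical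
  -- non leaf vertices
  set N : Finset ℕ := (A.biUnion (chs K)).filter (fun y => ∃ j ∈ Finset.range m, par j = y)
    with hN
  have hNsub : N ⊆ A.image par ∪
      ((vs K A).filter (fun x => ∃ j ∈ Finset.range m, j ∉ A ∧ par j = x)) := by
    intro y hy
    rw [hN, Finset.mem_filter] at hy
    obtain ⟨hy1, j, hj, hjy⟩ := hy
    rw [Finset.mem_union]
    by_cases hjA : j ∈ A
    · exact Or.inl (Finset.mem_image.2 ⟨j, hjA, hjy⟩)
    · right
      rw [Finset.mem_filter]
      exact ⟨Finset.mem_insert_of_mem hy1, j, hj, hjA, hjy⟩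
  have hNcard : 10 * N.card ≤ 11 * A.card := by
    have h1 := (Finset.card_le_card hNsub).trans (Finset.card_union_le _ _)
    have h2 : (A.image par).card ≤ A.card := Finset.card_image_le
    omega
  set Bad : Finset ℕ := A.filter (fun j => ∀ y ∈ chs K j, ∃ j' ∈ Finset.range m, par j' = y)
    with hBad
  have hBadcard : K * Bad.card ≤ N.card := by
    have h1 : (Bad.biUnion (chs K)).card = Bad.card * K := by
      rw [Finset.card_biUnion (fun i _ j _ h => disj_chs h),
        Finset.sum_congr rfl (fun i _ => card_chs K i), Finset.sum_const, smul_eq_mul]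
    rw [Nat.mul_comm, ← h1]
    apply Finset.card_le_card
    intro y hy
    rw [Finset.mem_biUnion] at hy
    obtain ⟨j, hj, hy⟩ := hy
    rw [hBad, Finset.mem_filter] at hj
    rw [hN, Finset.mem_filter]
    exact ⟨Finset.mem_biUnion.2 ⟨j, hj.1, hy⟩, hj.2 y hy⟩
  have h3Bad : 3 * Bad.card ≤ K * Bad.card := Nat.mul_le_mul_right _ hK
  set Zr : Finset ℕ := (Finset.range m).filter (fun j => par j = 0) with hZr
  have hZrcard : Zr.card ≤ Δ := hT.deg 0
  set Good : Finset ℕ := (A \ Bad) \ Zr with hGood
  have hGoodcard : A.card ≤ Good.card + Bad.card + Δ := by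
    have h1 : (A \ Bad).card ≤ ((A \ Bad) \ Zr).card + Zr.card := by
      exact Finset.card_le_card_sdiff_add_card
    have h2 : A.card ≤ (A \ Bad).card + Bad.card :=
      Finset.card_le_card_sdiff_add_card
    rw [← hGood] at h1
    omega
  -- properties of good edges
  have hgood : ∀ j ∈ Good, j ∈ A ∧ par j ≠ 0 ∧
      ∃ y ∈ chs K j, ∀ j' ∈ Finset.range m, par j' ≠ y := by
    intro j hj
    rw [hGood, Finset.mem_sdiff, Finset.mem_sdiff] at hj
    obtain ⟨⟨hjA, hjB⟩, hjZ⟩ := hj
    refine ⟨hjA, fun h0 => hjZ (by rw [hZr, Finset.mem_filter]; exact ⟨hA hjA, h0⟩), ?_⟩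
    by_contra hcon
    push Not at hcon
    exact hjB (by rw [hBad, Finset.mem_filter]; exact ⟨hjA, hcon⟩)
  -- parity
  have hpar : ∃ b : ℕ, Good.card ≤ 2 * (Good.filter (fun j => dep K par j % 2 = b)).card := by
    have h1 := Finset.card_filter_add_card_filter_not (s := Good)
      (fun j => dep K par j % 2 = 0)
    by_cases h2 : Good.card ≤ 2 * (Good.filter (fun j => dep K par j % 2 = 0)).card
    · exact ⟨0, h2⟩
    · refine ⟨1, ?_⟩
      have h3 : Good.filter (fun j => ¬ dep K par j % 2 = 0) =
          Good.filter (fun j => dep K par j % 2 = 1) := by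
        apply Finset.filter_congr
        intro j _
        omega
      rw [h3] at h1
      omega
  obtain ⟨b, hb⟩ := hpar
  set P : Finset ℕ := Good.filter (fun j => dep K par j % 2 = b) with hP
  have hPG : ∀ j ∈ P, j ∈ Good ∧ dep K par j % 2 = b := fun j hj => by
    rw [hP, Finset.mem_filter] at hj; exact hj
  -- fibres
  have hfib : P.card ≤ (K * Δ) * (P.image (fun j => ed K (par j))).card := by
    apply Finset.card_le_mul_card_image
    intro e he
    have hsub : (P.filter (fun j => ed K (par j) = e)) ⊆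
        (chs K e).biUnion (fun x => (Finset.range m).filter (fun j => par j = x)) := by
      intro j hj
      rw [Finset.mem_filter] at hj
      have hj1 := hgood j (hPG j hj.1).1
      rw [Finset.mem_biUnion]
      refine ⟨par j, ?_, ?_⟩
      · have := mem_of_ed (K := K) (y := par j) (by omega) hj1.2.1
        rwa [hj.2] at this
      · rw [Finset.mem_filter]
        exact ⟨hA hj1.1, rfl⟩
    calc (P.filter (fun j => ed K (par j) = e)).card
        ≤ ((chs K e).biUnion (fun x => (Finset.range m).filter (fun j => par j = x))).card :=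
          Finset.card_le_card hsub
      _ ≤ (chs K e).card * Δ := Finset.card_biUnion_le_card_mul _ _ _ (fun x _ => hT.deg x)
      _ = K * Δ := by rw [card_chs]
  obtain ⟨D₀, hD₀P, hD₀inj, hD₀im⟩ : ∃ D₀ ⊆ P, Set.InjOn (fun j => ed K (par j)) ↑D₀ ∧
      D₀.image (fun j => ed K (par j)) = P.image (fun j => ed K (par j)) := by
    obtain ⟨u, hu, hinj, him⟩ := Finset.exists_subset_injOn_image_eq_of_surjOn P
      (P.image (fun j => ed K (par j))) (f := fun j => ed K (par j))
      (by rw [Finset.coe_image]; exact Set.surjOn_image _ _)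
    exact ⟨u, by exact_mod_cast hu, hinj, him⟩
  have hD₀card : D₀.card = (P.image (fun j => ed K (par j))).card := by
    rw [← hD₀im, Finset.card_image_of_injOn hD₀inj]
  have hsD : s ≤ D₀.card := by
    by_contra hlt
    push Not at hlt
    rw [← hD₀card] at hfib
    have h1 : K * Δ * D₀.card ≤ K * Δ * s := Nat.mul_le_mul_left _ hlt.le
    have h2 : 8 * K * Δ * s = 8 * (K * Δ * s) := by ring
    omega
  obtain ⟨D, hDD₀, hDcard⟩ := Finset.exists_subset_card_eq hsD
  refine ⟨D, fun j hj => (hgood j (hPG j (hD₀P (hDD₀ hj))).1).1, hDcard, ?_,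
    hD₀inj.mono (by exact_mod_cast hDD₀), fun j hj => (hgood j (hPG j (hD₀P (hDD₀ hj))).1).2.2⟩
  intro j hj
  have hj1 := hPG j (hD₀P (hDD₀ hj))
  have hj2 := hgood j hj1.1
  refine ⟨hj2.2.1, fun hmem => ?_⟩
  have hj3 := hPG _ (hD₀P (hDD₀ hmem))
  have h4 := dep_eq (K := K) hj2.2.1 (ed_lt (by omega) hj2.2.1 (hT.le j))
  omega

end Pool.Agent.helper21.RL
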