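import Pool.Agent.helper21.RL.Greedy

/-! Module EmbT0: embedding of the top of the tree covering the absorbing groups. -/

set_option autoImplicit false

open Finset

namespace Pool.Agent.helper21.RL

namespace EmbT0_aux

theorem ed_of_mem {K j y : ℕ} (h : y ∈ chs K j) : ed K y = j := by
  unfold chs at h
  rw [Finset.mem_image] at h
  obtain ⟨i, hi, rfl⟩ := h
  rw [Finset.mem_range] at hi
  unfold ed
  have : K * j + 1 + i - 1 = i + K * j := by omega
  rw [this, Nat.add_mul_div_left _ _ (by omega), Nat.div_eq_of_lt hi, zero_add]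

theorem lt_of_mem {K j y : ℕ} (h : y ∈ chs K j) : K * j < y := by
  unfold chs at h
  rw [Finset.mem_image] at h
  obtain ⟨i, hi, rfl⟩ := h
  omega

theorem card_chs (K j : ℕ) : (chs K j).card = K := by
  unfold chs
  rw [Finset.card_image_of_injective _ (fun a b h => by simpa using h), Finset.card_range]

theorem card_edg {K : ℕ} {par : ℕ → ℕ} {j : ℕ} (h : par j ≤ K * j) :
    (edg K par j).card = K + 1 := by
  unfold edg
  rw [Finset.card_insert_of_notMem, card_chs]
  intro h'
  have := lt_of_mem h'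
  omega

/-- values of a group -/
def val {V : Type} {K : ℕ} (g : Grp V K) : Fin K ⊕ (Fin K × Fin K) → V :=
  Sum.elim g.w (fun p => g.A p.1 p.2)

theorem image_val {V : Type} [DecidableEq V] {K : ℕ} (g : Grp V K) :
    Finset.univ.image (val g) = gsupp g := by
  ext x
  simp [val, gsupp, Finset.mem_image]

theorem val_mem {V : Type} [DecidableEq V] {K : ℕ} (g : Grp V K) (s : Fin K ⊕ (Fin K × Fin K)) :
    val g s ∈ gsupp g := by
  rw [← image_val]
  exact Finset.mem_image_of_mem _ (Finset.mem_univ _)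

theorem val_inj {V : Type} [DecidableEq V] {K : ℕ} {G : Finset (Finset V)} {g : Grp V K}
    (h : GrpOK K G g) : Function.Injective (val g) := by
  have h1 := h.2
  rw [← image_val] at h1
  have h2 : (Finset.univ : Finset (Fin K ⊕ (Fin K × Fin K))).card = K + K * K := by
    simp
  rw [← h2, Finset.card_image_iff] at h1
  exact fun a b hab => h1 (by simp) (by simp) hab

end EmbT0_aux

open EmbT0_aux in
theorem embT0 {V : Type} [Fintype V] [DecidableEq V] {G : Finset (Finset V)} {K m Δ t : ℕ}
    (hK : 3 ≤ K) (hG : Unif K G) {par : ℕ → ℕ} (hT : Tree K m Δ par) {A : Finset ℕ}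
    (hA : A ⊆ Finset.range m) (hcl : Closed K par A) {D : Finset ℕ} (hD : D ⊆ A)
    (hDc : D.card = K * t) (hD1 : ∀ j ∈ D, par j ≠ 0 ∧ ed K (par j) ∉ D)
    (hD2 : Set.InjOn (fun j => ed K (par j)) ↑D)
    (hD3 : ∀ j ∈ D, ∃ y ∈ chs K j, ∀ j' ∈ Finset.range m, par j' ≠ y)
    {v : V} {F : Fin t → Grp V K} (hF : ∀ l, GrpOK K G (F l)) (hv : ∀ l, v ∉ gsupp (F l))
    (hFd : ∀ l l', l ≠ l' → Disjoint (gsupp (F l)) (gsupp (F l')))
    {M : ℝ} (hM : (K : ℝ) * A.card ≤ M)
    (hE : Ext K G (Finset.univ \ insert v (Finset.univ.biUnion (fun l => gsupp (F l)))) M) :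
    ∃ (ψ : ℕ → V) (jj q : Fin t → Fin K → ℕ), Emb G K par A v ψ ∧ GrpEmb m par A F jj q ψ := by
  classical
  -- the bijection with `D`
  have hcard : Fintype.card (Fin t × Fin K) = Fintype.card D := by
    rw [Fintype.card_prod, Fintype.card_fin, Fintype.card_fin, Fintype.card_coe, hDc, mul_comm]
  let e : (Fin t × Fin K) ≃ D := Fintype.equivOfCardEq hcard
  set J : Fin t × Fin K → ℕ := fun p => (e p : ℕ) with hJdef
  have hJinj : Function.Injective J := fun a b h => e.injective (Subtype.ext h)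
  have hJD : ∀ p, J p ∈ D := fun p => (e p).2
  have hJsurj : ∀ j ∈ D, ∃ p, J p = j := fun j hj => ⟨e.symm ⟨j, hj⟩, by simp [hJdef]⟩
  -- leaf children
  choose! qq hqq1 hqq2 using hD3
  set Q : Fin t × Fin K → ℕ := fun p => qq (J p) with hQdef
  have hQ1 : ∀ p, Q p ∈ chs K (J p) := fun p => hqq1 _ (hJD p)
  have hQ2 : ∀ p, ∀ j' ∈ Finset.range m, par j' ≠ Q p := fun p => hqq2 _ (hJD p)
  have hQe : ∀ p, Q p ∈ edg K par (J p) := fun p => Finset.mem_insert_of_mem (hQ1 p)
  -- disjointness of the edges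
  have hdisj : ∀ p p' y, y ∈ edg K par (J p) → y ∈ edg K par (J p') → p = p' := by
    intro p p' y h1 h2
    unfold edg at h1 h2
    rw [Finset.mem_insert] at h1 h2
    apply hJinj
    rcases h1 with h1 | h1 <;> rcases h2 with h2 | h2
    · apply hD2 (hJD p) (hJD p')
      show ed K (par (J p)) = ed K (par (J p'))
      rw [← h1, ← h2]
    · exfalso
      apply (hD1 _ (hJD p)).2
      rw [← h1, ed_of_mem h2]
      exact hJD p'
    · exfalso
      apply (hD1 _ (hJD p')).2
      rw [← h2, ed_of_mem h1]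
      exact hJD p
    · rw [← ed_of_mem h1, ← ed_of_mem h2]
  have h0e : ∀ p, 0 ∉ edg K par (J p) := by
    intro p h
    unfold edg at h
    rw [Finset.mem_insert] at h
    rcases h with h | h
    · exact (hD1 _ (hJD p)).1 h.symm
    · have := lt_of_mem h
      omega
  -- the bijections with the groups
  have hbc : ∀ p : Fin t × Fin K, Fintype.card (((edg K par (J p)).erase (Q p) : Finset ℕ)) =
      Fintype.card (Fin K) := by
    intro p
    rw [Fintype.card_coe, Fintype.card_fin, Finset.card_erase_of_mem (hQe p),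
      card_edg (hT.le _)]
    rfl
  let b : ∀ p : Fin t × Fin K, ((edg K par (J p)).erase (Q p) : Finset ℕ) ≃ Fin K :=
    fun p => Fintype.equivOfCardEq (hbc p)
  let lab : Fin t × Fin K → ℕ → Fin K ⊕ (Fin K × Fin K) := fun p y =>
    if h : y ∈ (edg K par (J p)).erase (Q p) then Sum.inr (p.2, b p ⟨y, h⟩) else Sum.inl p.2
  have hlabQ : ∀ p, lab p (Q p) = Sum.inl p.2 := by
    intro p
    have : Q p ∉ (edg K par (J p)).erase (Q p) := by simp
    simp only [lab, dif_neg this]
  have hlabE : ∀ p y (h : y ∈ (edg K par (J p)).erase (Q p)),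
      lab p y = Sum.inr (p.2, b p ⟨y, h⟩) := by
    intro p y h
    simp only [lab, dif_pos h]
  let ψ₀ : ℕ → V := fun y => if h : ∃ p, y ∈ edg K par (J p) then
    val (F h.choose.1) (lab h.choose y) else v
  have hψe : ∀ p y, y ∈ edg K par (J p) → ψ₀ y = val (F p.1) (lab p y) := by
    intro p y h
    have hex : ∃ p, y ∈ edg K par (J p) := ⟨p, h⟩
    have : hex.choose = p := hdisj _ _ y hex.choose_spec h
    simp only [ψ₀, dif_pos hex]
    rw [this]
  have hψ0 : ψ₀ 0 = v := by
    have : ¬ ∃ p, 0 ∈ edg K par (J p) := fun ⟨p, h⟩ => h0e p h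
    simp only [ψ₀, dif_neg this]
  have hψQ : ∀ p, ψ₀ (Q p) = (F p.1).w p.2 := by
    intro p
    rw [hψe p _ (hQe p), hlabQ]
    rfl
  have himg : ∀ p, ((edg K par (J p)).erase (Q p)).image ψ₀ =
      Finset.univ.image ((F p.1).A p.2) := by
    intro p
    ext x
    rw [Finset.mem_image, Finset.mem_image]
    constructor
    · rintro ⟨y, hy, rfl⟩
      refine ⟨b p ⟨y, hy⟩, Finset.mem_univ _, ?_⟩
      rw [hψe p y (Finset.mem_of_mem_erase hy), hlabE p y hy]
      rfl
    · rintro ⟨r, -, rfl⟩
      refine ⟨((b p).symm r : ℕ), ((b p).symm r).2, ?_⟩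
      rw [hψe p _ (Finset.mem_of_mem_erase ((b p).symm r).2), hlabE p _ ((b p).symm r).2]
      have : b p ⟨((b p).symm r : ℕ), ((b p).symm r).2⟩ = r := by simp
      rw [this]
      rfl
  have himg2 : ∀ p, (edg K par (J p)).image ψ₀ ∈ G := by
    intro p
    have h1 : edg K par (J p) = insert (Q p) ((edg K par (J p)).erase (Q p)) :=
      (Finset.insert_erase (hQe p)).symm
    rw [h1, Finset.image_insert, himg, hψQ]
    exact (hF p.1).1 p.2
  -- the set `Z`
  set Z : Finset ℕ := insert 0 (Finset.univ.biUnion (fun p => edg K par (J p))) with hZ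
  have hZmem : ∀ y, y ∈ Z ↔ y = 0 ∨ ∃ p, y ∈ edg K par (J p) := by
    intro y
    simp [hZ]
  have hψmem : ∀ p y, y ∈ edg K par (J p) → ψ₀ y ∈ gsupp (F p.1) := by
    intro p y h
    rw [hψe p y h]
    exact val_mem _ _
  have hinj : Set.InjOn ψ₀ ↑Z := by
    intro y hy y' hy' hyy
    rw [Finset.mem_coe, hZmem] at hy hy'
    rcases hy with rfl | ⟨p, hp⟩ <;> rcases hy' with rfl | ⟨p', hp'⟩
    · rfl
    · exfalso
      apply hv p'.1
      rw [hψ0] at hyy
      rw [hyy]
      exact hψmem p' _ hp'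
    · exfalso
      apply hv p.1
      rw [hψ0] at hyy
      rw [← hyy]
      exact hψmem p _ hp
    · have h1 : p.1 = p'.1 := by
        by_contra hne
        have := hFd _ _ hne
        exact Finset.disjoint_left.mp this (hψmem p _ hp) (hyy ▸ hψmem p' _ hp')
      rw [hψe p y hp, hψe p' y' hp', ← h1] at hyy
      have h2 := val_inj (hF p.1) hyy
      by_cases hyQ : y ∈ (edg K par (J p)).erase (Q p) <;>
        by_cases hyQ' : y' ∈ (edg K par (J p')).erase (Q p')
      · rw [hlabE p y hyQ, hlabE p' y' hyQ'] at h2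
        have h3 := Sum.inr.inj h2
        rw [Prod.mk.injEq] at h3
        have h4 : p = p' := Prod.ext h1 h3.1
        subst h4
        have h5 := (b p).injective h3.2
        exact congrArg Subtype.val h5
      · simp only [lab, dif_pos hyQ, dif_neg hyQ'] at h2
        exact absurd h2 (by simp)
      · simp only [lab, dif_neg hyQ, dif_pos hyQ'] at h2
        exact absurd h2 (by simp)
      · simp only [lab, dif_neg hyQ, dif_neg hyQ'] at h2
        have h3 := Sum.inl.inj h2
        have h4 : p = p' := Prod.ext h1 h3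
        subst h4
        have h5 : y = Q p := by
          by_contra hne
          exact hyQ (Finset.mem_erase.mpr ⟨hne, hp⟩)
        have h6 : y' = Q p := by
          by_contra hne
          exact hyQ' (Finset.mem_erase.mpr ⟨hne, hp'⟩)
        rw [h5, h6]
  have hC : ∀ j ∈ A, (edg K par j ⊆ Z ∧ (edg K par j).image ψ₀ ∈ G) ∨
      (chs K j ∩ Z).card ≤ 1 := by
    intro j hj
    by_cases hjD : j ∈ D
    · left
      obtain ⟨p, rfl⟩ := hJsurj j hjD
      exact ⟨fun y hy => (hZmem y).mpr (Or.inr ⟨p, hy⟩), himg2 p⟩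
    · right
      rw [Finset.card_le_one]
      have key : ∀ y ∈ chs K j ∩ Z, ∃ p, y = par (J p) ∧ ed K (par (J p)) = j := by
        intro y hy
        rw [Finset.mem_inter, hZmem] at hy
        obtain ⟨hy1, hy2⟩ := hy
        rcases hy2 with rfl | ⟨p, hp⟩
        · have := lt_of_mem hy1
          omega
        · unfold edg at hp
          rw [Finset.mem_insert] at hp
          rcases hp with hp | hp
          · exact ⟨p, hp, by rw [← hp, ed_of_mem hy1]⟩
          · exfalso
            apply hjD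
            rw [← ed_of_mem hy1, ed_of_mem hp]
            exact hJD p
      intro y hy y' hy'
      obtain ⟨p, hp1, hp2⟩ := key y hy
      obtain ⟨p', hp1', hp2'⟩ := key y' hy'
      have : J p = J p' := hD2 (hJD p) (hJD p') (by
        show ed K (par (J p)) = ed K (par (J p'))
        rw [hp2, hp2'])
      rw [hp1, hp1', this]
  have hU : ∀ z ∈ Z, ψ₀ z ∉
      (Finset.univ \ insert v (Finset.univ.biUnion (fun l => gsupp (F l))) : Finset V) := by
    intro z hz h
    rw [Finset.mem_sdiff] at h
    apply h.2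
    rw [hZmem] at hz
    rcases hz with rfl | ⟨p, hp⟩
    · rw [hψ0]
      exact Finset.mem_insert_self _ _
    · apply Finset.mem_insert_of_mem
      rw [Finset.mem_biUnion]
      exact ⟨p.1, Finset.mem_univ _, hψmem p z hp⟩
  have hMM : ((vs K A \ Z).card : ℝ) ≤ M := by
    have h1 : vs K A \ Z ⊆ A.biUnion (chs K) := by
      intro y hy
      rw [Finset.mem_sdiff, hZmem] at hy
      unfold vs at hy
      rw [Finset.mem_insert] at hy
      rcases hy.1 with h | h
      · exact absurd (Or.inl h) hy.2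
      · exact h
    have h2 : (vs K A \ Z).card ≤ K * A.card := by
      refine (Finset.card_le_card h1).trans (Finset.card_biUnion_le.trans ?_)
      rw [Finset.sum_congr rfl (fun j _ => card_chs K j), Finset.sum_const, smul_eq_mul, mul_comm]
    refine le_trans ?_ hM
    exact_mod_cast h2
  obtain ⟨ψ, hψZ, hψinj, -, hψG⟩ := greedy hK hG hT.le hcl (Z := Z) (by simp [hZ]) hinj hC hU
    hMM hE
  have hZe : ∀ p y, y ∈ edg K par (J p) → y ∈ Z := fun p y hy => (hZmem y).mpr (Or.inr ⟨p, hy⟩)
  refine ⟨ψ, fun l i => J (l, i), fun l i => Q (l, i), ⟨?_, ?_, hψG⟩, ?_, ?_, ?_, ?_, ?_, ?_⟩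
  · intro y hy y' hy' h
    rw [Finset.mem_coe] at hy hy'
    exact hψinj (Finset.mem_coe.mpr (Finset.mem_union_left _ hy))
      (Finset.mem_coe.mpr (Finset.mem_union_left _ hy')) h
  · rw [hψZ 0 (by simp [hZ]), hψ0]
  · intro l i
    exact hD (hJD _)
  · intro l i
    exact hQ1 _
  · intro l i j hj
    exact hQ2 _ j hj
  · intro l i l' i' h
    have := hdisj (l, i) (l', i') _ (hQe (l, i)) h
    rw [Prod.mk.injEq] at this
    exact this
  · intro l i
    show ψ (Q (l, i)) = _
    rw [hψZ _ (hZe (l, i) _ (hQe _)), hψQ]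
  · intro l i
    show ((edg K par (J (l, i))).erase (Q (l, i))).image ψ = _
    rw [← himg (l, i)]
    apply Finset.image_congr
    intro y hy
    exact hψZ y (hZe (l, i) y (Finset.mem_of_mem_erase hy))

end Pool.Agent.helper21.RL
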