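import Pool.Agent.helper21.RL.Defs

/-! Module Red: the reduced hypergraph of a partition into small parts (helper17). -/

set_option autoImplicit false

open Finset

namespace Pool.Agent.helper21.RL

/-- edges of `G` which have exactly one vertex in every part `X i`, `i ∈ e` -/
def trv {V : Type} [DecidableEq V] (G : Finset (Finset V)) {N : ℕ} (X : Fin N → Finset V)
    (e : Finset (Fin N)) : Finset (Finset V) := G.filter (fun s => ∀ i ∈ e, (s ∩ X i).card = 1)

/-- reduced hypergraph: `(K+1)`-sets of parts of density at least `β` -/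
noncomputable def redE {V : Type} [DecidableEq V] (K : ℕ) (G : Finset (Finset V)) {N : ℕ}
    (X : Fin N → Finset V) (c : ℕ) (β : ℝ) : Finset (Finset (Fin N)) :=
  Finset.univ.filter
    (fun e => e.card = K + 1 ∧ β * (c : ℝ) ^ (K + 1) ≤ ((trv G X e).card : ℝ))

section aux

variable {V : Type} [DecidableEq V] {N : ℕ} {X : Fin N → Finset V}

private theorem img_inter (hX : ∀ i j, i ≠ j → Disjoint (X i) (X j)) {e : Finset (Fin N)}
    {g : Fin N → V} (hg : ∀ l ∈ e, g l ∈ X l) {l : Fin N} (hl : l ∈ e) :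
    e.image g ∩ X l = {g l} := by
  ext z
  rw [mem_inter, mem_image, mem_singleton]
  constructor
  · rintro ⟨⟨m, hm, rfl⟩, hz⟩
    by_contra hne
    have hml : m ≠ l := fun h => hne (by rw [h])
    exact disjoint_left.1 (hX m l hml) (hg m hm) hz
  · rintro rfl
    exact ⟨⟨l, hl, rfl⟩, hg l hl⟩

private theorem img_upd {S : Finset (Fin N)} {i j : Fin N} (hij : i ≠ j) (hi : i ∉ S)
    (hj : j ∉ S) (f : Fin N → V) (x y : V) :
    (insert i (insert j S)).image (Function.update (Function.update f j y) i x) =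
      insert x (insert y (S.image f)) := by
  rw [image_insert, image_insert, Function.update_self, Function.update_of_ne hij.symm,
    Function.update_self]
  congr 2
  apply image_congr
  intro l hl
  rw [Function.update_of_ne, Function.update_of_ne]
  · rintro rfl; exact hj hl
  · rintro rfl; exact hi hl

private theorem triple_le_trv (G : Finset (Finset V))
    (hX : ∀ i j, i ≠ j → Disjoint (X i) (X j)) {S : Finset (Fin N)} {i j : Fin N}
    (hij : i ≠ j) (hi : i ∉ S) (hj : j ∉ S) (F : Finset (Fin N → V)) (v0 : V)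
    (hF : ∀ f ∈ F, (∀ l ∈ S, f l ∈ X l) ∧ ∀ l ∉ S, f l = v0) :
    ((F ×ˢ (X i ×ˢ X j)).filter
      (fun q => insert q.2.1 (insert q.2.2 (S.image q.1)) ∈ G)).card ≤
      (trv G X (insert i (insert j S))).card := by
  -- the extended functions
  have hg : ∀ f ∈ F, ∀ x ∈ X i, ∀ y ∈ X j, ∀ l ∈ insert i (insert j S),
      Function.update (Function.update f j y) i x l ∈ X l := by
    intro f hf x hx y hy l hl
    by_cases h1 : l = i
    · subst h1; rw [Function.update_self]; exact hx
    · rw [Function.update_of_ne h1]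
      by_cases h2 : l = j
      · subst h2; rw [Function.update_self]; exact hy
      · rw [Function.update_of_ne h2]
        rw [mem_insert, mem_insert] at hl
        rcases hl with h | h | h
        · exact absurd h h1
        · exact absurd h h2
        · exact (hF f hf).1 l h
  apply card_le_card_of_injOn (fun q => insert q.2.1 (insert q.2.2 (S.image q.1)))
  · rintro ⟨f, x, y⟩ hq
    simp only [coe_filter, mem_product, Set.mem_ofPred_eq] at hq
    obtain ⟨⟨hf, hx, hy⟩, hG⟩ := hq
    simp only [trv, coe_filter, Set.mem_ofPred_eq]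
    refine ⟨hG, fun l hl => ?_⟩
    rw [← img_upd hij hi hj f x y, img_inter hX (hg f hf x hx y hy) hl, card_singleton]
  · rintro ⟨f, x, y⟩ hq ⟨f', x', y'⟩ hq' h
    simp only [coe_filter, mem_product, Set.mem_ofPred_eq] at hq hq' h
    obtain ⟨⟨hf, hx, hy⟩, -⟩ := hq
    obtain ⟨⟨hf', hx', hy'⟩, -⟩ := hq'
    rw [← img_upd hij hi hj f x y, ← img_upd hij hi hj f' x' y'] at h
    have hval : ∀ l ∈ insert i (insert j S),
        Function.update (Function.update f j y) i x l =
          Function.update (Function.update f' j y') i x' l := by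
      intro l hl
      have h1 := img_inter hX (hg f hf x hx y hy) hl
      have h2 := img_inter hX (hg f' hf' x' hx' y' hy') hl
      rw [h] at h1
      exact singleton_injective (h1.symm.trans h2)
    have hxx : x = x' := by
      have := hval i (mem_insert_self _ _)
      rwa [Function.update_self, Function.update_self] at this
    have hyy : y = y' := by
      have := hval j (mem_insert_of_mem (mem_insert_self _ _))
      rwa [Function.update_of_ne hij.symm, Function.update_of_ne hij.symm,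
        Function.update_self, Function.update_self] at this
    have hff : f = f' := by
      funext l
      by_cases hl : l ∈ S
      · have := hval l (mem_insert_of_mem (mem_insert_of_mem hl))
        have h1 : l ≠ i := by rintro rfl; exact hi hl
        have h2 : l ≠ j := by rintro rfl; exact hj hl
        rwa [Function.update_of_ne h1, Function.update_of_ne h2, Function.update_of_ne h1,
          Function.update_of_ne h2] at this
      · rw [(hF f hf).2 l hl, (hF f' hf').2 l hl]
    rw [hxx, hyy, hff]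

end aux

/-- PROOF. Fix a `(K-1)`-set `S` of parts. Sum the condition `PD` for `G` over all transversals `s`
of `S` (`c^(K-1)` sets `s`, one vertex in each part): at least `c^(K-1) (1/2+γ) |U|²` triples
`(s, x, y)` with `insert x (insert y s) ∈ G`, `x, y ∈ U`. At most
`c^(K-1) ((2 c |U|) + c |U| + 2 (K-1) c |U|)` of them have `x` or `y` outside `⋃ X i` (fewer than `c`
vertices of `U` are outside), or `x, y` in the same part, or `x` or `y` in a part of `S`. The others
are distributed to the ordered pairs `(i,j)` of distinct parts outside `S`, the pair `(i,j)` receives at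
most `#trv (insert i (insert j S))` (the map `(s,x,y) ↦ insert x (insert y s)` is injective for given
`(i,j)`), which is always at most `c^(K+1)`, and less than `(γ/4) c^(K+1)` if the set is not in `redE`.
So with `P` the number of ordered pairs in the reduced hypergraph
`c^(K+1) P + (γ/4) c^(K+1) N² ≥ c^(K-1) ((1/2+γ) |U|² - (2K+1) c |U|)`, and `N c ≤ |U| < (N+1) c`
gives `P ≥ (1/2 + 3γ/4) N² - (2K+1)(N+1)… ≥ (1/2+γ/2) N²` for `N ≥ N₀(K, γ)`. -/
theorem red_PD (K : ℕ) (hK : 3 ≤ K) (γ : ℝ) (hγ : 0 < γ) :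
    ∃ N₀ : ℕ, ∀ (V : Type) [Fintype V] [DecidableEq V] (G : Finset (Finset V)) (U : Finset V)
      (c N : ℕ) (X : Fin N → Finset V), Unif K G → PD K G U (1 / 2 + γ) → 1 ≤ c → N₀ ≤ N →
      (∀ i, (X i).card = c) → (∀ i, X i ⊆ U) → (∀ i j, i ≠ j → Disjoint (X i) (X j)) →
      U.card < (N + 1) * c → PD K (redE K G X c (γ / 4)) Finset.univ (1 / 2 + γ / 2) := by
  classical
  refine ⟨⌈8 * (2 * (K : ℝ) + 1) / γ⌉₊ + 1, ?_⟩
  intro V _ _ G U c N X hG hPD hc hN hXc hXU hXd hU S _ hS
  have hN1 : 1 ≤ N := le_trans (by omega) hN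
  have hNγ : 8 * (2 * (K : ℝ) + 1) ≤ γ * N := by
    have h1 : 8 * (2 * (K : ℝ) + 1) / γ ≤ (⌈8 * (2 * (K : ℝ) + 1) / γ⌉₊ : ℝ) := Nat.le_ceil _
    have h2 : ((⌈8 * (2 * (K : ℝ) + 1) / γ⌉₊ + 1 : ℕ) : ℝ) ≤ N := by exact_mod_cast hN
    push_cast at h2
    have h3 : 8 * (2 * (K : ℝ) + 1) / γ ≤ N := by linarith
    rw [div_le_iff₀ hγ] at h3
    linarith
  -- a default vertex
  obtain ⟨v0, -⟩ : (X ⟨0, hN1⟩).Nonempty := by
    rw [← card_pos, hXc]; exact hc
  -- transversals of `S`
  set F : Finset (Fin N → V) :=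
    Fintype.piFinset (fun l => if l ∈ S then X l else {v0}) with hFdef
  have hF : ∀ f ∈ F, (∀ l ∈ S, f l ∈ X l) ∧ ∀ l ∉ S, f l = v0 := by
    intro f hf
    rw [hFdef, Fintype.mem_piFinset] at hf
    constructor
    · intro l hl
      have := hf l
      rwa [if_pos hl] at this
    · intro l hl
      have := hf l
      rwa [if_neg hl, mem_singleton] at this
  have hFc : F.card = c ^ (K - 1) := by
    rw [hFdef, Fintype.card_piFinset]
    have h1 : ∀ l ∈ (univ : Finset (Fin N)), (if l ∈ S then X l else {v0}).card =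
        if l ∈ S then c else 1 := by
      intro l _
      split_ifs
      · exact hXc l
      · exact card_singleton _
    rw [prod_congr rfl h1, prod_ite_mem, univ_inter, prod_const, hS]
  have hsc : ∀ f ∈ F, (S.image f).card = K - 1 ∧ S.image f ⊆ U := by
    intro f hf
    constructor
    · rw [card_image_of_injOn, hS]
      intro a ha b hb hab
      by_contra hne
      have h1 := (hF f hf).1 a ha
      have h2 := (hF f hf).1 b hb
      rw [hab] at h1
      exact disjoint_left.1 (hXd a b hne) h1 h2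
    · intro z hz
      obtain ⟨l, hl, rfl⟩ := mem_image.1 hz
      exact hXU l ((hF f hf).1 l hl)
  -- the parts
  set W : Finset V := univ.biUnion X with hW
  have hWU : W ⊆ U := by
    intro z hz
    obtain ⟨l, -, hl⟩ := mem_biUnion.1 hz
    exact hXU l hl
  have hWc : W.card = N * c := by
    rw [hW, card_biUnion (fun i _ j _ h => hXd i j h), sum_congr rfl (fun i _ => hXc i),
      sum_const, card_univ, Fintype.card_fin, smul_eq_mul]
  have hNcU : N * c ≤ U.card := by rw [← hWc]; exact card_le_card hWU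
  have hUW : (U \ W).card ≤ c := by
    rw [card_sdiff_of_subset hWU, hWc]
    have : (N + 1) * c = N * c + c := by ring
    omega
  set SX : Finset V := S.biUnion X with hSX
  have hSXc : SX.card ≤ (K - 1) * c := by
    rw [hSX]
    refine card_biUnion_le.trans ?_
    rw [sum_congr rfl (fun i _ => hXc i), sum_const, hS, smul_eq_mul]
  set Bad : Finset (V × V) := (U \ W) ×ˢ U ∪ U ×ˢ (U \ W) ∪
    (univ.biUnion (fun i => X i ×ˢ X i)) ∪ SX ×ˢ U ∪ U ×ˢ SX with hBad
  have hBadc : Bad.card ≤ (2 * K + 1) * c * U.card := by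
    have h1 : ((univ : Finset (Fin N)).biUnion (fun i => X i ×ˢ X i)).card ≤ c * U.card := by
      refine card_biUnion_le.trans ?_
      have : ∀ i ∈ (univ : Finset (Fin N)), (X i ×ˢ X i).card = c * c := by
        intro i _
        rw [card_product, hXc]
      rw [sum_congr rfl this, sum_const, card_univ, Fintype.card_fin, smul_eq_mul]
      calc N * (c * c) = c * (N * c) := by ring
        _ ≤ c * U.card := Nat.mul_le_mul_left _ hNcU
    calc Bad.card ≤ ((U \ W) ×ˢ U).card + (U ×ˢ (U \ W)).card +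
          ((univ : Finset (Fin N)).biUnion (fun i => X i ×ˢ X i)).card + (SX ×ˢ U).card +
          (U ×ˢ SX).card := by
          rw [hBad]
          refine (card_union_le _ _).trans ?_
          refine Nat.add_le_add_right ?_ _
          refine (card_union_le _ _).trans ?_
          refine Nat.add_le_add_right ?_ _
          refine (card_union_le _ _).trans ?_
          refine Nat.add_le_add_right ?_ _
          exact card_union_le _ _
      _ ≤ c * U.card + U.card * c + c * U.card + (K - 1) * c * U.card +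
          U.card * ((K - 1) * c) := by
          rw [card_product, card_product, card_product, card_product]
          gcongr
      _ = (2 * (K - 1) + 3) * c * U.card := by ring
      _ = (2 * K + 1) * c * U.card := by
          congr 2; omega
  -- pairs of indices
  set J : Finset (Fin N × Fin N) :=
    (univ ×ˢ univ).filter (fun p => p.1 ≠ p.2 ∧ p.1 ∉ S ∧ p.2 ∉ S) with hJ
  have hcov : ∀ f : Fin N → V,
      ((U ×ˢ U).filter (fun p => insert p.1 (insert p.2 (S.image f)) ∈ G)).card ≤
        Bad.card + ∑ q ∈ J, ((X q.1 ×ˢ X q.2).filter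
          (fun p => insert p.1 (insert p.2 (S.image f)) ∈ G)).card := by
    intro f
    have hsub : (U ×ˢ U).filter (fun p => insert p.1 (insert p.2 (S.image f)) ∈ G) ⊆
        Bad ∪ J.biUnion (fun q => (X q.1 ×ˢ X q.2).filter
          (fun p => insert p.1 (insert p.2 (S.image f)) ∈ G)) := by
      rintro ⟨x, y⟩ hxy
      rw [mem_filter, mem_product] at hxy
      obtain ⟨⟨hx, hy⟩, hGxy⟩ := hxy
      rw [mem_union]
      by_cases hb : (x, y) ∈ Bad
      · exact Or.inl hb
      · right
        rw [hBad] at hb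
        simp only [mem_union, mem_product, mem_sdiff, not_or] at hb
        obtain ⟨⟨⟨⟨h1, h2⟩, h3⟩, h4⟩, h5⟩ := hb
        have hxW : x ∈ W := by
          by_contra h; exact h1 ⟨⟨hx, h⟩, hy⟩
        have hyW : y ∈ W := by
          by_contra h; exact h2 ⟨hx, ⟨hy, h⟩⟩
        obtain ⟨i, -, hi⟩ := mem_biUnion.1 hxW
        obtain ⟨j, -, hj⟩ := mem_biUnion.1 hyW
        rw [mem_biUnion]
        refine ⟨(i, j), ?_, ?_⟩
        · rw [hJ, mem_filter]
          refine ⟨by simp, ?_, ?_, ?_⟩
          · rintro hij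
            apply h3
            rw [mem_biUnion]
            refine ⟨i, mem_univ _, ?_⟩
            rw [mem_product]
            exact ⟨hi, by rw [show i = j from hij]; exact hj⟩
          · intro h
            exact h4 ⟨mem_biUnion.2 ⟨i, h, hi⟩, hy⟩
          · intro h
            exact h5 ⟨hx, mem_biUnion.2 ⟨j, h, hj⟩⟩
        · rw [mem_filter, mem_product]
          exact ⟨⟨hi, hj⟩, hGxy⟩
    refine (card_le_card hsub).trans ((card_union_le _ _).trans ?_)
    exact Nat.add_le_add_left card_biUnion_le _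
  -- the numbers `M q`
  set M : Fin N × Fin N → ℕ := fun q => ((F ×ˢ (X q.1 ×ˢ X q.2)).filter
      (fun t => insert t.2.1 (insert t.2.2 (S.image t.1)) ∈ G)).card with hM
  have hMsum : ∀ q, ∑ f ∈ F, ((X q.1 ×ˢ X q.2).filter
      (fun p => insert p.1 (insert p.2 (S.image f)) ∈ G)).card = M q := by
    intro q
    rw [hM]
    simp only [card_filter]
    rw [sum_product]
  have htot : ∑ f ∈ F, ((U ×ˢ U).filter
      (fun p => insert p.1 (insert p.2 (S.image f)) ∈ G)).card ≤
      F.card * Bad.card + ∑ q ∈ J, M q := by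
    calc ∑ f ∈ F, ((U ×ˢ U).filter (fun p => insert p.1 (insert p.2 (S.image f)) ∈ G)).card
        ≤ ∑ f ∈ F, (Bad.card + ∑ q ∈ J, ((X q.1 ×ˢ X q.2).filter
          (fun p => insert p.1 (insert p.2 (S.image f)) ∈ G)).card) :=
          sum_le_sum (fun f _ => hcov f)
      _ = F.card * Bad.card + ∑ q ∈ J, M q := by
          rw [sum_add_distrib, sum_const, smul_eq_mul, sum_comm]
          congr 1
          exact sum_congr rfl (fun q _ => hMsum q)
  have hcpos : (0 : ℝ) < c := by exact_mod_cast hc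
  -- lower bound
  have hlow : ((c : ℝ) ^ (K - 1)) * ((1 / 2 + γ) * (U.card : ℝ) ^ 2) ≤
      ((∑ f ∈ F, ((U ×ˢ U).filter
      (fun p => insert p.1 (insert p.2 (S.image f)) ∈ G)).card : ℕ) : ℝ) := by
    have h1 : ∑ _f ∈ F, (1 / 2 + γ) * (U.card : ℝ) ^ 2 ≤
        ∑ f ∈ F, ((((U ×ˢ U).filter
      (fun p => insert p.1 (insert p.2 (S.image f)) ∈ G)).card : ℕ) : ℝ) :=
      sum_le_sum (fun f hf => hPD _ (hsc f hf).2 (hsc f hf).1)
    rw [sum_const, nsmul_eq_mul, hFc] at h1
    push_cast at h1 ⊢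
    exact h1
  -- the reduced pairs
  set R : Finset (Fin N × Fin N) := (univ ×ˢ univ).filter
    (fun p => insert p.1 (insert p.2 S) ∈ redE K G X c (γ / 4)) with hR
  have hMle : ∀ q ∈ J, (M q : ℝ) ≤ (c : ℝ) ^ (K + 1) * (if q ∈ R then 1 else 0) +
      γ / 4 * (c : ℝ) ^ (K + 1) := by
    intro q hq
    rw [hJ, mem_filter] at hq
    obtain ⟨-, hq1, hq2, hq3⟩ := hq
    by_cases hqR : q ∈ R
    · rw [if_pos hqR, mul_one]
      have h1 : M q ≤ c ^ (K + 1) := by
        calc M q ≤ (F ×ˢ (X q.1 ×ˢ X q.2)).card := card_filter_le _ _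
          _ = c ^ (K - 1) * (c * c) := by
              rw [card_product, card_product, hFc, hXc, hXc]
          _ = c ^ (K + 1) := by
              rw [← pow_two, ← pow_add]; congr 1; omega
      have h2 : (M q : ℝ) ≤ (c : ℝ) ^ (K + 1) := by exact_mod_cast h1
      have h3 : 0 ≤ γ / 4 * (c : ℝ) ^ (K + 1) := by positivity
      linarith
    · rw [if_neg hqR, mul_zero, zero_add]
      have h1 : M q ≤ (trv G X (insert q.1 (insert q.2 S))).card :=
        triple_le_trv G hXd hq1 hq2 hq3 F v0 hF
      have hcard : (insert q.1 (insert q.2 S)).card = K + 1 := by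
        rw [card_insert_of_notMem, card_insert_of_notMem hq3, hS]
        · omega
        · rw [mem_insert, not_or]
          exact ⟨hq1, hq2⟩
      have h2 : ¬ (γ / 4 * (c : ℝ) ^ (K + 1) ≤
          ((trv G X (insert q.1 (insert q.2 S))).card : ℝ)) := by
        intro h
        apply hqR
        rw [hR, mem_filter]
        refine ⟨by simp, ?_⟩
        rw [redE, mem_filter]
        exact ⟨mem_univ _, hcard, h⟩
      push Not at h2
      have h3 : (M q : ℝ) ≤ ((trv G X (insert q.1 (insert q.2 S))).card : ℝ) := by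
        exact_mod_cast h1
      linarith
  have hsumM : ((∑ q ∈ J, M q : ℕ) : ℝ) ≤
      (c : ℝ) ^ (K + 1) * R.card + γ / 4 * (c : ℝ) ^ (K + 1) * (N : ℝ) ^ 2 := by
    push_cast
    have hJc : (J.card : ℝ) ≤ (N : ℝ) ^ 2 := by
      have : J.card ≤ N * N := by
        rw [hJ]
        refine (card_filter_le _ _).trans ?_
        rw [card_product, card_univ, Fintype.card_fin]
      calc (J.card : ℝ) ≤ ((N * N : ℕ) : ℝ) := by exact_mod_cast this
        _ = (N : ℝ) ^ 2 := by push_cast; ring
    have hJR : (∑ q ∈ J, (if q ∈ R then (1 : ℝ) else 0)) ≤ R.card := by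
      rw [← sum_filter, sum_const, nsmul_eq_mul, mul_one]
      have : (J.filter (fun q => q ∈ R)).card ≤ R.card := by
        apply card_le_card
        intro q hq
        exact (mem_filter.1 hq).2
      exact_mod_cast this
    calc ∑ q ∈ J, (M q : ℝ)
        ≤ ∑ q ∈ J, ((c : ℝ) ^ (K + 1) * (if q ∈ R then 1 else 0) +
            γ / 4 * (c : ℝ) ^ (K + 1)) := sum_le_sum hMle
      _ = (c : ℝ) ^ (K + 1) * (∑ q ∈ J, (if q ∈ R then (1 : ℝ) else 0)) +
            J.card * (γ / 4 * (c : ℝ) ^ (K + 1)) := by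
          rw [sum_add_distrib, ← mul_sum, sum_const, nsmul_eq_mul]
      _ ≤ (c : ℝ) ^ (K + 1) * R.card + (N : ℝ) ^ 2 * (γ / 4 * (c : ℝ) ^ (K + 1)) := by
          gcongr
      _ = _ := by ring
  -- everything together
  have hfin : ((c : ℝ) ^ (K - 1)) * ((1 / 2 + γ) * (U.card : ℝ) ^ 2) ≤
      (c : ℝ) ^ (K - 1) * ((2 * K + 1) * c * U.card) +
        ((c : ℝ) ^ (K + 1) * R.card + γ / 4 * (c : ℝ) ^ (K + 1) * (N : ℝ) ^ 2) := by
    refine hlow.trans ?_
    have h1 : ((∑ f ∈ F, ((U ×ˢ U).filter
      (fun p => insert p.1 (insert p.2 (S.image f)) ∈ G)).card : ℕ) : ℝ) ≤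
        ((F.card * Bad.card + ∑ q ∈ J, M q : ℕ) : ℝ) := by exact_mod_cast htot
    refine h1.trans ?_
    rw [Nat.cast_add]
    refine add_le_add ?_ hsumM
    rw [hFc]
    have h2 : c ^ (K - 1) * Bad.card ≤ c ^ (K - 1) * ((2 * K + 1) * c * U.card) :=
      Nat.mul_le_mul_left _ hBadc
    have h3 : ((c ^ (K - 1) * Bad.card : ℕ) : ℝ) ≤
        ((c ^ (K - 1) * ((2 * K + 1) * c * U.card) : ℕ) : ℝ) := by exact_mod_cast h2
    refine h3.trans (le_of_eq ?_)
    push_cast
    ring
  have hpow : (c : ℝ) ^ (K + 1) = (c : ℝ) ^ (K - 1) * (c : ℝ) ^ 2 := by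
    rw [← pow_add]; congr 1; omega
  rw [hpow] at hfin
  have hcp : (0 : ℝ) < (c : ℝ) ^ (K - 1) := by positivity
  have hfin2 : (1 / 2 + γ) * (U.card : ℝ) ^ 2 ≤ (2 * K + 1) * c * U.card +
      ((c : ℝ) ^ 2 * R.card + γ / 4 * (c : ℝ) ^ 2 * (N : ℝ) ^ 2) := by
    apply le_of_mul_le_mul_left _ hcp
    calc (c : ℝ) ^ (K - 1) * ((1 / 2 + γ) * (U.card : ℝ) ^ 2) ≤ _ := hfin
      _ = _ := by ring
  have hU1 : (N : ℝ) * c ≤ U.card := by exact_mod_cast hNcU
  have hU2 : (U.card : ℝ) ≤ (N + 1) * c := by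
    have := hU.le
    exact_mod_cast this
  have hNr : (1 : ℝ) ≤ N := by exact_mod_cast hN1
  have hfin3 : (1 / 2 + γ) * ((N : ℝ) * c) ^ 2 ≤ (2 * K + 1) * c * ((N + 1) * c) +
      ((c : ℝ) ^ 2 * R.card + γ / 4 * (c : ℝ) ^ 2 * (N : ℝ) ^ 2) := by
    calc (1 / 2 + γ) * ((N : ℝ) * c) ^ 2 ≤ (1 / 2 + γ) * (U.card : ℝ) ^ 2 := by
          gcongr
      _ ≤ _ := hfin2
      _ ≤ _ := by gcongr
  have hc2 : (0 : ℝ) < (c : ℝ) ^ 2 := by positivity
  have hfin4 : (1 / 2 + γ) * (N : ℝ) ^ 2 ≤ (2 * K + 1) * (N + 1) +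
      (R.card + γ / 4 * (N : ℝ) ^ 2) := by
    apply le_of_mul_le_mul_left _ hc2
    calc (c : ℝ) ^ 2 * ((1 / 2 + γ) * (N : ℝ) ^ 2) = (1 / 2 + γ) * ((N : ℝ) * c) ^ 2 := by ring
      _ ≤ _ := hfin3
      _ = _ := by ring
  rw [card_univ, Fintype.card_fin]
  have h9 : (2 * (K : ℝ) + 1) * (N + 1) ≤ γ / 4 * (N : ℝ) ^ 2 := by
    have h10 : (N : ℝ) + 1 ≤ 2 * N := by linarith
    have hKp : (0 : ℝ) < 2 * (K : ℝ) + 1 := by positivity
    calc (2 * (K : ℝ) + 1) * (N + 1) ≤ (2 * (K : ℝ) + 1) * (2 * N) := by gcongr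
      _ = (8 * (2 * (K : ℝ) + 1)) * N / 4 := by ring
      _ ≤ (γ * N) * N / 4 := by gcongr
      _ = γ / 4 * (N : ℝ) ^ 2 := by ring
  have hgoal : (1 / 2 + γ / 2) * (N : ℝ) ^ 2 ≤ (R.card : ℝ) := by linarith
  exact hgoal

end Pool.Agent.helper21.RL
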