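import Pool.Agent.helper21.RL.Box
import Pool.Agent.helper21.RL.Red

/-! Module Fill: small tiles inside the edges of the reduced hypergraph. -/

set_option autoImplicit false

open Finset

namespace Pool.Agent.helper21.RL

namespace Fill_aux

/-- one more tile inside the reduced edge `e`, avoiding `Q` -/
theorem one_tile (K c : ℕ) (β : ℝ) (hβ : 0 < β) (b : ℕ)
    (hb : ∀ {V : Type} [DecidableEq V] (X : Fin (K + 1) → Finset V) (R : (Fin (K + 1) → V) → Prop)
      [DecidablePred R], (∀ i, b ≤ (X i).card) →
      (β / 2) * ∏ i, ((X i).card : ℝ) ≤ (((Fintype.piFinset X).filter R).card : ℝ) →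
      ∃ Y : Fin (K + 1) → Finset V, (∀ i, Y i ⊆ X i) ∧ (∀ i, (Y i).card = c) ∧
        ∀ f ∈ Fintype.piFinset Y, R f)
    {V : Type} [DecidableEq V] (G : Finset (Finset V)) (hG : Unif K G) (c₁ q : ℕ)
    (Z : Fin (K + 1) → Finset V) (hZ : ∀ i, (Z i).card = c₁)
    (hZd : ∀ i j, i ≠ j → Disjoint (Z i) (Z j)) (Q : Finset V)
    (hQ : ∀ i, (Z i ∩ Q).card ≤ q * c) (hbc : b + q * c ≤ c₁)
    (hq : ((K : ℝ) + 1) * (q * c) ≤ β / 2 * c₁)
    (T : Finset (Finset V)) (hT : ∀ s ∈ T, s ∈ G ∧ ∀ i, (s ∩ Z i).card = 1)
    (hTc : β * (c₁ : ℝ) ^ (K + 1) ≤ (T.card : ℝ)) :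
    ∃ Y : Fin (K + 1) → Finset V, (∀ i, Y i ⊆ Z i \ Q) ∧ (∀ i, (Y i).card = c) ∧
      ∀ f : Fin (K + 1) → V, (∀ i, f i ∈ Y i) → Finset.univ.image f ∈ G := by
  classical
  let A : Finset (Fin (K + 1) → V) :=
    (Fintype.piFinset Z).filter (fun f => Finset.univ.image f ∈ G)
  -- transversal edges come from functions
  have hTA : T.card ≤ A.card := by
    have hsub : T ⊆ A.image (fun f => Finset.univ.image f) := by
      intro s hs
      obtain ⟨hsG, hs1⟩ := hT s hs
      have hne : ∀ i, ∃ x, x ∈ s ∩ Z i := by
        intro i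
        have : 0 < (s ∩ Z i).card := by rw [hs1 i]; exact one_pos
        exact Finset.card_pos.1 this
      choose f hf using hne
      have hfinj : Function.Injective f := by
        intro i j hij
        by_contra hne
        have h1 := (Finset.mem_inter.1 (hf i)).2
        have h2 := (Finset.mem_inter.1 (hf j)).2
        rw [hij] at h1
        exact Finset.disjoint_left.1 (hZd i j hne) h1 h2
      have himg : Finset.univ.image f = s := by
        apply Finset.eq_of_subset_of_card_le
        · intro x hx
          obtain ⟨i, -, rfl⟩ := Finset.mem_image.1 hx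
          exact (Finset.mem_inter.1 (hf i)).1
        · rw [Finset.card_image_of_injective _ hfinj, Finset.card_univ, Fintype.card_fin,
            hG s hsG]
      refine Finset.mem_image.2 ⟨f, ?_, himg⟩
      refine Finset.mem_filter.2 ⟨?_, ?_⟩
      · rw [Fintype.mem_piFinset]
        exact fun i => (Finset.mem_inter.1 (hf i)).2
      · rw [himg]; exact hsG
    exact (Finset.card_le_card hsub).trans Finset.card_image_le
  -- tuples meeting `Q`
  let Bad : Fin (K + 1) → Finset (Fin (K + 1) → V) := fun j =>
    Fintype.piFinset (Function.update Z j (Z j ∩ Q))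
  have hBad : ∀ j, (Bad j).card ≤ (q * c) * c₁ ^ K := by
    intro j
    have h1 : (Bad j).card = ∏ i, (Function.update Z j (Z j ∩ Q) i).card :=
      Fintype.card_piFinset _
    rw [h1, ← Finset.mul_prod_erase Finset.univ _ (Finset.mem_univ j), Function.update_self]
    have h2 : ∏ i ∈ Finset.univ.erase j, (Function.update Z j (Z j ∩ Q) i).card = c₁ ^ K := by
      rw [Finset.prod_congr rfl (g := fun _ => c₁)]
      · rw [Finset.prod_const, Finset.card_erase_of_mem (Finset.mem_univ j), Finset.card_univ,
          Fintype.card_fin, Nat.add_sub_cancel]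
      · intro i hi
        rw [Function.update_of_ne (Finset.ne_of_mem_erase hi), hZ i]
    rw [h2]
    exact Nat.mul_le_mul_right _ (hQ j)
  let X' : Fin (K + 1) → Finset V := fun i => Z i \ Q
  have hAsub : A ⊆ ((Fintype.piFinset X').filter (fun f => Finset.univ.image f ∈ G)) ∪
      Finset.univ.biUnion Bad := by
    intro f hf
    obtain ⟨hf1, hf2⟩ := Finset.mem_filter.1 hf
    rw [Fintype.mem_piFinset] at hf1
    by_cases h : ∃ j, f j ∈ Q
    · obtain ⟨j, hj⟩ := h
      refine Finset.mem_union_right _ (Finset.mem_biUnion.2 ⟨j, Finset.mem_univ j, ?_⟩)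
      rw [Fintype.mem_piFinset]
      intro i
      by_cases hij : i = j
      · subst hij
        rw [Function.update_self]
        exact Finset.mem_inter.2 ⟨hf1 i, hj⟩
      · rw [Function.update_of_ne hij]
        exact hf1 i
    · push Not at h
      refine Finset.mem_union_left _ (Finset.mem_filter.2 ⟨?_, hf2⟩)
      rw [Fintype.mem_piFinset]
      exact fun i => Finset.mem_sdiff.2 ⟨hf1 i, h i⟩
  have hcount : A.card ≤ ((Fintype.piFinset X').filter (fun f => Finset.univ.image f ∈ G)).card +
      (K + 1) * ((q * c) * c₁ ^ K) := by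
    refine (Finset.card_le_card hAsub).trans ((Finset.card_union_le _ _).trans ?_)
    refine Nat.add_le_add_left (Finset.card_biUnion_le.trans ?_) _
    calc ∑ j, (Bad j).card ≤ ∑ _j : Fin (K + 1), (q * c) * c₁ ^ K :=
          Finset.sum_le_sum fun j _ => hBad j
      _ = (K + 1) * ((q * c) * c₁ ^ K) := by
          rw [Finset.sum_const, Finset.card_univ, Fintype.card_fin, smul_eq_mul]
  have hX'card : ∀ i, b ≤ (X' i).card := by
    intro i
    have h1 : (Z i).card ≤ (Z i ∩ Q).card + (Z i \ Q).card := by
      rw [add_comm, Finset.card_sdiff_add_card_inter]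
    have h2 := hQ i
    rw [hZ i] at h1
    show b ≤ (Z i \ Q).card
    omega
  have hX'le : ∀ i, ((X' i).card : ℝ) ≤ c₁ := by
    intro i
    have : (Z i \ Q).card ≤ (Z i).card := Finset.card_le_card Finset.sdiff_subset
    rw [hZ i] at this
    exact_mod_cast this
  have hprod : ∏ i, ((X' i).card : ℝ) ≤ (c₁ : ℝ) ^ (K + 1) := by
    calc ∏ i, ((X' i).card : ℝ) ≤ ∏ _i : Fin (K + 1), (c₁ : ℝ) :=
          Finset.prod_le_prod (fun i _ => Nat.cast_nonneg _) fun i _ => hX'le i
      _ = (c₁ : ℝ) ^ (K + 1) := by rw [Finset.prod_const, Finset.card_univ, Fintype.card_fin]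
  have hdens : (β / 2) * ∏ i, ((X' i).card : ℝ) ≤
      (((Fintype.piFinset X').filter (fun f => Finset.univ.image f ∈ G)).card : ℝ) := by
    have h1 : (β / 2) * ∏ i, ((X' i).card : ℝ) ≤ (β / 2) * (c₁ : ℝ) ^ (K + 1) :=
      mul_le_mul_of_nonneg_left hprod (by linarith)
    have h2 : (A.card : ℝ) ≤
        (((Fintype.piFinset X').filter (fun f => Finset.univ.image f ∈ G)).card : ℝ) +
        (K + 1) * ((q * c) * (c₁ : ℝ) ^ K) := by exact_mod_cast hcount
    have h3 : (T.card : ℝ) ≤ A.card := by exact_mod_cast hTA
    have h4 : ((K : ℝ) + 1) * ((q * c) * (c₁ : ℝ) ^ K) ≤ (β / 2) * (c₁ : ℝ) ^ (K + 1) := by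
      calc ((K : ℝ) + 1) * ((q * c) * (c₁ : ℝ) ^ K) =
            (((K : ℝ) + 1) * (q * c)) * (c₁ : ℝ) ^ K := by ring
        _ ≤ (β / 2 * c₁) * (c₁ : ℝ) ^ K :=
            mul_le_mul_of_nonneg_right hq (pow_nonneg (Nat.cast_nonneg _) _)
        _ = (β / 2) * (c₁ : ℝ) ^ (K + 1) := by ring
    linarith
  obtain ⟨Y, hY1, hY2, hY3⟩ := hb X' (fun f => Finset.univ.image f ∈ G) hX'card hdens
  refine ⟨Y, hY1, hY2, fun f hf => hY3 f ?_⟩
  rw [Fintype.mem_piFinset]
  exact hf

end Fill_aux

/-- Choose the tiles one after the other for the list of pairs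
(edge `e` of the reduced hypergraph, copy number `< mult e`). -/
theorem fill (K : ℕ) (hK : 3 ≤ K) (β : ℝ) (hβ : 0 < β) (c : ℕ) (hc : 1 ≤ c) :
    ∃ b : ℕ, ∀ (V : Type) [Fintype V] [DecidableEq V] (G : Finset (Finset V)) (U : Finset V)
      (c₁ N q : ℕ) (X : Fin N → Finset V) (mult : Finset (Fin N) → ℕ), Unif K G →
      (∀ i, (X i).card = c₁) → (∀ i, X i ⊆ U) → (∀ i j, i ≠ j → Disjoint (X i) (X j)) →
      (∀ x, ∑ e ∈ (redE K G X c₁ β).filter (fun e => x ∈ e), mult e ≤ q) →
      b + q * c ≤ c₁ → ((K : ℝ) + 1) * (q * c) ≤ β / 2 * c₁ →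
      ∃ (M : ℕ) (B : Fin M → Fin (K + 1) → Finset V), Tiling K c G U M B ∧
        M = ∑ e ∈ redE K G X c₁ β, mult e ∧
        ∀ i, (X i ∩ Finset.univ.biUnion (fun p : Fin M × Fin (K + 1) => B p.1 p.2)).card ≤
          q * c := by
  obtain ⟨b, hb⟩ := box (K + 1) c (β / 2) (by positivity)
  refine ⟨b, ?_⟩
  intro V _ _ G U c₁ N q X mult hG hXc hXU hXd hmult hbc hq
  classical
  set E := redE K G X c₁ β with hE
  have key : ∀ (n : ℕ) (m' : Finset (Fin N) → ℕ), (∀ e ∈ E, m' e ≤ mult e) →
      ∑ e ∈ E, m' e = n → ∃ B : Fin n → Fin (K + 1) → Finset V, Tiling K c G U n B ∧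
        ∀ i, (X i ∩ Finset.univ.biUnion (fun p : Fin n × Fin (K + 1) => B p.1 p.2)).card ≤
          (∑ e ∈ E.filter (fun e => i ∈ e), m' e) * c := by
    intro n
    induction n with
    | zero =>
      intro m' _ _
      refine ⟨fun l => l.elim0, ⟨fun l => l.elim0, fun l => l.elim0, fun l => l.elim0,
        fun l => l.elim0⟩, fun i => ?_⟩
      have : (Finset.univ : Finset (Fin 0 × Fin (K + 1))) = ∅ := by
        ext p
        exact p.1.elim0
      rw [this]
      simp
    | succ n ih =>
      intro m' hm' hsum
      obtain ⟨e₀, he₀, hpos⟩ : ∃ e ∈ E, 0 < m' e := by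
        by_contra hcon
        push Not at hcon
        have : ∑ e ∈ E, m' e = 0 := Finset.sum_eq_zero fun e he => Nat.le_zero.1 (hcon e he)
        omega
      set m'' : Finset (Fin N) → ℕ := Function.update m' e₀ (m' e₀ - 1) with hm''
      have hm''e : m'' e₀ + 1 = m' e₀ := by
        rw [hm'', Function.update_self]; omega
      have hm''ne : ∀ e, e ≠ e₀ → m'' e = m' e := fun e he => by
        rw [hm'', Function.update_of_ne he]
      have hsplit : ∀ F : Finset (Finset (Fin N)), e₀ ∈ F →
          ∑ e ∈ F, m' e = ∑ e ∈ F, m'' e + 1 := by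
        intro F hF
        rw [← Finset.add_sum_erase F m' hF, ← Finset.add_sum_erase F m'' hF,
          Finset.sum_congr rfl fun e he => (hm''ne e (Finset.ne_of_mem_erase he)).symm, ← hm''e]
        exact add_right_comm _ _ _
      have hm''le : ∀ e ∈ E, m'' e ≤ mult e := by
        intro e he
        by_cases h : e = e₀
        · subst h; have := hm' e he; omega
        · rw [hm''ne e h]; exact hm' e he
      have hsum'' : ∑ e ∈ E, m'' e = n := by
        have := hsplit E he₀
        omega
      obtain ⟨B, hB, hBu⟩ := ih m'' hm''le hsum''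
      set Q := Finset.univ.biUnion (fun p : Fin n × Fin (K + 1) => B p.1 p.2) with hQdef
      have he₀' := he₀
      rw [hE, redE, Finset.mem_filter] at he₀'
      obtain ⟨-, hcard, hdens⟩ := he₀'
      set emb := e₀.orderEmbOfFin hcard with hemb
      have hembmem : ∀ j, emb j ∈ e₀ := fun j => Finset.orderEmbOfFin_mem e₀ hcard j
      have hembsurj : ∀ i ∈ e₀, ∃ j, emb j = i := by
        intro i hi
        have : i ∈ Set.range emb := by
          rw [hemb, Finset.range_orderEmbOfFin]
          exact hi
        exact this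
      let Z : Fin (K + 1) → Finset V := fun j => X (emb j)
      have hZd : ∀ i j, i ≠ j → Disjoint (Z i) (Z j) := fun i j hij =>
        hXd _ _ fun h => hij (emb.injective h)
      have hQle : ∀ i, (Z i ∩ Q).card ≤ q * c := by
        intro i
        refine (hBu (emb i)).trans (Nat.mul_le_mul_right _ ?_)
        refine le_trans (Finset.sum_le_sum fun e he => ?_) (hmult (emb i))
        exact hm''le e (Finset.mem_filter.1 he).1
      obtain ⟨Y, hY1, hY2, hY3⟩ := Fill_aux.one_tile K c β hβ b (fun X R _ => hb X R) G hG c₁ q Z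
        (fun i => hXc _) hZd Q hQle hbc hq (trv G X e₀)
        (by
          intro s hs
          obtain ⟨h1, h2⟩ := Finset.mem_filter.1 hs
          exact ⟨h1, fun i => h2 _ (hembmem i)⟩) hdens
      let B' : Fin (n + 1) → Fin (K + 1) → Finset V := Fin.snoc (α := fun _ => Fin (K + 1) → Finset V) B Y
      have hB'last : B' (Fin.last n) = Y := Fin.snoc_last (α := fun _ => Fin (K + 1) → Finset V) Y B
      have hB'cast : ∀ l : Fin n, B' l.castSucc = B l := fun l =>
        Fin.snoc_castSucc (α := fun _ => Fin (K + 1) → Finset V) Y B l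
      have hBQ : ∀ l i, B l i ⊆ Q := by
        intro l i x hx
        exact Finset.mem_biUnion.2 ⟨(l, i), Finset.mem_univ _, hx⟩
      have hYQ : ∀ i l i', Disjoint (Y i) (B l i') := by
        intro i l i'
        rw [Finset.disjoint_left]
        intro x hx hx'
        exact (Finset.mem_sdiff.1 (hY1 i hx)).2 (hBQ l i' hx')
      have hYd : ∀ i j, i ≠ j → Disjoint (Y i) (Y j) := fun i j hij =>
        Finset.disjoint_of_subset_left ((hY1 i).trans Finset.sdiff_subset)
          (Finset.disjoint_of_subset_right ((hY1 j).trans Finset.sdiff_subset) (hZd i j hij))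
      refine ⟨B', ⟨?_, ?_, ?_, ?_⟩, ?_⟩
      · intro l i
        induction l using Fin.lastCases with
        | last => rw [hB'last]; exact hY2 i
        | cast l => rw [hB'cast]; exact hB.card l i
      · intro l i
        induction l using Fin.lastCases with
        | last =>
          rw [hB'last]
          exact ((hY1 i).trans Finset.sdiff_subset).trans (hXU _)
        | cast l => rw [hB'cast]; exact hB.sub l i
      · intro l i l' i' hne
        induction l using Fin.lastCases with
        | last =>
          induction l' using Fin.lastCases with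
          | last =>
            rw [hB'last]
            apply hYd
            intro h
            exact hne (by rw [h])
          | cast l' =>
            rw [hB'last, hB'cast]
            exact hYQ i l' i'
        | cast l =>
          induction l' using Fin.lastCases with
          | last =>
            rw [hB'last, hB'cast]
            exact (hYQ i' l i).symm
          | cast l' =>
            rw [hB'cast, hB'cast]
            apply hB.disj
            intro h
            apply hne
            rw [Prod.mk.injEq] at h ⊢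
            exact ⟨by rw [h.1], h.2⟩
      · intro l f hf
        induction l using Fin.lastCases with
        | last =>
          rw [hB'last] at hf
          exact hY3 f hf
        | cast l =>
          rw [hB'cast] at hf
          exact hB.edge l f hf
      · intro i
        have hsub : X i ∩ Finset.univ.biUnion
            (fun p : Fin (n + 1) × Fin (K + 1) => B' p.1 p.2) ⊆
            (X i ∩ Q) ∪ (X i ∩ Finset.univ.biUnion Y) := by
          intro x hx
          obtain ⟨hx1, hx2⟩ := Finset.mem_inter.1 hx
          obtain ⟨⟨l, j⟩, -, hx3⟩ := Finset.mem_biUnion.1 hx2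
          simp only at hx3
          induction l using Fin.lastCases with
          | last =>
            rw [hB'last] at hx3
            exact Finset.mem_union_right _ (Finset.mem_inter.2
              ⟨hx1, Finset.mem_biUnion.2 ⟨j, Finset.mem_univ _, hx3⟩⟩)
          | cast l =>
            rw [hB'cast] at hx3
            exact Finset.mem_union_left _ (Finset.mem_inter.2 ⟨hx1, hBQ l j hx3⟩)
        refine (Finset.card_le_card hsub).trans ((Finset.card_union_le _ _).trans ?_)
        by_cases hi : i ∈ e₀
        · obtain ⟨j₀, hj₀⟩ := hembsurj i hi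
          have h1 : X i ∩ Finset.univ.biUnion Y ⊆ Y j₀ := by
            intro x hx
            obtain ⟨hx1, hx2⟩ := Finset.mem_inter.1 hx
            obtain ⟨j, -, hx3⟩ := Finset.mem_biUnion.1 hx2
            have hx4 : x ∈ X (emb j) := (Finset.mem_sdiff.1 (hY1 j hx3)).1
            have hji : emb j = i := by
              by_contra hne
              exact Finset.disjoint_left.1 (hXd _ _ hne) hx4 hx1
            have : j = j₀ := emb.injective (hji.trans hj₀.symm)
            rw [← this]; exact hx3
          have h2 := (Finset.card_le_card h1).trans (hY2 j₀).le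
          have h3 := hsplit (E.filter (fun e => i ∈ e)) (Finset.mem_filter.2 ⟨he₀, hi⟩)
          rw [h3, add_mul, one_mul]
          exact Nat.add_le_add (hBu i) h2
        · have h1 : X i ∩ Finset.univ.biUnion Y = ∅ := by
            rw [Finset.eq_empty_iff_forall_notMem]
            intro x hx
            obtain ⟨hx1, hx2⟩ := Finset.mem_inter.1 hx
            obtain ⟨j, -, hx3⟩ := Finset.mem_biUnion.1 hx2
            have hx4 : x ∈ X (emb j) := (Finset.mem_sdiff.1 (hY1 j hx3)).1
            have hji : emb j ≠ i := fun h => hi (h ▸ hembmem j)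
            exact Finset.disjoint_left.1 (hXd _ _ hji) hx4 hx1
          have h3 : ∑ e ∈ E.filter (fun e => i ∈ e), m' e =
              ∑ e ∈ E.filter (fun e => i ∈ e), m'' e := by
            refine Finset.sum_congr rfl fun e he => (hm''ne e ?_).symm
            rintro rfl
            exact hi (Finset.mem_filter.1 he).2
          rw [h1, Finset.card_empty, add_zero, h3]
          exact hBu i
  obtain ⟨B, hB, hBu⟩ := key _ mult (fun e _ => le_rfl) rfl
  exact ⟨_, B, hB, rfl, fun i => (hBu i).trans (Nat.mul_le_mul_right _ (hmult i))⟩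

end Pool.Agent.helper21.RL
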