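import Pool.Agent.helper21.RL.Defs

/-! Module Frac1: weight inequality (the dual of a perfect fractional matching). -/

set_option autoImplicit false

open Finset

namespace Pool.Agent.helper21.RL

namespace Frac1_aux

theorem sum_pairs (f : ℕ → ℝ) (q : ℕ) :
    ∑ i ∈ range q, (f i + f (2 * q - 1 - i)) = ∑ i ∈ range (2 * q), f i := by
  rw [Finset.sum_add_distrib]
  have h1 : ∑ i ∈ range q, f (2 * q - 1 - i) = ∑ i ∈ range q, f (q + i) := by
    rw [← Finset.sum_range_reflect (fun i => f (q + i)) q]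
    refine Finset.sum_congr rfl fun i hi => ?_
    rw [Finset.mem_range] at hi
    congr 1
    omega
  rw [h1, two_mul, Finset.sum_range_add]

/-- the counting estimate -/
theorem count_real {N i j q K : ℕ} {γ : ℝ} (hK : 3 ≤ K) (hi : i < q) (hj : j = 2 * q - 1 - i)
    (hq : (K + 1) * q < N + K + 1) (hN : 2 ≤ N) (hγ : 2 ≤ γ * N)
    (h : (1 / 2 + γ) * (N : ℝ) ^ 2 ≤ ((i * N + N * i + (j - i) * (j - i) : ℕ) : ℝ)) : False := by
  obtain ⟨s, rfl⟩ : ∃ s, q = i + s + 1 := ⟨q - i - 1, by omega⟩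
  have hji : j - i = 2 * s + 1 := by omega
  have h4 : 4 * (i + s) ≤ N := by
    have : 4 * (i + s + 1) ≤ (K + 1) * (i + s + 1) := Nat.mul_le_mul_right _ (by omega)
    nlinarith
  rw [hji] at h
  push_cast at h
  have h4' : 4 * ((i : ℝ) + s) ≤ N := by exact_mod_cast h4
  have hi0 : (0 : ℝ) ≤ i := Nat.cast_nonneg _
  have hs0 : (0 : ℝ) ≤ s := Nat.cast_nonneg _
  have hN0 : (2 : ℝ) ≤ N := by exact_mod_cast hN
  have h5 : 2 * (N : ℝ) * i + 4 * (s : ℝ) ^ 2 ≤ (N : ℝ) ^ 2 / 2 := by
    have h6 : 2 * (N : ℝ) * (i + s) ≤ (N : ℝ) ^ 2 / 2 := by nlinarith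
    have h7 : 4 * (s : ℝ) ^ 2 ≤ 2 * N * s := by nlinarith
    nlinarith
  have h8 : 2 * (N : ℝ) ≤ γ * (N : ℝ) ^ 2 := by nlinarith
  nlinarith

end Frac1_aux

open Frac1_aux

theorem weight_ineq (K : ℕ) (hK : 3 ≤ K) (γ : ℝ) (hγ : 0 < γ) :
    ∃ N₀ : ℕ, ∀ N : ℕ, N₀ ≤ N → ∀ E : Finset (Finset (Fin N)), Unif K E →
      PD K E Finset.univ (1 / 2 + γ) → ∀ a : Fin N → ℝ,
      ∃ e ∈ E, (N : ℝ) * ∑ x ∈ e, a x ≤ ((K : ℝ) + 1) * ∑ x, a x := by
  classical
  refine ⟨max (4 * K + 16) (⌈2 / γ⌉₊), ?_⟩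
  intro N hN E hU hPD a
  have hN1 : 4 * K + 16 ≤ N := le_trans (le_max_left _ _) hN
  have hN2 : 2 ≤ γ * N := by
    have h1 : 2 / γ ≤ (N : ℝ) :=
      le_trans (Nat.le_ceil _) (by exact_mod_cast le_trans (le_max_right _ _) hN)
    rw [div_le_iff₀ hγ] at h1
    linarith
  by_contra hcon
  push Not at hcon
  -- sort
  set σ : Equiv.Perm (Fin N) := Tuple.sort (fun x => -a x) with hσ
  have hanti : ∀ i j : Fin N, i ≤ j → a (σ j) ≤ a (σ i) := by
    intro i j hij
    have := Tuple.monotone_sort (fun x => -a x) hij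
    simp only [Function.comp_apply] at this
    linarith
  set b : ℕ → ℝ := fun i => if h : i < N then a (σ ⟨i, h⟩) else 0 with hb
  have hbσ : ∀ i : Fin N, b i = a (σ i) := by
    intro i
    simp only [hb, i.2, dif_pos]
  have hbx : ∀ x : Fin N, a x = b (σ.symm x : ℕ) := by
    intro x
    rw [hbσ, Equiv.apply_symm_apply]
  have hbanti : ∀ i j : ℕ, i ≤ j → j < N → b j ≤ b i := by
    intro i j hij hj
    have h1 := hanti ⟨i, by omega⟩ ⟨j, hj⟩ hij
    rw [← hbσ, ← hbσ] at h1
    exact h1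
  have hsum : ∑ x, a x = ∑ i ∈ range N, b i := by
    rw [← Equiv.sum_comp σ a, ← Fin.sum_univ_eq_sum_range b N]
    exact Finset.sum_congr rfl fun i _ => (hbσ i).symm
  -- the last `K - 1` vertices
  set r : ℕ := N - (K - 1) with hr
  set S : Finset (Fin N) := univ.filter (fun x : Fin N => r ≤ (σ.symm x : ℕ)) with hS
  have hSsum : ∀ f : ℕ → ℝ, ∑ x ∈ S, f (σ.symm x : ℕ) = ∑ i ∈ Ico r N, f i := by
    intro f
    refine Finset.sum_bij (fun x _ => ((σ.symm x : Fin N) : ℕ)) ?_ ?_ ?_ ?_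
    · intro x hx
      rw [hS, Finset.mem_filter] at hx
      exact Finset.mem_Ico.2 ⟨hx.2, (σ.symm x).2⟩
    · intro x _ y _ hxy
      exact σ.symm.injective (Fin.ext hxy)
    · intro i hi
      rw [Finset.mem_Ico] at hi
      refine ⟨σ ⟨i, hi.2⟩, ?_, ?_⟩
      · rw [hS, Finset.mem_filter]
        simp [hi.1]
      · simp
    · intro x _
      rfl
  have hScard : S.card = K - 1 := by
    have h1 := hSsum (fun _ => 1)
    simp only [Finset.sum_const, nsmul_eq_mul, mul_one, Nat.card_Ico] at h1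
    have h2 : S.card = N - r := by exact_mod_cast h1
    omega
  have hK1 : (0 : ℝ) < (K : ℝ) - 1 := by
    have : (3 : ℝ) ≤ K := by exact_mod_cast hK
    linarith
  have hcast : ((K - 1 : ℕ) : ℝ) = (K : ℝ) - 1 := by
    rw [Nat.cast_sub (by omega)]
    simp
  set τ : ℝ := (∑ i ∈ Ico r N, b i) / ((K : ℝ) - 1) with hτ
  have hτ' : ∑ i ∈ Ico r N, b i = ((K : ℝ) - 1) * τ := by
    rw [hτ]
    field_simp
  have hSa : ∑ x ∈ S, a x = ((K : ℝ) - 1) * τ := by
    rw [← hτ', ← hSsum b]
    exact Finset.sum_congr rfl fun x _ => hbx x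
  -- the boundary value
  set M : ℝ := b (r - 1) with hM
  have hMτ : τ ≤ M := by
    have h1 : ∑ i ∈ Ico r N, b i ≤ ∑ _i ∈ Ico r N, M :=
      Finset.sum_le_sum fun i hi => by
        rw [Finset.mem_Ico] at hi
        exact hbanti _ _ (by omega) hi.2
    rw [Finset.sum_const, Nat.card_Ico, nsmul_eq_mul, hτ'] at h1
    have h2 : ((N - r : ℕ) : ℝ) = (K : ℝ) - 1 := by
      rw [← hcast]
      congr 1
      omega
    rw [h2] at h1
    exact le_of_mul_le_mul_left h1 hK1
  have hedge : ∀ e ∈ E, ((K : ℝ) + 1) * τ ≤ ∑ x ∈ e, a x := by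
    intro e he
    have h1 := Finset.sum_sdiff_sub_sum_sdiff (s₁ := S) (s₂ := e) (f := a)
    have h2 : ((e \ S).card : ℝ) * M ≤ ∑ x ∈ e \ S, a x := by
      rw [← nsmul_eq_mul]
      refine Finset.card_nsmul_le_sum _ _ _ fun x hx => ?_
      rw [Finset.mem_sdiff, hS, Finset.mem_filter] at hx
      have h3 : ((σ.symm x : Fin N) : ℕ) < r := by
        by_contra h4
        exact hx.2 ⟨Finset.mem_univ _, by omega⟩
      rw [hbx x]
      exact hbanti _ _ (by omega) (by omega)
    have h3 : ∑ x ∈ S \ e, a x ≤ ((S \ e).card : ℝ) * M := by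
      rw [← nsmul_eq_mul]
      refine Finset.sum_le_card_nsmul _ _ _ fun x hx => ?_
      rw [Finset.mem_sdiff, hS, Finset.mem_filter] at hx
      rw [hbx x]
      exact hbanti _ _ (by omega) (σ.symm x).2
    have h4 : (e \ S).card + S.card = (S \ e).card + e.card := by
      rw [Finset.card_sdiff_add_card, Finset.card_sdiff_add_card, Finset.union_comm]
    rw [hScard, hU e he] at h4
    have h5 : ((e \ S).card : ℝ) = ((S \ e).card : ℝ) + 2 := by
      have h6 : (e \ S).card = (S \ e).card + 2 := by omega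
      exact_mod_cast h6
    rw [h5] at h2
    rw [hSa] at h1
    nlinarith
  -- the minimal edge
  have hPDS := hPD S (Finset.subset_univ _) hScard
  rw [Finset.card_univ, Fintype.card_fin] at hPDS
  have hEne : E.Nonempty := by
    have hNpos : (0 : ℝ) < N := by
      have : 0 < N := by omega
      exact_mod_cast this
    have h1 : (0 : ℝ) < ((((univ : Finset (Fin N)) ×ˢ univ).filter
        (fun p => insert p.1 (insert p.2 S) ∈ E)).card : ℝ) :=
      lt_of_lt_of_le (by positivity) hPDS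
    have h2 : 0 < (((univ : Finset (Fin N)) ×ˢ univ).filter
        (fun p => insert p.1 (insert p.2 S) ∈ E)).card := by exact_mod_cast h1
    obtain ⟨p, hp⟩ := Finset.card_pos.1 h2
    exact ⟨_, (Finset.mem_filter.1 hp).2⟩
  obtain ⟨e₀, he₀, hmin⟩ := Finset.exists_min_image E (fun e => ∑ x ∈ e, a x) hEne
  set α : ℝ := ∑ x ∈ e₀, a x with hα
  have hατ := hedge e₀ he₀
  have hlt := hcon e₀ he₀
  -- number of pairs
  obtain ⟨q, hq1, hq2⟩ : ∃ q : ℕ, (K + 1) * q < N + K + 1 ∧ N ≤ (K + 1) * q := by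
    refine ⟨(N + K) / (K + 1), ?_, ?_⟩
    · have := Nat.mul_div_le (N + K) (K + 1)
      omega
    · have h1 := Nat.div_add_mod (N + K) (K + 1)
      have h2 := Nat.mod_lt (N + K) (show 0 < K + 1 by omega)
      omega
  have h4q : 4 * q ≤ N + 4 := by
    obtain ⟨q', hq'⟩ : ∃ q', q = q' + 1 := ⟨q - 1, by
      have : q ≠ 0 := by
        intro h0
        rw [h0] at hq2
        omega
      omega⟩
    have h1 : 4 * q' ≤ (K + 1) * q' := Nat.mul_le_mul_right _ (by omega)
    rw [hq'] at hq1 ⊢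
    nlinarith
  have h2q : 2 * q ≤ r := by omega
  have claim : ∀ i < q, α - ((K : ℝ) - 1) * τ ≤ b i + b (2 * q - 1 - i) := by
    intro i hi
    by_contra hc
    push Not at hc
    set j := 2 * q - 1 - i with hj
    refine count_real (N := N) (K := K) (γ := γ) hK hi hj hq1 (by omega) hN2 ?_
    refine le_trans hPDS ?_
    have h1 : (((univ : Finset (Fin N)) ×ˢ univ).filter
        (fun p => insert p.1 (insert p.2 S) ∈ E)).card ≤
        ((range i ×ˢ range N) ∪ (range N ×ˢ range i) ∪ (Ico i j ×ˢ Ico i j)).card := by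
      refine Finset.card_le_card_of_injOn
        (fun p => (((σ.symm p.1 : Fin N) : ℕ), ((σ.symm p.2 : Fin N) : ℕ))) ?_ ?_
      · rintro ⟨x, y⟩ hp
        have hp' : insert x (insert y S) ∈ E := (Finset.mem_filter.1 hp).2
        have hcard := hU _ hp'
        have hy : y ∉ S := by
          intro hy
          rw [Finset.insert_eq_of_mem hy] at hcard
          have := Finset.card_insert_le x S
          omega
        have hx : x ∉ insert y S := by
          intro hx
          rw [Finset.insert_eq_of_mem hx] at hcard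
          have := Finset.card_insert_le y S
          omega
        have hsum2 := hmin _ hp'
        rw [Finset.sum_insert hx, Finset.sum_insert hy, hSa, hbx x, hbx y] at hsum2
        have hxl := (σ.symm x).2
        have hyl := (σ.symm y).2
        simp only [Finset.coe_union, Set.mem_union, Finset.mem_coe, Finset.mem_product,
          Finset.mem_range, Finset.mem_Ico]
        by_cases hxi : ((σ.symm x : Fin N) : ℕ) < i
        · exact Or.inl (Or.inl ⟨hxi, hyl⟩)
        by_cases hyi : ((σ.symm y : Fin N) : ℕ) < i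
        · exact Or.inl (Or.inr ⟨hxl, hyi⟩)
        right
        push Not at hxi hyi
        have hxj : ((σ.symm x : Fin N) : ℕ) < j := by
          by_contra h
          push Not at h
          have h1 := hbanti _ _ h hxl
          have h2 := hbanti _ _ hyi hyl
          linarith
        have hyj : ((σ.symm y : Fin N) : ℕ) < j := by
          by_contra h
          push Not at h
          have h1 := hbanti _ _ h hyl
          have h2 := hbanti _ _ hxi hxl
          linarith
        exact ⟨⟨hxi, hxj⟩, ⟨hyi, hyj⟩⟩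
      · rintro ⟨x, y⟩ _ ⟨x', y'⟩ _ hxy
        simp only [Prod.mk.injEq] at hxy
        exact Prod.ext (σ.symm.injective (Fin.ext hxy.1)) (σ.symm.injective (Fin.ext hxy.2))
    have h2 : ((range i ×ˢ range N) ∪ (range N ×ˢ range i) ∪ (Ico i j ×ˢ Ico i j)).card ≤
        i * N + N * i + (j - i) * (j - i) := by
      refine le_trans (Finset.card_union_le _ _) ?_
      refine Nat.add_le_add (le_trans (Finset.card_union_le _ _) ?_) ?_
      · simp [Finset.card_product]
      · simp [Finset.card_product]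
    exact_mod_cast le_trans h1 h2
  -- summation
  have hS1 : ∑ i ∈ range N, b i = ∑ i ∈ range (2 * q), b i + ∑ i ∈ Ico (2 * q) r, b i +
      ∑ i ∈ Ico r N, b i := by
    rw [Finset.sum_range_add_sum_Ico _ h2q, Finset.sum_range_add_sum_Ico _ (by omega)]
  have hS2 : (q : ℝ) * (α - ((K : ℝ) - 1) * τ) ≤ ∑ i ∈ range (2 * q), b i := by
    rw [← sum_pairs]
    have h1 : ∑ _i ∈ range q, (α - ((K : ℝ) - 1) * τ) ≤
        ∑ i ∈ range q, (b i + b (2 * q - 1 - i)) :=
      Finset.sum_le_sum fun i hi => claim i (Finset.mem_range.1 hi)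
    rw [Finset.sum_const, Finset.card_range, nsmul_eq_mul] at h1
    exact h1
  have hS3 : ((r : ℝ) - 2 * q) * τ ≤ ∑ i ∈ Ico (2 * q) r, b i := by
    have h1 : ∑ _i ∈ Ico (2 * q) r, τ ≤ ∑ i ∈ Ico (2 * q) r, b i :=
      Finset.sum_le_sum fun i hi => by
        rw [Finset.mem_Ico] at hi
        exact le_trans hMτ (hbanti _ _ (by omega) (by omega))
    rw [Finset.sum_const, Nat.card_Ico, nsmul_eq_mul, Nat.cast_sub h2q] at h1
    push_cast at h1
    exact h1
  have hrN : (r : ℝ) = N - ((K : ℝ) - 1) := by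
    rw [hr, Nat.cast_sub (by omega), hcast]
  rw [hsum, hS1, hτ'] at hlt
  have hq2' : (N : ℝ) ≤ ((K : ℝ) + 1) * q := by exact_mod_cast hq2
  have hKp : (0 : ℝ) < (K : ℝ) + 1 := by positivity
  have hprod : 0 ≤ (((K : ℝ) + 1) * q - N) * (α - ((K : ℝ) + 1) * τ) :=
    mul_nonneg (by linarith) (by linarith)
  have hfin : (N : ℝ) * α ≤ ((K : ℝ) + 1) * ((q : ℝ) * (α - ((K : ℝ) - 1) * τ) +
      ((r : ℝ) - 2 * q) * τ + ((K : ℝ) - 1) * τ) := by
    rw [hrN]
    nlinarith
  have hfin2 : ((K : ℝ) + 1) * ((q : ℝ) * (α - ((K : ℝ) - 1) * τ) +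
      ((r : ℝ) - 2 * q) * τ + ((K : ℝ) - 1) * τ) ≤ ((K : ℝ) + 1) * (∑ i ∈ range (2 * q), b i +
      ∑ i ∈ Ico (2 * q) r, b i + ((K : ℝ) - 1) * τ) :=
    mul_le_mul_of_nonneg_left (by linarith) hKp.le
  linarith

end Pool.Agent.helper21.RL
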