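import Pool.Agent.helper21.RL.Frac1

/-! Module Frac2: integral almost perfect `q`-fold matchings. -/

set_option autoImplicit false

open Finset

namespace Pool.Agent.helper21.RL

namespace Frac2_aux

/-- indicator vector of a set -/
noncomputable def ind {N : ℕ} (e : Finset (Fin N)) : Fin N → ℝ := fun x => by
  classical exact if x ∈ e then 1 else 0

theorem ind_sum {N : ℕ} (e : Finset (Fin N)) (a : Fin N → ℝ) :
    ∑ x, a x * ind e x = ∑ x ∈ e, a x := by
  classical
  unfold ind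
  simp only [mul_ite, mul_one, mul_zero]
  rw [Finset.sum_ite_mem, Finset.univ_inter]

/-- the constant point is in the convex hull -/
theorem mem_hull {K N : ℕ} (hN : 0 < N) (E : Finset (Finset (Fin N)))
    (hE : ∀ a : Fin N → ℝ, ∃ e ∈ E, (N : ℝ) * ∑ x ∈ e, a x ≤ ((K : ℝ) + 1) * ∑ x, a x) :
    (fun _ => ((K : ℝ) + 1) / N : Fin N → ℝ) ∈
      convexHull ℝ ((ind : Finset (Fin N) → Fin N → ℝ) '' (E : Set (Finset (Fin N)))) := by
  classical
  by_contra hcon
  have hfin : ((ind : Finset (Fin N) → Fin N → ℝ) '' (E : Set (Finset (Fin N)))).Finite :=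
    (Finset.finite_toSet E).image _
  have hclosed : IsClosed (convexHull ℝ ((ind : Finset (Fin N) → Fin N → ℝ) ''
      (E : Set (Finset (Fin N))))) := (hfin.isCompact_convexHull ℝ).isClosed
  obtain ⟨f, u, hu1, hu2⟩ := geometric_hahn_banach_point_closed (convex_convexHull ℝ _)
    hclosed hcon
  set a : Fin N → ℝ := fun x => f (Pi.single x 1) with ha
  have hf : ∀ y : Fin N → ℝ, f y = ∑ x, a x * y x := by
    intro y
    conv_lhs => rw [← Finset.univ_sum_single y]
    rw [map_sum]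
    refine Finset.sum_congr rfl fun x _ => ?_
    have h1 : (Pi.single x (y x) : Fin N → ℝ) = y x • Pi.single x (1 : ℝ) := by
      rw [← Pi.single_smul]
      simp
    rw [h1, map_smul, smul_eq_mul, mul_comm]
  obtain ⟨e, he, hle⟩ := hE a
  have h2 := hu2 (ind e) (subset_convexHull ℝ _ ⟨e, he, rfl⟩)
  rw [hf, ind_sum] at h2
  rw [hf, ← Finset.sum_mul] at hu1
  have hNpos : (0 : ℝ) < N := by exact_mod_cast hN
  have h3 : (N : ℝ) * ((∑ x, a x) * (((K : ℝ) + 1) / N)) < N * ∑ x ∈ e, a x :=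
    mul_lt_mul_of_pos_left (lt_trans hu1 h2) hNpos
  have h4 : (N : ℝ) * ((∑ x, a x) * (((K : ℝ) + 1) / N)) = ((K : ℝ) + 1) * ∑ x, a x := by
    field_simp
  linarith

end Frac2_aux

open Frac2_aux

theorem fracmatch (K : ℕ) (hK : 3 ≤ K) (γ : ℝ) (hγ : 0 < γ) :
    ∃ N₀ : ℕ, ∀ N : ℕ, N₀ ≤ N → ∀ E : Finset (Finset (Fin N)), Unif K E →
      PD K E Finset.univ (1 / 2 + γ) → ∀ q : ℕ, ∃ mult : Finset (Fin N) → ℕ,
      (∀ x, ∑ e ∈ E.filter (fun e => x ∈ e), mult e ≤ q) ∧
      (q : ℝ) * N / ((K : ℝ) + 1) - (N + 1) ≤ ∑ e ∈ E, (mult e : ℝ) := by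
  classical
  obtain ⟨N₀, hN₀⟩ := weight_ineq K hK γ hγ
  refine ⟨max N₀ 1, ?_⟩
  intro N hN E hU hPD q
  have hN1 : 1 ≤ N := le_trans (le_max_right _ _) hN
  have hNpos : (0 : ℝ) < N := by exact_mod_cast hN1
  have hKpos : (0 : ℝ) < (K : ℝ) + 1 := by positivity
  have hmem := mem_hull (K := K) hN1 E (hN₀ N (le_trans (le_max_left _ _) hN) E hU hPD)
  rw [convexHull_eq_union] at hmem
  simp only [Set.mem_iUnion, exists_prop] at hmem
  obtain ⟨t, ht, hai, hpt⟩ := hmem
  rw [Finset.mem_convexHull'] at hpt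
  obtain ⟨w, hw0, hw1, hwp⟩ := hpt
  -- cardinality of `t`
  have hcard : t.card ≤ N + 1 := by
    have h1 := hai.card_le_finrank_succ
    rw [Fintype.card_coe] at h1
    have h2 : Module.finrank ℝ (vectorSpan ℝ (Set.range ((↑) : t → Fin N → ℝ))) ≤ N := by
      have := Submodule.finrank_le (vectorSpan ℝ (Set.range ((↑) : t → Fin N → ℝ)))
      rwa [Module.finrank_fin_fun] at this
    omega
  -- choose the edges
  have hch : ∀ v ∈ t, ∃ e ∈ E, ind e = v := fun v hv => by
    obtain ⟨e, he, hev⟩ := ht hv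
    exact ⟨e, he, hev⟩
  have hinj : Function.Injective (ind : Finset (Fin N) → Fin N → ℝ) := by
    intro e e' hee
    ext x
    have := congrFun hee x
    unfold ind at this
    by_cases h1 : x ∈ e <;> by_cases h2 : x ∈ e' <;> simp [h1, h2] at this ⊢
  set μ : Finset (Fin N) → ℝ := fun e => if ind e ∈ t then w (ind e) * (N / ((K : ℝ) + 1)) else 0
    with hμ
  have hμ0 : ∀ e, 0 ≤ μ e := by
    intro e
    simp only [hμ]
    split_ifs with h
    · exact mul_nonneg (hw0 _ h) (by positivity)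
    · exact le_rfl
  -- sums over `E`
  have hsumE : ∀ g : (Fin N → ℝ) → ℝ, ∑ e ∈ E, (if ind e ∈ t then g (ind e) else 0) =
      ∑ v ∈ t, g v := by
    intro g
    rw [← Finset.sum_filter]
    refine Finset.sum_bij (fun e _ => ind e) ?_ ?_ ?_ ?_
    · intro e he
      exact (Finset.mem_filter.1 he).2
    · intro e _ e' _ hee
      exact hinj hee
    · intro v hv
      obtain ⟨e, he, rfl⟩ := hch v hv
      exact ⟨e, Finset.mem_filter.2 ⟨he, hv⟩, rfl⟩
    · intro e _
      rfl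
  have hμE : ∑ e ∈ E, μ e = N / ((K : ℝ) + 1) := by
    rw [hμ, hsumE (fun v => w v * (N / ((K : ℝ) + 1))), ← Finset.sum_mul, hw1, one_mul]
  have hμx : ∀ x, ∑ e ∈ E.filter (fun e => x ∈ e), μ e = 1 := by
    intro x
    rw [Finset.sum_filter]
    have h1 : ∀ e ∈ E, (if x ∈ e then μ e else 0) =
        (if ind e ∈ t then w (ind e) * (N / ((K : ℝ) + 1)) * (ind e) x else 0) := by
      intro e _
      simp only [hμ]
      by_cases h2 : x ∈ e
      · have h3 : ind e x = 1 := by simp [ind, h2]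
        simp [h2, h3]
      · have h3 : ind e x = 0 := by simp [ind, h2]
        simp [h2, h3]
    rw [Finset.sum_congr rfl h1, hsumE (fun v => w v * (N / ((K : ℝ) + 1)) * v x)]
    have h2 : ∑ v ∈ t, w v * v x = ((K : ℝ) + 1) / N := by
      have := congrFun hwp x
      rw [Finset.sum_apply] at this
      simpa [Pi.smul_apply, smul_eq_mul] using this
    have h3 : ∑ v ∈ t, w v * (N / ((K : ℝ) + 1)) * v x =
        (N / ((K : ℝ) + 1)) * ∑ v ∈ t, w v * v x := by
      rw [Finset.mul_sum]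
      exact Finset.sum_congr rfl fun v _ => by ring
    rw [h3, h2]
    field_simp
  refine ⟨fun e => ⌊(q : ℝ) * μ e⌋₊, ?_, ?_⟩
  · intro x
    have h1 : ((∑ e ∈ E.filter (fun e => x ∈ e), ⌊(q : ℝ) * μ e⌋₊ : ℕ) : ℝ) ≤ q := by
      push_cast
      calc ∑ e ∈ E.filter (fun e => x ∈ e), ((⌊(q : ℝ) * μ e⌋₊ : ℕ) : ℝ)
          ≤ ∑ e ∈ E.filter (fun e => x ∈ e), (q : ℝ) * μ e :=
            Finset.sum_le_sum fun e _ => Nat.floor_le (mul_nonneg (Nat.cast_nonneg _) (hμ0 e))
        _ = q := by rw [← Finset.mul_sum, hμx, mul_one]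
    exact_mod_cast h1
  · have h1 : ∑ e ∈ E, ((q : ℝ) * μ e - (if ind e ∈ t then 1 else 0)) ≤
        ∑ e ∈ E, ((⌊(q : ℝ) * μ e⌋₊ : ℕ) : ℝ) := by
      refine Finset.sum_le_sum fun e _ => ?_
      by_cases h2 : ind e ∈ t
      · rw [if_pos h2]
        have := Nat.lt_floor_add_one ((q : ℝ) * μ e)
        linarith
      · rw [if_neg h2]
        have h3 : μ e = 0 := by simp only [hμ, if_neg h2]
        rw [h3]
        simp
    rw [Finset.sum_sub_distrib, ← Finset.mul_sum, hμE, hsumE (fun _ => 1)] at h1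
    rw [Finset.sum_const, nsmul_eq_mul, mul_one] at h1
    have h2 : (t.card : ℝ) ≤ N + 1 := by exact_mod_cast hcard
    have h3 : (q : ℝ) * N / ((K : ℝ) + 1) = q * (N / ((K : ℝ) + 1)) := by ring
    rw [h3]
    linarith

end Pool.Agent.helper21.RL
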