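import Pool.Agent.helper21.RL.Defs

/-! Module Greedy: extending a partial assignment to an embedding (helper29). -/

set_option autoImplicit false

open Finset

namespace Pool.Agent.helper21.RL

private theorem extend_aux {V : Type} [DecidableEq V] {C : Finset ℕ} {f : Finset V}
    (h : C.card = f.card) (ψ : ℕ → V) :
    ∃ g : ℕ → V, (∀ x, x ∉ C → g x = ψ x) ∧ Set.InjOn g ↑C ∧ C.image g = f := by
  classical
  let e : C ≃ f := Finset.equivOfCardEq h
  refine ⟨fun x => if hx : x ∈ C then (e ⟨x, hx⟩ : V) else ψ x, ?_, ?_, ?_⟩
  · intro x hx
    simp [hx]
  · intro x hx y hy hxy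
    have hx' : x ∈ C := hx
    have hy' : y ∈ C := hy
    simp only [hx', hy', dif_pos] at hxy
    have := e.injective (Subtype.ext hxy)
    exact congrArg Subtype.val this
  · ext v
    simp only [Finset.mem_image]
    constructor
    · rintro ⟨x, hx, rfl⟩
      simp only [hx, dif_pos]
      exact (e ⟨x, hx⟩).2
    · intro hv
      refine ⟨(e.symm ⟨v, hv⟩ : ℕ), (e.symm ⟨v, hv⟩).2, ?_⟩
      simp

private theorem mem_chs {K j x : ℕ} : x ∈ chs K j ↔ K * j + 1 ≤ x ∧ x ≤ K * j + K := by
  unfold chs
  simp only [Finset.mem_image, Finset.mem_range]
  constructor
  · rintro ⟨i, hi, rfl⟩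
    omega
  · rintro ⟨h1, h2⟩
    exact ⟨x - (K * j + 1), by omega, by omega⟩

private theorem card_chs (K j : ℕ) : (chs K j).card = K := by
  unfold chs
  rw [Finset.card_image_of_injective]
  · simp
  · intro a b hab
    simpa using hab

private theorem mem_ed {K x : ℕ} (hK : 0 < K) (hx : x ≠ 0) : x ∈ chs K (ed K x) := by
  rw [mem_chs]
  unfold ed
  have h1 := Nat.div_add_mod (x - 1) K
  have h2 := Nat.mod_lt (x - 1) hK
  constructor <;> omega

private theorem chs_lt {K i j x : ℕ} (hx : x ∈ chs K i) (hij : i < j) : x ≤ K * j := by
  rw [mem_chs] at hx
  have : K * (i + 1) ≤ K * j := Nat.mul_le_mul_left K hij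
  have h2 : K * (i + 1) = K * i + K := by ring
  omega

private theorem ed_lt {K x s : ℕ} (hK : 0 < K) (hx : x ≠ 0) (hs : x ≤ K * s) : ed K x < s := by
  unfold ed
  rw [Nat.div_lt_iff_lt_mul hK]
  have : s * K = K * s := Nat.mul_comm _ _
  omega

/-- greedy extension -/
theorem greedy {V : Type} [DecidableEq V] {G : Finset (Finset V)} {K : ℕ} (hK : 3 ≤ K)
    (hG : Unif K G) {par : ℕ → ℕ} (hpar : ∀ j, par j ≤ K * j) {A : Finset ℕ}
    (hA : Closed K par A) {Z : Finset ℕ} (h0 : 0 ∈ Z) {ψ₀ : ℕ → V} (hinj : Set.InjOn ψ₀ ↑Z)
    (hC : ∀ j ∈ A, (edg K par j ⊆ Z ∧ (edg K par j).image ψ₀ ∈ G) ∨ (chs K j ∩ Z).card ≤ 1)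
    {U : Finset V} (hU : ∀ z ∈ Z, ψ₀ z ∉ U) {M : ℝ} (hM : ((vs K A \ Z).card : ℝ) ≤ M)
    (hE : Ext K G U M) :
    ∃ ψ : ℕ → V, (∀ z ∈ Z, ψ z = ψ₀ z) ∧ Set.InjOn ψ ↑(vs K A ∪ Z) ∧
      (∀ y ∈ vs K A, y ∉ Z → ψ y ∈ U) ∧ ∀ j ∈ A, (edg K par j).image ψ ∈ G := by
  classical
  have hK0 : 0 < K := by omega
  have key : ∀ s : ℕ, ∃ ψ : ℕ → V, (∀ z ∈ Z, ψ z = ψ₀ z) ∧
      Set.InjOn ψ ↑(vs K (A.filter (· < s)) ∪ Z) ∧
      (∀ y ∈ vs K (A.filter (· < s)), y ∉ Z → ψ y ∈ U) ∧
      ∀ j ∈ A.filter (· < s), (edg K par j).image ψ ∈ G := by
    intro s
    induction s with
    | zero =>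
      refine ⟨ψ₀, fun _ _ => rfl, ?_, ?_, ?_⟩
      · have : vs K (A.filter (· < 0)) ∪ Z = Z := by
          ext x
          simp only [vs, Finset.mem_union, Finset.mem_insert, Finset.mem_biUnion,
            Finset.mem_filter, not_lt_zero, and_false, false_and, exists_false, or_false]
          constructor
          · rintro (rfl | h)
            · exact h0
            · exact h
          · intro h
            exact Or.inr h
        rw [this]
        exact hinj
      · intro y hy hyZ
        simp only [vs, Finset.mem_insert, Finset.mem_biUnion,
            Finset.mem_filter, not_lt_zero, and_false, false_and, exists_false, or_false] at hy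
        exact absurd (hy ▸ h0) hyZ
      · intro j hj
        simp at hj
    | succ s ih =>
      obtain ⟨ψ, h1, h2, h3, h4⟩ := ih
      by_cases hs : s ∈ A
      swap
      · have hfil : A.filter (· < s + 1) = A.filter (· < s) := by
          ext x
          simp only [Finset.mem_filter]
          constructor
          · rintro ⟨ha, hb⟩
            refine ⟨ha, ?_⟩
            rcases Nat.lt_succ_iff_lt_or_eq.mp hb with h | h
            · exact h
            · exact absurd (h ▸ ha) hs
          · rintro ⟨ha, hb⟩
            exact ⟨ha, by omega⟩
        rw [hfil]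
        exact ⟨ψ, h1, h2, h3, h4⟩
      have hvs : ∀ x, x ∈ vs K (A.filter (· < s + 1)) ↔
          x ∈ vs K (A.filter (· < s)) ∨ x ∈ chs K s := by
        intro x
        simp only [vs, Finset.mem_insert, Finset.mem_biUnion, Finset.mem_filter]
        constructor
        · rintro (h | ⟨j, ⟨hj, hjs⟩, hx⟩)
          · exact Or.inl (Or.inl h)
          · rcases Nat.lt_succ_iff_lt_or_eq.mp hjs with h | h
            · exact Or.inl (Or.inr ⟨j, ⟨hj, h⟩, hx⟩)
            · subst h
              exact Or.inr hx
        · rintro ((h | ⟨j, ⟨hj, hjs⟩, hx⟩) | h)
          · exact Or.inl h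
          · exact Or.inr ⟨j, ⟨hj, by omega⟩, hx⟩
          · exact Or.inr ⟨s, ⟨hs, by omega⟩, h⟩
      have hedge : ∀ j, j ∈ A.filter (· < s + 1) ↔ j ∈ A.filter (· < s) ∨ j = s := by
        intro j
        simp only [Finset.mem_filter]
        constructor
        · rintro ⟨ha, hb⟩
          rcases Nat.lt_succ_iff_lt_or_eq.mp hb with h | h
          · exact Or.inl ⟨ha, h⟩
          · exact Or.inr h
        · rintro (⟨ha, hb⟩ | rfl)
          · exact ⟨ha, by omega⟩
          · exact ⟨hs, by omega⟩
      -- elements of the old vertex set are at most `K * s`
      have hold : ∀ x ∈ vs K (A.filter (· < s)), x ≤ K * s := by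
        intro x hx
        simp only [vs, Finset.mem_insert, Finset.mem_biUnion, Finset.mem_filter] at hx
        rcases hx with rfl | ⟨j, ⟨_, hj⟩, hx⟩
        · exact Nat.zero_le _
        · exact chs_lt hx hj
      have hnew : ∀ x ∈ chs K s, K * s < x := by
        intro x hx
        rw [mem_chs] at hx
        omega
      have hparmem : par s ∈ vs K (A.filter (· < s)) := by
        by_cases hp : par s = 0
        · rw [hp]
          simp [vs]
        · have hq := hA s hs hp
          have hlt := ed_lt hK0 hp (hpar s)
          simp only [vs, Finset.mem_insert, Finset.mem_biUnion, Finset.mem_filter]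
          exact Or.inr ⟨_, ⟨hq, hlt⟩, mem_ed hK0 hp⟩
      rcases hC s hs with ⟨hsub, himg⟩ | hcard
      · -- first type: everything is prescribed
        have hchsZ : ∀ x ∈ chs K s, x ∈ Z := fun x hx =>
          hsub (by unfold edg; exact Finset.mem_insert_of_mem hx)
        refine ⟨ψ, h1, ?_, ?_, ?_⟩
        · intro x hx y hy hxy
          have hmem : ∀ z, z ∈ (↑(vs K (A.filter (· < s + 1)) ∪ Z) : Set ℕ) →
              z ∈ (↑(vs K (A.filter (· < s)) ∪ Z) : Set ℕ) := by
            intro z hz
            simp only [Finset.coe_union, Set.mem_union, Finset.mem_coe] at hz ⊢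
            rcases hz with hz | hz
            · rcases (hvs z).mp hz with h | h
              · exact Or.inl h
              · exact Or.inr (hchsZ z h)
            · exact Or.inr hz
          exact h2 (hmem x hx) (hmem y hy) hxy
        · intro y hy hyZ
          rcases (hvs y).mp hy with h | h
          · exact h3 y h hyZ
          · exact absurd (hchsZ y h) hyZ
        · intro j hj
          rcases (hedge j).mp hj with h | h
          · exact h4 j h
          · subst h
            have : (edg K par j).image ψ = (edg K par j).image ψ₀ := by
              apply Finset.image_congr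
              intro x hx
              exact h1 x (hsub hx)
            rw [this]
            exact himg
      · -- second type
        set X : Finset V := (vs K (A.filter (· < s)) \ Z).image ψ with hX
        have hXM : (X.card : ℝ) ≤ M := by
          refine le_trans ?_ hM
          have c1 : X.card ≤ (vs K (A.filter (· < s)) \ Z).card := Finset.card_image_le
          have c2 : (vs K (A.filter (· < s)) \ Z).card ≤ (vs K A \ Z).card := by
            apply Finset.card_le_card
            apply Finset.sdiff_subset_sdiff _ (le_refl _)
            intro x hx
            simp only [vs, Finset.mem_insert, Finset.mem_biUnion, Finset.mem_filter] at hx ⊢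
            rcases hx with h | ⟨j, ⟨hj, _⟩, hx⟩
            · exact Or.inl h
            · exact Or.inr ⟨j, hj, hx⟩
          exact_mod_cast c1.trans c2
        -- values of ψ on the known part are not in a set f ⊆ U disjoint to X
        have hknown : ∀ f : Finset V, f ⊆ U → Disjoint f X →
            ∀ x ∈ vs K (A.filter (· < s)) ∪ Z, ψ x ∉ f := by
          intro f hfU hfX x hx hxf
          by_cases hxZ : x ∈ Z
          · rw [h1 x hxZ] at hxf
            exact hU x hxZ (hfU hxf)
          · have hx' : x ∈ vs K (A.filter (· < s)) := by
              rcases Finset.mem_union.mp hx with h | h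
              · exact h
              · exact absurd h hxZ
            have : ψ x ∈ X := by
              rw [hX]
              exact Finset.mem_image_of_mem ψ (Finset.mem_sdiff.mpr ⟨hx', hxZ⟩)
            exact Finset.disjoint_left.mp hfX hxf this
        -- find f
        have hf : ∃ f : Finset V, f.card = (chs K s \ Z).card ∧ f ⊆ U ∧ Disjoint f X ∧
            insert (ψ (par s)) ((chs K s ∩ Z).image ψ ∪ f) ∈ G := by
          rcases Nat.lt_or_ge 0 (chs K s ∩ Z).card with hpos | hzero
          · have hone : (chs K s ∩ Z).card = 1 := by omega
            obtain ⟨y, hy⟩ := Finset.card_eq_one.mp hone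
            have hymem : y ∈ chs K s ∩ Z := by rw [hy]; exact Finset.mem_singleton_self y
            have hy1 := (Finset.mem_inter.mp hymem).1
            have hy2 := (Finset.mem_inter.mp hymem).2
            have hab : ψ (par s) ≠ ψ y := by
              intro heq
              have := h2 (by
                simp only [Finset.coe_union, Set.mem_union, Finset.mem_coe]
                exact Or.inl hparmem) (by
                simp only [Finset.coe_union, Set.mem_union, Finset.mem_coe]
                exact Or.inr hy2) heq
              have e1 := hnew y hy1
              have e2 := hpar s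
              omega
            obtain ⟨f, hf1, hf2, hf3, hf4⟩ := hE.2 X hXM (ψ (par s)) (ψ y) hab
            refine ⟨f, ?_, hf2, hf3, ?_⟩
            · have := Finset.card_sdiff_add_card_inter (chs K s) Z
              rw [card_chs] at this
              omega
            · rw [hy, Finset.image_singleton]
              have : ({ψ y} : Finset V) ∪ f = insert (ψ y) f := by
                ext v; simp
              rw [this]
              exact hf4
          · have hz : chs K s ∩ Z = ∅ := Finset.card_eq_zero.mp (by omega)
            obtain ⟨f, hf1, hf2, hf3, hf4⟩ := hE.1 X hXM (ψ (par s))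
            refine ⟨f, ?_, hf2, hf3, ?_⟩
            · have := Finset.card_sdiff_add_card_inter (chs K s) Z
              rw [card_chs, hz] at this
              simp at this
              omega
            · rw [hz]
              simpa using hf4
        obtain ⟨f, hf1, hf2, hf3, hf4⟩ := hf
        obtain ⟨g, hg1, hg2, hg3⟩ := extend_aux hf1.symm ψ
        -- g agrees with ψ on the known part
        have hgk : ∀ x ∈ vs K (A.filter (· < s)) ∪ Z, g x = ψ x := by
          intro x hx
          apply hg1
          intro hxC
          have hxC' := Finset.mem_sdiff.mp hxC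
          rcases Finset.mem_union.mp hx with h | h
          · have e1 := hold x h
            have e2 := hnew x hxC'.1
            omega
          · exact hxC'.2 h
        have hcase : ∀ x, x ∈ vs K (A.filter (· < s + 1)) ∪ Z →
            x ∈ vs K (A.filter (· < s)) ∪ Z ∨ x ∈ chs K s \ Z := by
          intro x hx
          by_cases hxZ : x ∈ Z
          · exact Or.inl (Finset.mem_union_right _ hxZ)
          · rcases Finset.mem_union.mp hx with h | h
            · rcases (hvs x).mp h with h | h
              · exact Or.inl (Finset.mem_union_left _ h)
              · exact Or.inr (Finset.mem_sdiff.mpr ⟨h, hxZ⟩)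
            · exact absurd h hxZ
        have hgf : ∀ x ∈ chs K s \ Z, g x ∈ f := by
          intro x hx
          rw [← hg3]
          exact Finset.mem_image_of_mem g hx
        refine ⟨g, ?_, ?_, ?_, ?_⟩
        · intro z hz
          rw [hgk z (Finset.mem_union_right _ hz), h1 z hz]
        · intro x hx y hy hxy
          have hx' := hcase x (Finset.mem_coe.mp hx)
          have hy' := hcase y (Finset.mem_coe.mp hy)
          rcases hx' with hx' | hx' <;> rcases hy' with hy' | hy'
          · rw [hgk x hx', hgk y hy'] at hxy
            exact h2 (Finset.mem_coe.mpr hx') (Finset.mem_coe.mpr hy') hxy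
          · exfalso
            apply hknown f hf2 hf3 x hx'
            rw [← hgk x hx', hxy]
            exact hgf y hy'
          · exfalso
            apply hknown f hf2 hf3 y hy'
            rw [← hgk y hy', ← hxy]
            exact hgf x hx'
          · exact hg2 (Finset.mem_coe.mpr hx') (Finset.mem_coe.mpr hy') hxy
        · intro y hy hyZ
          rcases hcase y (Finset.mem_union_left _ hy) with h | h
          · rw [hgk y h]
            rcases Finset.mem_union.mp h with h | h
            · exact h3 y h hyZ
            · exact absurd h hyZ
          · exact hf2 (hgf y h)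
        · intro j hj
          rcases (hedge j).mp hj with h | h
          · have himg : (edg K par j).image g = (edg K par j).image ψ := by
              apply Finset.image_congr
              intro x hx
              apply hgk
              apply Finset.mem_union_left
              have hj' := Finset.mem_filter.mp h
              have hx' : x = par j ∨ x ∈ chs K j := by
                simpa [edg] using hx
              rcases hx' with rfl | hx'
              · by_cases hp : par j = 0
                · rw [hp]
                  simp [vs]
                · have hq := hA j hj'.1 hp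
                  have hlt := ed_lt hK0 hp (hpar j)
                  simp only [vs, Finset.mem_insert, Finset.mem_biUnion, Finset.mem_filter]
                  exact Or.inr ⟨_, ⟨hq, by omega⟩, mem_ed hK0 hp⟩
              · simp only [vs, Finset.mem_insert, Finset.mem_biUnion, Finset.mem_filter]
                exact Or.inr ⟨j, hj', hx'⟩
            rw [himg]
            exact h4 j h
          · subst h
            have himg : (edg K par j).image g =
                insert (ψ (par j)) ((chs K j ∩ Z).image ψ ∪ f) := by
              unfold edg
              rw [Finset.image_insert, hgk (par j) (Finset.mem_union_left _ hparmem)]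
              congr 1
              rw [← hg3]
              have hsplit : chs K j = (chs K j ∩ Z) ∪ (chs K j \ Z) := by
                ext x
                simp only [Finset.mem_union, Finset.mem_inter, Finset.mem_sdiff]
                tauto
              conv_lhs => rw [hsplit]
              rw [Finset.image_union]
              congr 1
              apply Finset.image_congr
              intro x hx
              exact hgk x (Finset.mem_union_right _ (Finset.mem_inter.mp hx).2)
            rw [himg]
            exact hf4
  obtain ⟨ψ, h1, h2, h3, h4⟩ := key (A.sup id + 1)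
  have hfil : A.filter (· < A.sup id + 1) = A := by
    apply Finset.filter_true_of_mem
    intro x hx
    have : x ≤ A.sup id := Finset.le_sup (f := id) hx
    omega
  rw [hfil] at h2 h3 h4
  exact ⟨ψ, h1, h2, h3, h4⟩

end Pool.Agent.helper21.RL
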