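import Pool.Agent.helper21.RL.Defs

/-! Module Pack: distributing the branches to the tiles (proof by helper71). -/

set_option autoImplicit false

open Finset

namespace Pool.Agent.helper21.RL

namespace Pack_aux

/-- adding a group to balanced loads -/
theorem balance {n C : ℕ} (L a : Fin n → ℕ) (hL : ∀ i j, L i ≤ L j + C) (ha : ∀ i, a i ≤ C) :
    ∃ σ : Equiv.Perm (Fin n), ∀ i j, L i + a (σ.symm i) ≤ L j + a (σ.symm j) + C := by
  have hs : Monotone (L ∘ Tuple.sort L) := Tuple.monotone_sort L
  have ht : Monotone ((fun i => OrderDual.toDual (a i)) ∘ Tuple.sort (fun i => OrderDual.toDual (a i))) :=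
    Tuple.monotone_sort _
  set s := Tuple.sort L with hsdef
  set t := Tuple.sort (fun i => OrderDual.toDual (a i)) with htdef
  refine ⟨t.symm.trans s, ?_⟩
  intro i j
  obtain ⟨k, rfl⟩ := s.surjective i
  obtain ⟨l, rfl⟩ := s.surjective j
  have e1 : ∀ k, (t.symm.trans s).symm (s k) = t k := by
    intro k
    simp
  rw [e1, e1]
  rcases le_total k l with h | h
  · have h1 : L (s k) ≤ L (s l) := hs h
    have h2 : a (t k) ≤ C := ha _
    omega
  · have h1 : L (s k) ≤ L (s l) + C := hL _ _
    have h2 : a (t k) ≤ a (t l) := ht h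
    omega

/-- balanced placement of a set of groups in one tile -/
theorem one_tile {n C : ℕ} (nb : ℕ → Fin n → ℕ) (hnb : ∀ b i, nb b i ≤ C) (S : Finset ℕ) :
    ∃ σ : ℕ → Equiv.Perm (Fin n), ∀ i j, ∑ b ∈ S, nb b ((σ b).symm i) ≤
      ∑ b ∈ S, nb b ((σ b).symm j) + C := by
  classical
  induction S using Finset.induction_on with
  | empty => exact ⟨fun _ => 1, fun i j => by simp⟩
  | insert b S hb ih =>
    obtain ⟨σ, hσ⟩ := ih
    obtain ⟨ρ, hρ⟩ := balance (fun i => ∑ b ∈ S, nb b ((σ b).symm i)) (nb b) hσ (hnb b)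
    refine ⟨Function.update σ b ρ, ?_⟩
    have e : ∀ i, ∑ x ∈ S, nb x ((Function.update σ b ρ x).symm i) =
        ∑ x ∈ S, nb x ((σ x).symm i) := by
      intro i
      apply Finset.sum_congr rfl
      intro x hx
      have : x ≠ b := fun h => hb (h ▸ hx)
      rw [Function.update_of_ne this]
    intro i j
    rw [Finset.sum_insert hb, Finset.sum_insert hb, e, e, Function.update_self]
    have := hρ i j
    omega

/-- distribution of the groups to the tiles -/
theorem distribute {M W C : ℕ} (hM : 0 < M) (size : ℕ → ℕ) (hsize : ∀ b, size b ≤ C)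
    (S : Finset ℕ) (hS : ∑ b ∈ S, size b ≤ M * (W - C)) :
    ∃ τ : ℕ → Fin M, ∀ l, ∑ b ∈ S.filter (fun b => τ b = l), size b ≤ W := by
  classical
  induction S using Finset.induction_on with
  | empty => exact ⟨fun _ => ⟨0, hM⟩, fun l => by simp⟩
  | insert b S hb ih =>
    rw [Finset.sum_insert hb] at hS
    obtain ⟨τ, hτ⟩ := ih (by omega)
    have hsum : ∑ l : Fin M, ∑ x ∈ S.filter (fun x => τ x = l), size x = ∑ x ∈ S, size x :=
      Finset.sum_fiberwise S τ size
    obtain ⟨l0, _, hl0⟩ : ∃ l0 ∈ (Finset.univ : Finset (Fin M)),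
        ∑ x ∈ S.filter (fun x => τ x = l0), size x ≤ W - C := by
      apply Finset.exists_le_of_sum_le (Finset.univ_nonempty_iff.mpr ⟨⟨0, hM⟩⟩)
      rw [hsum, Finset.sum_const, Finset.card_univ, Fintype.card_fin, smul_eq_mul]
      omega
    refine ⟨Function.update τ b l0, ?_⟩
    intro l
    have e : (insert b S).filter (fun x => Function.update τ b l0 x = l) =
        if l = l0 then insert b (S.filter (fun x => τ x = l)) else S.filter (fun x => τ x = l) := by
      ext x
      split_ifs with h
      · simp only [Finset.mem_filter, Finset.mem_insert]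
        constructor
        · rintro ⟨h1 | h1, h2⟩
          · exact Or.inl h1
          · have : x ≠ b := fun h => hb (h ▸ h1)
            rw [Function.update_of_ne this] at h2
            exact Or.inr ⟨h1, h2⟩
        · rintro (h1 | ⟨h1, h2⟩)
          · subst h1
            exact ⟨Or.inl rfl, by rw [Function.update_self]; exact h.symm⟩
          · have : x ≠ b := fun h => hb (h ▸ h1)
            rw [Function.update_of_ne this]
            exact ⟨Or.inr h1, h2⟩
      · simp only [Finset.mem_filter, Finset.mem_insert]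
        constructor
        · rintro ⟨h1 | h1, h2⟩
          · subst h1
            rw [Function.update_self] at h2
            exact absurd h2.symm h
          · have : x ≠ b := fun h => hb (h ▸ h1)
            rw [Function.update_of_ne this] at h2
            exact ⟨h1, h2⟩
        · rintro ⟨h1, h2⟩
          have : x ≠ b := fun h => hb (h ▸ h1)
          rw [Function.update_of_ne this]
          exact ⟨Or.inr h1, h2⟩
    rw [e]
    split_ifs with h
    · subst h
      rw [Finset.sum_insert (by
        intro hx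
        exact hb (Finset.mem_filter.mp hx).1)]
      have h3 := hsize b
      by_cases hWC : C ≤ W
      · omega
      · have h4 : W - C = 0 := by omega
        rw [h4] at hS hl0
        omega
    · exact hτ l

/-- injections of small sets -/
theorem exists_inj {V : Type} [DecidableEq V] [Nonempty V] (Z : Finset ℕ) (B : Finset V)
    (h : Z.card ≤ B.card) : ∃ f : ℕ → V, Set.InjOn f ↑Z ∧ ∀ y ∈ Z, f y ∈ B := by
  classical
  have h1 : Fintype.card Z ≤ Fintype.card B := by simpa using h
  obtain ⟨e⟩ := Function.Embedding.nonempty_of_card_le h1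
  refine ⟨fun y => if hy : y ∈ Z then (e ⟨y, hy⟩ : V) else Classical.arbitrary V, ?_, ?_⟩
  · intro y hy y' hy' heq
    simp only [Finset.mem_coe] at hy hy'
    simp only [hy, hy', dif_pos] at heq
    have := e.injective (Subtype.ext heq)
    exact congrArg Subtype.val this
  · intro y hy
    simp only [hy, dif_pos]
    exact (e ⟨y, hy⟩).2

end Pack_aux

open Pack_aux

/-- Distribution of the branches to the tiles (`[Nonempty V]` is needed for `Y = ∅`). -/
theorem packing {V : Type} [DecidableEq V] [Nonempty V] {G : Finset (Finset V)} {K c C M : ℕ}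
    {U : Finset V}
    {B : Fin M → Fin (K + 1) → Finset V} (hB : Tiling K c G U M B) {Y : Finset ℕ} {br : ℕ → ℕ}
    {col : ℕ → Fin (K + 1)} (hbr : ∀ b, (Y.filter (fun y => br y = b)).card ≤ C)
    (hcap : Y.card ≤ M * ((K + 1) * (c - 2 * C) - C)) :
    ∃ ψ : ℕ → V, Set.InjOn ψ ↑Y ∧ ∀ y₀ ∈ Y, ∃ (l : Fin M) (σ : Equiv.Perm (Fin (K + 1))),
      ∀ y ∈ Y, br y = br y₀ → ψ y ∈ B l (σ (col y)) := by
  classical
  rcases Nat.eq_zero_or_pos M with hM | hM
  · subst hM
    have hY : Y = ∅ := by
      rw [← Finset.card_eq_zero]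
      omega
    subst hY
    exact ⟨fun _ => Classical.arbitrary V, by simp, by simp⟩
  -- sizes
  set S := Y.image br with hS
  set nb : ℕ → Fin (K + 1) → ℕ := fun b i => (Y.filter (fun y => br y = b ∧ col y = i)).card with hnb
  have hsz : ∀ b, ∑ i, nb b i = (Y.filter (fun y => br y = b)).card := by
    intro b
    have := Finset.card_eq_sum_card_fiberwise (f := col) (s := Y.filter (fun y => br y = b))
      (t := Finset.univ) (fun _ _ => Finset.mem_univ _)
    rw [this]
    apply Finset.sum_congr rfl
    intro i _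
    simp only [hnb, Finset.filter_filter]
  have hnbC : ∀ b i, nb b i ≤ C := by
    intro b i
    refine le_trans (Finset.card_le_card ?_) (hbr b)
    intro y hy
    simp only [Finset.mem_filter] at hy ⊢
    exact ⟨hy.1, hy.2.1⟩
  have htot : ∑ b ∈ S, (Y.filter (fun y => br y = b)).card = Y.card :=
    (Finset.card_eq_sum_card_image br Y).symm
  obtain ⟨τ, hτ⟩ := distribute (W := (K + 1) * (c - 2 * C)) hM
    (fun b => (Y.filter (fun y => br y = b)).card) hbr S (by rw [htot]; exact hcap)
  have hσ : ∀ l : Fin M, ∃ σ : ℕ → Equiv.Perm (Fin (K + 1)), ∀ i,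
      ∑ b ∈ S.filter (fun b => τ b = l), nb b ((σ b).symm i) ≤ c := by
    intro l
    obtain ⟨σ, hσ⟩ := one_tile nb hnbC (S.filter (fun b => τ b = l))
    refine ⟨σ, ?_⟩
    intro i
    set L : Fin (K + 1) → ℕ := fun i => ∑ b ∈ S.filter (fun b => τ b = l), nb b ((σ b).symm i)
      with hL
    have hLsum : ∑ j, L j ≤ (K + 1) * (c - 2 * C) := by
      refine le_trans (le_of_eq ?_) (hτ l)
      simp only [hL]
      rw [Finset.sum_comm]
      apply Finset.sum_congr rfl
      intro b _
      rw [← hsz b]
      exact Equiv.sum_comp (σ b).symm (nb b)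
    have h1 : (K + 1) * L i ≤ ∑ j, L j + (K + 1) * C := by
      have h2 : ∑ _j : Fin (K + 1), L i ≤ ∑ j : Fin (K + 1), (L j + C) :=
        Finset.sum_le_sum (fun j _ => hσ i j)
      rw [Finset.sum_const, Finset.card_univ, Fintype.card_fin, smul_eq_mul,
        Finset.sum_add_distrib, Finset.sum_const, Finset.card_univ, Fintype.card_fin,
        smul_eq_mul] at h2
      exact h2
    show L i ≤ c
    by_cases hc : 2 * C ≤ c
    · have h3 : (K + 1) * L i ≤ (K + 1) * (c - 2 * C + C) := by
        rw [Nat.mul_add]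
        omega
      have h4 := Nat.le_of_mul_le_mul_left h3 (Nat.succ_pos K)
      omega
    · have h3 : c - 2 * C = 0 := by omega
      rw [h3, Nat.mul_zero] at hLsum
      have h4 : L i ≤ ∑ j, L j := Finset.single_le_sum (fun _ _ => Nat.zero_le _) (Finset.mem_univ i)
      omega
  choose σ hσ using hσ
  -- the classes
  set tl : ℕ → Fin M := fun y => τ (br y) with htl
  set pt : ℕ → Fin (K + 1) := fun y => σ (τ (br y)) (br y) (col y) with hpt
  have hcard : ∀ l i, (Y.filter (fun y => tl y = l ∧ pt y = i)).card ≤ (B l i).card := by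
    intro l i
    rw [hB.card]
    refine le_trans ?_ (hσ l i)
    have hmap : ∀ y ∈ Y.filter (fun y => tl y = l ∧ pt y = i), br y ∈ S.filter (fun b => τ b = l) := by
      intro y hy
      simp only [Finset.mem_filter, hS, Finset.mem_image] at hy ⊢
      exact ⟨⟨y, hy.1, rfl⟩, hy.2.1⟩
    rw [Finset.card_eq_sum_card_fiberwise (f := br) hmap]
    apply Finset.sum_le_sum
    intro b hb
    apply Finset.card_le_card
    intro y hy
    simp only [Finset.mem_filter] at hy hb ⊢
    obtain ⟨⟨hyY, h1, h2⟩, h3⟩ := hy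
    refine ⟨hyY, h3, ?_⟩
    rw [← h2]
    simp only [hpt]
    rw [h3, hb.2]
    simp
  have hinj : ∀ l i, ∃ f : ℕ → V, Set.InjOn f ↑(Y.filter (fun y => tl y = l ∧ pt y = i)) ∧
      ∀ y ∈ Y.filter (fun y => tl y = l ∧ pt y = i), f y ∈ B l i :=
    fun l i => exists_inj _ _ (hcard l i)
  choose f hf1 hf2 using hinj
  have hmem : ∀ y ∈ Y, f (tl y) (pt y) y ∈ B (tl y) (pt y) := by
    intro y hy
    exact hf2 (tl y) (pt y) y (Finset.mem_filter.mpr ⟨hy, rfl, rfl⟩)
  refine ⟨fun y => f (tl y) (pt y) y, ?_, ?_⟩
  · intro y hy y' hy' heq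
    simp only [Finset.mem_coe] at hy hy'
    simp only at heq
    by_cases hEq : (tl y, pt y) = (tl y', pt y')
    · have h1 : tl y = tl y' := congrArg Prod.fst hEq
      have h2 : pt y = pt y' := congrArg Prod.snd hEq
      rw [← h1, ← h2] at heq
      exact hf1 (tl y) (pt y) (by simp [hy]) (by simp [hy', h1, h2]) heq
    · exfalso
      have hd := hB.disj _ _ _ _ hEq
      have h1 := hmem y hy
      have h2 := hmem y' hy'
      rw [← heq] at h2
      exact Finset.disjoint_left.mp hd h1 h2
  · intro y₀ hy₀
    refine ⟨tl y₀, σ (τ (br y₀)) (br y₀), ?_⟩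
    intro y hy hyb
    have := hmem y hy
    simp only [htl, hpt] at this ⊢
    rw [hyb] at this
    simp only [hyb]
    exact this

end Pool.Agent.helper21.RL
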