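import Pool.Agent.helper21.RL.Sel
import Pool.Agent.helper21.RL.Deg

/-! Module Reserve: a small set with the extension property. -/

set_option autoImplicit false

open Finset

namespace Pool.Agent.helper21.RL

/-- pairwise disjoint sets meeting `X` -/
private theorem rsv_count {V : Type} [DecidableEq V] {t : ℕ} (g : Fin t → Finset V)
    (hg : ∀ l l', l ≠ l' → Disjoint (g l) (g l')) (X : Finset V) (S : Finset (Fin t))
    (h : ∀ l ∈ S, ¬ Disjoint (g l) X) : S.card ≤ X.card := by
  have h1 : (S.biUnion (fun l => g l ∩ X)).card = ∑ l ∈ S, (g l ∩ X).card := by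
    apply Finset.card_biUnion
    intro l _ l' _ hne
    exact Finset.disjoint_of_subset_left Finset.inter_subset_left
      (Finset.disjoint_of_subset_right Finset.inter_subset_left (hg l l' hne))
  have h2 : S.card ≤ ∑ l ∈ S, (g l ∩ X).card := by
    rw [Finset.card_eq_sum_ones]
    apply Finset.sum_le_sum
    intro l hl
    rw [Nat.one_le_iff_ne_zero]
    intro h0
    exact h l hl (Finset.disjoint_iff_inter_eq_empty.2 (Finset.card_eq_zero.1 h0))
  have h3 : (S.biUnion (fun l => g l ∩ X)) ⊆ X := by
    intro v hv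
    obtain ⟨l, _, hv⟩ := Finset.mem_biUnion.1 hv
    exact (Finset.mem_inter.1 hv).2
  calc S.card ≤ _ := h2
    _ = _ := h1.symm
    _ ≤ _ := Finset.card_le_card h3

/-- one application of `selection` -/
private theorem rsv_step {V I : Type} [Fintype V] [DecidableEq V] [Fintype I] [Nonempty I]
    [Nonempty V] (r t : ℕ) (hr : 1 ≤ r) (X₀ : Finset V)
    (hX₀ : 4 * r * (X₀.card + r * t) ≤ Fintype.card V)
    (Φ : I → Finset (Fin r → V))
    (hΦ : ∀ i, (3 / 8 : ℝ) * (Fintype.card V : ℝ) ^ r ≤ ((Φ i).card : ℝ))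
    (hI : (Fintype.card I : ℝ) < Real.exp ((1 / 8 : ℝ) * t / 4)) :
    ∃ F : Fin t → (Fin r → V), (∀ l, Disjoint (Finset.univ.image (F l)) X₀) ∧
      (∀ l l', l ≠ l' → Disjoint (Finset.univ.image (F l)) (Finset.univ.image (F l'))) ∧
      ∀ i, (1 / 8 : ℝ) * t / 4 ≤ ((Finset.univ.filter (fun l => F l ∈ Φ i)).card : ℝ) := by
  obtain ⟨F, hF1, hF2, hF3⟩ := selection (V := V) (ι := Fin r → V) (I := I) Finset.univ
    Finset.univ_nonempty (fun x => Finset.univ.image x) r t
    (fun ω _ => by
      refine Finset.card_image_le.trans ?_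
      rw [Finset.card_univ, Fintype.card_fin]) X₀ Φ (fun i => Finset.subset_univ _) (1 / 8)
    (by norm_num) (by norm_num) (by
      intro X hX hXc i
      have hcard : ((Finset.univ : Finset (Fin r → V)).card : ℝ) = (Fintype.card V : ℝ) ^ r := by
        rw [Finset.card_univ, Fintype.card_fun, Fintype.card_fin]
        push_cast
        ring
      rw [hcard]
      have h1 := hΦ i
      have h2 := card_meet_le r X
      have h3 : (Φ i).card ≤ ((Φ i).filter (fun ω => Disjoint (Finset.univ.image ω) X)).card +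
          (Finset.univ.filter (fun x : Fin r → V => ∃ i, x i ∈ X)).card := by
        rw [← Finset.card_filter_add_card_filter_not (s := Φ i)
          (fun ω => Disjoint (Finset.univ.image ω) X)]
        refine Nat.add_le_add_left (Finset.card_le_card ?_) _
        intro x hx
        obtain ⟨_, hx⟩ := Finset.mem_filter.1 hx
        obtain ⟨v, hv1, hv2⟩ := Finset.not_disjoint_iff.1 hx
        obtain ⟨j, _, rfl⟩ := Finset.mem_image.1 hv1
        exact Finset.mem_filter.2 ⟨Finset.mem_univ _, j, hv2⟩
      have h4 : ((Φ i).card : ℝ) ≤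
          (((Φ i).filter (fun ω => Disjoint (Finset.univ.image ω) X)).card : ℝ) +
          ((Finset.univ.filter (fun x : Fin r → V => ∃ i, x i ∈ X)).card : ℝ) := by
        exact_mod_cast h3
      have h5 : (r : ℝ) * X.card * (Fintype.card V : ℝ) ^ (r - 1) ≤
          (1 / 4) * (Fintype.card V : ℝ) ^ r := by
        have h6 : (4 * r * X.card : ℝ) ≤ Fintype.card V := by
          have : 4 * r * X.card ≤ Fintype.card V :=
            (Nat.mul_le_mul_left (4 * r) hXc).trans hX₀
          exact_mod_cast this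
        have h7 : (Fintype.card V : ℝ) ^ r = (Fintype.card V : ℝ) ^ (r - 1) * Fintype.card V := by
          rw [← pow_succ, Nat.sub_add_cancel hr]
        rw [h7]
        have h8 : (0 : ℝ) ≤ (Fintype.card V : ℝ) ^ (r - 1) := by positivity
        nlinarith
      linarith) hI
  exact ⟨F, fun l => (hF1 l).2, hF2, hF3⟩

private theorem rsv_large (c : ℝ) (hc : 0 < c) : ∃ n₀ : ℕ, ∀ n : ℕ, n₀ ≤ n →
    1 ≤ n ∧ (n : ℝ) ^ 2 < Real.exp ((1 / 8 : ℝ) * (⌊c * n⌋₊ : ℝ) / 4) ∧ 2 < c * n := by
  have h1 : ∀ᶠ x : ℝ in Filter.atTop, x ^ 2 ≤ Real.exp (-(1 / 32)) / 2 * Real.exp (c / 32 * x) := by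
    have := (isLittleO_pow_exp_pos_mul_atTop 2 (show (0 : ℝ) < c / 32 by positivity)).bound
      (show (0 : ℝ) < Real.exp (-(1 / 32)) / 2 by positivity)
    filter_upwards [this] with x hx
    rw [Real.norm_eq_abs, Real.norm_eq_abs, abs_of_nonneg (by positivity),
      abs_of_nonneg (Real.exp_pos _).le] at hx
    exact hx
  have h2 : ∀ᶠ x : ℝ in Filter.atTop, 2 / c < x := Filter.eventually_gt_atTop _
  have h3 : ∀ᶠ x : ℝ in Filter.atTop, 1 ≤ x := Filter.eventually_ge_atTop _
  obtain ⟨n₀, hn₀⟩ := (tendsto_natCast_atTop_atTop.eventually (h1.and (h2.and h3))).exists_forall_of_atTop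
  refine ⟨n₀, fun n hn => ?_⟩
  obtain ⟨h4, h5, h6⟩ := hn₀ n hn
  refine ⟨by exact_mod_cast h6, ?_, ?_⟩
  · refine h4.trans_lt ?_
    have h7 : c * n - 1 < (⌊c * n⌋₊ : ℝ) := Nat.sub_one_lt_floor _
    have h8 : Real.exp (-(1 / 32)) * Real.exp (c / 32 * n) <
        Real.exp ((1 / 8 : ℝ) * (⌊c * n⌋₊ : ℝ) / 4) := by
      rw [← Real.exp_add]
      apply Real.exp_lt_exp.2
      linarith
    have h9 : 0 < Real.exp (-(1 / 32)) * Real.exp (c / 32 * n) := by positivity
    linarith
  · rw [div_lt_iff₀ hc] at h5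
    linarith

theorem reserve (K : ℕ) (hK : 3 ≤ K) (ε : ℝ) (hε : 0 < ε) :
    ∃ η : ℝ, 0 < η ∧ ∃ n₀ : ℕ, ∀ (V : Type) [Fintype V] [DecidableEq V] (G : Finset (Finset V)),
      Unif K G → n₀ ≤ Fintype.card V → PD K G Finset.univ (1 / 2) → ∀ X₀ : Finset V,
      16 * K * X₀.card ≤ Fintype.card V →
      ∃ U : Finset V, Disjoint U X₀ ∧ (U.card : ℝ) ≤ ε * Fintype.card V ∧
        Ext K G U (η * Fintype.card V) := by
  have hK0 : (0 : ℝ) < K := by
    have : 0 < K := by omega
    exact_mod_cast this
  have hK3 : (3 : ℝ) ≤ K := by exact_mod_cast hK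
  obtain ⟨ε', hε', hε'1, hε'2⟩ : ∃ ε' : ℝ, 0 < ε' ∧ 8 * K * ε' ≤ ε ∧ 128 * K ^ 2 * ε' ≤ 1 := by
    refine ⟨min (ε / (8 * K)) (1 / (128 * K ^ 2)), by positivity, ?_, ?_⟩
    · have := min_le_left (ε / (8 * K)) (1 / (128 * (K : ℝ) ^ 2))
      rw [le_div_iff₀ (by positivity)] at this
      linarith
    · have := min_le_right (ε / (8 * K)) (1 / (128 * (K : ℝ) ^ 2))
      rw [le_div_iff₀ (by positivity)] at this
      linarith
  obtain ⟨n₁, hn₁⟩ := deg_count K hK (1 / 2) (3 / 8) (by norm_num) (by norm_num)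
  obtain ⟨n₂, hn₂⟩ := rsv_large ε' hε'
  refine ⟨ε' / 64, by positivity, max n₁ n₂, ?_⟩
  intro V _ _ G hG hn hPD X₀ hX₀
  obtain ⟨hV1, hexp, hbig⟩ := hn₂ _ ((le_max_right _ _).trans hn)
  obtain ⟨hd1, hd2⟩ := hn₁ V G hG ((le_max_left _ _).trans hn) hPD
  have : Nonempty V := Fintype.card_pos_iff.1 hV1
  set n := Fintype.card V with hndef
  set t := ⌊ε' * n⌋₊ with ht
  have hn0 : (0 : ℝ) < n := by exact_mod_cast hV1
  have hn1 : (1 : ℝ) ≤ n := by exact_mod_cast hV1
  have ht1 : (t : ℝ) ≤ ε' * n := Nat.floor_le (by positivity)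
  have ht2 : ε' * n - 1 < (t : ℝ) := Nat.sub_one_lt_floor _
  have hX₀' : 16 * (K : ℝ) * X₀.card ≤ n := by exact_mod_cast hX₀
  -- `128 K² t ≤ n`
  have hKt : 128 * (K : ℝ) ^ 2 * t ≤ n := by
    have h1 : 128 * (K : ℝ) ^ 2 * t ≤ 128 * (K : ℝ) ^ 2 * (ε' * n) := by
      apply mul_le_mul_of_nonneg_left ht1
      positivity
    nlinarith
  have hKt' : 128 * K ^ 2 * t ≤ n := by exact_mod_cast hKt
  -- first family
  obtain ⟨F, hF1, hF2, hF3⟩ := rsv_step (V := V) (I := V) K t (by omega) X₀ (by nlinarith)
    (fun a => Finset.univ.filter (fun x : Fin K → V => insert a (Finset.univ.image x) ∈ G))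
    hd1 (by
      refine lt_of_le_of_lt ?_ hexp
      rw [← hndef]
      nlinarith)
  set U₁ : Finset V := Finset.univ.biUnion (fun l => Finset.univ.image (F l)) with hU₁
  have hU₁c : U₁.card ≤ K * t := by
    refine (Finset.card_biUnion_le).trans ?_
    calc ∑ l : Fin t, (Finset.univ.image (F l)).card ≤ ∑ l : Fin t, K := by
          apply Finset.sum_le_sum
          intro l _
          refine Finset.card_image_le.trans ?_
          rw [Finset.card_univ, Fintype.card_fin]
      _ = K * t := by
          rw [Finset.sum_const, Finset.card_univ, Fintype.card_fin, smul_eq_mul, mul_comm]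
  have hU₁d : Disjoint U₁ X₀ := by
    rw [hU₁, Finset.disjoint_biUnion_left]
    intro l _
    exact hF1 l
  have hX₁c : (X₀ ∪ U₁).card ≤ X₀.card + K * t :=
    (Finset.card_union_le _ _).trans (Nat.add_le_add_left hU₁c _)
  -- second family
  obtain ⟨F', hF'1, hF'2, hF'3⟩ := rsv_step (V := V) (I := V × V) (K - 1) t (by omega) (X₀ ∪ U₁)
    (by
      have h1 : 4 * (K - 1) * ((X₀ ∪ U₁).card + (K - 1) * t) ≤
          4 * K * ((X₀.card + K * t) + K * t) := by
        apply Nat.mul_le_mul
        · omega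
        · apply Nat.add_le_add hX₁c
          exact Nat.mul_le_mul_right _ (by omega)
      refine h1.trans ?_
      nlinarith)
    (fun p => if p.1 = p.2 then Finset.univ else
      Finset.univ.filter (fun x : Fin (K - 1) → V =>
        insert p.1 (insert p.2 (Finset.univ.image x)) ∈ G))
    (by
      rintro ⟨a, b⟩
      by_cases hab : a = b
      · simp only [hab, if_true]
        rw [Finset.card_univ, Fintype.card_fun, Fintype.card_fin]
        push_cast
        have : (0 : ℝ) ≤ (Fintype.card V : ℝ) ^ (K - 1) := by positivity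
        linarith
      · simp only [hab, if_false]
        exact hd2 a b hab)
    (by
      refine lt_of_le_of_lt ?_ hexp
      rw [Fintype.card_prod, ← hndef]
      push_cast
      nlinarith)
  set U₂ : Finset V := Finset.univ.biUnion (fun l => Finset.univ.image (F' l)) with hU₂
  have hU₂c : U₂.card ≤ K * t := by
    refine (Finset.card_biUnion_le).trans ?_
    calc ∑ l : Fin t, (Finset.univ.image (F' l)).card ≤ ∑ l : Fin t, K := by
          apply Finset.sum_le_sum
          intro l _
          refine Finset.card_image_le.trans ?_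
          rw [Finset.card_univ, Fintype.card_fin]
          omega
      _ = K * t := by
          rw [Finset.sum_const, Finset.card_univ, Fintype.card_fin, smul_eq_mul, mul_comm]
  have hU₂d : Disjoint U₂ X₀ := by
    rw [hU₂, Finset.disjoint_biUnion_left]
    intro l _
    exact Finset.disjoint_of_subset_right Finset.subset_union_left (hF'1 l)
  have hlt : ε' / 64 * n < (1 / 8 : ℝ) * t / 4 := by linarith
  refine ⟨U₁ ∪ U₂, Finset.disjoint_union_left.2 ⟨hU₁d, hU₂d⟩, ?_, ?_, ?_⟩
  · have h1 : ((U₁ ∪ U₂).card : ℝ) ≤ K * t + K * t := by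
      have := (Finset.card_union_le U₁ U₂).trans (Nat.add_le_add hU₁c hU₂c)
      exact_mod_cast this
    have h2 : (K : ℝ) * t ≤ K * (ε' * n) := mul_le_mul_of_nonneg_left ht1 hK0.le
    nlinarith
  · intro X hX a
    by_contra hcon
    push Not at hcon
    have h1 := rsv_count (fun l => Finset.univ.image (F l)) hF2 X
      (Finset.univ.filter (fun l => F l ∈
        Finset.univ.filter (fun x : Fin K → V => insert a (Finset.univ.image x) ∈ G))) (by
      intro l hl hdis
      have hl' := (Finset.mem_filter.1 ((Finset.mem_filter.1 hl).2)).2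
      have h2 := hG _ hl'
      have h3 := Finset.card_insert_le a (Finset.univ.image (F l))
      have h4 : (Finset.univ.image (F l)).card ≤ K := by
        refine Finset.card_image_le.trans ?_
        rw [Finset.card_univ, Fintype.card_fin]
      exact hcon _ (by omega) (Finset.subset_union_left.trans' (by
        intro v hv
        exact Finset.mem_biUnion.2 ⟨l, Finset.mem_univ _, hv⟩)) hdis hl')
    have h2 := hF3 a
    have h3 : ((Finset.univ.filter (fun l => F l ∈
        Finset.univ.filter (fun x : Fin K → V => insert a (Finset.univ.image x) ∈ G))).card : ℝ)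
        ≤ X.card := by exact_mod_cast h1
    linarith
  · intro X hX a b hab
    by_contra hcon
    push Not at hcon
    have h0 := hF'3 (a, b)
    simp only [hab, if_false] at h0
    have h1 := rsv_count (fun l => Finset.univ.image (F' l)) hF'2 X
      (Finset.univ.filter (fun l => F' l ∈
        Finset.univ.filter (fun x : Fin (K - 1) → V =>
          insert a (insert b (Finset.univ.image x)) ∈ G))) (by
      intro l hl hdis
      have hl' := (Finset.mem_filter.1 ((Finset.mem_filter.1 hl).2)).2
      have h2 := hG _ hl'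
      have h3 := Finset.card_insert_le a (insert b (Finset.univ.image (F' l)))
      have h3' := Finset.card_insert_le b (Finset.univ.image (F' l))
      have h4 : (Finset.univ.image (F' l)).card ≤ K - 1 := by
        refine Finset.card_image_le.trans ?_
        rw [Finset.card_univ, Fintype.card_fin]
      exact hcon _ (by omega) (Finset.subset_union_right.trans' (by
        intro v hv
        exact Finset.mem_biUnion.2 ⟨l, Finset.mem_univ _, hv⟩)) hdis hl')
    have h3 : ((Finset.univ.filter (fun l => F' l ∈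
        Finset.univ.filter (fun x : Fin (K - 1) → V =>
          insert a (insert b (Finset.univ.image x)) ∈ G))).card : ℝ)
        ≤ X.card := by exact_mod_cast h1
    linarith

end Pool.Agent.helper21.RL
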