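import Pool.Agent.helper21.RL.Defs

/-! Module Sel: selection of a disjoint family meeting many conditions (helper17). -/

set_option autoImplicit false

open Finset

namespace Pool.Agent.helper21.RL

/-- one step of the greedy derandomised choice -/
private theorem sel_step {V ι I : Type} [DecidableEq V] [DecidableEq ι] [Fintype I] [Nonempty I]
    (Ω : Finset ι) (hΩ : Ω.Nonempty) (supp : ι → Finset V) (Φ : I → Finset ι)
    (hΦ : ∀ i, Φ i ⊆ Ω) (α : ℝ) (hα : 0 < α) (X : Finset V)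
    (h : ∀ i, α * (Ω.card : ℝ) ≤
      (((Φ i).filter (fun ω => Disjoint (supp ω) X)).card : ℝ))
    (w : I → ℝ) (hw : ∀ i, 0 ≤ w i) :
    ∃ ω ∈ Ω, Disjoint (supp ω) X ∧
      ∑ i, w i * (if ω ∈ Φ i then (1 / 2 : ℝ) else 1) ≤ (1 - α / 2) * ∑ i, w i := by
  classical
  set Ω' := Ω.filter (fun ω => Disjoint (supp ω) X) with hΩ'
  have hsub : ∀ i, (Φ i).filter (fun ω => Disjoint (supp ω) X) ⊆ Ω' := by
    intro i ω hω
    rw [mem_filter] at hω
    rw [hΩ', mem_filter]
    exact ⟨hΦ i hω.1, hω.2⟩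
  have hΩc : 0 < (Ω.card : ℝ) := by exact_mod_cast hΩ.card_pos
  have hne : Ω'.Nonempty := by
    obtain ⟨i⟩ := (inferInstance : Nonempty I)
    have h1 := h i
    have h2 : 0 < (((Φ i).filter (fun ω => Disjoint (supp ω) X)).card : ℝ) :=
      lt_of_lt_of_le (mul_pos hα hΩc) h1
    have h3 : ((Φ i).filter (fun ω => Disjoint (supp ω) X)).Nonempty := by
      rw [← card_pos]; exact_mod_cast h2
    exact h3.mono (hsub i)
  have hle : (Ω'.card : ℝ) ≤ Ω.card := by exact_mod_cast card_le_card (filter_subset _ _)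
  have key : ∑ ω ∈ Ω', ∑ i, w i * (if ω ∈ Φ i then (1 / 2 : ℝ) else 1) ≤
      ∑ _ω ∈ Ω', (1 - α / 2) * ∑ i, w i := by
    rw [sum_comm, sum_const, nsmul_eq_mul]
    have h1 : ∀ i, ∑ ω ∈ Ω', w i * (if ω ∈ Φ i then (1 / 2 : ℝ) else 1) ≤
        w i * ((1 - α / 2) * Ω'.card) := by
      intro i
      rw [← mul_sum]
      apply mul_le_mul_of_nonneg_left _ (hw i)
      have h2 : ∀ ω ∈ Ω', (if ω ∈ Φ i then (1 / 2 : ℝ) else 1) =
          1 - (1 / 2) * (if ω ∈ Φ i then (1 : ℝ) else 0) := by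
        intro ω _
        split_ifs <;> norm_num
      rw [sum_congr rfl h2, sum_sub_distrib, ← mul_sum, sum_const, nsmul_eq_mul, mul_one,
        ← sum_filter, sum_const, nsmul_eq_mul, mul_one]
      have h3 : ((Φ i).filter (fun ω => Disjoint (supp ω) X)) ⊆ Ω'.filter (fun ω => ω ∈ Φ i) := by
        intro ω hω
        rw [mem_filter]
        exact ⟨hsub i hω, (mem_filter.mp hω).1⟩
      have h4 : (((Φ i).filter (fun ω => Disjoint (supp ω) X)).card : ℝ) ≤
          ((Ω'.filter (fun ω => ω ∈ Φ i)).card : ℝ) := by exact_mod_cast card_le_card h3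
      have h5 : α * (Ω'.card : ℝ) ≤ α * Ω.card := mul_le_mul_of_nonneg_left hle hα.le
      have h6 := h i
      nlinarith
    calc ∑ i, ∑ ω ∈ Ω', w i * (if ω ∈ Φ i then (1 / 2 : ℝ) else 1)
        ≤ ∑ i, w i * ((1 - α / 2) * Ω'.card) := sum_le_sum (fun i _ => h1 i)
      _ = Ω'.card * ((1 - α / 2) * ∑ i, w i) := by
          rw [← sum_mul]; ring
  obtain ⟨ω, hω, hωle⟩ := exists_le_of_sum_le hne key
  rw [hΩ', mem_filter] at hω
  exact ⟨ω, hω.1, hω.2, hωle⟩

/-- the state after `k` steps -/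
private theorem sel_iter {V ι I : Type} [DecidableEq V] [DecidableEq ι] [Fintype I] [Nonempty I]
    (Ω : Finset ι) (hΩ : Ω.Nonempty) (supp : ι → Finset V) (s t : ℕ)
    (hs : ∀ ω ∈ Ω, (supp ω).card ≤ s) (X₀ : Finset V) (Φ : I → Finset ι) (hΦ : ∀ i, Φ i ⊆ Ω)
    (α : ℝ) (hα : 0 < α) (hα1 : α ≤ 1)
    (h : ∀ X : Finset V, X₀ ⊆ X → X.card ≤ X₀.card + s * t → ∀ i,
      α * (Ω.card : ℝ) ≤ (((Φ i).filter (fun ω => Disjoint (supp ω) X)).card : ℝ)) :
    ∀ k ≤ t, ∃ F : ℕ → ι, (∀ l < k, F l ∈ Ω ∧ Disjoint (supp (F l)) X₀) ∧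
      (∀ l < k, ∀ l' < k, l ≠ l' → Disjoint (supp (F l)) (supp (F l'))) ∧
      ∑ i : I, (1 / 2 : ℝ) ^ ((range k).filter (fun l => F l ∈ Φ i)).card ≤
        (Fintype.card I : ℝ) * (1 - α / 2) ^ k := by
  classical
  intro k
  induction k with
  | zero =>
    intro _
    obtain ⟨ω, _⟩ := hΩ
    refine ⟨fun _ => ω, by simp, by simp, ?_⟩
    simp
  | succ k ih =>
    intro hk
    obtain ⟨F, hF1, hF2, hF3⟩ := ih (by omega)
    set X := X₀ ∪ (range k).biUnion (fun l => supp (F l)) with hX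
    have hXc : X.card ≤ X₀.card + s * t := by
      calc X.card ≤ X₀.card + ((range k).biUnion (fun l => supp (F l))).card :=
            card_union_le _ _
        _ ≤ X₀.card + ∑ l ∈ range k, (supp (F l)).card := by
            gcongr; exact card_biUnion_le
        _ ≤ X₀.card + ∑ _l ∈ range k, s := by
            gcongr with l hl
            exact hs _ (hF1 l (mem_range.mp hl)).1
        _ = X₀.card + s * k := by rw [sum_const, card_range, smul_eq_mul, mul_comm]
        _ ≤ X₀.card + s * t := by gcongr; omega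
    obtain ⟨ω, hω, hdis, hsum⟩ := sel_step Ω hΩ supp Φ hΦ α hα X
      (h X subset_union_left hXc)
      (fun i => (1 / 2 : ℝ) ^ ((range k).filter (fun l => F l ∈ Φ i)).card)
      (fun i => by positivity)
    rw [hX, disjoint_union_right, disjoint_biUnion_right] at hdis
    have hnew : ∀ l < k, Function.update F k ω l = F l := by
      intro l hl
      exact Function.update_of_ne (by omega) _ _
    refine ⟨Function.update F k ω, ?_, ?_, ?_⟩
    · intro l hl
      rcases Nat.lt_succ_iff_lt_or_eq.mp hl with hl | rfl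
      · rw [hnew l hl]; exact hF1 l hl
      · rw [Function.update_self]; exact ⟨hω, hdis.1⟩
    · intro l hl l' hl' hne
      rcases Nat.lt_succ_iff_lt_or_eq.mp hl with hl | rfl
      · rcases Nat.lt_succ_iff_lt_or_eq.mp hl' with hl' | rfl
        · rw [hnew l hl, hnew l' hl']; exact hF2 l hl l' hl' hne
        · rw [hnew l hl, Function.update_self]
          exact (hdis.2 l (mem_range.mpr hl)).symm
      · rcases Nat.lt_succ_iff_lt_or_eq.mp hl' with hl' | rfl
        · rw [hnew l' hl', Function.update_self]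
          exact hdis.2 l' (mem_range.mpr hl')
        · exact absurd rfl hne
    · have hcard : ∀ i, (1 / 2 : ℝ) ^ ((range (k + 1)).filter
          (fun l => Function.update F k ω l ∈ Φ i)).card =
          (1 / 2 : ℝ) ^ ((range k).filter (fun l => F l ∈ Φ i)).card *
            (if ω ∈ Φ i then (1 / 2 : ℝ) else 1) := by
        intro i
        rw [range_add_one, filter_insert, Function.update_self]
        have h1 : (range k).filter (fun l => Function.update F k ω l ∈ Φ i) =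
            (range k).filter (fun l => F l ∈ Φ i) := by
          apply filter_congr
          intro l hl
          rw [hnew l (mem_range.mp hl)]
        rw [h1]
        split_ifs with hi
        · rw [card_insert_of_notMem (by simp), pow_succ]
        · rw [mul_one]
      rw [sum_congr rfl (fun i _ => hcard i)]
      refine hsum.trans ?_
      have h0 : 0 ≤ 1 - α / 2 := by linarith
      calc (1 - α / 2) * ∑ i : I, (1 / 2 : ℝ) ^ ((range k).filter (fun l => F l ∈ Φ i)).card
          ≤ (1 - α / 2) * ((Fintype.card I : ℝ) * (1 - α / 2) ^ k) :=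
            mul_le_mul_of_nonneg_left hF3 h0
        _ = (Fintype.card I : ℝ) * (1 - α / 2) ^ (k + 1) := by rw [pow_succ]; ring

/-- PROOF. Choose `F 0, F 1, …` one after the other. Potential `Ψ = ∑ i, (1/2)^(#{l < s | F l ∈ Φ i})`,
`Ψ = |I|` at the start. At step `s` let `X = X₀ ∪ ⋃_{l<s} supp (F l)` and
`Ω' = {ω ∈ Ω | supp ω disjoint from X}` (nonempty by `h`). The average over `ω ∈ Ω'` of the new
potential is `∑ i, w i * (1 - #(Φ i ∩ Ω') / (2 |Ω'|)) ≤ (1 - α/2) Ψ` because
`#(Φ i ∩ Ω') ≥ α |Ω| ≥ α |Ω'|`; choose `ω` with new potential at most the average. At the end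
`Ψ ≤ |I| (1 - α/2)^t ≤ |I| exp (-α t/2) < exp (-α t/4)`. If `#{l | F l ∈ Φ i} < α t/4` then
`Ψ ≥ (1/2)^(#…) ≥ exp (-log 2 * α t / 4) ≥ exp (-α t/4)`, a contradiction. -/
theorem selection {V ι I : Type} [DecidableEq V] [DecidableEq ι] [Fintype I] [Nonempty I]
    (Ω : Finset ι) (hΩ : Ω.Nonempty) (supp : ι → Finset V) (s t : ℕ)
    (hs : ∀ ω ∈ Ω, (supp ω).card ≤ s) (X₀ : Finset V) (Φ : I → Finset ι) (hΦ : ∀ i, Φ i ⊆ Ω)
    (α : ℝ) (hα : 0 < α) (hα1 : α ≤ 1)
    (h : ∀ X : Finset V, X₀ ⊆ X → X.card ≤ X₀.card + s * t → ∀ i,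
      α * (Ω.card : ℝ) ≤ (((Φ i).filter (fun ω => Disjoint (supp ω) X)).card : ℝ))
    (hI : (Fintype.card I : ℝ) < Real.exp (α * t / 4)) :
    ∃ F : Fin t → ι, (∀ l, F l ∈ Ω ∧ Disjoint (supp (F l)) X₀) ∧
      (∀ l l', l ≠ l' → Disjoint (supp (F l)) (supp (F l'))) ∧
      ∀ i, α * t / 4 ≤ ((Finset.univ.filter (fun l => F l ∈ Φ i)).card : ℝ) := by
  classical
  obtain ⟨F, hF1, hF2, hF3⟩ := sel_iter Ω hΩ supp s t hs X₀ Φ hΦ α hα hα1 h t le_rfl
  refine ⟨fun l => F l, fun l => hF1 l l.2, fun l l' hne =>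
    hF2 l l.2 l' l'.2 (fun hh => hne (Fin.ext hh)), ?_⟩
  intro i
  have hcard : (Finset.univ.filter (fun l : Fin t => F l ∈ Φ i)).card =
      ((range t).filter (fun l => F l ∈ Φ i)).card := by
    rw [card_filter, card_filter]
    exact Fin.sum_univ_eq_sum_range (fun l => if F l ∈ Φ i then 1 else 0) t
  by_contra hlt
  push Not at hlt
  rw [hcard] at hlt
  set n := ((range t).filter (fun l => F l ∈ Φ i)).card with hn
  have h1 : (1 / 2 : ℝ) ^ n ≤ ∑ i : I, (1 / 2 : ℝ) ^ ((range t).filter (fun l => F l ∈ Φ i)).card :=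
    single_le_sum (f := fun i : I => (1 / 2 : ℝ) ^ ((range t).filter (fun l => F l ∈ Φ i)).card)
      (fun i _ => by positivity) (mem_univ i)
  have h2 : Real.exp (-(n : ℝ)) ≤ (1 / 2 : ℝ) ^ n := by
    rw [show -(n : ℝ) = (n : ℝ) * (-1) by ring, Real.exp_nat_mul]
    apply pow_le_pow_left₀ (Real.exp_pos _).le
    rw [Real.exp_neg]
    rw [one_div]
    apply inv_anti₀ (by norm_num)
    have := Real.add_one_le_exp (1 : ℝ)
    linarith
  have h3 : (1 - α / 2) ^ t ≤ Real.exp (-(α * t / 2)) := by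
    have h4 : 1 - α / 2 ≤ Real.exp (-(α / 2)) := by
      have := Real.add_one_le_exp (-(α / 2))
      linarith
    calc (1 - α / 2) ^ t ≤ (Real.exp (-(α / 2))) ^ t :=
          pow_le_pow_left₀ (by linarith) h4 t
      _ = Real.exp (-(α * t / 2)) := by
          rw [← Real.exp_nat_mul]; congr 1; ring
  have h5 : (Fintype.card I : ℝ) * (1 - α / 2) ^ t < Real.exp (-(α * t / 4)) := by
    calc (Fintype.card I : ℝ) * (1 - α / 2) ^ t
        ≤ (Fintype.card I : ℝ) * Real.exp (-(α * t / 2)) :=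
          mul_le_mul_of_nonneg_left h3 (by positivity)
      _ < Real.exp (α * t / 4) * Real.exp (-(α * t / 2)) :=
          mul_lt_mul_of_pos_right hI (Real.exp_pos _)
      _ = Real.exp (-(α * t / 4)) := by
          rw [← Real.exp_add]; congr 1; ring
  have h6 : Real.exp (-(α * t / 4)) < Real.exp (-(n : ℝ)) := by
    apply Real.exp_lt_exp.mpr
    linarith
  linarith

end Pool.Agent.helper21.RL
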