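import Pool.Agent.helper21.RL.Defs

/-! Module Split: elementary operations with tilings. -/

set_option autoImplicit false

open Finset

namespace Pool.Agent.helper21.RL

variable {V : Type} [DecidableEq V]

namespace Split_aux

/-- a set with at least `N * c` elements contains `N` disjoint sets of size `c` -/
theorem cut (c : ℕ) : ∀ (N : ℕ) (S : Finset V), N * c ≤ S.card →
    ∃ f : Fin N → Finset V, (∀ i, (f i).card = c) ∧ (∀ i, f i ⊆ S) ∧
      ∀ i j, i ≠ j → Disjoint (f i) (f j)
  | 0, S, _ => ⟨fun i => i.elim0, fun i => i.elim0, fun i => i.elim0, fun i => i.elim0⟩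
  | N + 1, S, h => by
    have hc : c ≤ S.card := le_trans (by nlinarith) h
    obtain ⟨T, hTS, hT⟩ := Finset.exists_subset_card_eq hc
    have h1 : N * c ≤ (S \ T).card := by
      rw [Finset.card_sdiff_of_subset hTS, hT]
      have : (N + 1) * c = N * c + c := by ring
      omega
    obtain ⟨f, hf1, hf2, hf3⟩ := cut c N (S \ T) h1
    refine ⟨Fin.cons T f, ?_, ?_, ?_⟩
    · intro i
      refine Fin.cases ?_ (fun i => ?_) i
      · simpa using hT
      · simpa using hf1 i
    · intro i
      refine Fin.cases ?_ (fun i => ?_) i
      · simpa using hTS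
      · simpa using (hf2 i).trans Finset.sdiff_subset
    · intro i j
      refine Fin.cases ?_ (fun i => ?_) i
      · refine Fin.cases ?_ (fun j => ?_) j
        · intro h
          exact absurd rfl h
        · intro _
          simp only [Fin.cons_zero, Fin.cons_succ]
          exact Finset.disjoint_of_subset_right (hf2 j) Finset.disjoint_sdiff
      · refine Fin.cases ?_ (fun j => ?_) j
        · intro _
          simp only [Fin.cons_zero, Fin.cons_succ]
          exact Finset.disjoint_of_subset_left (hf2 i) Finset.sdiff_disjoint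
        · intro h
          simp only [Fin.cons_succ]
          exact hf3 i j (fun h' => h (by rw [h']))

end Split_aux

/-- PROOF. In every part `B l i` choose `g c` vertices outside `Q` and cut them into `g` sets of size
`c`; the new tile `(l, s)` consists of the `s`-th sets of the parts of the tile `l`. Enumerate
`Fin M × Fin g` by `Fin (M * g)` (`finProdFinEquiv`). -/
theorem tiling_split {K c c₁ g M : ℕ} {G : Finset (Finset V)} {U : Finset V}
    {B : Fin M → Fin (K + 1) → Finset V} (hB : Tiling K c₁ G U M B) (Q : Finset V) {u : ℕ}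
    (hQ : ∀ l i, (B l i ∩ Q).card ≤ u) (hg : g * c + u ≤ c₁) :
    ∃ B' : Fin (M * g) → Fin (K + 1) → Finset V, Tiling K c G U (M * g) B' ∧
      ∀ l i, Disjoint (B' l i) Q := by
  have h1 : ∀ l i, g * c ≤ (B l i \ Q).card := by
    intro l i
    have h2 := Finset.card_sdiff_add_card_inter (B l i) Q
    have h3 := hQ l i
    have h4 := hB.card l i
    omega
  choose f hf1 hf2 hf3 using fun l i => Split_aux.cut c g (B l i \ Q) (h1 l i)
  have hsub : ∀ (x : Fin (M * g)) i, f (finProdFinEquiv.symm x).1 i (finProdFinEquiv.symm x).2 ⊆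
      B (finProdFinEquiv.symm x).1 i := fun x i => (hf2 _ _ _).trans Finset.sdiff_subset
  refine ⟨fun x i => f (finProdFinEquiv.symm x).1 i (finProdFinEquiv.symm x).2,
    ⟨?_, ?_, ?_, ?_⟩, ?_⟩
  · intro x i
    exact hf1 _ _ _
  · intro x i
    exact (hsub x i).trans (hB.sub _ _)
  · intro x i x' i' hne
    by_cases h : ((finProdFinEquiv.symm x).1, i) = ((finProdFinEquiv.symm x').1, i')
    · rw [Prod.mk.injEq] at h
      obtain ⟨h2, h3⟩ := h
      subst h3
      have h4 : (finProdFinEquiv.symm x).2 ≠ (finProdFinEquiv.symm x').2 := by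
        intro h5
        apply hne
        have h6 : finProdFinEquiv.symm x = finProdFinEquiv.symm x' := Prod.ext h2 h5
        rw [finProdFinEquiv.symm.injective h6]
      rw [← h2]
      exact hf3 _ _ _ _ h4
    · exact Disjoint.mono (hsub x i) (hsub x' i') (hB.disj _ _ _ _ h)
  · intro x φ hφ
    exact hB.edge (finProdFinEquiv.symm x).1 φ (fun i => hsub x i (hφ i))
  · intro x i
    exact Finset.disjoint_of_subset_left (hf2 _ _ _) Finset.sdiff_disjoint

/-- PROOF. `Fin.append` / `finSumFinEquiv`. -/
theorem tiling_union {K c M M' : ℕ} {G : Finset (Finset V)} {U : Finset V}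
    {B : Fin M → Fin (K + 1) → Finset V} {B' : Fin M' → Fin (K + 1) → Finset V}
    (hB : Tiling K c G U M B) (hB' : Tiling K c G U M' B')
    (hd : ∀ l i l' i', Disjoint (B l i) (B' l' i')) :
    ∃ B'' : Fin (M + M') → Fin (K + 1) → Finset V, Tiling K c G U (M + M') B'' := by
  refine ⟨Fin.append B B', ⟨?_, ?_, ?_, ?_⟩⟩
  · intro l i
    refine Fin.addCases (fun l => ?_) (fun l => ?_) l
    · rw [Fin.append_left]; exact hB.card l i
    · rw [Fin.append_right]; exact hB'.card l i
  · intro l i
    refine Fin.addCases (fun l => ?_) (fun l => ?_) l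
    · rw [Fin.append_left]; exact hB.sub l i
    · rw [Fin.append_right]; exact hB'.sub l i
  · intro l i l' i'
    refine Fin.addCases (fun l => ?_) (fun l => ?_) l
    · refine Fin.addCases (fun l' => ?_) (fun l' => ?_) l'
      · intro h
        rw [Fin.append_left, Fin.append_left]
        refine hB.disj l i l' i' (fun h' => h ?_)
        rw [Prod.mk.injEq] at h'
        rw [h'.1, h'.2]
      · intro h
        rw [Fin.append_left, Fin.append_right]
        exact hd l i l' i'
    · refine Fin.addCases (fun l' => ?_) (fun l' => ?_) l'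
      · intro h
        rw [Fin.append_left, Fin.append_right]
        exact (hd l' i' l i).symm
      · intro h
        rw [Fin.append_right, Fin.append_right]
        refine hB'.disj l i l' i' (fun h' => h ?_)
        rw [Prod.mk.injEq] at h'
        rw [h'.1, h'.2]
  · intro l φ
    refine Fin.addCases (fun l => ?_) (fun l => ?_) l
    · rw [Fin.append_left]; exact hB.edge l φ
    · rw [Fin.append_right]; exact hB'.edge l φ

/-- PROOF. The parts of the tiles are the first `M (K+1)` sets, the rest of `U` is cut into sets of
size `c` (fewer than `c` vertices are left over). -/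
theorem tiling_parts {K c M : ℕ} (hc : 1 ≤ c) {G : Finset (Finset V)} {U : Finset V}
    {B : Fin M → Fin (K + 1) → Finset V} (hB : Tiling K c G U M B) :
    ∃ (N : ℕ) (X : Fin N → Finset V), (∀ i, (X i).card = c) ∧ (∀ i, X i ⊆ U) ∧
      (∀ i j, i ≠ j → Disjoint (X i) (X j)) ∧ U.card < (N + 1) * c ∧
      ∀ l i, ∃ x, B l i = X x := by
  set Y : Fin (M * (K + 1)) → Finset V :=
    fun x => B (finProdFinEquiv.symm x).1 (finProdFinEquiv.symm x).2 with hY
  have hYd : ∀ x y, x ≠ y → Disjoint (Y x) (Y y) := by
    intro x y hxy
    refine hB.disj _ _ _ _ (fun h => hxy (finProdFinEquiv.symm.injective ?_))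
    rw [Prod.mk.injEq] at h
    exact Prod.ext h.1 h.2
  set P : Finset V := Finset.univ.biUnion Y with hP
  have hPU : P ⊆ U := by
    rw [hP, Finset.biUnion_subset]
    intro x _
    exact hB.sub _ _
  have hPc : P.card = M * (K + 1) * c := by
    rw [hP, Finset.card_biUnion (fun x _ y _ h => hYd x y h),
      Finset.sum_congr rfl (fun x _ => hB.card _ _)]
    simp
  set R : Finset V := U \ P with hR
  have hRc : R.card = U.card - M * (K + 1) * c := by
    rw [hR, Finset.card_sdiff_of_subset hPU, hPc]
  have hle : M * (K + 1) * c ≤ U.card := by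
    rw [← hPc]; exact Finset.card_le_card hPU
  obtain ⟨f, hf1, hf2, hf3⟩ := Split_aux.cut c (R.card / c) R (Nat.div_mul_le_self _ _)
  have hYP : ∀ x, Y x ⊆ P := fun x => Finset.subset_biUnion_of_mem Y (Finset.mem_univ x)
  refine ⟨M * (K + 1) + R.card / c, Fin.append Y f, ?_, ?_, ?_, ?_, ?_⟩
  · intro l
    refine Fin.addCases (fun l => ?_) (fun l => ?_) l
    · rw [Fin.append_left]; exact hB.card _ _
    · rw [Fin.append_right]; exact hf1 l
  · intro l
    refine Fin.addCases (fun l => ?_) (fun l => ?_) l
    · rw [Fin.append_left]; exact hB.sub _ _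
    · rw [Fin.append_right]; exact (hf2 l).trans Finset.sdiff_subset
  · intro l l'
    refine Fin.addCases (fun l => ?_) (fun l => ?_) l
    · refine Fin.addCases (fun l' => ?_) (fun l' => ?_) l'
      · intro h
        rw [Fin.append_left, Fin.append_left]
        exact hYd l l' (fun h' => h (by rw [h']))
      · intro h
        rw [Fin.append_left, Fin.append_right]
        exact Disjoint.mono (hYP l) (hf2 l') Finset.disjoint_sdiff
    · refine Fin.addCases (fun l' => ?_) (fun l' => ?_) l'
      · intro h
        rw [Fin.append_left, Fin.append_right]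
        exact Disjoint.mono (hf2 l) (hYP l') Finset.sdiff_disjoint
      · intro h
        rw [Fin.append_right, Fin.append_right]
        exact hf3 l l' (fun h' => h (by rw [h']))
  · have h1 : R.card < (R.card / c + 1) * c := by
      have h2 := Nat.div_add_mod R.card c
      have h3 := Nat.mod_lt R.card (show 0 < c by omega)
      have h4 : (R.card / c + 1) * c = c * (R.card / c) + c := by ring
      omega
    have h5 : (M * (K + 1) + R.card / c + 1) * c = M * (K + 1) * c + (R.card / c + 1) * c := by
      ring
    omega
  · intro l i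
    refine ⟨Fin.castAdd _ (finProdFinEquiv (l, i)), ?_⟩
    rw [Fin.append_left, hY]
    simp

end Pool.Agent.helper21.RL
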