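import Pool.Agent.helper21.RL.Frac2
import Pool.Agent.helper21.RL.Fill
import Pool.Agent.helper21.RL.Split

/-! Module Tile: almost perfect tilings with complete `(K+1)`-partite hypergraphs. -/

set_option autoImplicit false

open Finset

namespace Pool.Agent.helper21.RL

/-- tilings covering the fraction `x` -/
def Cov (K : ℕ) (γ x : ℝ) : Prop :=
  ∀ c : ℕ, 1 ≤ c → ∃ n₀ : ℕ, ∀ (V : Type) [Fintype V] [DecidableEq V] (G : Finset (Finset V))
    (U : Finset V), Unif K G → n₀ ≤ U.card → PD K G U (1 / 2 + γ) →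
    ∃ (M : ℕ) (B : Fin M → Fin (K + 1) → Finset V), Tiling K c G U M B ∧
      x * U.card ≤ (M : ℝ) * ((K : ℝ) + 1) * c

/-- disjoint parts of size `c` inside `U` -/
private theorem parts_le {V : Type} [DecidableEq V] {U : Finset V} {c N : ℕ} {X : Fin N → Finset V}
    (hc : ∀ i, (X i).card = c) (hs : ∀ i, X i ⊆ U) (hd : ∀ i j, i ≠ j → Disjoint (X i) (X j)) :
    N * c ≤ U.card := by
  have h1 : (Finset.univ.biUnion X).card = ∑ i : Fin N, (X i).card :=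
    Finset.card_biUnion fun i _ j _ hij => hd i j hij
  have h2 : Finset.univ.biUnion X ⊆ U := by
    intro v hv
    obtain ⟨i, _, hi⟩ := Finset.mem_biUnion.1 hv
    exact hs i hi
  have h3 := Finset.card_le_card h2
  rw [h1, Finset.sum_congr rfl (fun i _ => hc i), Finset.sum_const, Finset.card_univ,
    Fintype.card_fin, smul_eq_mul] at h3
  exact h3

/-- the arithmetic of the increment -/
private theorem count {x lam ε u c c₁ q K N M₁ g M₂ : ℝ} (_hx0 : 0 ≤ x) (hx1 : x ≤ 1)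
    (_hlam1 : lam < 1) (_hε : 0 < ε) (hu : 0 ≤ u) (hc : 1 ≤ c) (hc₁ : 0 < c₁) (hK : 0 ≤ K)
    (hq1 : q * c ≤ lam * c₁) (hq2 : lam * c₁ ≤ (q + 1) * c) (hq0 : 0 ≤ q)
    (hN1 : u ≤ (N + 1) * c₁) (hN2 : N * c₁ ≤ u) (hM₁ : x * u ≤ M₁ * (K + 1) * c₁)
    (hg : c₁ - q * c - c ≤ g * c) (hgp : 0 ≤ c₁ - q * c - c) (hM₂ : q * N / (K + 1) - (N + 1) ≤ M₂)
    (h1 : (K + 3) * c ≤ ε / 2 * c₁) (h2 : c₁ + (K + 1) * c ≤ ε / 2 * u) (hM₁0 : 0 ≤ M₁) (_hN0 : 0 ≤ N) :
    (x + lam * (1 - x) - ε) * u ≤ (M₂ + M₁ * g) * (K + 1) * c := by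
  have hK1 : 0 < K + 1 := by linarith
  have e1 : q * N * c - (N + 1) * ((K + 1) * c) ≤ M₂ * (K + 1) * c := by
    have := mul_le_mul_of_nonneg_right hM₂ (mul_nonneg hK1.le (by linarith : 0 ≤ c))
    have e : (q * N / (K + 1) - (N + 1)) * ((K + 1) * c) = q * N * c - (N + 1) * ((K + 1) * c) := by
      field_simp
    rw [e] at this
    linarith
  -- multiply everything by `c₁`
  have hU : (x + lam * (1 - x) - ε) * u * c₁ ≤ (M₂ + M₁ * g) * (K + 1) * c * c₁ := by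
    -- `M₁ g (K+1) c ≥ M₁ (K+1) (c₁ - q c - c)`
    have e2 : M₁ * (K + 1) * (c₁ - q * c - c) ≤ M₁ * g * (K + 1) * c := by
      have := mul_le_mul_of_nonneg_left hg (mul_nonneg hM₁0 hK1.le)
      linarith
    have e3 : x * u * (c₁ - q * c - c) ≤ M₁ * (K + 1) * (c₁ - q * c - c) * c₁ := by
      have := mul_le_mul_of_nonneg_right hM₁ hgp
      linarith
    have e4 : x * u * (c₁ - q * c - c) ≤ M₁ * g * (K + 1) * c * c₁ := by
      have := mul_le_mul_of_nonneg_right e2 hc₁.le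
      linarith
    have e5 : (q * N * c - (N + 1) * ((K + 1) * c)) * c₁ ≤ M₂ * (K + 1) * c * c₁ :=
      mul_le_mul_of_nonneg_right e1 hc₁.le
    -- `q c N c₁ ≥ q c (u - c₁)`
    have hqc : 0 ≤ q * c := mul_nonneg hq0 (by linarith)
    have e6 : q * c * (u - c₁) ≤ q * N * c * c₁ := by
      have : u - c₁ ≤ N * c₁ := by linarith
      have := mul_le_mul_of_nonneg_left this hqc
      linarith
    have e7 : (N + 1) * ((K + 1) * c) * c₁ ≤ (u + c₁) * ((K + 1) * c) := by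
      have : (N + 1) * c₁ ≤ u + c₁ := by linarith
      have := mul_le_mul_of_nonneg_right this (mul_nonneg hK1.le (by linarith : 0 ≤ c))
      linarith
    have e8 : (x + lam * (1 - x) - ε) * u * c₁ ≤
        q * c * (u - c₁) - (u + c₁) * ((K + 1) * c) + x * u * (c₁ - q * c - c) := by
      -- rewrite with `A = q c`
      have hA2 : lam * c₁ ≤ q * c + c := by linarith
      have hA1 := hq1
      set A := q * c with hA
      have hx' : 0 ≤ 1 - x := by linarith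
      have t1 : lam * c₁ * ((1 - x) * u) ≤ (A + c) * ((1 - x) * u) :=
        mul_le_mul_of_nonneg_right hA2 (mul_nonneg hx' hu)
      have t2 : A * c₁ ≤ c₁ * c₁ := by
        have : A ≤ c₁ := by nlinarith
        exact mul_le_mul_of_nonneg_right this hc₁.le
      have t3 : (K + 3) * c * u ≤ ε / 2 * c₁ * u := mul_le_mul_of_nonneg_right h1 hu
      have t4 : (c₁ + (K + 1) * c) * c₁ ≤ ε / 2 * u * c₁ := mul_le_mul_of_nonneg_right h2 hc₁.le
      have t5 : c * ((1 - x) * u) + x * u * c = c * u := by ring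
      nlinarith [t1, t2, t3, t4, t5]
    linarith [e4, e5, e6, e7, e8]
  exact le_of_mul_le_mul_right hU hc₁

theorem cov_incr (K : ℕ) (hK : 3 ≤ K) (γ : ℝ) (hγ : 0 < γ) :
    ∃ lam : ℝ, 0 < lam ∧ lam < 1 ∧ ∀ x : ℝ, 0 ≤ x → x ≤ 1 → Cov K γ x → ∀ ε : ℝ, 0 < ε →
      Cov K γ (x + lam * (1 - x) - ε) := by
  set β : ℝ := γ / 4 with hβ
  have hβ0 : 0 < β := by positivity
  have hKR : (3 : ℝ) ≤ K := by exact_mod_cast hK
  have hK1 : (0 : ℝ) < 4 * ((K : ℝ) + 1) := by positivity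
  set lam : ℝ := min β 1 / (4 * ((K : ℝ) + 1)) with hlam
  have hm0 : 0 < min β 1 := lt_min hβ0 one_pos
  have hlam0 : 0 < lam := div_pos hm0 hK1
  have hlam16 : lam ≤ 1 / 16 := by
    rw [hlam, div_le_iff₀ hK1]
    have : min β 1 ≤ 1 := min_le_right _ _
    nlinarith
  have hlamβ : lam * (4 * ((K : ℝ) + 1)) ≤ β := by
    rw [hlam, div_mul_cancel₀ _ hK1.ne']
    exact min_le_left _ _
  refine ⟨lam, hlam0, by linarith, ?_⟩
  intro x hx0 hx1 hcov ε hε c hc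
  obtain ⟨b, hfill⟩ := fill K hK β hβ0 c hc
  have hcR : (1 : ℝ) ≤ c := by exact_mod_cast hc
  have hcR0 : (0 : ℝ) < c := by linarith
  obtain ⟨c₁, hc₁⟩ := exists_nat_ge (2 * (b : ℝ) + 4 * c + 2 * ((K : ℝ) + 3) * c / ε + 1)
  have hfr : 0 ≤ 2 * ((K : ℝ) + 3) * c / ε := by positivity
  have hb0 : (0 : ℝ) ≤ b := Nat.cast_nonneg _
  have hc₁1 : (1 : ℝ) ≤ c₁ := by linarith
  have hc₁N : 1 ≤ c₁ := by exact_mod_cast hc₁1
  have hc₁0 : (0 : ℝ) < c₁ := by linarith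
  have hc₁b : 2 * (b : ℝ) ≤ c₁ := by linarith
  have hc₁c : 4 * (c : ℝ) ≤ c₁ := by linarith
  have hc₁ε : ((K : ℝ) + 3) * c ≤ ε / 2 * c₁ := by
    have : 2 * ((K : ℝ) + 3) * c / ε ≤ c₁ := by linarith
    rw [div_le_iff₀ hε] at this
    linarith
  set q : ℕ := ⌊lam * c₁ / c⌋₊ with hq
  have hq1 : (q : ℝ) * c ≤ lam * c₁ := by
    have : (q : ℝ) ≤ lam * c₁ / c := Nat.floor_le (by positivity)
    rwa [le_div_iff₀ hcR0] at this
  have hq2 : lam * c₁ ≤ ((q : ℝ) + 1) * c := by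
    have : lam * c₁ / c < (q : ℝ) + 1 := Nat.lt_floor_add_one _
    rw [div_lt_iff₀ hcR0] at this
    exact this.le
  have hqc : (q : ℝ) * c ≤ c₁ / 16 := by
    have := mul_le_mul_of_nonneg_right hlam16 hc₁0.le
    linarith
  obtain ⟨n₁, hn₁⟩ := hcov c₁ hc₁N
  obtain ⟨N₁, hN₁⟩ := red_PD K hK γ hγ
  obtain ⟨N₂, hN₂⟩ := fracmatch K hK (γ / 2) (by positivity)
  obtain ⟨n₂, hn₂⟩ := exists_nat_ge (2 * ((c₁ : ℝ) + ((K : ℝ) + 1) * c) / ε)
  refine ⟨n₁ + (N₁ + N₂ + 1) * c₁ + n₂, ?_⟩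
  intro V _ _ G U hG hU hPD
  have hU1 : n₁ ≤ U.card := by nlinarith [Nat.zero_le ((N₁ + N₂ + 1) * c₁)]
  obtain ⟨M₁, B₁, hB₁, hM₁⟩ := hn₁ V G U hG hU1 hPD
  obtain ⟨N, X, hXc, hXU, hXd, hUN, hBX⟩ := tiling_parts hc₁N hB₁
  have hNN : N₁ + N₂ ≤ N := by
    by_contra hcon
    push Not at hcon
    have h1 : (N + 1) * c₁ ≤ (N₁ + N₂) * c₁ := Nat.mul_le_mul_right _ hcon
    have h2 : (N₁ + N₂ + 1) * c₁ ≤ U.card := by
      have : (N₁ + N₂ + 1) * c₁ ≤ n₁ + (N₁ + N₂ + 1) * c₁ + n₂ := by omega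
      omega
    have h3 : (N₁ + N₂) * c₁ ≤ (N₁ + N₂ + 1) * c₁ := Nat.mul_le_mul_right _ (by omega)
    omega
  have hPD' := hN₁ V G U c₁ N X hG hPD hc₁N (by omega) hXc hXU hXd hUN
  have hunif : Unif K (redE K G X c₁ (γ / 4)) := by
    intro e he
    exact (Finset.mem_filter.1 he).2.1
  obtain ⟨mult, hmult1, hmult2⟩ := hN₂ N (by omega) (redE K G X c₁ (γ / 4)) hunif hPD' q
  obtain ⟨M₂, B₂, hB₂, hM₂, hQ⟩ := hfill V G U c₁ N q X mult hG hXc hXU hXd hmult1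
    (by
      have : ((b + q * c : ℕ) : ℝ) ≤ c₁ := by push_cast; linarith
      exact_mod_cast this)
    (by
      have := mul_le_mul_of_nonneg_left hq1 (by positivity : (0 : ℝ) ≤ (K : ℝ) + 1)
      have h2 : ((K : ℝ) + 1) * (lam * c₁) ≤ β / 2 * c₁ := by
        have := mul_le_mul_of_nonneg_right hlamβ hc₁0.le
        nlinarith
      linarith)
  set g : ℕ := (c₁ - q * c) / c with hg
  have hqcN : q * c ≤ c₁ := by
    have : ((q * c : ℕ) : ℝ) ≤ c₁ := by push_cast; linarith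
    exact_mod_cast this
  have hg1 : g * c + q * c ≤ c₁ := by
    have : g * c ≤ c₁ - q * c := Nat.div_mul_le_self _ _
    omega
  have hg2 : c₁ - q * c < (g + 1) * c := by
    have h1 := Nat.div_add_mod (c₁ - q * c) c
    have h2 : (c₁ - q * c) % c < c := Nat.mod_lt _ (by omega)
    have h3 : (g + 1) * c = c * ((c₁ - q * c) / c) + c := by rw [hg]; ring
    omega
  obtain ⟨B', hB', hB'Q⟩ := tiling_split hB₁
    (Finset.univ.biUnion (fun p : Fin M₂ × Fin (K + 1) => B₂ p.1 p.2)) (u := q * c) (g := g) (c := c)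
    (fun l i => by obtain ⟨y, hy⟩ := hBX l i; rw [hy]; exact hQ y) hg1
  obtain ⟨B'', hB''⟩ := tiling_union hB₂ hB' (fun l i l' i' => by
    refine Finset.disjoint_of_subset_left ?_ (hB'Q l' i').symm
    intro v hv
    exact Finset.mem_biUnion.2 ⟨(l, i), Finset.mem_univ _, hv⟩)
  refine ⟨M₂ + M₁ * g, B'', hB'', ?_⟩
  have hN2 := parts_le hXc hXU hXd
  have hM₂R : (q : ℝ) * N / ((K : ℝ) + 1) - (N + 1) ≤ M₂ := by
    rw [hM₂]; push_cast; exact hmult2
  have hres := count (x := x) (lam := lam) (ε := ε) (u := (U.card : ℝ)) (c := (c : ℝ))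
    (c₁ := (c₁ : ℝ)) (q := (q : ℝ)) (K := (K : ℝ)) (N := (N : ℝ)) (M₁ := (M₁ : ℝ)) (g := (g : ℝ))
    (M₂ := (M₂ : ℝ)) hx0 hx1 (by linarith) hε (Nat.cast_nonneg _) hcR hc₁0 (by positivity) hq1 hq2
    (Nat.cast_nonneg _) (by exact_mod_cast hUN.le) (by exact_mod_cast hN2) hM₁
    (by
      have : ((c₁ - q * c : ℕ) : ℝ) < ((g + 1) * c : ℕ) := by exact_mod_cast hg2
      push_cast [Nat.cast_sub hqcN] at this
      linarith)
    (by linarith) hM₂R hc₁ε
    (by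
      have h1 : (n₂ : ℝ) ≤ U.card := by
        have : n₂ ≤ U.card := by
          have : n₂ ≤ n₁ + (N₁ + N₂ + 1) * c₁ + n₂ := by omega
          omega
        exact_mod_cast this
      have h2 : 2 * ((c₁ : ℝ) + ((K : ℝ) + 1) * c) / ε ≤ U.card := hn₂.trans h1
      rw [div_le_iff₀ hε] at h2
      linarith)
    (Nat.cast_nonneg _) (Nat.cast_nonneg _)
  push_cast
  exact hres

private theorem cov_mono {K : ℕ} {γ x y : ℝ} (hxy : y ≤ x) (h : Cov K γ x) : Cov K γ y := by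
  intro c hc
  obtain ⟨n₀, hn₀⟩ := h c hc
  refine ⟨n₀, ?_⟩
  intro V _ _ G U hG hU hPD
  obtain ⟨M, B, hB, hM⟩ := hn₀ V G U hG hU hPD
  exact ⟨M, B, hB, (mul_le_mul_of_nonneg_right hxy (Nat.cast_nonneg _)).trans hM⟩

private theorem cov_zero {K : ℕ} {γ : ℝ} : Cov K γ 0 := by
  intro c hc
  refine ⟨0, ?_⟩
  intro V _ _ G U hG hU hPD
  refine ⟨0, fun l => l.elim0, ⟨fun l => l.elim0, fun l => l.elim0, fun l => l.elim0, fun l => l.elim0⟩, ?_⟩
  simp

private theorem cov_iter (K : ℕ) (hK : 3 ≤ K) (γ : ℝ) (hγ : 0 < γ) (ε : ℝ) (hε : 0 < ε) :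
    Cov K γ (1 - ε) := by
  obtain ⟨lam, h0, h1, hinc⟩ := cov_incr K hK γ hγ
  have key : ∀ n : ℕ, Cov K γ (1 - ((1 - lam) ^ n + ε / 2)) := by
    intro n
    induction n with
    | zero => exact cov_mono (by rw [pow_zero]; linarith) cov_zero
    | succ n ih =>
      have hp : 0 ≤ (1 - lam) ^ n := pow_nonneg (by linarith) _
      by_cases hx : 0 ≤ 1 - ((1 - lam) ^ n + ε / 2)
      · have := hinc _ hx (by linarith) ih (lam * (ε / 2)) (by positivity)
        refine cov_mono (le_of_eq ?_) this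
        rw [pow_succ]; ring
      · push Not at hx
        have := hinc 0 le_rfl zero_le_one cov_zero (lam * (ε / 2)) (by positivity)
        refine cov_mono ?_ this
        rw [pow_succ]
        nlinarith
  obtain ⟨n, hn⟩ := exists_pow_lt_of_lt_one (by positivity : 0 < ε / 2) (by linarith : 1 - lam < 1)
  exact cov_mono (by linarith) (key n)

theorem tiling (K : ℕ) (hK : 3 ≤ K) (γ : ℝ) (hγ : 0 < γ) (ε : ℝ) (hε : 0 < ε) (c : ℕ)
    (hc : 1 ≤ c) :
    ∃ n₀ : ℕ, ∀ (V : Type) [Fintype V] [DecidableEq V] (G : Finset (Finset V)) (U : Finset V),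
      Unif K G → n₀ ≤ U.card → PD K G U (1 / 2 + γ) →
      ∃ (M : ℕ) (B : Fin M → Fin (K + 1) → Finset V), Tiling K c G U M B ∧
        (1 - ε) * U.card ≤ (M : ℝ) * ((K : ℝ) + 1) * c :=
  cov_iter K hK γ hγ ε hε c hc

end Pool.Agent.helper21.RL
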