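import Pool.Agent.helper21.RL.Basic
import Pool.Agent.helper21.RL.Greedy
import Pool.Agent.helper21.RL.Pack
import Pool.Agent.helper21.RL.AbsAll

/-! # Embedding of `T1` from an embedding of `T0` -/

set_option autoImplicit false

open Finset

namespace Pool.Agent.helper21.RL

/-- extension of an embedding of `T0` to `T1` using the reserve `Ur` and the tiles `B` -/
theorem embT1 {V : Type} [Fintype V] [DecidableEq V] {G : Finset (Finset V)} {K m Δ c C M : ℕ}
    (hK : 3 ≤ K) (hG : Unif K G) {par : ℕ → ℕ} (hT : Tree K m Δ par)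
    {T0 T1 : Finset ℕ} (hT1 : T1 ⊆ Finset.range m) (hc0 : Closed K par T0)
    (hc1 : Closed K par T1) {v : V} {ψ : ℕ → V} (hψ : Emb G K par T0 v ψ)
    {Ur U₂ : Finset V} (hUr : ∀ y ∈ vs K T0, ψ y ∉ Ur)
    (hU₂ : Disjoint U₂ Ur) (hU₂' : ∀ y ∈ vs K T0, ψ y ∉ U₂)
    {B : Fin M → Fin (K + 1) → Finset V} (hB : Tiling K c G U₂ M B)
    {br : ℕ → ℕ} {col : ℕ → Fin (K + 1)}
    (hbr : ∀ b, b ≠ 0 → ((vs K (Finset.range m)).filter (fun y => br y = b)).card ≤ C)
    (hcol : ∀ j ∈ Finset.range m, Set.InjOn col ↑(edg K par j))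
    (htype : ∀ j ∈ Finset.range m, ((chs K j).filter (fun y => br y ≠ 0)).card ≤ 1 ∨
          (∃ b, b ≠ 0 ∧ (∀ x ∈ edg K par j, br x = b) ∧ (par j ∈ vs K T0 → j ∈ T0)))
    (hcap : ((vs K T1 \ vs K T0).filter (fun y => br y ≠ 0)).card ≤
      M * ((K + 1) * (c - 2 * C) - C))
    {M' : ℝ} (hM' : (((vs K (Finset.range m)).filter (fun y => br y = 0)).card : ℝ) ≤ M')
    (hE : Ext K G Ur M') :
    ∃ ψ' : ℕ → V, Emb G K par T1 v ψ' ∧ ∀ y ∈ vs K T0, ψ' y = ψ y := by
  classical
  haveI : Nonempty V := ⟨v⟩
  have hK1 : 1 ≤ K := by omega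
  set Y := (vs K T1 \ vs K T0).filter (fun y => br y ≠ 0) with hY
  have hYr : Y ⊆ vs K (Finset.range m) := fun y hy =>
    vs_mono hT1 (Finset.mem_sdiff.1 (Finset.mem_filter.1 hy).1).1
  obtain ⟨ψp, hpinj, hp⟩ := packing (C := C) hB (Y := Y) (br := br) (col := col) (by
    intro b
    rcases eq_or_ne b 0 with rfl | hb
    · have : Y.filter (fun y => br y = 0) = ∅ := by
        ext y
        simp only [hY, Finset.mem_filter, Finset.notMem_empty, iff_false]
        tauto
      rw [this]; simp
    · exact (Finset.card_le_card (Finset.filter_subset_filter _ hYr)).trans (hbr b hb)) hcap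
  set ψ₀ : ℕ → V := fun z => if z ∈ vs K T0 then ψ z else ψp z with hψ₀
  have h0T : ∀ z ∈ vs K T0, ψ₀ z = ψ z := fun z hz => if_pos hz
  have h0Y : ∀ z ∈ Y, ψ₀ z = ψp z := fun z hz =>
    if_neg (Finset.mem_sdiff.1 (Finset.mem_filter.1 hz).1).2
  have hpU : ∀ z ∈ Y, ψp z ∈ U₂ := by
    intro z hz
    obtain ⟨l, σ, h⟩ := hp z hz
    exact hB.sub _ _ (h z hz rfl)
  have hinj : Set.InjOn ψ₀ ↑(vs K T0 ∪ Y) := by
    intro a ha b hb hab
    rw [Finset.mem_coe, Finset.mem_union] at ha hb
    rcases ha with ha | ha <;> rcases hb with hb | hb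
    · rw [h0T a ha, h0T b hb] at hab
      exact hψ.inj ha hb hab
    · rw [h0T a ha, h0Y b hb] at hab
      exact absurd (hab ▸ hpU b hb) (hU₂' a ha)
    · rw [h0Y a ha, h0T b hb] at hab
      exact absurd (hab.symm ▸ hpU a ha) (hU₂' b hb)
    · rw [h0Y a ha, h0Y b hb] at hab
      exact hpinj ha hb hab
  obtain ⟨ψ', h1, h2, -, h4⟩ := greedy hK hG hT.le hc1
    (Z := vs K T0 ∪ Y) (Finset.mem_union_left _ (zero_mem_vs _ _)) hinj (by
      intro j hj
      by_cases hj0 : j ∈ T0
      · left
        have h5 := edg_subset_vs hK1 hc0 hj0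
        refine ⟨h5.trans Finset.subset_union_left, ?_⟩
        rw [Finset.image_congr (g := ψ) (fun y hy => h0T y (h5 hy))]
        exact hψ.edge j hj0
      · have hjm := hT1 hj
        have hch : ∀ y ∈ chs K j, y ∉ vs K T0 := fun y hy h => hj0 ((mem_vs_of_chs hy).1 h)
        rcases htype j hjm with h5 | ⟨b, hb, h5, h6⟩
        · right
          refine (Finset.card_le_card ?_).trans h5
          intro y hy
          rw [Finset.mem_inter, Finset.mem_union] at hy
          rw [Finset.mem_filter]
          refine ⟨hy.1, ?_⟩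
          rcases hy.2 with h7 | h7
          · exact absurd h7 (hch y hy.1)
          · exact (Finset.mem_filter.1 h7).2
        · left
          have hY' : edg K par j ⊆ Y := by
            intro y hy
            rw [hY, Finset.mem_filter, Finset.mem_sdiff, h5 y hy]
            refine ⟨⟨edg_subset_vs hK1 hc1 hj hy, ?_⟩, hb⟩
            rcases mem_edg.1 hy with rfl | h7
            · exact fun h8 => hj0 (h6 h8)
            · exact hch y h7
          refine ⟨hY'.trans Finset.subset_union_right, ?_⟩
          rw [Finset.image_congr (g := ψp) (fun y hy => h0Y y (hY' hy))]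
          have hpe : par j ∈ edg K par j := mem_edg.2 (Or.inl rfl)
          obtain ⟨l, σ, h7⟩ := hp (par j) (hY' hpe)
          -- the edge is a transversal of the tile
          have hcard : Fintype.card (edg K par j) = Fintype.card (Fin (K + 1)) := by
            rw [Fintype.card_coe, edg_card hT.le, Fintype.card_fin]
          have hbij : Function.Bijective (fun y : edg K par j => σ (col y)) := by
            rw [Fintype.bijective_iff_injective_and_card]
            refine ⟨?_, hcard⟩
            intro a b hab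
            have := σ.injective hab
            exact Subtype.ext (hcol j hjm a.2 b.2 this)
          let eqv := Equiv.ofBijective _ hbij
          have h8 := hB.edge l (fun i => ψp (eqv.symm i)) (by
            intro i
            have h9 := h7 (eqv.symm i) (hY' (eqv.symm i).2) (by
              rw [h5 _ (eqv.symm i).2, h5 _ hpe])
            have h10 : σ (col (eqv.symm i)) = i := eqv.apply_symm_apply i
            rw [h10] at h9
            exact h9)
          have h9 : Finset.univ.image (fun i => ψp (eqv.symm i)) = (edg K par j).image ψp := by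
            ext x
            simp only [Finset.mem_image, Finset.mem_univ, true_and]
            constructor
            · rintro ⟨i, rfl⟩
              exact ⟨_, (eqv.symm i).2, rfl⟩
            · rintro ⟨y, hy, rfl⟩
              exact ⟨eqv ⟨y, hy⟩, by rw [eqv.symm_apply_apply]⟩
          rw [h9] at h8
          exact h8)
    (U := Ur) (by
      intro z hz
      rcases Finset.mem_union.1 hz with hz | hz
      · rw [h0T z hz]; exact hUr z hz
      · rw [h0Y z hz]
        exact fun h => (Finset.disjoint_left.1 hU₂) (hpU z hz) h)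
    (M := M') (by
      refine le_trans ?_ hM'
      have : vs K T1 \ (vs K T0 ∪ Y) ⊆ (vs K (Finset.range m)).filter (fun y => br y = 0) := by
        intro y hy
        rw [Finset.mem_sdiff, Finset.mem_union] at hy
        rw [Finset.mem_filter]
        refine ⟨vs_mono hT1 hy.1, ?_⟩
        by_contra hb
        exact hy.2 (Or.inr (by
          rw [hY, Finset.mem_filter, Finset.mem_sdiff]
          exact ⟨⟨hy.1, fun h => hy.2 (Or.inl h)⟩, hb⟩))
      exact_mod_cast Finset.card_le_card this) hE
  refine ⟨ψ', ⟨h2.mono (by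
    intro y hy
    exact Finset.mem_coe.2 (Finset.mem_union_left _ hy)), ?_, h4⟩, ?_⟩
  · rw [h1 0 (Finset.mem_union_left _ (zero_mem_vs _ _)), h0T 0 (zero_mem_vs _ _)]
    exact hψ.root
  · intro y hy
    rw [h1 y (Finset.mem_union_left _ hy), h0T y hy]

/-- monotonicity of `GrpEmb` -/
theorem GrpEmb.ext {V : Type} [DecidableEq V] {K m t : ℕ} {par : ℕ → ℕ} (hK : 1 ≤ K)
    {T0 T1 : Finset ℕ} (h01 : T0 ⊆ T1) (hc0 : Closed K par T0) {F : Fin t → Grp V K}
    {jj q : Fin t → Fin K → ℕ} {ψ ψ' : ℕ → V} (h : GrpEmb m par T0 F jj q ψ)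
    (hψ : ∀ y ∈ vs K T0, ψ' y = ψ y) : GrpEmb m par T1 F jj q ψ' := by
  refine ⟨fun l i => h01 (h.memA l i), h.memq, h.leaf, h.disj, ?_, ?_⟩
  · intro l i
    rw [hψ _ (chs_subset_vs (h.memA l i) (h.memq l i))]
    exact h.val l i
  · intro l i
    rw [← h.img l i]
    refine Finset.image_congr ?_
    intro y hy
    exact hψ y (edg_subset_vs hK hc0 (h.memA l i) (Finset.mem_of_mem_erase hy))

end Pool.Agent.helper21.RL
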