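import Pool.Agent.helper21.RL.Defs

/-! Module TreeS: decomposition of the tree into pieces and branches. -/

set_option autoImplicit false

open Finset

namespace Pool.Agent.helper21.RL

namespace TreeS_aux

/-- parent vertex -/
def pv (K : ℕ) (par : ℕ → ℕ) (y : ℕ) : ℕ := min (par (ed K y)) (y - 1)

/-- recursion along the tree -/
def rec' {α : Type*} (K : ℕ) (par : ℕ → ℕ) (z : α) (f : ℕ → α → α) : ℕ → α
  | 0 => z
  | y + 1 => f (y + 1) (rec' K par z f (pv K par (y + 1)))
  termination_by y => y
  decreasing_by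
    unfold pv
    omega

section

variable {K : ℕ} {par : ℕ → ℕ}

theorem pv_lt {y : ℕ} (hy : y ≠ 0) : pv K par y < y := by
  unfold pv
  omega

theorem rec'_zero {α : Type*} (z : α) (f : ℕ → α → α) : rec' K par z f 0 = z := by
  rw [rec']

theorem rec'_ne {α : Type*} (z : α) (f : ℕ → α → α) {y : ℕ} (hy : y ≠ 0) :
    rec' K par z f y = f y (rec' K par z f (pv K par y)) := by
  obtain ⟨t, rfl⟩ := Nat.exists_eq_succ_of_ne_zero hy
  rw [Nat.succ_eq_add_one, rec']

/-- position among the children -/
def pos (K y : ℕ) : ℕ := (y - 1) % K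

theorem mem_chs {j y : ℕ} : y ∈ chs K j ↔ ∃ i < K, y = K * j + 1 + i := by
  unfold chs
  simp only [mem_image, mem_range]
  constructor
  · rintro ⟨i, hi, rfl⟩; exact ⟨i, hi, rfl⟩
  · rintro ⟨i, hi, rfl⟩; exact ⟨i, hi, rfl⟩

theorem ed_child (j : ℕ) {i : ℕ} (hi : i < K) : ed K (K * j + 1 + i) = j := by
  unfold ed
  have h1 : K * j + 1 + i - 1 = i + K * j := by omega
  rw [h1, Nat.add_mul_div_left _ _ (by omega), Nat.div_eq_of_lt hi, zero_add]

theorem pos_child (j : ℕ) {i : ℕ} (hi : i < K) : pos K (K * j + 1 + i) = i := by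
  unfold pos
  have h1 : K * j + 1 + i - 1 = i + K * j := by omega
  rw [h1, Nat.add_mul_mod_self_left, Nat.mod_eq_of_lt hi]

theorem mem_chs_ed (hK : 0 < K) {y : ℕ} (hy : y ≠ 0) : y ∈ chs K (ed K y) := by
  rw [mem_chs]
  refine ⟨(y - 1) % K, Nat.mod_lt _ hK, ?_⟩
  unfold ed
  have := Nat.div_add_mod (y - 1) K
  omega

theorem pos_lt (hK : 0 < K) (y : ℕ) : pos K y < K := Nat.mod_lt _ hK

/-- in a tree the parent vertex is `par (ed y)` -/
theorem pv_eq {m Δ : ℕ} (h : Tree K m Δ par) {y : ℕ} (hy : y ≠ 0) :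
    pv K par y = par (ed K y) := by
  unfold pv
  have h1 := h.le (ed K y)
  have h2 : K * ed K y ≤ y - 1 := by
    unfold ed
    exact Nat.mul_div_le _ _
  omega

theorem pv_child {m Δ : ℕ} (h : Tree K m Δ par) (j : ℕ) {i : ℕ} (hi : i < K) :
    pv K par (K * j + 1 + i) = par j := by
  rw [pv_eq h (by omega), ed_child j hi]

theorem mem_vs_range {m : ℕ} (hK : 0 < K) {A : Finset ℕ} (hA : A ⊆ range m) {y : ℕ}
    (hy : y ∈ vs K A) : y < K * m + 1 := by
  unfold vs at hy
  rw [mem_insert, mem_biUnion] at hy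
  rcases hy with rfl | ⟨j, hj, hy⟩
  · omega
  · rw [mem_chs] at hy
    obtain ⟨i, hi, rfl⟩ := hy
    have hj' : j < m := mem_range.1 (hA hj)
    have h1 : K * (j + 1) ≤ K * m := Nat.mul_le_mul_left _ hj'
    rw [mul_add, mul_one] at h1
    omega

theorem ed_lt {m y : ℕ} (hK : 0 < K) (hy : y ≠ 0) (hym : y < K * m + 1) : ed K y < m := by
  unfold ed
  rw [Nat.div_lt_iff_lt_mul hK]
  rw [mul_comm]
  omega

theorem mem_vs_iff {A : Finset ℕ} {y : ℕ} (hK : 0 < K) :
    y ∈ vs K A ↔ y = 0 ∨ ed K y ∈ A := by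
  unfold vs
  rw [mem_insert, mem_biUnion]
  constructor
  · rintro (rfl | ⟨j, hj, hy⟩)
    · exact Or.inl rfl
    · rw [mem_chs] at hy
      obtain ⟨i, hi, rfl⟩ := hy
      right
      rw [ed_child j hi]
      exact hj
  · rintro (rfl | hy)
    · exact Or.inl rfl
    · by_cases h0 : y = 0
      · exact Or.inl h0
      · exact Or.inr ⟨_, hy, mem_chs_ed hK h0⟩

/-! ### descendants -/

/-- children of a vertex -/
def kids (K m : ℕ) (par : ℕ → ℕ) (x : ℕ) : Finset ℕ :=
  (range (K * m + 1)).filter (fun y => y ≠ 0 ∧ pv K par y = x)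

theorem card_kids {m Δ : ℕ} (hK : 0 < K) (h : Tree K m Δ par) (x : ℕ) :
    (kids K m par x).card ≤ K * Δ := by
  have h1 : kids K m par x ⊆ ((range m).filter (fun j => par j = x)).biUnion (chs K) := by
    intro y hy
    unfold kids at hy
    rw [mem_filter, mem_range] at hy
    obtain ⟨hy1, hy2, hy3⟩ := hy
    rw [mem_biUnion]
    refine ⟨ed K y, ?_, mem_chs_ed hK hy2⟩
    rw [mem_filter, mem_range]
    exact ⟨ed_lt hK hy2 hy1, by rw [← pv_eq h hy2]; exact hy3⟩
  refine (card_le_card h1).trans ?_
  refine (card_biUnion_le_card_mul _ _ K fun j _ => ?_).trans ?_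
  · unfold chs
    exact card_image_le.trans (by rw [card_range])
  · rw [mul_comm]
    exact Nat.mul_le_mul_left _ (h.deg x)

/-- descendants of relative depth `t` -/
def Ds (K m : ℕ) (par : ℕ → ℕ) (b : ℕ) : ℕ → Finset ℕ
  | 0 => {b}
  | t + 1 => (range (K * m + 1)).filter (fun y => y ≠ 0 ∧ pv K par y ∈ Ds K m par b t)

theorem card_Ds {m Δ : ℕ} (hK : 0 < K) (h : Tree K m Δ par) (b t : ℕ) :
    (Ds K m par b t).card ≤ (K * Δ) ^ t := by
  induction t with
  | zero => simp [Ds]
  | succ t ih =>
    have h1 : Ds K m par b (t + 1) ⊆ (Ds K m par b t).biUnion (kids K m par) := by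
      intro y hy
      rw [Ds, mem_filter] at hy
      rw [mem_biUnion]
      refine ⟨pv K par y, hy.2.2, ?_⟩
      unfold kids
      rw [mem_filter]
      exact ⟨hy.1, hy.2.1, rfl⟩
    refine (card_le_card h1).trans ((card_biUnion_le_card_mul _ _ (K * Δ) fun x _ =>
      card_kids hK h x).trans ?_)
    rw [pow_succ]
    exact Nat.mul_le_mul_right _ ih

/-- all descendants of relative depth `≤ H` -/
def DH (K m : ℕ) (par : ℕ → ℕ) (H b : ℕ) : Finset ℕ := (range (H + 1)).biUnion (Ds K m par b)

theorem card_DH {m Δ : ℕ} (hK : 0 < K) (h : Tree K m Δ par) (H b : ℕ) :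
    (DH K m par H b).card ≤ ∑ t ∈ range (H + 1), (K * Δ) ^ t :=
  card_biUnion_le.trans (sum_le_sum fun t _ => card_Ds hK h b t)

/-! ### depth, residues -/

/-- depth -/
def dep (K : ℕ) (par : ℕ → ℕ) : ℕ → ℕ := rec' K par 0 (fun _ d => d + 1)

theorem dep_zero : dep K par 0 = 0 := rec'_zero _ _

theorem dep_ne {y : ℕ} (hy : y ≠ 0) : dep K par y = dep K par (pv K par y) + 1 := rec'_ne _ _ hy

/-- residue of the depth -/
def rd (K : ℕ) (par : ℕ → ℕ) (H a x : ℕ) : ℕ := (dep K par x + a) % H

theorem rd_lt {H : ℕ} (hH : 0 < H) (a x : ℕ) : rd K par H a x < H := Nat.mod_lt _ hH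

theorem succ_mod {D H : ℕ} (h : (D + 1) % H ≠ 0) : (D + 1) % H = D % H + 1 := by
  rcases Nat.eq_zero_or_pos H with rfl | hH
  · simp
  · have h1 := Nat.div_add_mod D H
    have h2 := Nat.mod_lt D hH
    by_cases h3 : D % H + 1 = H
    · exfalso
      apply h
      have h4 : D + 1 = H * (D / H + 1) := by rw [mul_add, mul_one]; omega
      rw [h4, Nat.mul_mod_right]
    · have h4 : D + 1 = (D % H + 1) + H * (D / H) := by omega
      conv_lhs => rw [h4]
      rw [Nat.add_mul_mod_self_left, Nat.mod_eq_of_lt (by omega)]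

theorem rd_succ {H : ℕ} (a : ℕ) {y : ℕ} (hy : y ≠ 0) (h0 : rd K par H a y ≠ 0) :
    rd K par H a y = rd K par H a (pv K par y) + 1 := by
  unfold rd at h0 ⊢
  rw [dep_ne hy] at h0 ⊢
  have e : dep K par (pv K par y) + 1 + a = dep K par (pv K par y) + a + 1 := by omega
  rw [e] at h0 ⊢
  exact succ_mod h0

theorem rd_inj {H x a a' : ℕ} (ha : a < H) (ha' : a' < H)
    (h : rd K par H a x = rd K par H a' x) : a = a' := by
  unfold rd at h
  have h1 : a ≡ a' [MOD H] := Nat.ModEq.add_left_cancel' _ h
  exact Nat.ModEq.eq_of_lt_of_lt h1 ha ha'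

/-! ### pieces -/

/-- root of the piece -/
def pid (K : ℕ) (par : ℕ → ℕ) (H a : ℕ) : ℕ → ℕ :=
  rec' K par 0 (fun y p => if rd K par H a y = 0 then y else p)

theorem pid_zero (H a : ℕ) : pid K par H a 0 = 0 := rec'_zero _ _

theorem pid_cut {H a y : ℕ} (hy : rd K par H a y = 0) : pid K par H a y = y := by
  by_cases h0 : y = 0
  · rw [h0]; exact pid_zero H a
  · unfold pid
    rw [rec'_ne _ _ h0, if_pos hy]

theorem pid_ne {H a y : ℕ} (h0 : y ≠ 0) (hy : rd K par H a y ≠ 0) :
    pid K par H a y = pid K par H a (pv K par y) := by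
  unfold pid
  rw [rec'_ne _ _ h0, if_neg hy]

theorem pid_le (H a y : ℕ) : pid K par H a y ≤ y := by
  induction y using Nat.strong_induction_on with
  | _ y ih =>
    by_cases h0 : y = 0
    · rw [h0, pid_zero]
    · by_cases hy : rd K par H a y = 0
      · rw [pid_cut hy]
      · rw [pid_ne h0 hy]
        have h1 := pv_lt (K := K) (par := par) h0
        exact (ih _ h1).trans h1.le

theorem pid_Ds {m H : ℕ} (a y : ℕ) (hym : y < K * m + 1) :
    ∃ t ≤ rd K par H a y, y ∈ Ds K m par (pid K par H a y) t := by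
  induction y using Nat.strong_induction_on with
  | _ y ih =>
    by_cases h0 : y = 0
    · refine ⟨0, Nat.zero_le _, ?_⟩
      rw [h0, pid_zero]
      simp [Ds]
    · by_cases hy : rd K par H a y = 0
      · refine ⟨0, Nat.zero_le _, ?_⟩
        rw [pid_cut hy]
        simp [Ds]
      · have h1 := pv_lt (K := K) (par := par) h0
        obtain ⟨t, ht, hmem⟩ := ih _ h1 (by omega)
        refine ⟨t + 1, ?_, ?_⟩
        · rw [rd_succ a h0 hy]; omega
        · rw [pid_ne h0 hy, Ds, mem_filter, mem_range]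
          exact ⟨hym, h0, hmem⟩

/-! ### branches -/

/-- the branch of a vertex, `J d` is the position of the child starting a branch at relative
depth `d` -/
def br (K : ℕ) (par : ℕ → ℕ) (H a : ℕ) (J : ℕ → ℕ) : ℕ → ℕ :=
  rec' K par 0 (fun y b =>
    if rd K par H a (pv K par y) ≠ 0 ∧ b ≠ 0 then b
    else if pos K y = J (rd K par H a (pv K par y)) then y else 0)

theorem br_zero (H a : ℕ) (J : ℕ → ℕ) : br K par H a J 0 = 0 := rec'_zero _ _

theorem br_ne {H a : ℕ} {J : ℕ → ℕ} {y : ℕ} (h0 : y ≠ 0) : br K par H a J y =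
    if rd K par H a (pv K par y) ≠ 0 ∧ br K par H a J (pv K par y) ≠ 0
      then br K par H a J (pv K par y)
    else if pos K y = J (rd K par H a (pv K par y)) then y else 0 := by
  unfold br
  rw [rec'_ne _ _ h0]

theorem br_Ds {m H a : ℕ} {J : ℕ → ℕ} (y : ℕ) (hym : y < K * m + 1)
    (hb : br K par H a J y ≠ 0) :
    ∃ t ≤ rd K par H a (pv K par y), y ∈ Ds K m par (br K par H a J y) t := by
  induction y using Nat.strong_induction_on with
  | _ y ih =>
    have h0 : y ≠ 0 := by
      rintro rfl
      exact hb (br_zero H a J)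
    have h1 := pv_lt (K := K) (par := par) h0
    by_cases hc : rd K par H a (pv K par y) ≠ 0 ∧ br K par H a J (pv K par y) ≠ 0
    · have e : br K par H a J y = br K par H a J (pv K par y) := by rw [br_ne h0, if_pos hc]
      have h2 : pv K par y ≠ 0 := by
        intro h
        rw [h] at hc
        exact hc.2 (br_zero H a J)
      obtain ⟨t, ht, hmem⟩ := ih _ h1 (by omega) hc.2
      refine ⟨t + 1, ?_, ?_⟩
      · rw [rd_succ a h2 hc.1]; omega
      · rw [e, Ds, mem_filter, mem_range]
        exact ⟨hym, h0, hmem⟩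
    · rw [br_ne h0, if_neg hc] at hb ⊢
      by_cases hp : pos K y = J (rd K par H a (pv K par y))
      · rw [if_pos hp]
        exact ⟨0, Nat.zero_le _, by simp [Ds]⟩
      · rw [if_neg hp] at hb
        exact absurd rfl hb

/-- the position of the ancestor at relative depth `d` in the piece -/
def pt (K : ℕ) (par : ℕ → ℕ) (H a d : ℕ) : ℕ → ℕ :=
  rec' K par 0 (fun y p => if rd K par H a (pv K par y) = d then pos K y else p)

theorem pt_lt (hK : 0 < K) (H a d y : ℕ) : pt K par H a d y < K := by
  induction y using Nat.strong_induction_on with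
  | _ y ih =>
    by_cases h0 : y = 0
    · rw [h0]; unfold pt; rw [rec'_zero]; exact hK
    · unfold pt
      rw [rec'_ne _ _ h0]
      split_ifs
      · exact pos_lt hK _
      · exact ih _ (pv_lt h0)

theorem pt_spec {H a d : ℕ} (haH : a < H) {J : ℕ → ℕ} (y : ℕ) (h0 : y ≠ 0)
    (hd : d ≤ rd K par H a (pv K par y)) (hdep : H ≤ dep K par (pv K par y) + a)
    (hb : br K par H a J y = 0) : pt K par H a d y ≠ J d := by
  induction y using Nat.strong_induction_on with
  | _ y ih =>
    have h1 := pv_lt (K := K) (par := par) h0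
    have hbr := br_ne (K := K) (par := par) (H := H) (a := a) (J := J) h0
    rw [hb] at hbr
    have hnc : ¬ (rd K par H a (pv K par y) ≠ 0 ∧ br K par H a J (pv K par y) ≠ 0) := by
      intro hc
      rw [if_pos hc] at hbr
      exact hc.2 hbr.symm
    rw [if_neg hnc] at hbr
    unfold pt
    rw [rec'_ne _ _ h0]
    by_cases hdr : rd K par H a (pv K par y) = d
    · rw [if_pos hdr]
      intro hp
      rw [← hdr] at hp
      rw [if_pos hp] at hbr
      exact h0 hbr.symm
    · rw [if_neg hdr]
      have h2 : rd K par H a (pv K par y) ≠ 0 := by omega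
      have h3 : br K par H a J (pv K par y) = 0 := by
        by_contra h
        exact hnc ⟨h2, h⟩
      have h4 : pv K par y ≠ 0 := by
        intro h
        rw [h, dep_zero] at hdep
        omega
      have h5 := rd_succ a h4 h2
      refine ih _ h1 h4 (by omega) ?_ h3
      have h6 := dep_ne (K := K) (par := par) h4
      by_contra hlt
      have h7 : dep K par (pv K par y) + a = H := by omega
      apply h2
      unfold rd
      rw [h7, Nat.mod_self]

/-! ### the root piece -/

theorem dep_Ds {m : ℕ} (y : ℕ) (hym : y < K * m + 1) : y ∈ Ds K m par 0 (dep K par y) := by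
  induction y using Nat.strong_induction_on with
  | _ y ih =>
    by_cases h0 : y = 0
    · rw [h0, dep_zero]; simp [Ds]
    · have h1 := pv_lt (K := K) (par := par) h0
      rw [dep_ne h0, Ds, mem_filter, mem_range]
      exact ⟨hym, h0, ih _ h1 (by omega)⟩

/-! ### colours -/

/-- residue modulo `K + 1` -/
def cst (K n : ℕ) : Fin (K + 1) := ⟨n % (K + 1), Nat.mod_lt _ (Nat.succ_pos K)⟩

/-- colours -/
def col (K : ℕ) (par : ℕ → ℕ) : ℕ → Fin (K + 1) :=
  rec' K par 0 (fun y c => c + cst K (pos K y + 1))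

theorem col_ne {y : ℕ} (h0 : y ≠ 0) : col K par y =
    col K par (pv K par y) + cst K (pos K y + 1) := by
  unfold col
  rw [rec'_ne _ _ h0]

theorem col_inj {m Δ : ℕ} (h : Tree K m Δ par) (j : ℕ) :
    Set.InjOn (col K par) ↑(edg K par j) := by
  have hcast : ∀ i < K, ∀ i' < K, cst K (i + 1) = cst K (i' + 1) →
      i = i' := by
    intro i hi i' hi' he
    have h1 := congrArg Fin.val he
    simp only [cst] at h1
    rw [Nat.mod_eq_of_lt (by omega), Nat.mod_eq_of_lt (by omega)] at h1
    omega
  have hcast0 : ∀ i < K, cst K (i + 1) ≠ 0 := by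
    intro i hi he
    have h1 := congrArg Fin.val he
    simp only [cst] at h1
    rw [Nat.mod_eq_of_lt (by omega)] at h1
    simp at h1
  have hc : ∀ i < K, col K par (K * j + 1 + i) = col K par (par j) + cst K (i + 1) := by
    intro i hi
    rw [col_ne (by omega), pv_child h j hi, pos_child j hi]
  intro x hx y hy hxy
  unfold edg at hx hy
  rw [mem_coe, mem_insert, mem_chs] at hx hy
  rcases hx with rfl | ⟨i, hi, rfl⟩ <;> rcases hy with rfl | ⟨i', hi', rfl⟩
  · rfl
  · rw [hc i' hi'] at hxy
    exact absurd (left_eq_add.1 hxy) (hcast0 i' hi')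
  · rw [hc i hi] at hxy
    exact absurd (left_eq_add.1 hxy.symm) (hcast0 i hi)
  · rw [hc i hi, hc i' hi'] at hxy
    rw [hcast i hi i' hi' (add_left_cancel hxy)]

/-! ### averaging -/

theorem card_inj_le {H h x : ℕ} : ((range H).filter (fun a => rd K par H a x < h)).card ≤ h := by
  have h1 : ((range H).filter (fun a => rd K par H a x < h)).card ≤ (range h).card := by
    refine card_le_card_of_injOn (fun a => rd K par H a x) ?_ ?_
    · intro a ha
      have ha' := mem_filter.1 (mem_coe.1 ha)
      exact mem_coe.2 (mem_range.2 ha'.2)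
    · intro a ha a' ha' he
      have h2 := mem_filter.1 (mem_coe.1 ha)
      have h3 := mem_filter.1 (mem_coe.1 ha')
      exact rd_inj (mem_range.1 h2.1) (mem_range.1 h3.1) he
  rwa [card_range] at h1

theorem avg_a {H : ℕ} (hH : 0 < H) (h N : ℕ) : ∃ a < H,
    ((range N).filter (fun y => rd K par H a y = 0 ∨ rd K par H a (pv K par y) < h)).card * H
      ≤ (h + 1) * N := by
  have h1 : ∑ a ∈ range H,
      ((range N).filter (fun y => rd K par H a y = 0 ∨ rd K par H a (pv K par y) < h)).card
      ≤ N * (h + 1) := by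
    simp only [card_filter]
    rw [sum_comm]
    have h2 : ∀ y ∈ range N, ∑ a ∈ range H,
        (if rd K par H a y = 0 ∨ rd K par H a (pv K par y) < h then 1 else 0) ≤ h + 1 := by
      intro y _
      rw [← card_filter]
      have h3 : (range H).filter (fun a => rd K par H a y = 0 ∨ rd K par H a (pv K par y) < h) ⊆
          (range H).filter (fun a => rd K par H a y < 1) ∪
          (range H).filter (fun a => rd K par H a (pv K par y) < h) := by
        intro a ha
        rw [mem_filter] at ha
        rw [mem_union, mem_filter, mem_filter]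
        rcases ha.2 with h4 | h4
        · exact Or.inl ⟨ha.1, by omega⟩
        · exact Or.inr ⟨ha.1, h4⟩
      refine (card_le_card h3).trans ((card_union_le _ _).trans ?_)
      have h5 := card_inj_le (K := K) (par := par) (H := H) (h := 1) (x := y)
      have h6 := card_inj_le (K := K) (par := par) (H := H) (h := h) (x := pv K par y)
      omega
    refine (sum_le_sum h2).trans ?_
    rw [sum_const, card_range, smul_eq_mul]
  obtain ⟨a, ha, ha2⟩ := exists_le_of_sum_le (s := range H)
    (f := fun a => ((range N).filter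
      (fun y => rd K par H a y = 0 ∨ rd K par H a (pv K par y) < h)).card * H)
    (g := fun _ => (h + 1) * N) ⟨0, mem_range.2 hH⟩ (by
      rw [← sum_mul, sum_const, card_range, smul_eq_mul]
      calc _ ≤ N * (h + 1) * H := Nat.mul_le_mul_right _ h1
        _ = _ := by ring)
  exact ⟨a, mem_range.1 ha, ha2⟩

theorem card_avoid (hK : 0 < K) {h : ℕ} (P : Fin h → Fin K) :
    (univ.filter (fun I : Fin h → Fin K => ∀ d, P d ≠ I d)).card = (K - 1) ^ h := by
  have h1 : univ.filter (fun I : Fin h → Fin K => ∀ d, P d ≠ I d) =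
      Fintype.piFinset (fun d => univ.erase (P d)) := by
    ext I
    rw [mem_filter, Fintype.mem_piFinset]
    simp only [mem_univ, true_and, mem_erase, and_true]
    exact forall_congr' fun d => ne_comm
  rw [h1, Fintype.card_piFinset]
  simp [card_erase_of_mem]

theorem avg_I (hK : 0 < K) {h N : ℕ} (S : Finset ℕ) (hS : S ⊆ range N)
    (P : ℕ → Fin h → Fin K) : ∃ I : Fin h → Fin K,
    (S.filter (fun y => ∀ d, P y d ≠ I d)).card * K ^ h ≤ N * (K - 1) ^ h := by
  have h1 : ∑ I : Fin h → Fin K, (S.filter (fun y => ∀ d, P y d ≠ I d)).card ≤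
      N * (K - 1) ^ h := by
    simp only [card_filter]
    rw [sum_comm]
    have h2 : ∀ y ∈ S, ∑ I : Fin h → Fin K, (if ∀ d, P y d ≠ I d then 1 else 0) ≤
        (K - 1) ^ h := by
      intro y _
      rw [← card_filter, card_avoid hK]
    refine (sum_le_sum h2).trans ?_
    rw [sum_const, smul_eq_mul]
    refine Nat.mul_le_mul_right _ ?_
    have := card_le_card hS
    rwa [card_range] at this
  have hne : (univ : Finset (Fin h → Fin K)).Nonempty := ⟨fun _ => ⟨0, hK⟩, mem_univ _⟩
  obtain ⟨I, -, hI⟩ := exists_le_of_sum_le (s := (univ : Finset (Fin h → Fin K)))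
    (f := fun I => (S.filter (fun y => ∀ d, P y d ≠ I d)).card * K ^ h)
    (g := fun _ => N * (K - 1) ^ h) hne (by
      rw [← sum_mul, sum_const, card_univ, Fintype.card_fun, Fintype.card_fin, Fintype.card_fin,
        smul_eq_mul]
      calc _ ≤ N * (K - 1) ^ h * K ^ h := Nat.mul_le_mul_right _ h1
        _ = _ := by ring)
  exact ⟨I, hI⟩

end

end TreeS_aux

open TreeS_aux in
theorem treestruct (K : ℕ) (hK : 3 ≤ K) (Δ : ℕ) (η : ℝ) (hη : 0 < η) :
    ∃ C m₀ : ℕ, ∀ m, m₀ ≤ m → ∀ par : ℕ → ℕ, Tree K m Δ par →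
      ∃ (Tp : ℕ → Finset ℕ) (br : ℕ → ℕ) (col : ℕ → Fin (K + 1)),
        Tp 0 = ∅ ∧ Monotone Tp ∧ (∃ y, Tp y = Finset.range m) ∧
        (∀ y, Tp y ⊆ Finset.range m) ∧ (∀ y, Closed K par (Tp y)) ∧
        (∀ y, (Tp (y + 1)).card ≤ (Tp y).card + C) ∧
        (∀ y, (((vs K (Tp y)).filter
          (fun x => ∃ j ∈ Finset.range m, j ∉ Tp y ∧ par j = x)).card : ℝ) ≤ η * m) ∧
        (((vs K (Finset.range m)).filter (fun y => br y = 0)).card : ℝ) ≤ η * m ∧
        (∀ b, b ≠ 0 → ((vs K (Finset.range m)).filter (fun y => br y = b)).card ≤ C) ∧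
        (∀ j ∈ Finset.range m, Set.InjOn col ↑(edg K par j)) ∧
        (∀ j ∈ Finset.range m, ((chs K j).filter (fun y => br y ≠ 0)).card ≤ 1 ∨
          (∃ b, b ≠ 0 ∧ (∀ x ∈ edg K par j, br x = b) ∧
            ∀ y, par j ∈ vs K (Tp y) → j ∈ Tp y)) := by
  classical
  have hK0 : 0 < K := by omega
  have hKr : (0 : ℝ) < K := by exact_mod_cast hK0
  -- parameters
  obtain ⟨h, hh⟩ : ∃ h : ℕ, (((K - 1 : ℕ) : ℝ) / K) ^ h < η / (16 * K) := by
    refine exists_pow_lt_of_lt_one (by positivity) ?_
    rw [div_lt_one hKr]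
    exact_mod_cast (by omega : K - 1 < K)
  obtain ⟨H, hH⟩ := exists_nat_ge (16 * ((h : ℝ) + 1) * K / η + 1)
  have hHpos : 0 < H := by
    have : (0 : ℝ) < H := lt_of_lt_of_le (by positivity) hH
    exact_mod_cast this
  have hHr : (0 : ℝ) < H := by exact_mod_cast hHpos
  have hH2 : 16 * ((h : ℝ) + 1) * K ≤ η * H := by
    have h1 : 16 * ((h : ℝ) + 1) * K / η ≤ H := by linarith
    rw [div_le_iff₀ hη] at h1
    linarith
  set C : ℕ := ∑ t ∈ range (H + 1), (K * Δ) ^ t with hC
  obtain ⟨m₀, hm₀⟩ := exists_nat_ge ((8 * (1 + (C : ℝ))) / η + 1)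
  refine ⟨C, m₀, fun m hm par hT => ?_⟩
  have hmr : (8 * (1 + (C : ℝ))) / η + 1 ≤ m := hm₀.trans (by exact_mod_cast hm)
  have hm1 : (1 : ℝ) ≤ m := by
    have : 0 ≤ (8 * (1 + (C : ℝ))) / η := by positivity
    linarith
  have hm2 : 8 * (1 + (C : ℝ)) ≤ η * m := by
    have h1 : (8 * (1 + (C : ℝ))) / η ≤ m := by linarith
    rw [div_le_iff₀ hη] at h1
    linarith
  have hNr : ((K * m + 1 : ℕ) : ℝ) ≤ 2 * K * m := by
    push_cast
    have h3K : (3 : ℝ) ≤ K := by exact_mod_cast hK
    nlinarith
  -- the residue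
  obtain ⟨a, ha, hacard⟩ := avg_a (K := K) (par := par) hHpos h (K * m + 1)
  set Bad := (range (K * m + 1)).filter
    (fun y => rd K par H a y = 0 ∨ rd K par H a (pv K par y) < h) with hBad
  have hBadr : (Bad.card : ℝ) ≤ η * m / 8 := by
    have h1 : (Bad.card : ℝ) * H ≤ (h + 1) * ((K * m + 1 : ℕ) : ℝ) := by exact_mod_cast hacard
    have h2 : (Bad.card : ℝ) * H ≤ (h + 1) * (2 * K * m) :=
      h1.trans (mul_le_mul_of_nonneg_left hNr (by positivity))
    have h3 : (h + 1) * (2 * K * m) ≤ η * m / 8 * H := by nlinarith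
    exact le_of_mul_le_mul_right (h2.trans h3) hHr
  -- the positions
  set S := (range (K * m + 1)).filter
    (fun y => y ≠ 0 ∧ h ≤ rd K par H a (pv K par y) ∧ H ≤ dep K par (pv K par y) + a) with hS
  obtain ⟨I, hI⟩ := avg_I hK0 (h := h) S (filter_subset _ _)
    (fun y d => ⟨pt K par H a d y, pt_lt hK0 H a d y⟩)
  set J : ℕ → ℕ := fun d => if hd : d < h then (I ⟨d, hd⟩ : ℕ) else K with hJ
  set Op := S.filter (fun y => ∀ d : Fin h,
    (⟨pt K par H a d y, pt_lt hK0 H a d y⟩ : Fin K) ≠ I d) with hOp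
  have hOpr : (Op.card : ℝ) ≤ η * m / 8 := by
    have h1 : (Op.card : ℝ) * (K : ℝ) ^ h ≤ ((K * m + 1 : ℕ) : ℝ) * ((K - 1 : ℕ) : ℝ) ^ h := by
      exact_mod_cast hI
    have h2 : (Op.card : ℝ) ≤ ((K * m + 1 : ℕ) : ℝ) * (((K - 1 : ℕ) : ℝ) / K) ^ h := by
      rw [div_pow, mul_div_assoc', le_div_iff₀ (by positivity)]
      exact h1
    have h3 : ((K * m + 1 : ℕ) : ℝ) * (((K - 1 : ℕ) : ℝ) / K) ^ h ≤
        (2 * K * m) * (η / (16 * K)) :=
      mul_le_mul hNr hh.le (by positivity) (by positivity)
    have h4 : (2 * (K : ℝ) * m) * (η / (16 * K)) = η * m / 8 := by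
      field_simp
      ring
    linarith
  have hvs : ∀ y ∈ vs K (range m), y < K * m + 1 := fun y hy =>
    mem_vs_range hK0 (subset_refl _) hy
  set B := br K par H a J with hB
  set P := pid K par H a with hP
  set Tp : ℕ → Finset ℕ := fun y => (range m).filter (fun j => P (par j) < y) with hTp
  have hparle : ∀ j < m, par j < K * m + 1 := by
    intro j hj
    have h1 := hT.le j
    have h2 : K * j ≤ K * m := Nat.mul_le_mul_left _ hj.le
    omega
  refine ⟨Tp, B, col K par, ?_, ?_, ?_, ?_, ?_, ?_, ?_, ?_, ?_, ?_, ?_⟩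
  · -- `Tp 0`
    rw [eq_empty_iff_forall_notMem]
    intro j hj
    have := (mem_filter.1 hj).2
    omega
  · -- monotone
    intro y y' hyy' j hj
    have h1 := mem_filter.1 hj
    exact mem_filter.2 ⟨h1.1, lt_of_lt_of_le h1.2 hyy'⟩
  · refine ⟨K * m + 1, ?_⟩
    ext j
    refine ⟨fun hj => (mem_filter.1 hj).1, fun hj => mem_filter.2 ⟨hj, ?_⟩⟩
    have h1 := hparle j (mem_range.1 hj)
    have h2 : P (par j) ≤ par j := pid_le H a _
    omega
  · exact fun y => filter_subset _ _
  · -- closed
    intro y j hj hne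
    have h1 := mem_filter.1 hj
    have hjm := mem_range.1 h1.1
    refine mem_filter.2 ⟨mem_range.2 (ed_lt hK0 hne (hparle j hjm)), ?_⟩
    rw [← pv_eq hT hne]
    by_cases hc : rd K par H a (par j) = 0
    · have h2 : P (par j) = par j := pid_cut hc
      have h3 : P (pv K par (par j)) ≤ pv K par (par j) := pid_le H a _
      have h4 := pv_lt (K := K) (par := par) hne
      have h5 := h1.2
      omega
    · have h2 : P (par j) = P (pv K par (par j)) := pid_ne hne hc
      rw [← h2]
      exact h1.2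
  · -- size of the steps
    intro y
    have h1 : Tp (y + 1) ⊆ Tp y ∪ (Tp (y + 1) \ Tp y) := by
      intro j hj
      by_cases h2 : j ∈ Tp y
      · exact mem_union_left _ h2
      · exact mem_union_right _ (mem_sdiff.2 ⟨hj, h2⟩)
    refine (card_le_card h1).trans ((card_union_le _ _).trans (Nat.add_le_add_left ?_ _))
    have h2 : (Tp (y + 1) \ Tp y).card ≤ (DH K m par H y).card := by
      refine card_le_card_of_injOn (fun j => K * j + 1 + 0) ?_ ?_
      · intro j hj
        have hj' := mem_sdiff.1 (mem_coe.1 hj)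
        have h3 := mem_filter.1 hj'.1
        have hjm := mem_range.1 h3.1
        have h4 : P (par j) = y := by
          have h5 : ¬ P (par j) < y := fun h => hj'.2 (mem_filter.2 ⟨h3.1, h⟩)
          have h6 := h3.2
          omega
        obtain ⟨t, ht, hmem⟩ := pid_Ds (K := K) (par := par) (m := m) (H := H) a (par j)
          (hparle j hjm)
        have hrd := rd_lt (K := K) (par := par) hHpos a (par j)
        show K * j + 1 + 0 ∈ (DH K m par H y : Set ℕ)
        refine mem_coe.2 (mem_biUnion.2 ⟨t + 1, mem_range.2 (by omega), ?_⟩)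
        rw [Ds, mem_filter, mem_range, pv_child hT j hK0]
        refine ⟨?_, by omega, ?_⟩
        · have : K * (j + 1) ≤ K * m := Nat.mul_le_mul_left _ hjm
          rw [mul_add, mul_one] at this
          omega
        · rw [← h4]; exact hmem
      · intro j _ j' _ he
        have h3 : K * j = K * j' := by
          have : K * j + 1 + 0 = K * j' + 1 + 0 := he
          omega
        exact Nat.eq_of_mul_eq_mul_left hK0 h3
    exact h2.trans (card_DH hK0 hT H y)
  · -- attachments
    intro y
    have h1 : (vs K (Tp y)).filter (fun x => ∃ j ∈ range m, j ∉ Tp y ∧ par j = x) ⊆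
        insert 0 Bad := by
      intro x hx
      rw [mem_filter] at hx
      obtain ⟨hx1, j, hj, hjn, rfl⟩ := hx
      rw [mem_insert]
      by_cases h0 : par j = 0
      · exact Or.inl h0
      · right
        have hjm := mem_range.1 hj
        refine mem_filter.2 ⟨mem_range.2 (hparle j hjm), Or.inl ?_⟩
        by_contra hc
        rw [mem_vs_iff hK0] at hx1
        have h2 := hx1.resolve_left h0
        have h3 := (mem_filter.1 h2).2
        rw [← pv_eq hT h0] at h3
        have h4 : P (par j) = P (pv K par (par j)) := pid_ne h0 hc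
        rw [← h4] at h3
        exact hjn (mem_filter.2 ⟨hj, h3⟩)
    have h2 := (card_le_card h1).trans (card_insert_le 0 Bad)
    have h3 : ((((vs K (Tp y)).filter (fun x => ∃ j ∈ range m, j ∉ Tp y ∧ par j = x)).card : ℕ) : ℝ)
        ≤ (Bad.card : ℝ) + 1 := by exact_mod_cast h2
    have h4 : (0 : ℝ) ≤ C := Nat.cast_nonneg _
    linarith
  · -- open vertices
    have h1 : (vs K (range m)).filter (fun y => B y = 0) ⊆
        insert 0 (Bad ∪ (DH K m par H 0 ∪ Op)) := by
      intro y hy
      rw [mem_filter] at hy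
      have hyN := hvs y hy.1
      rw [mem_insert, mem_union, mem_union]
      by_cases h0 : y = 0
      · exact Or.inl h0
      · right
        by_cases h2 : rd K par H a (pv K par y) < h
        · exact Or.inl (mem_filter.2 ⟨mem_range.2 hyN, Or.inr h2⟩)
        · right
          rw [not_lt] at h2
          by_cases h3 : H ≤ dep K par (pv K par y) + a
          · right
            refine mem_filter.2 ⟨mem_filter.2 ⟨mem_range.2 hyN, h0, h2, h3⟩, fun d he => ?_⟩
            have h4 := pt_spec (K := K) (par := par) ha (J := J) (d := d) y h0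
              (by have := d.2; omega) h3 hy.2
            apply h4
            have h5 := congrArg Fin.val he
            simp only at h5
            rw [h5]
            simp only [hJ]
            rw [dif_pos d.2]
          · left
            rw [not_le] at h3
            refine mem_biUnion.2 ⟨dep K par y, mem_range.2 ?_, dep_Ds y hyN⟩
            rw [dep_ne h0]
            omega
    have h2 : ((vs K (range m)).filter (fun y => B y = 0)).card ≤ Bad.card + (C + Op.card) + 1 := by
      refine (card_le_card h1).trans ((card_insert_le _ _).trans ?_)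
      have h3 := card_union_le Bad (DH K m par H 0 ∪ Op)
      have h4 := card_union_le (DH K m par H 0) Op
      have h5 := card_DH hK0 hT H 0
      omega
    have h3 : ((((vs K (range m)).filter (fun y => B y = 0)).card : ℕ) : ℝ) ≤
        (Bad.card : ℝ) + (C + Op.card) + 1 := by exact_mod_cast h2
    have h4 : 0 ≤ η * m := by positivity
    linarith
  · -- size of the branches
    intro b hb
    have h1 : (vs K (range m)).filter (fun y => B y = b) ⊆ DH K m par H b := by
      intro y hy
      rw [mem_filter] at hy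
      have hyN := hvs y hy.1
      obtain ⟨t, ht, hmem⟩ := br_Ds (K := K) (par := par) (m := m) (H := H) (a := a) (J := J) y hyN
        (by rw [← hB, hy.2]; exact hb)
      have hrd := rd_lt (K := K) (par := par) hHpos a (pv K par y)
      refine mem_biUnion.2 ⟨t, mem_range.2 (by omega), ?_⟩
      rw [← hB, hy.2] at hmem
      exact hmem
    exact (card_le_card h1).trans (card_DH hK0 hT H b)
  · exact fun j _ => col_inj hT j
  · -- types of edges
    intro j hj
    have hjm := mem_range.1 hj
    by_cases hc : rd K par H a (par j) ≠ 0 ∧ B (par j) ≠ 0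
    · right
      have h0 : par j ≠ 0 := by
        intro h
        rw [h] at hc
        exact hc.2 (br_zero H a J)
      refine ⟨B (par j), hc.2, ?_, ?_⟩
      · intro x hx
        unfold edg at hx
        rw [mem_insert, mem_chs] at hx
        rcases hx with rfl | ⟨i, hi, rfl⟩
        · rfl
        · rw [hB, br_ne (by omega), pv_child hT j hi, if_pos hc]
      · intro y hy
        rw [mem_vs_iff hK0] at hy
        have h2 := hy.resolve_left h0
        have h3 := (mem_filter.1 h2).2
        rw [← pv_eq hT h0] at h3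
        have h4 : P (par j) = P (pv K par (par j)) := pid_ne h0 hc.1
        rw [← h4] at h3
        exact mem_filter.2 ⟨hj, h3⟩
    · left
      rw [card_le_one]
      intro x hx y hy
      have key : ∀ z ∈ (chs K j).filter (fun y => B y ≠ 0),
          z = K * j + 1 + J (rd K par H a (par j)) := by
        intro z hz
        rw [mem_filter, mem_chs] at hz
        obtain ⟨⟨i, hi, rfl⟩, hz2⟩ := hz
        rw [hB, br_ne (by omega), pv_child hT j hi, if_neg hc, pos_child j hi] at hz2
        by_cases hp : i = J (rd K par H a (par j))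
        · rw [← hp]
        · rw [if_neg hp] at hz2
          exact absurd rfl hz2
      rw [key x hx, key y hy]

end Pool.Agent.helper21.RL
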