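import Pool.Agent.helper21.RL.Top1
import Pool.Agent.helper21.RL.Reserve
import Pool.Agent.helper21.RL.Abs1
import Pool.Agent.helper21.RL.Desig
import Pool.Agent.helper21.RL.EmbT0
import Pool.Agent.helper21.RL.TreeS
import Pool.Agent.helper21.RL.Tile

/-! # Assembly: the main theorem in encoded form -/

set_option autoImplicit false

open Finset

namespace Pool.Agent.helper21.RL

/-- first index where a slowly growing sequence passes a level -/
theorem exists_level (f : ℕ → ℕ) (C : ℕ) (hf : ∀ y, f (y + 1) ≤ f y + C) (x : ℝ)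
    (h0 : (f 0 : ℝ) < x) (Y : ℕ) (hY : x ≤ f Y) :
    ∃ y, x ≤ f y ∧ (f y : ℝ) ≤ x + C := by
  classical
  have hex : ∃ y, x ≤ f y := ⟨Y, hY⟩
  refine ⟨Nat.find hex, Nat.find_spec hex, ?_⟩
  rcases Nat.eq_zero_or_pos (Nat.find hex) with h | h
  · have := Nat.find_spec hex
    rw [h] at this
    linarith
  · obtain ⟨y, hy⟩ : ∃ y, Nat.find hex = y + 1 := ⟨Nat.find hex - 1, by omega⟩
    have h1 : ¬ x ≤ f y := Nat.find_min hex (by omega)
    have h2 : (f (y + 1) : ℝ) ≤ f y + C := by exact_mod_cast hf y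
    rw [hy]
    linarith

/-- last index where the sequence is below the capacity -/
theorem exists_last_level (f : ℕ → ℕ) (C cap : ℕ) (y₀ Y : ℕ) (hf : ∀ y, f (y + 1) ≤ f y + C)
    (h0 : f y₀ ≤ cap) (hY : y₀ ≤ Y) :
    ∃ y, y₀ ≤ y ∧ f y ≤ cap ∧ (Y ≤ y ∨ cap ≤ f y + C) := by
  classical
  by_contra hcon
  push Not at hcon
  have key : ∀ i, y₀ + i ≤ Y → f (y₀ + i) ≤ cap := by
    intro i
    induction i with
    | zero => intro _; exact h0
    | succ i ih =>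
      intro hi
      have h1 := ih (by omega)
      have h2 := (hcon (y₀ + i) (by omega) h1).2
      have h3 := hf (y₀ + i)
      have h4 : y₀ + (i + 1) = y₀ + i + 1 := by omega
      rw [h4]
      omega
  have h1 := key (Y - y₀) (by omega)
  rw [show y₀ + (Y - y₀) = Y by omega] at h1
  have := (hcon Y hY h1).1
  omega


/-! ### numerical inequalities (separate, to keep the contexts small) -/

theorem num1 {K m : ℝ} (hK : 3 ≤ K) (hm : 1 ≤ m) : m ≤ K * m + 1 := by nlinarith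

theorem num2 {K m ε₀ : ℝ} (hK : 3 ≤ K) (hm : 1 ≤ m) (h : ε₀ * (256 * K) ≤ 1) (h0 : 0 < ε₀) :
    ε₀ * m ≤ m := by
  have : ε₀ ≤ 1 := by nlinarith
  nlinarith

theorem num3 {K m x C ε₀ : ℝ} (hK : 3 ≤ K) (h : x ≤ ε₀ * m + C) :
    K * x + 1 ≤ K * (ε₀ * m) + (K * C + 1) := by nlinarith

theorem num4 {K m : ℝ} (hK : 3 ≤ K) (hm : 1 ≤ m) : K * m + 1 ≤ 2 * K * m := by nlinarith

theorem num5 {K D t m ε₀ x : ℝ} (hD : 1 ≤ D) (h : K ^ 2 * D * t * 16 ≤ ε₀ * m)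
    (h2 : 16 * D ≤ ε₀ * m) (h3 : ε₀ * m ≤ x) : 8 * K * D * (K * t) + 4 * D ≤ x := by
  have : 8 * K * D * (K * t) = K ^ 2 * D * t * 16 / 2 := by ring
  linarith

theorem num6 {K : ℝ} (hK : 3 ≤ K) : K + K * K ≤ 2 * K ^ 2 := by nlinarith

theorem num7 {K m x C ε₀ : ℝ} (hK : 3 ≤ K) (hm : 1 ≤ m)
    (h1 : ε₀ * (256 * K) ≤ 1) (h : x ≤ ε₀ * m + C)
    (b1 : 2 * (16 * K * (K * C + 1)) ≤ m) : K * x * (16 * K) ≤ K * m + 1 := by
  have h2 : K * x * (16 * K) ≤ K * (ε₀ * m + C) * (16 * K) := by gcongr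
  have h3 : K * (ε₀ * m + C) * (16 * K) = (ε₀ * (256 * K)) * (K * m) / 16 + 16 * K * (K * C) := by
    ring
  have h4 : (ε₀ * (256 * K)) * (K * m) ≤ 1 * (K * m) := by gcongr
  nlinarith

theorem num8 {K m x ε₀ : ℝ} (hK : 3 ≤ K) (hm : 1 ≤ m)
    (h1 : ε₀ * (256 * K) ≤ 1) (h : x ≤ ε₀ * m + 1) (b6 : 64 * K ≤ m) :
    16 * K * x ≤ K * m + 1 := by
  have h2 : 16 * K * x ≤ 16 * K * (ε₀ * m + 1) := by gcongr
  have h3 : 16 * K * (ε₀ * m + 1) = (ε₀ * (256 * K)) * m / 16 + 16 * K := by ring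
  have h4 : (ε₀ * (256 * K)) * m ≤ 1 * m := by gcongr
  nlinarith

theorem num9 {K m x C ε₀ : ℝ} (hK : 3 ≤ K) (hm : 1 ≤ m)
    (h1 : ε₀ * (256 * K) ≤ 1) (h : x ≤ K * (ε₀ * m) + (K * C + 1))
    (b1 : 2 * (16 * K * (K * C + 1)) ≤ m) : 16 * K * x ≤ K * m + 1 := by
  have h2 : 16 * K * x ≤ 16 * K * (K * (ε₀ * m) + (K * C + 1)) := by gcongr
  have h3 : 16 * K * (K * (ε₀ * m) + (K * C + 1)) =
      (ε₀ * (256 * K)) * (K * m) / 16 + 16 * K * (K * C + 1) := by ring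
  have h4 : (ε₀ * (256 * K)) * (K * m) ≤ 1 * (K * m) := by gcongr
  nlinarith

theorem num10 {K m n x C ε₀ γ : ℝ} (hm : 1 ≤ m) (hmn : m ≤ n) (hγ : 0 < γ)
    (h1 : ε₀ * (32 * K) ≤ γ) (h : x ≤ K * (ε₀ * m) + (K * C + 1))
    (b3 : 128 * (K * C + 1) ≤ γ * m) : x ≤ γ / 16 * n := by
  have h2 : ε₀ * (32 * K) * m ≤ γ * m := by gcongr
  have h3 : γ * m ≤ γ * n := by gcongr
  nlinarith

theorem num11 {K m n x y C ε n₃ : ℝ} (hK : 3 ≤ K) (hm : 1 ≤ m) (hn : n = K * m + 1)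
    (hε : ε ≤ 1 / 4) (hC : 0 ≤ C) (h1 : 16 * K * x ≤ n)
    (hy : n - x - ε * n ≤ y) (b4 : 8 * (n₃ + K * C + 1) ≤ m) : n₃ ≤ y := by
  have h0 : 0 ≤ n := by rw [hn]; nlinarith
  have h2 : x ≤ n / 48 := by nlinarith
  have h3 : ε * n ≤ n / 4 := by nlinarith
  have h4 : (0 : ℝ) ≤ K * C := by positivity
  nlinarith

theorem num12 {ε η m n : ℝ} (hη : ε ≤ η) (hm : 1 ≤ m) (hmn : m ≤ n) (h0 : 0 < ε) :
    ε * m ≤ η * n := by
  have : 0 < η := lt_of_lt_of_le h0 hη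
  calc ε * m ≤ η * m := by gcongr
    _ ≤ η * n := by gcongr

theorem num13 {C c ε : ℝ} (hc0 : 0 ≤ c) (hc : 3 * C ≤ ε * c) (hε : ε ≤ 1 / 4) :
    2 * C ≤ c := by nlinarith

theorem num14 {K C c ε : ℝ} (hK : 3 ≤ K) (hC : 0 ≤ C) (hc : 3 * C ≤ ε * c) :
    (1 - ε) * ((K + 1) * c) ≤ (K + 1) * (c - 2 * C) - C := by
  have h1 : (K + 1) * (3 * C) ≤ (K + 1) * (ε * c) := by gcongr
  nlinarith

theorem num15 {ε n y : ℝ} (hy : y ≤ n) (hε : 0 < ε) (h0 : 0 ≤ y) :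
    y - 2 * ε * n ≤ (1 - ε) * ((1 - ε) * y) := by
  have h4 : ε * y ≤ ε * n := by gcongr
  nlinarith [mul_nonneg (mul_nonneg hε.le hε.le) h0]

theorem num16 {K m x n C ε : ℝ} (hK : 3 ≤ K) (hε : 0 < ε) (hn : 0 ≤ n)
    (h : K * (m - x) ≤ 3 * ε * n + K * C) : m - x ≤ ε * n + C := by
  have h6 : 0 ≤ ε * n := by positivity
  by_contra hcon
  push Not at hcon
  have h7 : K * (ε * n + C) < K * (m - x) := mul_lt_mul_of_pos_left hcon (by linarith)
  nlinarith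

theorem num17 {β ρ n t : ℝ} (hβ : 0 < β) (h : ρ * n < t + 1) : β * (ρ * n) - β ≤ β * t := by
  nlinarith

theorem main_enc (K : ℕ) (hK : 3 ≤ K) (Δ : ℕ) (hΔ : 1 ≤ Δ) (γ : ℝ) (hγ : 0 < γ) :
    ∃ m₀ : ℕ, ∀ m, m₀ ≤ m → ∀ (V : Type) [Fintype V] [DecidableEq V] (G : Finset (Finset V)),
      Unif K G → Fintype.card V = K * m + 1 → PD K G Finset.univ (1 / 2 + γ) →
      ∀ par : ℕ → ℕ, Tree K m Δ par → ∀ v : V, ∃ ψ : ℕ → V, Emb G K par (Finset.range m) v ψ := by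
  classical
  have hK1 : 1 ≤ K := by omega
  have hKr : (3 : ℝ) ≤ K := by exact_mod_cast hK
  have hΔr : (1 : ℝ) ≤ Δ := by exact_mod_cast hΔ
  obtain ⟨β, hβ, ρ₀, hρ₀, habs⟩ := absorbers K hK γ hγ
  -- constants
  set ε₀ : ℝ := min (1 / (256 * K)) (γ / (32 * K)) with hε₀
  have hε₀p : 0 < ε₀ := by rw [hε₀]; positivity
  have hε₀1 : ε₀ * (256 * K) ≤ 1 := by
    have : ε₀ ≤ 1 / (256 * K) := min_le_left _ _
    rwa [le_div_iff₀ (by positivity)] at this
  have hε₀2 : ε₀ * (32 * K) ≤ γ := by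
    have : ε₀ ≤ γ / (32 * K) := min_le_right _ _
    rwa [le_div_iff₀ (by positivity)] at this
  set ρ : ℝ := min ρ₀ (ε₀ / (32 * K ^ 3 * Δ)) with hρ
  have hρp : 0 < ρ := by rw [hρ]; positivity
  have hρ1 : ρ * (32 * K ^ 3 * Δ) ≤ ε₀ := by
    have : ρ ≤ ε₀ / (32 * K ^ 3 * Δ) := min_le_right _ _
    rwa [le_div_iff₀ (by positivity)] at this
  obtain ⟨n₁, habs⟩ := habs ρ hρp (min_le_left _ _)
  set ε : ℝ := min (min (β * ρ / 16) (γ / 32)) (1 / 4) with hε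
  have hεp : 0 < ε := by rw [hε]; positivity
  have hε1 : ε ≤ β * ρ / 16 := (min_le_left _ _).trans (min_le_left _ _)
  have hε2 : ε ≤ γ / 32 := (min_le_left _ _).trans (min_le_right _ _)
  have hε3 : ε ≤ 1 / 4 := min_le_right _ _
  obtain ⟨ηr, hηr, n₂, hres⟩ := reserve K hK ε hεp
  set η : ℝ := min ηr (ε₀ / 10) with hη
  have hηp : 0 < η := by rw [hη]; positivity
  have hη1 : η ≤ ηr := min_le_left _ _
  have hη2 : η ≤ ε₀ / 10 := min_le_right _ _
  obtain ⟨C, m₁, htree⟩ := treestruct K hK Δ η hηp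
  obtain ⟨c, hc1, hc⟩ : ∃ c : ℕ, 1 ≤ c ∧ 3 * (C : ℝ) ≤ ε * c := by
    obtain ⟨c, hc⟩ := exists_nat_ge (3 * (C : ℝ) / ε)
    refine ⟨c + 1, by omega, ?_⟩
    rw [div_le_iff₀ hεp] at hc
    push_cast
    nlinarith
  obtain ⟨n₃, htile⟩ := tiling K hK (γ / 2) (by positivity) ε hεp c hc1
  obtain ⟨n₄, hext⟩ := ext_big K hK
  -- a large real number bounding all requirements
  obtain ⟨m₂, hm₂⟩ := exists_nat_ge ((16 * K * (K * C + 1) + 8 * Δ / ε₀ + 64 * (K * C + 1) / γ +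
    4 * (n₃ + K * C + 1) + 4 * (C + β) / (β * ρ) + 32 * K) * 2 : ℝ)
  refine ⟨m₁ + n₁ + n₂ + n₄ + m₂ + 1, ?_⟩
  intro m hm V _ _ G hG hV hPD par hT v
  have hmpos : 1 ≤ m := by omega
  set n : ℝ := (Fintype.card V : ℝ) with hn
  have hnV : n = K * m + 1 := by rw [hn, hV]; push_cast; ring
  have hmr : (1 : ℝ) ≤ m := by exact_mod_cast hmpos
  have hmn : (m : ℝ) ≤ n := by rw [hnV]; exact num1 hKr hmr
  have hcardge : m ≤ Fintype.card V := by
    have h : (m : ℝ) ≤ (Fintype.card V : ℝ) := hmn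
    exact_mod_cast h
  have hbig : (16 * K * (K * C + 1) + 8 * Δ / ε₀ + 64 * (K * C + 1) / γ +
    4 * (n₃ + K * C + 1) + 4 * (C + β) / (β * ρ) + 32 * K) * 2 ≤ (m : ℝ) := by
    refine hm₂.trans ?_
    exact_mod_cast (by omega : m₂ ≤ m)
  have hCr : (0 : ℝ) ≤ C := Nat.cast_nonneg _
  have hn3r : (0 : ℝ) ≤ n₃ := Nat.cast_nonneg _
  have p1 : 0 ≤ 16 * (K : ℝ) * (K * C + 1) := by positivity
  have p2 : 0 ≤ 8 * (Δ : ℝ) / ε₀ := by positivity
  have p3 : 0 ≤ 64 * ((K : ℝ) * C + 1) / γ := by positivity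
  have p4 : 0 ≤ 4 * ((n₃ : ℝ) + K * C + 1) := by positivity
  have p5 : 0 ≤ 4 * ((C : ℝ) + β) / (β * ρ) := by positivity
  have p6 : 0 ≤ 32 * (K : ℝ) := by positivity
  have b1 : 2 * (16 * (K : ℝ) * (K * C + 1)) ≤ m := by linarith
  have b2 : 16 * (Δ : ℝ) ≤ ε₀ * m := by
    have : 2 * (8 * (Δ : ℝ) / ε₀) ≤ m := by linarith
    rw [← mul_div_assoc, div_le_iff₀ hε₀p] at this
    linarith
  have b3 : 128 * ((K : ℝ) * C + 1) ≤ γ * m := by
    have : 2 * (64 * ((K : ℝ) * C + 1) / γ) ≤ m := by linarith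
    rw [← mul_div_assoc, div_le_iff₀ hγ] at this
    linarith
  have b4 : 8 * ((n₃ : ℝ) + K * C + 1) ≤ m := by linarith
  have b5 : 8 * ((C : ℝ) + β) ≤ β * ρ * m := by
    have : 2 * (4 * ((C : ℝ) + β) / (β * ρ)) ≤ m := by linarith
    rw [← mul_div_assoc, div_le_iff₀ (by positivity)] at this
    linarith
  have b6 : 64 * (K : ℝ) ≤ m := by linarith
  -- the groups
  obtain ⟨t, ht⟩ : ∃ t : ℕ, t = ⌊ρ * (Fintype.card V : ℝ)⌋₊ := ⟨_, rfl⟩
  obtain ⟨F, hFok, hFv, hFd, hFabs⟩ := habs V G hG (by omega) hPD v t ht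
  have htn : (t : ℝ) ≤ ρ * n := by rw [ht]; exact Nat.floor_le (by positivity)
  have htn' : ρ * n < t + 1 := by rw [ht]; exact Nat.lt_floor_add_one _
  -- the tree
  obtain ⟨Tp, br, col, hTp0, hTpm, ⟨Yend, hYend⟩, hTpr, hTpc, hTps, hatt, hopen, hbr, hcol,
    htype⟩ := htree m (by omega) par hT
  obtain ⟨y₀, hy₀, hy₀'⟩ := exists_level (fun y => (Tp y).card) C hTps (ε₀ * m) (by
    rw [hTp0]; simp; positivity) Yend (by
    show ε₀ * m ≤ ((Tp Yend).card : ℝ)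
    rw [hYend, Finset.card_range]
    exact num2 hKr hmr hε₀1 hε₀p)
  set T0 := Tp y₀ with hT0
  have hT0n : (K : ℝ) * T0.card + 1 ≤ K * (ε₀ * m) + (K * C + 1) := num3 hKr hy₀'
  -- designated edges
  have htK : (K : ℝ) ^ 2 * Δ * t * 16 ≤ ε₀ * m := by
    have h1 : (t : ℝ) ≤ ρ * (2 * K * m) := htn.trans (by
      apply mul_le_mul_of_nonneg_left _ hρp.le
      rw [hnV]; exact num4 hKr hmr)
    have h2 : (K : ℝ) ^ 2 * Δ * t * 16 ≤ (K : ℝ) ^ 2 * Δ * (ρ * (2 * K * m)) * 16 := by gcongr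
    have h3 : (K : ℝ) ^ 2 * Δ * (ρ * (2 * K * m)) * 16 = ρ * (32 * K ^ 3 * Δ) * m := by ring
    rw [h3] at h2
    exact h2.trans (mul_le_mul_of_nonneg_right hρ1 (by positivity))
  obtain ⟨D, hDA, hDc, hD1, hD2, hD3⟩ := designated hK hΔ hT (A := T0) (hTpr y₀) (hTpc y₀) (by
    have h1 := hatt y₀
    have h2 : (10 : ℝ) * (((vs K (Tp y₀)).filter
        (fun x => ∃ j ∈ Finset.range m, j ∉ Tp y₀ ∧ par j = x)).card : ℝ) ≤ (T0.card : ℝ) := by
      have : η * m ≤ ε₀ / 10 * m := mul_le_mul_of_nonneg_right hη2 (by positivity)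
      linarith
    exact_mod_cast h2) (s := K * t) (by
    have h1 : 8 * (K : ℝ) * Δ * (K * t) + 4 * Δ ≤ (T0.card : ℝ) := num5 hΔr htK b2 hy₀
    exact_mod_cast h1)
  -- embedding of T0
  have htKK : (t : ℝ) * (K + K * K) ≤ ε₀ * m := by
    have h1 : (t : ℝ) * (K + K * K) ≤ K ^ 2 * Δ * t * 16 := by
      have h2 : (K : ℝ) + K * K ≤ 2 * K ^ 2 := num6 hKr
      have h3 : (0 : ℝ) ≤ t := Nat.cast_nonneg _
      calc (t : ℝ) * (K + K * K) ≤ t * (2 * K ^ 2) := by gcongr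
        _ ≤ t * (2 * K ^ 2) * (8 * Δ) := le_mul_of_one_le_right (by positivity) (by linarith)
        _ = K ^ 2 * Δ * t * 16 := by ring
    linarith
  set X₀ : Finset V := insert v (Finset.univ.biUnion (fun l => gsupp (F l))) with hX₀
  have hX₀c : (X₀.card : ℝ) ≤ ε₀ * m + 1 := by
    have h1 : X₀.card ≤ t * (K + K * K) + 1 := by
      rw [hX₀]
      refine (Finset.card_insert_le _ _).trans (Nat.add_le_add_right ?_ 1)
      refine Finset.card_biUnion_le.trans ?_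
      rw [Finset.sum_congr rfl (fun l _ => (hFok l).2)]
      simp
    have h2 : (X₀.card : ℝ) ≤ t * (K + K * K) + 1 := by exact_mod_cast h1
    linarith
  obtain ⟨ψ, jj, q, hemb, hgrp⟩ := embT0 hK hG hT (A := T0) (hTpr y₀) (hTpc y₀) hDA hDc hD1 hD2 hD3
    (v := v) hFok hFv hFd (M := n / (16 * K)) (by
      rw [le_div_iff₀ (by positivity), hnV]
      exact num7 hKr hmr hε₀1 hy₀' b1) (hext V G hG (by omega) (hPD.mono (by linarith)) X₀ (by
      have h1 : 16 * (K : ℝ) * X₀.card ≤ n := by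
        rw [hnV]; exact num8 hKr hmr hε₀1 hX₀c b6
      have h3 : 16 * (K : ℝ) * X₀.card ≤ (Fintype.card V : ℝ) := h1
      exact_mod_cast h3))
  -- reserve
  set X₁ : Finset V := (vs K T0).image ψ with hX₁
  have hX₁c : (X₁.card : ℝ) ≤ K * (ε₀ * m) + (K * C + 1) := by
    have h1 : X₁.card ≤ K * T0.card + 1 := by
      rw [← vs_card]; exact Finset.card_image_le
    have h2 : (X₁.card : ℝ) ≤ K * T0.card + 1 := by exact_mod_cast h1
    linarith
  have hX₁n : 16 * (K : ℝ) * X₁.card ≤ n := by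
    rw [hnV]; exact num9 hKr hmr hε₀1 hX₁c b1
  obtain ⟨Ur, hUrd, hUrc, hUre⟩ := hres V G hG (by omega) (hPD.mono (by linarith)) X₁ (by
    have h3 : 16 * (K : ℝ) * X₁.card ≤ (Fintype.card V : ℝ) := hX₁n
    exact_mod_cast h3)
  -- tiling
  set U₂ : Finset V := Finset.univ \ (X₁ ∪ Ur) with hU₂
  have hU₂s : Finset.univ \ U₂ = X₁ ∪ Ur := by
    rw [hU₂, Finset.sdiff_sdiff_self_left, Finset.univ_inter]
  have hX₁γ : (X₁.card : ℝ) ≤ γ / 16 * n := num10 hmr hmn hγ hε₀2 hX₁c b3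
  have hcomp : ((X₁ ∪ Ur).card : ℝ) ≤ γ / 16 * n + γ / 32 * n := by
    have h1 : ((X₁ ∪ Ur).card : ℝ) ≤ X₁.card + Ur.card := by
      exact_mod_cast Finset.card_union_le _ _
    have h2 : ε * n ≤ γ / 32 * n := mul_le_mul_of_nonneg_right hε2 (by positivity)
    have h3 : (Ur.card : ℝ) ≤ ε * n := hUrc
    linarith
  have hPD2 : PD K G U₂ (1 / 2 + γ / 2) := by
    have h1 : PD K G U₂ (1 / 2 + γ - γ / 2) := hPD.restrict (by linarith) (by
      rw [hU₂s]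
      have : (0 : ℝ) ≤ γ * n := by positivity
      linarith)
    exact h1.mono (by linarith)
  have hU₂c : (U₂.card : ℝ) = n - (X₁ ∪ Ur).card := by
    have h1 := Finset.card_sdiff_add_card_eq_card (Finset.subset_univ (X₁ ∪ Ur))
    rw [← hU₂, Finset.card_univ] at h1
    have h2 : (U₂.card : ℝ) + (X₁ ∪ Ur).card = n := by
      rw [hn]; exact_mod_cast h1
    linarith
  have hU₂n : n - X₁.card - ε * n ≤ U₂.card := by
    have h1 : ((X₁ ∪ Ur).card : ℝ) ≤ X₁.card + Ur.card := by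
      exact_mod_cast Finset.card_union_le _ _
    have h3 : (Ur.card : ℝ) ≤ ε * n := hUrc
    rw [hU₂c]
    linarith
  obtain ⟨M, B, hB, hBcov⟩ := htile V G U₂ hG (by
    have h1 : (n₃ : ℝ) ≤ U₂.card := num11 hKr hmr hnV hε3 hCr hX₁n hU₂n b4
    exact_mod_cast h1) hPD2
  -- choice of T1
  set cap : ℕ := M * ((K + 1) * (c - 2 * C) - C) with hcap
  set f : ℕ → ℕ := fun y => ((vs K (Tp y) \ vs K T0).filter (fun z => br z ≠ 0)).card with hf
  have hfs : ∀ y, f (y + 1) ≤ f y + K * C := by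
    intro y
    have h1 : (vs K (Tp (y + 1)) \ vs K T0).filter (fun z => br z ≠ 0) ⊆
        ((vs K (Tp y) \ vs K T0).filter (fun z => br z ≠ 0)) ∪
          (vs K (Tp (y + 1)) \ vs K (Tp y)) := by
      intro z hz
      simp only [Finset.mem_filter, Finset.mem_sdiff, Finset.mem_union] at hz ⊢
      tauto
    have h2 := (Finset.card_le_card h1).trans (Finset.card_union_le _ _)
    have h3 : (vs K (Tp (y + 1)) \ vs K (Tp y)).card = (vs K (Tp (y + 1))).card -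
        (vs K (Tp y)).card := Finset.card_sdiff_of_subset (vs_mono (hTpm (Nat.le_succ y)))
    rw [h3, vs_card, vs_card] at h2
    have h4 := hTps y
    have h5 : K * (Tp (y + 1)).card ≤ K * ((Tp y).card + C) := Nat.mul_le_mul_left _ h4
    rw [Nat.mul_add] at h5
    show ((vs K (Tp (y + 1)) \ vs K T0).filter (fun z => br z ≠ 0)).card ≤
      ((vs K (Tp y) \ vs K T0).filter (fun z => br z ≠ 0)).card + K * C
    omega
  obtain ⟨y₁, hy01, hfcap, hy₁⟩ := exists_last_level f (K * C) cap y₀ (max y₀ Yend) hfs (by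
    show ((vs K (Tp y₀) \ vs K T0).filter (fun z => br z ≠ 0)).card ≤ cap
    rw [← hT0, Finset.sdiff_self]
    simp) (le_max_left _ _)
  set T1 := Tp y₁ with hT1
  have hT01 : T0 ⊆ T1 := hTpm hy01
  obtain ⟨ψ₁, hψ₁, hψ₁'⟩ := embT1 hK hG hT (T0 := T0) (T1 := T1) (hTpr y₁) (hTpc y₀) (hTpc y₁)
    hemb (Ur := Ur) (U₂ := U₂) (fun y hy h => (Finset.disjoint_left.1 hUrd) h
      (Finset.mem_image_of_mem _ hy)) (by
      rw [hU₂, Finset.disjoint_left]
      intro x hx hx'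
      exact (Finset.mem_sdiff.1 hx).2 (Finset.mem_union_right _ hx')) (fun y hy h => by
      rw [hU₂] at h
      exact (Finset.mem_sdiff.1 h).2 (Finset.mem_union_left _ (Finset.mem_image_of_mem _ hy)))
    hB hbr hcol (fun j hj => (htype j hj).imp id (fun ⟨b, h1, h2, h3⟩ => ⟨b, h1, h2, h3 y₀⟩))
    hfcap (M' := ηr * n) (hopen.trans (num12 hη1 hmr hmn hηp)) hUre
  have hgrp₁ : GrpEmb m par T1 F jj q ψ₁ := hgrp.ext hK1 hT01 (hTpc y₀) hψ₁'
  refine absorb_all hK hG hT hV (A := T1) (hTpr y₁) (hTpc y₁) hψ₁ hFok hFd hgrp₁ ?_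
  intro z u
  rcases hy₁ with hy₁ | hy₁
  · have h1 : Finset.range m ⊆ T1 := by
      rw [← hYend]
      exact hTpm ((le_max_right _ _).trans hy₁)
    have h2 := Finset.card_le_card h1
    rw [Finset.card_range] at h2
    omega
  · -- count
    have hTc : (K : ℝ) * T0.card + 1 + f y₁ ≤ K * T1.card + 1 := by
      have h1 : (vs K T0).card + f y₁ ≤ (vs K T1).card := by
        have h2 : (vs K T1 \ vs K T0).card = (vs K T1).card - (vs K T0).card :=
          Finset.card_sdiff_of_subset (vs_mono hT01)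
        have h3 : f y₁ ≤ (vs K T1 \ vs K T0).card := Finset.card_le_card (Finset.filter_subset _ _)
        have h4 := Finset.card_le_card (vs_mono (K := K) hT01)
        omega
      rw [vs_card, vs_card] at h1
      exact_mod_cast h1
    have hcapr : (1 - ε) * (M * ((K : ℝ) + 1) * c) ≤ cap := by
      have h1 : (((K + 1) * (c - 2 * C) - C : ℕ) : ℝ) ≥ (1 - ε) * (((K : ℝ) + 1) * c) := by
        have h2 : 2 * C ≤ c := by
          have : 2 * (C : ℝ) ≤ c := num13 (Nat.cast_nonneg c) hc hε3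
          exact_mod_cast this
        have h3 : (((K + 1) * (c - 2 * C) - C : ℕ) : ℝ) ≥ ((K : ℝ) + 1) * (c - 2 * C) - C := by
          have h4 : (((K + 1) * (c - 2 * C) : ℕ) : ℝ) = ((K : ℝ) + 1) * (c - 2 * C) := by
            push_cast [Nat.cast_sub h2]; ring
          have h5 : (K + 1) * (c - 2 * C) ≤ ((K + 1) * (c - 2 * C) - C) + C := by omega
          have h6 : (((K + 1) * (c - 2 * C) : ℕ) : ℝ) ≤
            (((K + 1) * (c - 2 * C) - C : ℕ) : ℝ) + C := by exact_mod_cast h5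
          rw [h4] at h6
          linarith
        have h8 := num14 hKr hCr hc
        linarith
      rw [hcap]
      push_cast
      have h7 : (0 : ℝ) ≤ M := Nat.cast_nonneg _
      calc (1 - ε) * (M * ((K : ℝ) + 1) * c) = M * ((1 - ε) * (((K : ℝ) + 1) * c)) := by ring
        _ ≤ _ := by
          refine mul_le_mul_of_nonneg_left ?_ h7
          exact_mod_cast h1
    have hfy : (cap : ℝ) ≤ f y₁ + K * C := by exact_mod_cast hy₁
    have hX₁T : (X₁.card : ℝ) ≤ K * T0.card + 1 := by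
      have h1 : X₁.card ≤ K * T0.card + 1 := by
        rw [← vs_card]; exact Finset.card_image_le
      exact_mod_cast h1
    have h1 : (1 - ε) * ((1 - ε) * U₂.card) ≤ cap := by
      refine le_trans ?_ hcapr
      exact mul_le_mul_of_nonneg_left hBcov (by linarith)
    have hU₂le : (U₂.card : ℝ) ≤ n := by
      rw [hU₂c]
      have : (0 : ℝ) ≤ ((X₁ ∪ Ur).card : ℝ) := Nat.cast_nonneg _
      linarith
    have h2 : (U₂.card : ℝ) - 2 * ε * n ≤ (1 - ε) * ((1 - ε) * U₂.card) :=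
      num15 hU₂le hεp (Nat.cast_nonneg _)
    have h3 : n - 3 * ε * n - K * C ≤ K * T1.card + 1 := by linarith
    have h4 : (K : ℝ) * (m - T1.card) ≤ 3 * ε * n + K * C := by
      rw [hnV] at h3 ⊢
      linarith
    have h5 : ((m : ℝ) - T1.card) ≤ ε * n + C := num16 hKr hεp (by positivity) h4
    have h6 := hFabs z u
    have h7 : β * (ρ * n) - β ≤ β * t := num17 hβ htn'
    have h8 : ε * n ≤ β * ρ / 16 * n := mul_le_mul_of_nonneg_right hε1 (by positivity)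
    have h9 : β * ρ * m ≤ β * ρ * n := mul_le_mul_of_nonneg_left hmn (by positivity)
    have h10 : (m : ℝ) ≤ T1.card +
        ((Finset.univ.filter (fun l => Absb K G (F l) z u)).card : ℝ) := by
      have h11 : (0 : ℝ) ≤ β * ρ * n := by positivity
      linarith
    exact_mod_cast h10

end Pool.Agent.helper21.RL
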